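import Mathlib

set_option autoImplicit false

open MeasureTheory Set Filter Topology

namespace Pool.LightB

variable {n : ℕ}

/-- `n` convex bodies given by their support functions `H i` (as functions of the angle of the
outer normal), with radius of curvature `rh i = H + H'' > 0`; `H1 = H'`, `rh1 = rh'`.
Body `i` is `{x | ∀ φ, x · v(φ) ≤ H i φ}`, `v(φ) = (cos φ, sin φ)`, its boundary point with outer
normal `v(φ)` is `H v(φ) + H1 n(φ)`, `n(φ) = (-sin φ, cos φ)`.
`om i k` is a direction separating body `i` from body `k` with a gap `tau`.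
`R1` bounds the radii of curvature, `K` is a large constant. -/
structure Cfg (n : ℕ) where
  H : Fin n → ℝ → ℝ
  H1 : Fin n → ℝ → ℝ
  rh : Fin n → ℝ → ℝ
  rh1 : Fin n → ℝ → ℝ
  om : Fin n → Fin n → ℝ
  tau : ℝ
  R0 : ℝ
  R1 : ℝ
  K : ℝ
  h0 : ∀ i φ, HasDerivAt (H i) (H1 i φ) φ
  h1 : ∀ i φ, HasDerivAt (H1 i) (rh i φ - H i φ) φ
  h2 : ∀ i φ, HasDerivAt (rh i) (rh1 i φ) φ
  h3 : ∀ i, Continuous (rh1 i)
  hp : ∀ i φ, H i (φ + 2 * Real.pi) = H i φ
  hp1 : ∀ i φ, H1 i (φ + 2 * Real.pi) = H1 i φ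
  hpr : ∀ i φ, rh i (φ + 2 * Real.pi) = rh i φ
  hpr1 : ∀ i φ, rh1 i (φ + 2 * Real.pi) = rh1 i φ
  htau : 0 < tau
  hR0 : 0 < R0
  hR : ∀ i φ, R0 ≤ rh i φ ∧ rh i φ ≤ R1
  hR1 : 0 < R1
  hsep : ∀ i k, i ≠ k → H i (om i k) + H k (om i k + Real.pi) + tau ≤ 0
  hom : ∀ i k, i ≠ k → ∃ m : ℤ, om k i = om i k + Real.pi + 2 * Real.pi * m
  hK : ∀ i φ, |H i φ| + |H1 i φ| + |rh1 i φ| + R1 + tau ≤ K
  hK0 : 0 < K

/-- A state: body index `i`, direction angle `θ`, and `b`: the oriented line
`{b n(θ) + s v(θ)}`; it stands for the ray on this line leaving body `i`. -/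
abbrev St (n : ℕ) := Fin n × ℝ × ℝ

namespace Cfg

variable (C : Cfg n)

/-- lines of direction `θ` meeting the interior of body `i` are those with `lo < b < hi` -/
noncomputable def lo (i : Fin n) (θ : ℝ) : ℝ := -C.H i (θ - Real.pi / 2)

noncomputable def hi (i : Fin n) (θ : ℝ) : ℝ := C.H i (θ + Real.pi / 2)

/-- the region of lines meeting the interior of body `i` -/
def U (i : Fin n) : Set (ℝ × ℝ) := {p | C.lo i p.1 < p.2 ∧ p.2 < C.hi i p.1}

/-- offset `b` of the line of direction `θ` through the boundary point with normal `v(θ+a)` -/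
noncomputable def FF (i : Fin n) (θ a : ℝ) : ℝ :=
  C.H i (θ + a) * Real.sin a + C.H1 i (θ + a) * Real.cos a

open Classical in
/-- the exit angle: the line `(θ,b)` leaves body `i` at the boundary point with normal `v(θ+a)`,
`a = asn i θ b ∈ [-π/2, π/2]` -/
noncomputable def asn (i : Fin n) (θ b : ℝ) : ℝ :=
  if h : ∃ a ∈ Icc (-(Real.pi / 2)) (Real.pi / 2), C.FF i θ a = b then h.choose else 0

/-- `c = rh(φ) cos a` at the exit point -/
noncomputable def cc (i : Fin n) (θ b : ℝ) : ℝ :=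
  C.rh i (θ + C.asn i θ b) * Real.cos (C.asn i θ b)

/-- parameter `s` (along `b n(θ) + s v(θ)`) of the exit point from body `i` -/
noncomputable def sp (i : Fin n) (θ b : ℝ) : ℝ :=
  C.H i (θ + C.asn i θ b) * Real.cos (C.asn i θ b) -
    C.H1 i (θ + C.asn i θ b) * Real.sin (C.asn i θ b)

/-- parameter of the entry point into body `i` -/
noncomputable def sm (i : Fin n) (θ b : ℝ) : ℝ := -C.sp i (θ + Real.pi) (-b)

/-- body `k` is in front of body `i` on lines of direction `θ` meeting both iff `0 < dv i k θ` -/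
noncomputable def dv (i k : Fin n) (θ : ℝ) : ℝ := Real.cos (θ - C.om i k)

/-- the line touches the closed body `k` -/
def Tch (k : Fin n) (θ b : ℝ) : Prop := C.lo k θ ≤ b ∧ b ≤ C.hi k θ

/-- the ray leaving body `i` on the line `(θ,b)` hits body `j` first, transversally, and touches
no other closed body before. -/
def Hits (i j : Fin n) (θ b : ℝ) : Prop :=
  i ≠ j ∧ 0 < C.dv i j θ ∧ (θ, b) ∈ C.U j ∧
    ∀ k, k ≠ i → k ≠ j → 0 < C.dv i k θ → C.Tch k θ b → 0 < C.dv j k θ

/-- phase space -/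
def M : Set (St n) := {l | l.2 ∈ C.U l.1}

open Classical in
/-- time reversal on body `i`: the reversed line before the reflection (identity on lines which
do not touch the closed body) -/
noncomputable def rr (i : Fin n) (p : ℝ × ℝ) : ℝ × ℝ :=
  if C.Tch i p.1 p.2 then
    (p.1 + 2 * C.asn i p.1 p.2,
      -p.2 + 2 * C.H1 i (p.1 + C.asn i p.1 p.2) * Real.cos (C.asn i p.1 p.2))
  else p

/-- time reversal -/
noncomputable def rho (l : St n) : St n := (l.1, C.rr l.1 l.2)

/-- line after reflection from body `j` -/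
noncomputable def Tj (j : Fin n) (p : ℝ × ℝ) : ℝ × ℝ := C.rr j (p.1 + Real.pi, -p.2)

open Classical in
/-- the first hit map (identity if nothing is hit properly) -/
noncomputable def T (l : St n) : St n :=
  if h : ∃ j, C.Hits l.1 j l.2.1 l.2.2 then (h.choose, C.Tj h.choose l.2) else l

/-- states with at least `m` proper reflections to come -/
def Om : ℕ → Set (St n)
  | 0 => C.M
  | (m + 1) => {l | l ∈ C.M ∧ (∃ j, C.Hits l.1 j l.2.1 l.2.2) ∧ C.T l ∈ Om m}

/-- trapped states -/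
def Trap : Set (St n) := {l | ∀ m, l ∈ C.Om m}

/-- states whose forward line is tangent to some body in front (possibly a hidden one) -/
def S1 : Set (St n) :=
  {l | l ∈ C.M ∧ ∃ k, k ≠ l.1 ∧ 0 < C.dv l.1 k l.2.1 ∧
    (l.2.2 = C.lo k l.2.1 ∨ l.2.2 = C.hi k l.2.1)}

/-- escaping states: the forward ray touches no closed body -/
def E0 : Set (St n) :=
  {l | l ∈ C.M ∧ ∀ k, k ≠ l.1 → 0 < C.dv l.1 k l.2.1 → ¬ C.Tch k l.2.1 l.2.2}

/-- states that reach `S1` after finitely many proper reflections -/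
def SS : Set (St n) := {l | ∃ m, l ∈ C.Om m ∧ (C.T^[m]) l ∈ C.S1}

/-- shift of the angle by `2π m`, `m : ℤ` -/
noncomputable def sh (m : ℤ) (l : St n) : St n := (l.1, l.2.1 + 2 * Real.pi * m, l.2.2)

/-- the inverse of `T^[m]`, where defined -/
noncomputable def inv (m : ℕ) (l : St n) : St n :=
  sh (-(m : ℤ)) (C.rho ((C.T^[m]) (C.rho l)))

/-- `g(f,c) = c f / (c + 2 f)` -/
noncomputable def gf (f c : ℝ) : ℝ := c * f / (c + 2 * f)

open Classical in
/-- the `N`-th approximation to the slope field of stable curves (a stable curve has the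
direction `(1, -σ)`) -/
noncomputable def sig : ℕ → St n → ℝ
  | 0 => fun _ => C.K
  | (m + 1) => fun l =>
      if ∃ j, C.Hits l.1 j l.2.1 l.2.2 then
        C.sm (C.T l).1 l.2.1 l.2.2 +
          gf (sig m (C.T l) - C.sp (C.T l).1 (C.T l).2.1 (C.T l).2.2)
            (C.cc (C.T l).1 (C.T l).2.1 (C.T l).2.2)
      else C.K

/-- contraction constant -/
noncomputable def lam : ℝ := C.R1 / (C.R1 + 2 * C.tau)

/-- the measure `dθ db` on all states -/
noncomputable def vol (n : ℕ) : Measure (St n) := (Measure.count : Measure (Fin n)).prod volume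

open Classical in
/-- indicator of `Om N` as a real function -/
noncomputable def ZN (N : ℕ) (l : St n) : ℝ := if l ∈ C.Om N then 1 else 0

open Classical in
/-- indicator of the trapped set -/
noncomputable def Z (l : St n) : ℝ := if l ∈ C.Trap then 1 else 0

/-- limit slope field -/
noncomputable def sigInf (l : St n) : ℝ := Filter.limsup (fun N => C.sig N l) atTop

/-- the slope field of the time reversed system -/
noncomputable def sigU (l : St n) : ℝ :=
  C.sp l.1 l.2.1 l.2.2 -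
    gf (C.sigInf (C.rho l) - C.sp l.1 (C.rho l).2.1 (C.rho l).2.2) (C.cc l.1 l.2.1 l.2.2)

/-- smooth cutoff: `0` for `|u| ≤ 1/2`, `1` for `|u| ≥ 1` -/
noncomputable def Qf (u : ℝ) : ℝ := Real.smoothTransition (4 * u ^ 2 - 1)

open Classical in
/-- cutoff near lines tangent to a body in front -/
noncomputable def kap (ε : ℝ) (l : St n) : ℝ :=
  ∏ k, if k ≠ l.1 ∧ 0 < C.dv l.1 k l.2.1 then
    Qf ((l.2.2 - C.hi k l.2.1) / ε) * Qf ((l.2.2 - C.lo k l.2.1) / ε) else 1

open Classical in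
/-- smooth approximation of the indicator of `Om N` -/
noncomputable def cut (ε : ℝ) : ℕ → St n → ℝ
  | 0 => fun _ => 1
  | (m + 1) => fun l =>
      if ∃ j, C.Hits l.1 j l.2.1 l.2.2 then kap C ε l * cut ε m (C.T l) else 0

/-- states almost tangent to a body in front -/
def Strip (ε : ℝ) : Set (St n) :=
  {l | l ∈ C.M ∧ ∃ k, k ≠ l.1 ∧ 0 < C.dv l.1 k l.2.1 ∧
    (|l.2.2 - C.hi k l.2.1| < ε ∨ |l.2.2 - C.lo k l.2.1| < ε)}

/-- weight: `c/(c+2f)` or `1` -/
noncomputable def gw (e : Bool) (f c : ℝ) : ℝ := if e then c / (c + 2 * f) else 1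

open Classical in
/-- the state on body `i` in direction `θ` whose line is tangent to body `k`
(`s = true`: `b = hi k θ`, `s = false`: `b = lo k θ`) -/
noncomputable def tang (i k : Fin n) (s : Bool) (θ : ℝ) : St n :=
  (i, θ, if s then C.hi k θ else C.lo k θ)

/-- parameters of tangent states which can be traced back `m` steps -/
def nuSet (m : ℕ) (i k : Fin n) (s : Bool) : Set ℝ :=
  {θ | k ≠ i ∧ 0 < C.dv i k θ ∧ C.tang i k s θ ∈ C.M ∧ C.rho (C.tang i k s θ) ∈ C.Om m}

/-- `dθ` on the tangent curves pulled back by `T^m` -/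
noncomputable def num (m : ℕ) : Measure (St n) :=
  ∑ i, ∑ k, (Measure.map (fun θ => C.inv m (C.tang i k true θ))
      (volume.restrict (C.nuSet m i k true)) +
    Measure.map (fun θ => C.inv m (C.tang i k false θ))
      (volume.restrict (C.nuSet m i k false)))

/-- `∑_m A λ^m ν_m` -/
noncomputable def nu (A : ℝ) : Measure (St n) :=
  Measure.sum (fun m : ℕ => ENNReal.ofReal (A * C.lam ^ m) • C.num m)

/-- its part on body `i` -/
noncomputable def nui (A : ℝ) (i : Fin n) : Measure (ℝ × ℝ) :=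
  Measure.comap (fun p : ℝ × ℝ => ((i, p) : St n)) (C.nu A)

/-- `c` at a state -/
noncomputable def cs (l : St n) : ℝ := C.cc l.1 l.2.1 l.2.2

open Classical in
/-- the density `∑_m A λ^m 1_{Om m} (1 + 1/c(T^m l))` -/
noncomputable def Sr (A : ℝ) (l : St n) : ℝ :=
  (∑' m : ℕ, ENNReal.ofReal (A * C.lam ^ m *
    (if l ∈ C.Om m then 1 + 1 / C.cs ((C.T^[m]) l) else 0))).toReal

end Cfg

/-- admissible test functions: `C¹` with compact support inside `U` -/
def TF (U : Set (ℝ × ℝ)) (φ : ℝ × ℝ → ℝ) : Prop :=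
  ContDiff ℝ 1 φ ∧ HasCompactSupport φ ∧ tsupport φ ⊆ U

/-- `Z(θ,·)` is not a.e. constant near `b` -/
def Jump (Z : ℝ × ℝ → ℝ) (θ b : ℝ) : Prop :=
  ¬ ∃ δ > 0, ∃ z : ℝ, ∀ᵐ b' ∂(volume.restrict (Ioo (b - δ) (b + δ))), Z (θ, b') = z

/-- unstable cone in the coordinates `p = dθ`, `β = db + s⁺ dθ` -/
def UC (p β : ℝ) : Prop := β ≠ 0 ∧ 0 ≤ p * β

end Pool.LightB
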