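import Pool.Agent.Helper638.LightB.Defs

set_option autoImplicit false

open MeasureTheory Set Filter Topology

namespace Pool.LightB
variable {n : ℕ}


theorem FFd_rh1 (C : Cfg n) (i : Fin n) : ContDiff ℝ 1 (C.rh i) := by
  rw [contDiff_one_iff_deriv]
  refine ⟨fun x => (C.h2 i x).differentiableAt, ?_⟩
  have : deriv (C.rh i) = C.rh1 i := funext fun x => (C.h2 i x).deriv
  rw [this]
  exact C.h3 i

theorem FFd_H0 (C : Cfg n) (i : Fin n) : Differentiable ℝ (C.H i) :=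
  fun x => (C.h0 i x).differentiableAt

theorem FFd_dH (C : Cfg n) (i : Fin n) : deriv (C.H i) = C.H1 i :=
  funext fun x => (C.h0 i x).deriv

theorem FFd_dH1 (C : Cfg n) (i : Fin n) : deriv (C.H1 i) = fun x => C.rh i x - C.H i x :=
  funext fun x => (C.h1 i x).deriv

theorem FFd_H1a (C : Cfg n) (i : Fin n) : ContDiff ℝ 1 (C.H i) := by
  rw [contDiff_one_iff_deriv]
  refine ⟨FFd_H0 C i, ?_⟩
  rw [FFd_dH]
  exact continuous_iff_continuousAt.2 fun x => (C.h1 i x).continuousAt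

theorem FFd_H12 (C : Cfg n) (i : Fin n) : ContDiff ℝ 2 (C.H1 i) := by
  have h : ContDiff ℝ (1 + 1) (C.H1 i) := by
    rw [contDiff_succ_iff_deriv]
    refine ⟨fun x => (C.h1 i x).differentiableAt, ?_, ?_⟩
    · intro h
      exact absurd h (by decide)
    · rw [FFd_dH1]
      exact (FFd_rh1 C i).sub (FFd_H1a C i)
  have e : (1 + 1 : WithTop ℕ∞) = 2 := by norm_num
  rwa [e] at h

theorem FFd_H3 (C : Cfg n) (i : Fin n) : ContDiff ℝ 3 (C.H i) := by
  have h : ContDiff ℝ (2 + 1) (C.H i) := by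
    rw [contDiff_succ_iff_deriv]
    refine ⟨FFd_H0 C i, ?_, ?_⟩
    · intro h
      exact absurd h (by decide)
    · rw [FFd_dH]
      exact FFd_H12 C i
  have e : (2 + 1 : WithTop ℕ∞) = 3 := by norm_num
  rwa [e] at h

theorem FFd_da (C : Cfg n) (i : Fin n) (θ a : ℝ) :
    HasDerivAt (fun a => C.FF i θ a) (C.rh i (θ + a) * Real.cos a) a := by
  have ha : HasDerivAt (fun a : ℝ => θ + a) 1 a := by
    simpa using (hasDerivAt_id a).const_add θ
  have e1 : HasDerivAt (fun a => C.H i (θ + a)) (C.H1 i (θ + a) * 1) a :=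
    (C.h0 i (θ + a)).comp a ha
  have e2 : HasDerivAt (fun a => C.H1 i (θ + a)) ((C.rh i (θ + a) - C.H i (θ + a)) * 1) a :=
    (C.h1 i (θ + a)).comp a ha
  have := (e1.mul (Real.hasDerivAt_sin a)).add (e2.mul (Real.hasDerivAt_cos a))
  refine this.congr_deriv ?_
  ring

theorem FFd_dt (C : Cfg n) (i : Fin n) (θ a : ℝ) :
    HasDerivAt (fun θ => C.FF i θ a)
      (C.rh i (θ + a) * Real.cos a -
        (C.H i (θ + a) * Real.cos a - C.H1 i (θ + a) * Real.sin a)) θ := by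
  have ha : HasDerivAt (fun θ : ℝ => θ + a) 1 θ := by
    simpa using (hasDerivAt_id θ).add_const a
  have e1 : HasDerivAt (fun θ => C.H i (θ + a)) (C.H1 i (θ + a) * 1) θ :=
    (C.h0 i (θ + a)).comp θ ha
  have e2 : HasDerivAt (fun θ => C.H1 i (θ + a)) ((C.rh i (θ + a) - C.H i (θ + a)) * 1) θ :=
    (C.h1 i (θ + a)).comp θ ha
  have := (e1.mul_const (Real.sin a)).add (e2.mul_const (Real.cos a))
  refine this.congr_deriv ?_
  ring

theorem FFd_cd (C : Cfg n) (i : Fin n) : ContDiff ℝ 2 (fun q : ℝ × ℝ => C.FF i q.1 q.2) := by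
  have hs : ContDiff ℝ 2 (fun q : ℝ × ℝ => q.1 + q.2) := contDiff_fst.add contDiff_snd
  have h3 : ContDiff ℝ 2 (C.H i) := (FFd_H3 C i).of_le (by norm_num)
  have e1 : ContDiff ℝ 2 (fun q : ℝ × ℝ => C.H i (q.1 + q.2)) := h3.comp hs
  have e2 : ContDiff ℝ 2 (fun q : ℝ × ℝ => C.H1 i (q.1 + q.2)) := (FFd_H12 C i).comp hs
  have e3 : ContDiff ℝ 2 (fun q : ℝ × ℝ => Real.sin q.2) := Real.contDiff_sin.comp contDiff_snd
  have e4 : ContDiff ℝ 2 (fun q : ℝ × ℝ => Real.cos q.2) := Real.contDiff_cos.comp contDiff_snd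
  exact (e1.mul e3).add (e2.mul e4)

theorem FFd_sm (C : Cfg n) (i : Fin n) (θ : ℝ) :
    StrictMonoOn (fun a => C.FF i θ a) (Icc (-(Real.pi / 2)) (Real.pi / 2)) := by
  refine strictMonoOn_of_deriv_pos (convex_Icc _ _) ?_ ?_
  · intro a _
    exact (FFd_da C i θ a).continuousAt.continuousWithinAt
  · intro a ha
    rw [interior_Icc] at ha
    rw [(FFd_da C i θ a).deriv]
    exact mul_pos (lt_of_lt_of_le C.hR0 (C.hR i (θ + a)).1)
      (Real.cos_pos_of_mem_Ioo ha)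

/-- derivatives and monotonicity of `FF` -/
theorem FFd (C : Cfg n) (i : Fin n) :
    (∀ θ a, HasDerivAt (fun a => C.FF i θ a) (C.rh i (θ + a) * Real.cos a) a) ∧
    (∀ θ a, HasDerivAt (fun θ => C.FF i θ a)
      (C.rh i (θ + a) * Real.cos a -
        (C.H i (θ + a) * Real.cos a - C.H1 i (θ + a) * Real.sin a)) θ) ∧
    ContDiff ℝ 2 (fun q : ℝ × ℝ => C.FF i q.1 q.2) ∧ ContDiff ℝ 3 (C.H i) ∧
    ContDiff ℝ 2 (C.H1 i) ∧ ContDiff ℝ 1 (C.rh i) ∧
    (∀ θ, StrictMonoOn (fun a => C.FF i θ a) (Icc (-(Real.pi / 2)) (Real.pi / 2))) ∧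
    (∀ θ, C.FF i θ (Real.pi / 2) = C.hi i θ) ∧ (∀ θ, C.FF i θ (-(Real.pi / 2)) = C.lo i θ) := by
  refine ⟨FFd_da C i, FFd_dt C i, FFd_cd C i, FFd_H3 C i, FFd_H12 C i, FFd_rh1 C i,
    FFd_sm C i, ?_, ?_⟩
  · intro θ
    simp [Cfg.FF, Cfg.hi]
  · intro θ
    simp [Cfg.FF, Cfg.lo, sub_eq_add_neg]

end Pool.LightB
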