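import Pool.Agent.Helper638.LightB.P_XDefs

set_option autoImplicit false

open MeasureTheory Set Filter Topology

namespace Pool.LightB

variable {n : ℕ}

/-- the point with parameter `t` on the line `(θ, b)` -/
noncomputable def lp (θ b t : ℝ) : ℝ × ℝ :=
  (t * Real.cos θ - b * Real.sin θ, t * Real.sin θ + b * Real.cos θ)

/-- body `k` -/
def Bod (C : Cfg n) (k : Fin n) : Set (ℝ × ℝ) :=
  {x | ∀ ω, x.1 * Real.cos ω + x.2 * Real.sin ω ≤ C.H k ω}


end Pool.LightB
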