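import Pool.Agent.Helper638.LightB.Defs
import Pool.Agent.Helper638.LightB.P_FFd

set_option autoImplicit false

open MeasureTheory Set Filter Topology

namespace Pool.LightB
variable {n : ℕ}


theorem asn_spec_ex (C : Cfg n) (i : Fin n) (θ b : ℝ) (h : C.Tch i θ b) :
    ∃ a ∈ Icc (-(Real.pi / 2)) (Real.pi / 2), C.FF i θ a = b := by
  obtain ⟨h1, -, -, -, -, -, -, hhi, hlo⟩ := FFd C i
  have hpi := Real.pi_pos
  have hcont : ContinuousOn (fun a => C.FF i θ a) (Icc (-(Real.pi / 2)) (Real.pi / 2)) :=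
    fun a _ => (h1 θ a).continuousAt.continuousWithinAt
  have hiv := intermediate_value_Icc (by linarith : -(Real.pi / 2) ≤ Real.pi / 2) hcont
  have hb : b ∈ Icc (C.FF i θ (-(Real.pi / 2))) (C.FF i θ (Real.pi / 2)) := by
    rw [hhi θ, hlo θ]
    exact ⟨h.1, h.2⟩
  obtain ⟨a, ha, hab⟩ := hiv hb
  exact ⟨a, ha, hab⟩

theorem asn_spec_tch (C : Cfg n) (i : Fin n) (θ a : ℝ)
    (ha : a ∈ Icc (-(Real.pi / 2)) (Real.pi / 2)) : C.Tch i θ (C.FF i θ a) := by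
  obtain ⟨-, -, -, -, -, -, hm, hhi, hlo⟩ := FFd C i
  have hpi := Real.pi_pos
  have hmo := (hm θ).monotoneOn
  have e1 : -(Real.pi / 2) ∈ Icc (-(Real.pi / 2)) (Real.pi / 2) := ⟨le_rfl, by linarith⟩
  have e2 : Real.pi / 2 ∈ Icc (-(Real.pi / 2)) (Real.pi / 2) := ⟨by linarith, le_rfl⟩
  constructor
  · rw [← hlo θ]
    exact hmo e1 ha ha.1
  · rw [← hhi θ]
    exact hmo ha e2 ha.2

theorem asn_spec_eq (C : Cfg n) (i : Fin n) (θ b : ℝ)
    (h : ∃ a ∈ Icc (-(Real.pi / 2)) (Real.pi / 2), C.FF i θ a = b) :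
    C.asn i θ b ∈ Icc (-(Real.pi / 2)) (Real.pi / 2) ∧ C.FF i θ (C.asn i θ b) = b := by
  have e : C.asn i θ b = h.choose := by
    unfold Cfg.asn
    rw [dif_pos h]
  rw [e]
  exact h.choose_spec

theorem asn_spec_neg (C : Cfg n) (i : Fin n) (θ b : ℝ)
    (h : ¬ ∃ a ∈ Icc (-(Real.pi / 2)) (Real.pi / 2), C.FF i θ a = b) :
    C.asn i θ b = 0 := by
  unfold Cfg.asn
  rw [dif_neg h]

/-- specification of the exit angle -/
theorem asn_spec (C : Cfg n) (i : Fin n) (θ b : ℝ) :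
    (∀ a ∈ Icc (-(Real.pi / 2)) (Real.pi / 2), C.FF i θ a = b →
      C.asn i θ b = a ∧ C.Tch i θ b) ∧
    (∀ a ∈ Ioo (-(Real.pi / 2)) (Real.pi / 2), (θ, C.FF i θ a) ∈ C.U i) ∧
    (C.Tch i θ b → C.FF i θ (C.asn i θ b) = b) ∧
    (C.asn i θ b ∈ Icc (-(Real.pi / 2)) (Real.pi / 2)) ∧
    ((θ, b) ∈ C.U i → C.asn i θ b ∈ Ioo (-(Real.pi / 2)) (Real.pi / 2) ∧ C.Tch i θ b ∧
      0 < Real.cos (C.asn i θ b) ∧ 0 < C.cc i θ b) ∧
    (¬ C.Tch i θ b → C.asn i θ b = 0) ∧ C.lo i θ < C.hi i θ := by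
  obtain ⟨-, -, -, -, -, -, hm, hhi, hlo⟩ := FFd C i
  have hpi := Real.pi_pos
  have e1 : -(Real.pi / 2) ∈ Icc (-(Real.pi / 2)) (Real.pi / 2) := ⟨le_rfl, by linarith⟩
  have e2 : Real.pi / 2 ∈ Icc (-(Real.pi / 2)) (Real.pi / 2) := ⟨by linarith, le_rfl⟩
  refine ⟨?_, ?_, ?_, ?_, ?_, ?_, ?_⟩
  · intro a ha hab
    have hs := asn_spec_eq C i θ b ⟨a, ha, hab⟩
    refine ⟨(hm θ).injOn hs.1 ha ?_, ?_⟩
    · change C.FF i θ (C.asn i θ b) = C.FF i θ a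
      rw [hs.2, hab]
    · rw [← hab]
      exact asn_spec_tch C i θ a ha
  · intro a ha
    have ha' : a ∈ Icc (-(Real.pi / 2)) (Real.pi / 2) := ⟨ha.1.le, ha.2.le⟩
    refine ⟨?_, ?_⟩
    · change C.lo i θ < C.FF i θ a
      rw [← hlo θ]
      exact hm θ e1 ha' ha.1
    · change C.FF i θ a < C.hi i θ
      rw [← hhi θ]
      exact hm θ ha' e2 ha.2
  · intro h
    exact (asn_spec_eq C i θ b (asn_spec_ex C i θ b h)).2
  · by_cases h : ∃ a ∈ Icc (-(Real.pi / 2)) (Real.pi / 2), C.FF i θ a = b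
    · exact (asn_spec_eq C i θ b h).1
    · rw [asn_spec_neg C i θ b h]
      exact ⟨by linarith, by linarith⟩
  · intro hU
    have h1 : C.lo i θ < b := hU.1
    have h2 : b < C.hi i θ := hU.2
    have hT : C.Tch i θ b := ⟨h1.le, h2.le⟩
    have hs := asn_spec_eq C i θ b (asn_spec_ex C i θ b hT)
    have hI : C.asn i θ b ∈ Ioo (-(Real.pi / 2)) (Real.pi / 2) := by
      refine ⟨lt_of_le_of_ne hs.1.1 ?_, lt_of_le_of_ne hs.1.2 ?_⟩
      · intro he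
        have h3 := hs.2
        rw [← he, hlo θ] at h3
        exact absurd h3 h1.ne
      · intro he
        have h3 := hs.2
        rw [he, hhi θ] at h3
        exact absurd h3 h2.ne'
    have hc : 0 < Real.cos (C.asn i θ b) := Real.cos_pos_of_mem_Ioo hI
    refine ⟨hI, hT, hc, ?_⟩
    unfold Cfg.cc
    exact mul_pos (lt_of_lt_of_le C.hR0 (C.hR i _).1) hc
  · intro h
    refine asn_spec_neg C i θ b ?_
    rintro ⟨a, ha, hab⟩
    apply h
    rw [← hab]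
    exact asn_spec_tch C i θ a ha
  · have h3 := hm θ e1 e2 (by linarith)
    have h4 : C.FF i θ (-(Real.pi / 2)) < C.FF i θ (Real.pi / 2) := h3
    rwa [hhi θ, hlo θ] at h4

end Pool.LightB
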