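import Pool.Agent.Helper638.LightB.Defs
import Pool.Agent.Helper638.LightB.P_FFd
import Pool.Agent.Helper638.LightB.P_asn_spec

set_option autoImplicit false

open MeasureTheory Set Filter Topology

namespace Pool.LightB
variable {n : ℕ}


theorem asn_cont_H (C : Cfg n) (i : Fin n) : Continuous (C.H i) :=
  continuous_iff_continuousAt.2 fun φ => (C.h0 i φ).continuousAt

theorem asn_cont_H1 (C : Cfg n) (i : Fin n) : Continuous (C.H1 i) :=
  continuous_iff_continuousAt.2 fun φ => (C.h1 i φ).continuousAt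

theorem asn_cont_rh (C : Cfg n) (i : Fin n) : Continuous (C.rh i) :=
  continuous_iff_continuousAt.2 fun φ => (C.h2 i φ).continuousAt

theorem asn_cont_FF (C : Cfg n) (i : Fin n) (a : ℝ) : Continuous (fun θ => C.FF i θ a) := by
  have h0 := asn_cont_H C i
  have h1 := asn_cont_H1 C i
  unfold Cfg.FF
  fun_prop

theorem asn_cont_main (C : Cfg n) (i : Fin n) :
    ContinuousOn (fun p : ℝ × ℝ => C.asn i p.1 p.2) {p | C.Tch i p.1 p.2} := by
  obtain ⟨_, _, _, _, _, _, hmono, hpi, hmpi⟩ := FFd C i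
  intro p hp
  have hp' : C.Tch i p.1 p.2 := hp
  obtain ⟨_, _, hF, hI, _⟩ := asn_spec C i p.1 p.2
  have hFp := hF hp'
  have hmem : ∀ᶠ q : ℝ × ℝ in 𝓝[{p : ℝ × ℝ | C.Tch i p.1 p.2}] p, C.Tch i q.1 q.2 :=
    self_mem_nhdsWithin
  refine tendsto_order.2 ⟨?_, ?_⟩
  · intro a1 ha1
    have ha1' : a1 < C.asn i p.1 p.2 := ha1
    by_cases hlow : a1 < -(Real.pi / 2)
    · filter_upwards with q
      exact hlow.trans_le (asn_spec C i q.1 q.2).2.2.2.1.1
    · have ha1I : a1 ∈ Icc (-(Real.pi / 2)) (Real.pi / 2) :=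
        ⟨not_lt.1 hlow, ha1'.le.trans hI.2⟩
      have hlt : C.FF i p.1 a1 < p.2 := by
        have := hmono p.1 ha1I hI ha1'
        change C.FF i p.1 a1 < C.FF i p.1 (C.asn i p.1 p.2) at this
        rwa [hFp] at this
      have hev : ∀ᶠ q : ℝ × ℝ in 𝓝[{p : ℝ × ℝ | C.Tch i p.1 p.2}] p, C.FF i q.1 a1 < q.2 := by
        have hopen : IsOpen {q : ℝ × ℝ | C.FF i q.1 a1 < q.2} :=
          isOpen_lt ((asn_cont_FF C i a1).comp continuous_fst) continuous_snd
        exact mem_nhdsWithin_of_mem_nhds (hopen.mem_nhds hlt)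
      filter_upwards [hev, hmem] with q hq hq'
      obtain ⟨_, _, hFq, hIq, _⟩ := asn_spec C i q.1 q.2
      have hFq' := hFq hq'
      rw [← hFq'] at hq
      exact ((hmono q.1).lt_iff_lt ha1I hIq).1 hq
  · intro a2 ha2
    have ha2' : C.asn i p.1 p.2 < a2 := ha2
    by_cases hhigh : Real.pi / 2 < a2
    · filter_upwards with q
      exact (asn_spec C i q.1 q.2).2.2.2.1.2.trans_lt hhigh
    · have ha2I : a2 ∈ Icc (-(Real.pi / 2)) (Real.pi / 2) :=
        ⟨hI.1.trans ha2'.le, not_lt.1 hhigh⟩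
      have hlt : p.2 < C.FF i p.1 a2 := by
        have := hmono p.1 hI ha2I ha2'
        change C.FF i p.1 (C.asn i p.1 p.2) < C.FF i p.1 a2 at this
        rwa [hFp] at this
      have hev : ∀ᶠ q : ℝ × ℝ in 𝓝[{p : ℝ × ℝ | C.Tch i p.1 p.2}] p, q.2 < C.FF i q.1 a2 := by
        have hopen : IsOpen {q : ℝ × ℝ | q.2 < C.FF i q.1 a2} :=
          isOpen_lt continuous_snd ((asn_cont_FF C i a2).comp continuous_fst)
        exact mem_nhdsWithin_of_mem_nhds (hopen.mem_nhds hlt)
      filter_upwards [hev, hmem] with q hq hq'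
      obtain ⟨_, _, hFq, hIq, _⟩ := asn_spec C i q.1 q.2
      have hFq' := hFq hq'
      have hq2 : C.FF i q.1 (C.asn i q.1 q.2) < C.FF i q.1 a2 := by
        rw [hFq']
        exact hq
      exact ((hmono q.1).lt_iff_lt hIq ha2I).1 hq2

theorem asn_cont_rev (C : Cfg n) (i : Fin n) (θ b : ℝ) (h : C.Tch i θ b) :
    C.Tch i (θ + Real.pi) (-b) := by
  obtain ⟨h1, h2⟩ := h
  unfold Cfg.lo at h1
  unfold Cfg.hi at h2
  have e1 : θ + Real.pi - Real.pi / 2 = θ + Real.pi / 2 := by ring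
  have e2 : θ + Real.pi + Real.pi / 2 = θ - Real.pi / 2 + 2 * Real.pi := by ring
  constructor
  · unfold Cfg.lo
    rw [e1]
    linarith
  · unfold Cfg.hi
    rw [e2, C.hp]
    linarith

theorem asn_cont (C : Cfg n) (i : Fin n) :
    ContinuousOn (fun p : ℝ × ℝ => C.asn i p.1 p.2) {p | C.Tch i p.1 p.2} ∧
    IsOpen (C.U i) ∧ IsClosed {p : ℝ × ℝ | C.Tch i p.1 p.2} ∧
    Continuous (C.lo i) ∧ Continuous (C.hi i) ∧
    Measurable (fun p : ℝ × ℝ => C.asn i p.1 p.2) ∧
    Measurable (fun p : ℝ × ℝ => C.sp i p.1 p.2) ∧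
    Measurable (fun p : ℝ × ℝ => C.sm i p.1 p.2) ∧
    Measurable (fun p : ℝ × ℝ => C.cc i p.1 p.2) ∧
    ContinuousOn (fun p : ℝ × ℝ => C.sp i p.1 p.2) {p | C.Tch i p.1 p.2} ∧
    ContinuousOn (fun p : ℝ × ℝ => C.sm i p.1 p.2) {p | C.Tch i p.1 p.2} ∧
    ContinuousOn (fun p : ℝ × ℝ => C.cc i p.1 p.2) {p | C.Tch i p.1 p.2} := by
  classical
  have hH := asn_cont_H C i
  have hH1 := asn_cont_H1 C i
  have hrh := asn_cont_rh C i
  have hasn := asn_cont_main C i
  have hlo : Continuous (C.lo i) := by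
    unfold Cfg.lo
    fun_prop
  have hhi : Continuous (C.hi i) := by
    unfold Cfg.hi
    fun_prop
  have hU : IsOpen (C.U i) :=
    (isOpen_lt (hlo.comp continuous_fst) continuous_snd).inter
      (isOpen_lt continuous_snd (hhi.comp continuous_fst))
  have hT : IsClosed {p : ℝ × ℝ | C.Tch i p.1 p.2} :=
    (isClosed_le (hlo.comp continuous_fst) continuous_snd).inter
      (isClosed_le continuous_snd (hhi.comp continuous_fst))
  have hasnm : Measurable (fun p : ℝ × ℝ => C.asn i p.1 p.2) := by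
    have h := hasn.measurable_piecewise (g := fun _ => (0 : ℝ)) continuousOn_const
      hT.measurableSet
    convert h using 1
    funext p
    by_cases hp : p ∈ {p : ℝ × ℝ | C.Tch i p.1 p.2}
    · rw [Set.piecewise_eq_of_mem _ _ _ hp]
    · rw [Set.piecewise_eq_of_notMem _ _ _ hp]
      exact (asn_spec C i p.1 p.2).2.2.2.2.2.1 hp
  have hspm : Measurable (fun p : ℝ × ℝ => C.sp i p.1 p.2) := by
    have h1 : Measurable (fun p : ℝ × ℝ => p.1 + C.asn i p.1 p.2) := measurable_fst.add hasnm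
    exact ((hH.measurable.comp h1).mul (Real.measurable_cos.comp hasnm)).sub
      ((hH1.measurable.comp h1).mul (Real.measurable_sin.comp hasnm))
  have hsmm : Measurable (fun p : ℝ × ℝ => C.sm i p.1 p.2) := by
    have h1 : Measurable (fun p : ℝ × ℝ => (p.1 + Real.pi, -p.2)) :=
      (measurable_fst.add_const _).prodMk measurable_snd.neg
    exact (hspm.comp h1).neg
  have hccm : Measurable (fun p : ℝ × ℝ => C.cc i p.1 p.2) := by
    have h1 : Measurable (fun p : ℝ × ℝ => p.1 + C.asn i p.1 p.2) := measurable_fst.add hasnm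
    exact (hrh.measurable.comp h1).mul (Real.measurable_cos.comp hasnm)
  have hadd : ContinuousOn (fun p : ℝ × ℝ => p.1 + C.asn i p.1 p.2) {p | C.Tch i p.1 p.2} :=
    continuous_fst.continuousOn.add hasn
  have hsp : ContinuousOn (fun p : ℝ × ℝ => C.sp i p.1 p.2) {p | C.Tch i p.1 p.2} :=
    ((hH.comp_continuousOn hadd).mul (Real.continuous_cos.comp_continuousOn hasn)).sub
      ((hH1.comp_continuousOn hadd).mul (Real.continuous_sin.comp_continuousOn hasn))
  have hsm : ContinuousOn (fun p : ℝ × ℝ => C.sm i p.1 p.2) {p | C.Tch i p.1 p.2} := by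
    have h1 : Continuous (fun p : ℝ × ℝ => (p.1 + Real.pi, -p.2)) := by fun_prop
    exact (hsp.comp h1.continuousOn fun p hp => asn_cont_rev C i p.1 p.2 hp).neg
  have hcc : ContinuousOn (fun p : ℝ × ℝ => C.cc i p.1 p.2) {p | C.Tch i p.1 p.2} :=
    (hrh.comp_continuousOn hadd).mul (Real.continuous_cos.comp_continuousOn hasn)
  exact ⟨hasn, hU, hT, hlo, hhi, hasnm, hspm, hsmm, hccm, hsp, hsm, hcc⟩

end Pool.LightB
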