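import Pool.Agent.Helper638.LightB.Defs
import Pool.Agent.Helper638.LightB.P_FFd
import Pool.Agent.Helper638.LightB.P_asn_spec

set_option autoImplicit false

open MeasureTheory Set Filter Topology

namespace Pool.LightB
variable {n : ℕ}


theorem geo_shift_per (f : ℝ → ℝ) (hf : ∀ φ, f (φ + 2 * Real.pi) = f φ) (m : ℤ) (φ : ℝ) :
    f (φ + 2 * Real.pi * m) = f φ := by
  have h : Function.Periodic f (2 * Real.pi) := hf
  have h2 := h.int_mul m φ
  rwa [mul_comm] at h2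

open Classical in
theorem geo_shift_asn (C : Cfg n) (i : Fin n) (θ θ' b : ℝ) (h : C.FF i θ = C.FF i θ') :
    C.asn i θ b = C.asn i θ' b := by
  have key : ∀ F : ℝ → ℝ, ∀ θ, C.FF i θ = F → C.asn i θ b =
      (if h : ∃ a ∈ Icc (-(Real.pi / 2)) (Real.pi / 2), F a = b then h.choose else 0) := by
    intro F θ hF
    subst hF
    rfl
  rw [key _ θ' rfl, key _ θ h]

theorem geo_shift_FF (C : Cfg n) (i : Fin n) (θ : ℝ) (m : ℤ) :
    C.FF i (θ + 2 * Real.pi * m) = C.FF i θ := by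
  funext a
  unfold Cfg.FF
  have e : θ + 2 * Real.pi * m + a = θ + a + 2 * Real.pi * m := by ring
  rw [e, geo_shift_per _ (C.hp i), geo_shift_per _ (C.hp1 i)]

theorem geo_shift_sp (C : Cfg n) (i : Fin n) (θ b : ℝ) (m : ℤ) :
    C.sp i (θ + 2 * Real.pi * m) b = C.sp i θ b := by
  unfold Cfg.sp
  rw [geo_shift_asn C i _ θ b (geo_shift_FF C i θ m)]
  have e : ∀ a : ℝ, θ + 2 * Real.pi * m + a = θ + a + 2 * Real.pi * m := fun a => by ring
  rw [e, geo_shift_per _ (C.hp i), geo_shift_per _ (C.hp1 i)]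

theorem geo_shift_lo (C : Cfg n) (i : Fin n) (θ : ℝ) (m : ℤ) :
    C.lo i (θ + 2 * Real.pi * m) = C.lo i θ := by
  unfold Cfg.lo
  have e : θ + 2 * Real.pi * m - Real.pi / 2 = θ - Real.pi / 2 + 2 * Real.pi * m := by ring
  rw [e, geo_shift_per _ (C.hp i)]

theorem geo_shift_hi (C : Cfg n) (i : Fin n) (θ : ℝ) (m : ℤ) :
    C.hi i (θ + 2 * Real.pi * m) = C.hi i θ := by
  unfold Cfg.hi
  have e : θ + 2 * Real.pi * m + Real.pi / 2 = θ + Real.pi / 2 + 2 * Real.pi * m := by ring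
  rw [e, geo_shift_per _ (C.hp i)]

theorem geo_shift_Tch (C : Cfg n) (i : Fin n) (θ b : ℝ) (m : ℤ) :
    C.Tch i (θ + 2 * Real.pi * m) b ↔ C.Tch i θ b := by
  unfold Cfg.Tch
  rw [geo_shift_lo, geo_shift_hi]

open Classical in
theorem geo_shift_rr (C : Cfg n) (i : Fin n) (θ b : ℝ) (m : ℤ) :
    C.rr i (θ + 2 * Real.pi * m, b) =
        ((C.rr i (θ, b)).1 + 2 * Real.pi * m, (C.rr i (θ, b)).2) := by
  unfold Cfg.rr
  simp only
  rw [geo_shift_asn C i _ θ b (geo_shift_FF C i θ m)]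
  have e : ∀ a : ℝ, θ + 2 * Real.pi * m + a = θ + a + 2 * Real.pi * m := fun a => by ring
  by_cases h : C.Tch i θ b
  · rw [if_pos h, if_pos ((geo_shift_Tch C i θ b m).2 h), e (C.asn i θ b),
      geo_shift_per _ (C.hp1 i), e]
  · rw [if_neg h, if_neg (fun h' => h ((geo_shift_Tch C i θ b m).1 h'))]

theorem geo_shift_lo' (C : Cfg n) (i : Fin n) (θ : ℝ) : C.lo i (θ + Real.pi) = -C.hi i θ := by
  unfold Cfg.lo Cfg.hi
  have e : θ + Real.pi - Real.pi / 2 = θ + Real.pi / 2 := by ring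
  rw [e]

theorem geo_shift_hi' (C : Cfg n) (i : Fin n) (θ : ℝ) : C.hi i (θ + Real.pi) = -C.lo i θ := by
  unfold Cfg.lo Cfg.hi
  have e : θ + Real.pi + Real.pi / 2 = θ - Real.pi / 2 + 2 * Real.pi := by ring
  rw [e, C.hp, neg_neg]

/-- symmetries -/
theorem geo_shift (C : Cfg n) (i k : Fin n) (θ b : ℝ) :
    (∀ m : ℤ, C.lo i (θ + 2 * Real.pi * m) = C.lo i θ ∧ C.hi i (θ + 2 * Real.pi * m) = C.hi i θ ∧
      C.asn i (θ + 2 * Real.pi * m) b = C.asn i θ b ∧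
      C.cc i (θ + 2 * Real.pi * m) b = C.cc i θ b ∧
      C.sp i (θ + 2 * Real.pi * m) b = C.sp i θ b ∧
      C.sm i (θ + 2 * Real.pi * m) b = C.sm i θ b ∧
      C.dv i k (θ + 2 * Real.pi * m) = C.dv i k θ ∧
      (C.Tch i (θ + 2 * Real.pi * m) b ↔ C.Tch i θ b) ∧
      ((θ + 2 * Real.pi * m, b) ∈ C.U i ↔ (θ, b) ∈ C.U i) ∧
      C.rr i (θ + 2 * Real.pi * m, b) =
        ((C.rr i (θ, b)).1 + 2 * Real.pi * m, (C.rr i (θ, b)).2)) ∧
    C.lo i (θ + Real.pi) = -C.hi i θ ∧ C.hi i (θ + Real.pi) = -C.lo i θ ∧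
    C.dv i k (θ + Real.pi) = -C.dv i k θ ∧ (i ≠ k → C.dv k i θ = -C.dv i k θ) ∧
    (C.Tch i (θ + Real.pi) (-b) ↔ C.Tch i θ b) ∧
    ((θ + Real.pi, -b) ∈ C.U i ↔ (θ, b) ∈ C.U i) ∧
    C.sm i (θ + Real.pi) (-b) = -C.sp i θ b ∧ C.sp i (θ + Real.pi) (-b) = -C.sm i θ b := by
  refine ⟨fun m => ⟨geo_shift_lo C i θ m, geo_shift_hi C i θ m,
    geo_shift_asn C i _ θ b (geo_shift_FF C i θ m), ?_, geo_shift_sp C i θ b m, ?_, ?_,
    geo_shift_Tch C i θ b m, ?_, geo_shift_rr C i θ b m⟩, geo_shift_lo' C i θ,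
    geo_shift_hi' C i θ, ?_, ?_, ?_, ?_, ?_, ?_⟩
  · unfold Cfg.cc
    rw [geo_shift_asn C i _ θ b (geo_shift_FF C i θ m)]
    have e : ∀ a : ℝ, θ + 2 * Real.pi * m + a = θ + a + 2 * Real.pi * m := fun a => by ring
    rw [e, geo_shift_per _ (C.hpr i)]
  · unfold Cfg.sm
    have e : θ + 2 * Real.pi * m + Real.pi = θ + Real.pi + 2 * Real.pi * m := by ring
    rw [e, geo_shift_sp]
  · unfold Cfg.dv
    have e : θ + 2 * Real.pi * m - C.om i k = θ - C.om i k + m * (2 * Real.pi) := by ring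
    rw [e, Real.cos_add_int_mul_two_pi]
  · show C.lo i (θ + 2 * Real.pi * m) < b ∧ b < C.hi i (θ + 2 * Real.pi * m) ↔
      C.lo i θ < b ∧ b < C.hi i θ
    rw [geo_shift_lo, geo_shift_hi]
  · unfold Cfg.dv
    have e : θ + Real.pi - C.om i k = θ - C.om i k + Real.pi := by ring
    rw [e, Real.cos_add_pi]
  · intro hik
    obtain ⟨m, hm⟩ := C.hom i k hik
    unfold Cfg.dv
    have e : θ - C.om k i = θ - C.om i k - Real.pi - m * (2 * Real.pi) := by rw [hm]; ring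
    rw [e, Real.cos_sub_int_mul_two_pi, Real.cos_sub_pi]
  · unfold Cfg.Tch
    rw [geo_shift_lo', geo_shift_hi']
    constructor
    · rintro ⟨h1, h2⟩
      exact ⟨by linarith, by linarith⟩
    · rintro ⟨h1, h2⟩
      exact ⟨by linarith, by linarith⟩
  · show C.lo i (θ + Real.pi) < -b ∧ -b < C.hi i (θ + Real.pi) ↔ C.lo i θ < b ∧ b < C.hi i θ
    rw [geo_shift_lo', geo_shift_hi']
    constructor
    · rintro ⟨h1, h2⟩
      exact ⟨by linarith, by linarith⟩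
    · rintro ⟨h1, h2⟩
      exact ⟨by linarith, by linarith⟩
  · unfold Cfg.sm
    have e : θ + Real.pi + Real.pi = θ + 2 * Real.pi * ((1:ℤ):ℝ) := by push_cast; ring
    rw [e, geo_shift_sp, neg_neg]
  · unfold Cfg.sm
    rw [neg_neg]

end Pool.LightB
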