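import Pool.Agent.Helper638.LightB.Defs
import Pool.Agent.Helper638.LightB.P_FFd
import Pool.Agent.Helper638.LightB.P_asn_spec
import Pool.Agent.Helper638.LightB.P_geo_shift

set_option autoImplicit false

open MeasureTheory Set Filter Topology

namespace Pool.LightB
variable {n : ℕ}


theorem basics_abs (C : Cfg n) (i : Fin n) (φ a : ℝ) :
    |C.H i φ * Real.cos a - C.H1 i φ * Real.sin a| + C.R1 + C.tau ≤ C.K := by
  have h1 := C.hK i φ
  have h2 : |C.H i φ * Real.cos a - C.H1 i φ * Real.sin a| ≤ |C.H i φ| + |C.H1 i φ| := by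
    refine (abs_sub _ _).trans ?_
    rw [abs_mul, abs_mul]
    have h3 := mul_le_of_le_one_right (abs_nonneg (C.H i φ)) (Real.abs_cos_le_one a)
    have h4 := mul_le_of_le_one_right (abs_nonneg (C.H1 i φ)) (Real.abs_sin_le_one a)
    linarith
  have h5 := abs_nonneg (C.rh1 i φ)
  linarith

theorem basics_hi (C : Cfg n) (i : Fin n) (θ : ℝ) :
    C.sp i θ (C.hi i θ) = -C.H1 i (θ + Real.pi / 2) := by
  obtain ⟨_, _, _, _, _, _, _, h8, _⟩ := FFd C i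
  have h1 := ((asn_spec C i θ (C.hi i θ)).1 (Real.pi / 2)
    ⟨by linarith [Real.pi_pos], le_refl _⟩ (h8 θ)).1
  unfold Cfg.sp
  rw [h1, Real.cos_pi_div_two, Real.sin_pi_div_two]
  ring

theorem basics_lo (C : Cfg n) (i : Fin n) (θ : ℝ) :
    C.sp i θ (C.lo i θ) = C.H1 i (θ - Real.pi / 2) := by
  obtain ⟨_, _, _, _, _, _, _, _, h9⟩ := FFd C i
  have h1 := ((asn_spec C i θ (C.lo i θ)).1 (-(Real.pi / 2))
    ⟨le_refl _, by linarith [Real.pi_pos]⟩ (h9 θ)).1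
  unfold Cfg.sp
  rw [h1, Real.cos_neg, Real.sin_neg, Real.cos_pi_div_two, Real.sin_pi_div_two, ← sub_eq_add_neg]
  ring

/-- elementary facts. -/
theorem basics (C : Cfg n) (i : Fin n) (θ b : ℝ) :
    |C.sp i θ b| + C.R1 + C.tau ≤ C.K ∧ |C.sm i θ b| + C.R1 + C.tau ≤ C.K ∧
    0 ≤ C.cc i θ b ∧ C.cc i θ b ≤ C.R1 ∧ |C.lo i θ| ≤ C.K ∧ |C.hi i θ| ≤ C.K ∧
    (C.Tch i θ b → |b| ≤ C.K) ∧
    HasDerivAt (C.hi i) (-C.sp i θ (C.hi i θ)) θ ∧ HasDerivAt (C.lo i) (-C.sp i θ (C.lo i θ)) θ ∧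
    C.sm i θ (C.hi i θ) = C.sp i θ (C.hi i θ) ∧ C.sm i θ (C.lo i θ) = C.sp i θ (C.lo i θ) ∧
    C.Tch i θ (C.hi i θ) ∧ C.Tch i θ (C.lo i θ) ∧
    ContDiff ℝ 1 (C.hi i) ∧ ContDiff ℝ 1 (C.lo i) ∧
    (0 < C.K) ∧ (0 < C.lam) ∧ (C.lam < 1) := by
  obtain ⟨_, _, _, hH3, _, _, _, _, _⟩ := FFd C i
  obtain ⟨_, _, _, hIcc, _, _, hlt⟩ := asn_spec C i θ b
  obtain ⟨_, hs1, hs2, _⟩ := geo_shift C i i θ b
  have hloK : |C.lo i θ| ≤ C.K := by
    unfold Cfg.lo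
    rw [abs_neg]
    have h1 := C.hK i (θ - Real.pi / 2)
    have h2 := abs_nonneg (C.H1 i (θ - Real.pi / 2))
    have h3 := abs_nonneg (C.rh1 i (θ - Real.pi / 2))
    have h4 := C.hR1
    have h5 := C.htau
    linarith
  have hhiK : |C.hi i θ| ≤ C.K := by
    unfold Cfg.hi
    have h1 := C.hK i (θ + Real.pi / 2)
    have h2 := abs_nonneg (C.H1 i (θ + Real.pi / 2))
    have h3 := abs_nonneg (C.rh1 i (θ + Real.pi / 2))
    have h4 := C.hR1
    have h5 := C.htau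
    linarith
  have hcos0 : 0 ≤ Real.cos (C.asn i θ b) := Real.cos_nonneg_of_mem_Icc hIcc
  have hcos1 := Real.cos_le_one (C.asn i θ b)
  have hrh := C.hR i (θ + C.asn i θ b)
  have hR0 := C.hR0
  have hR1 := C.hR1
  have htau := C.htau
  refine ⟨?_, ?_, ?_, ?_, hloK, hhiK, ?_, ?_, ?_, ?_, ?_, ?_, ?_, ?_, ?_, C.hK0, ?_, ?_⟩
  · exact basics_abs C i _ _
  · unfold Cfg.sm
    rw [abs_neg]
    exact basics_abs C i _ _
  · unfold Cfg.cc
    exact mul_nonneg (by linarith) hcos0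
  · unfold Cfg.cc
    nlinarith
  · rintro ⟨h1, h2⟩
    rw [abs_le] at hloK hhiK ⊢
    constructor <;> linarith [hloK.1, hhiK.2]
  · rw [basics_hi, neg_neg]
    have h1 := (C.h0 i (θ + Real.pi / 2)).comp_add_const θ (Real.pi / 2)
    exact h1
  · rw [basics_lo]
    have h1 := ((C.h0 i (θ - Real.pi / 2)).comp_sub_const θ (Real.pi / 2)).neg
    exact h1
  · unfold Cfg.sm
    rw [← hs1, basics_lo, basics_hi]
    congr 2
    ring
  · unfold Cfg.sm
    rw [← hs2, basics_lo, basics_hi, neg_neg]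
    have h1 := C.hp1 i (θ - Real.pi / 2)
    rw [← h1]
    congr 1
    ring
  · exact ⟨hlt.le, le_refl _⟩
  · exact ⟨le_refl _, hlt.le⟩
  · unfold Cfg.hi
    exact (hH3.of_le (by norm_num)).comp (contDiff_id.add contDiff_const)
  · unfold Cfg.lo
    exact ((hH3.of_le (by norm_num)).comp (contDiff_id.sub contDiff_const)).neg
  · unfold Cfg.lam
    positivity
  · unfold Cfg.lam
    rw [div_lt_one (by positivity)]
    linarith

end Pool.LightB
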