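import Pool.Agent.Helper638.LightB.Defs
import Pool.Agent.Helper638.LightB.P_asn_spec
import Pool.Agent.Helper638.LightB.P_geo_shift

set_option autoImplicit false

open MeasureTheory Set Filter Topology

namespace Pool.LightB
variable {n : ℕ}


theorem hits_unique (C : Cfg n) {i j j' : Fin n} {θ b : ℝ} (h : C.Hits i j θ b)
    (h' : C.Hits i j' θ b) : j = j' := by
  by_contra hne
  obtain ⟨a1, a2, a3, a4⟩ := h
  obtain ⟨b1, b2, b3, b4⟩ := h'
  have e1 : 0 < C.dv j j' θ := a4 j' b1.symm (Ne.symm hne) b2 ⟨b3.1.le, b3.2.le⟩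
  have e2 : 0 < C.dv j' j θ := b4 j a1.symm hne a2 ⟨a3.1.le, a3.2.le⟩
  have e3 : C.dv j' j θ = -C.dv j j' θ := (geo_shift C j j' θ b).2.2.2.2.1 hne
  linarith

end Pool.LightB
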