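import Pool.Agent.Helper638.LightB.Defs
import Pool.Agent.Helper638.LightB.P_FFd
import Pool.Agent.Helper638.LightB.P_asn_spec
import Pool.Agent.Helper638.LightB.P_geo_shift

set_option autoImplicit false

open MeasureTheory Set Filter Topology

namespace Pool.LightB
variable {n : ℕ}


/-- the reversal on one body is an involution. -/
theorem rr_facts (C : Cfg n) (i : Fin n) (p : ℝ × ℝ) :
    C.rr i (C.rr i p) = p ∧ (C.rr i p ∈ C.U i ↔ p ∈ C.U i) ∧
    (C.Tch i (C.rr i p).1 (C.rr i p).2 ↔ C.Tch i p.1 p.2) ∧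
    C.asn i (C.rr i p).1 (C.rr i p).2 = -C.asn i p.1 p.2 ∧
    (C.Tch i p.1 p.2 → (C.rr i p).1 = p.1 + 2 * C.asn i p.1 p.2) ∧
    p.1 - Real.pi ≤ (C.rr i p).1 ∧ (C.rr i p).1 ≤ p.1 + Real.pi ∧
    (C.Tch i p.1 p.2 → C.cc i (C.rr i p).1 (C.rr i p).2 = C.cc i p.1 p.2) := by
  obtain ⟨θ, b⟩ := p
  have hpi := Real.pi_pos
  obtain ⟨s1, s2, s3, s4, s5, s6, s7⟩ := asn_spec C i θ b
  by_cases hT : C.Tch i θ b
  · set a := C.asn i θ b with ha
    have hF : C.FF i θ a = b := s3 hT
    have hF' : C.H i (θ + a) * Real.sin a + C.H1 i (θ + a) * Real.cos a = b := hF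
    have hrr : C.rr i (θ, b) = (θ + 2 * a, -b + 2 * C.H1 i (θ + a) * Real.cos a) := by
      unfold Cfg.rr
      rw [if_pos hT]
    have hph : θ + 2 * a + -a = θ + a := by ring
    have hFF : C.FF i (θ + 2 * a) (-a) = -b + 2 * C.H1 i (θ + a) * Real.cos a := by
      unfold Cfg.FF
      rw [hph, Real.sin_neg, Real.cos_neg]
      linarith
    obtain ⟨t1, t2, t3, t4, t5, t6, t7⟩ :=
      asn_spec C i (θ + 2 * a) (-b + 2 * C.H1 i (θ + a) * Real.cos a)
    have hneg : -a ∈ Icc (-(Real.pi / 2)) (Real.pi / 2) := ⟨by linarith [s4.2], by linarith [s4.1]⟩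
    obtain ⟨hasn, hTch⟩ := t1 (-a) hneg hFF
    rw [hrr]
    refine ⟨?_, ?_, ?_, hasn, fun _ => rfl, ?_, ?_, ?_⟩
    · unfold Cfg.rr
      rw [if_pos hTch]
      simp only [hasn, hph, Real.cos_neg]
      ext
      · show θ + 2 * a + 2 * -a = θ
        ring
      · show -(-b + 2 * C.H1 i (θ + a) * Real.cos a) + 2 * C.H1 i (θ + a) * Real.cos a = b
        ring
    · constructor
      · intro h
        have h1 := (t5 h).1
        rw [hasn] at h1
        have h2 : a ∈ Ioo (-(Real.pi / 2)) (Real.pi / 2) := ⟨by linarith [h1.2], by linarith [h1.1]⟩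
        have h3 := s2 a h2
        rwa [hF] at h3
      · intro h
        have h1 := (s5 h).1
        have h2 : -a ∈ Ioo (-(Real.pi / 2)) (Real.pi / 2) := ⟨by linarith [h1.2], by linarith [h1.1]⟩
        have h3 := t2 (-a) h2
        rwa [hFF] at h3
    · exact ⟨fun _ => hT, fun _ => hTch⟩
    · show θ - Real.pi ≤ θ + 2 * a
      linarith [s4.1]
    · show θ + 2 * a ≤ θ + Real.pi
      linarith [s4.2]
    · intro _
      unfold Cfg.cc
      simp only [hasn, hph, Real.cos_neg]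
      rfl
  · have hrr : C.rr i (θ, b) = (θ, b) := by
      unfold Cfg.rr
      rw [if_neg hT]
    have h0 : C.asn i θ b = 0 := s6 hT
    rw [hrr]
    refine ⟨hrr, Iff.rfl, Iff.rfl, ?_, fun h => absurd h hT, ?_, ?_, fun h => absurd h hT⟩
    · show C.asn i θ b = - C.asn i θ b
      rw [h0, neg_zero]
    · show θ - Real.pi ≤ θ
      linarith
    · show θ ≤ θ + Real.pi
      linarith

end Pool.LightB
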