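import Pool.Agent.Helper638.LightB.Defs
import Pool.Agent.Helper638.LightB.P_FFd
import Pool.Agent.Helper638.LightB.P_asn_spec
import Pool.Agent.Helper638.LightB.P_geo_shift
import Pool.Agent.Helper638.LightB.P_rr_facts

set_option autoImplicit false

open MeasureTheory Set Filter Topology

namespace Pool.LightB
variable {n : ℕ}


/-- the state after a hit. -/
theorem Tj_facts (C : Cfg n) (j : Fin n) (p : ℝ × ℝ) (hp : p ∈ C.U j) :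
    C.Tj j p ∈ C.U j ∧ C.rr j (C.Tj j p) = (p.1 + Real.pi, -p.2) ∧
    C.asn j (C.Tj j p).1 (C.Tj j p).2 = -C.asn j (p.1 + Real.pi) (-p.2) ∧
    (C.Tj j p).1 = p.1 + Real.pi + 2 * C.asn j (p.1 + Real.pi) (-p.2) ∧
    p.1 ≤ (C.Tj j p).1 ∧ (C.Tj j p).1 ≤ p.1 + 2 * Real.pi ∧
    C.cc j (C.Tj j p).1 (C.Tj j p).2 = C.cc j (p.1 + Real.pi) (-p.2) ∧
    0 < C.cc j (C.Tj j p).1 (C.Tj j p).2 := by
  obtain ⟨θ, b⟩ := p
  have hg := geo_shift C j j θ b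
  obtain ⟨-, -, -, -, -, -, hU, -, -⟩ := hg
  have hq : ((θ + Real.pi, -b) : ℝ × ℝ) ∈ C.U j := hU.mpr hp
  have hr := rr_facts C j (θ + Real.pi, -b)
  obtain ⟨h1, h2, h3, h4, h5, h6, h7, h8⟩ := hr
  have hs := asn_spec C j (θ + Real.pi) (-b)
  obtain ⟨-, -, -, -, hs5, -, -⟩ := hs
  obtain ⟨-, hT, -, hcc⟩ := hs5 hq
  have hTj : C.Tj j (θ, b) = C.rr j (θ + Real.pi, -b) := rfl
  rw [hTj]
  refine ⟨h2.mpr hq, h1, h4, h5 hT, ?_, ?_, h8 hT, ?_⟩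
  · simp only at h6 ⊢; linarith
  · simp only at h7 ⊢; linarith
  · rw [h8 hT]; exact hcc

end Pool.LightB
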