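import Pool.Agent.Helper638.LightB.Defs

set_option autoImplicit false

open MeasureTheory Set Filter Topology

namespace Pool.LightB
variable {n : ℕ}


theorem supp_ineq_deriv (C : Cfg n) (i : Fin n) (ω ψ : ℝ) :
    HasDerivAt (fun ψ => C.H i ψ * Real.cos (ω - ψ) + C.H1 i ψ * Real.sin (ω - ψ))
      (C.rh i ψ * Real.sin (ω - ψ)) ψ := by
  have h1 : HasDerivAt (fun ψ => ω - ψ) (-1) ψ := by
    simpa using (hasDerivAt_id ψ).const_sub ω
  have hc : HasDerivAt (fun ψ => Real.cos (ω - ψ)) (-Real.sin (ω - ψ) * (-1)) ψ := h1.cos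
  have hs : HasDerivAt (fun ψ => Real.sin (ω - ψ)) (Real.cos (ω - ψ) * (-1)) ψ := h1.sin
  have h := ((C.h0 i ψ).mul hc).add ((C.h1 i ψ).mul hs)
  convert! h using 1
  ring

theorem supp_ineq_core (C : Cfg n) (i : Fin n) (ω ψ : ℝ) (h1 : ω - Real.pi ≤ ψ)
    (h2 : ψ ≤ ω + Real.pi) :
    C.H i ψ * Real.cos (ω - ψ) + C.H1 i ψ * Real.sin (ω - ψ) ≤ C.H i ω := by
  set g : ℝ → ℝ := fun ψ => C.H i ψ * Real.cos (ω - ψ) + C.H1 i ψ * Real.sin (ω - ψ) with hg
  have hd : ∀ ψ, HasDerivAt g (C.rh i ψ * Real.sin (ω - ψ)) ψ := supp_ineq_deriv C i ω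
  have hgc : Continuous g := continuous_iff_continuousAt.mpr fun x => (hd x).continuousAt
  have hgd : Differentiable ℝ g := fun x => (hd x).differentiableAt
  have hω : g ω = C.H i ω := by simp [hg]
  have hrh : ∀ x, 0 ≤ C.rh i x := fun x => C.hR0.le.trans (C.hR i x).1
  rw [← hω]
  show g ψ ≤ g ω
  rcases le_total ψ ω with h | h
  · have hm : MonotoneOn g (Icc (ω - Real.pi) ω) := by
      refine monotoneOn_of_deriv_nonneg (convex_Icc _ _) hgc.continuousOn hgd.differentiableOn ?_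
      intro x hx
      rw [interior_Icc] at hx
      rw [(hd x).deriv]
      exact mul_nonneg (hrh x) (Real.sin_nonneg_of_nonneg_of_le_pi (by linarith [hx.2])
        (by linarith [hx.1]))
    exact hm ⟨h1, h⟩ ⟨by linarith [Real.pi_pos], le_rfl⟩ h
  · have hm : AntitoneOn g (Icc ω (ω + Real.pi)) := by
      refine antitoneOn_of_deriv_nonpos (convex_Icc _ _) hgc.continuousOn hgd.differentiableOn ?_
      intro x hx
      rw [interior_Icc] at hx
      rw [(hd x).deriv]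
      exact mul_nonpos_of_nonneg_of_nonpos (hrh x)
        (Real.sin_nonpos_of_nonpos_of_neg_pi_le (by linarith [hx.1]) (by linarith [hx.2]))
    exact hm ⟨le_rfl, by linarith [Real.pi_pos]⟩ ⟨h, h2⟩ h

/-- the boundary points satisfy all the support inequalities -/
theorem supp_ineq (C : Cfg n) (i : Fin n) (φ ω : ℝ) :
    C.H i φ * Real.cos (ω - φ) + C.H1 i φ * Real.sin (ω - φ) ≤ C.H i ω := by
  obtain ⟨m, hm, -⟩ := existsUnique_add_zsmul_mem_Ioc (Real.two_pi_pos) φ (ω - Real.pi)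
  have h := supp_ineq_core C i ω (φ + m • (2 * Real.pi)) hm.1.le (by linarith [hm.2])
  have e1 : C.H i (φ + m • (2 * Real.pi)) = C.H i φ :=
    (Function.Periodic.zsmul (f := C.H i) (C.hp i) m) φ
  have e2 : C.H1 i (φ + m • (2 * Real.pi)) = C.H1 i φ :=
    (Function.Periodic.zsmul (f := C.H1 i) (C.hp1 i) m) φ
  have e3 : ω - (φ + m • (2 * Real.pi)) = (ω - φ) - m * (2 * Real.pi) := by
    rw [zsmul_eq_mul]; ring
  rw [e1, e2, e3, Real.cos_sub_int_mul_two_pi, Real.sin_sub_int_mul_two_pi] at h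
  exact h

end Pool.LightB
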