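import Pool.Agent.Helper638.LightB.Defs
import Pool.Agent.Helper638.LightB.P_FFd
import Pool.Agent.Helper638.LightB.P_asn_spec
import Pool.Agent.Helper638.LightB.P_geo_shift
import Pool.Agent.Helper638.LightB.P_supp_ineq

set_option autoImplicit false

open MeasureTheory Set Filter Topology

namespace Pool.LightB
variable {n : ℕ}


theorem onb_FF (C : Cfg n) (i : Fin n) (θ b : ℝ) (hF : C.FF i θ (C.asn i θ b) = b) (θ0 : ℝ) :
    C.FF i θ0 (θ + C.asn i θ b - θ0) =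
      b * Real.cos (θ - θ0) + C.sp i θ b * Real.sin (θ - θ0) := by
  unfold Cfg.FF at hF
  unfold Cfg.FF Cfg.sp
  have e1 : θ0 + (θ + C.asn i θ b - θ0) = θ + C.asn i θ b := by ring
  have e2 : θ + C.asn i θ b - θ0 = C.asn i θ b + (θ - θ0) := by ring
  rw [e1, e2, Real.sin_add, Real.cos_add]
  linear_combination Real.cos (θ - θ0) * hF

theorem onb_pt (C : Cfg n) (i : Fin n) (θ b : ℝ) (hF : C.FF i θ (C.asn i θ b) = b) (ω : ℝ) :
    b * Real.sin (ω - θ) + C.sp i θ b * Real.cos (ω - θ) =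
      C.H i (θ + C.asn i θ b) * Real.cos (ω - (θ + C.asn i θ b)) +
        C.H1 i (θ + C.asn i θ b) * Real.sin (ω - (θ + C.asn i θ b)) := by
  unfold Cfg.FF at hF
  unfold Cfg.sp
  have e1 : ω - (θ + C.asn i θ b) = (ω - θ) - C.asn i θ b := by ring
  rw [e1, Real.sin_sub (ω - θ) (C.asn i θ b), Real.cos_sub (ω - θ) (C.asn i θ b)]
  linear_combination (-Real.sin (ω - θ)) * hF

theorem onb_one (C : Cfg n) (i : Fin n) {θ b : ℝ} (h : C.Tch i θ b) (ω : ℝ) :
    b * Real.sin (ω - θ) + C.sp i θ b * Real.cos (ω - θ) ≤ C.H i ω := by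
  have hF := (asn_spec C i θ b).2.2.1 h
  rw [onb_pt C i θ b hF ω]
  exact supp_ineq C i _ ω

theorem onb_le (C : Cfg n) (i : Fin n) {θ b : ℝ} (h : C.Tch i θ b) :
    C.sm i θ b ≤ C.sp i θ b := by
  have hF := (asn_spec C i θ b).2.2.1 h
  have hI := (asn_spec C i θ b).2.2.2.1
  have hg := (geo_shift C i i θ b).2
  have hloπ : C.lo i (θ + Real.pi) = -C.hi i θ := hg.1
  have hhiπ : C.hi i (θ + Real.pi) = -C.lo i θ := hg.2.1
  have hT' : C.Tch i (θ + Real.pi) (-b) := hg.2.2.2.2.1.2 h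
  have h2 := onb_one C i hT' (θ + C.asn i θ b)
  have h3 := onb_pt C i θ b hF (θ + C.asn i θ b)
  have hFF := FFd C i
  have e0 : θ + C.asn i θ b - θ = C.asn i θ b := by ring
  have e1 : θ + C.asn i θ b - (θ + Real.pi) = C.asn i θ b - Real.pi := by ring
  rw [e1, Real.sin_sub_pi, Real.cos_sub_pi] at h2
  rw [sub_self, Real.cos_zero, Real.sin_zero, e0] at h3
  have hsm : C.sm i θ b = -C.sp i (θ + Real.pi) (-b) := rfl
  rcases (Real.cos_nonneg_of_mem_Icc hI).lt_or_eq with hc | hc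
  · have h4 : C.sm i θ b * Real.cos (C.asn i θ b) ≤ C.sp i θ b * Real.cos (C.asn i θ b) := by
      rw [hsm]
      linarith
    exact le_of_mul_le_mul_right h4 hc
  · -- tangent case
    have hcases : C.asn i θ b = Real.pi / 2 ∨ C.asn i θ b = -(Real.pi / 2) := by
      by_contra hcon
      rw [not_or] at hcon
      have h5 : C.asn i θ b ∈ Ioo (-(Real.pi / 2)) (Real.pi / 2) :=
        ⟨lt_of_le_of_ne hI.1 (Ne.symm hcon.2), lt_of_le_of_ne hI.2 hcon.1⟩
      exact absurd hc (ne_of_lt (Real.cos_pos_of_mem_Ioo h5))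
    have hpi := Real.pi_pos
    rcases hcases with ha | ha
    · have hb : b = C.hi i θ := by
        rw [← hF, ha]; exact hFF.2.2.2.2.2.2.2.1 θ
      have ha' : C.asn i (θ + Real.pi) (-b) = -(Real.pi / 2) := by
        refine ((asn_spec C i (θ + Real.pi) (-b)).1 (-(Real.pi / 2))
          ⟨le_refl _, by linarith⟩ ?_).1
        rw [hFF.2.2.2.2.2.2.2.2, hloπ, hb]
      rw [hsm]
      unfold Cfg.sp
      rw [ha', ha, Real.cos_neg, Real.sin_neg, Real.cos_pi_div_two, Real.sin_pi_div_two]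
      have e3 : θ + Real.pi + -(Real.pi / 2) = θ + Real.pi / 2 := by ring
      rw [e3]
      linarith
    · have hb : b = C.lo i θ := by
        rw [← hF, ha]; exact hFF.2.2.2.2.2.2.2.2 θ
      have ha' : C.asn i (θ + Real.pi) (-b) = Real.pi / 2 := by
        refine ((asn_spec C i (θ + Real.pi) (-b)).1 (Real.pi / 2)
          ⟨by linarith, le_refl _⟩ ?_).1
        rw [hFF.2.2.2.2.2.2.2.1, hhiπ, hb]
      rw [hsm]
      unfold Cfg.sp
      rw [ha', ha, Real.cos_neg, Real.sin_neg, Real.cos_pi_div_two, Real.sin_pi_div_two]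
      have e3 : θ + Real.pi + Real.pi / 2 = (θ + -(Real.pi / 2)) + 2 * Real.pi := by ring
      rw [e3, C.hp1]
      linarith

theorem onb_ne (C : Cfg n) (i : Fin n) {θ b : ℝ} (h : C.Tch i θ b) (hU : (θ, b) ∈ C.U i) :
    C.sm i θ b ≠ C.sp i θ b := by
  intro heq
  have hF := (asn_spec C i θ b).2.2.1 h
  have hI := ((asn_spec C i θ b).2.2.2.2.1 hU).1
  have hg := (geo_shift C i i θ b).2
  have hT' : C.Tch i (θ + Real.pi) (-b) := hg.2.2.2.2.1.2 h
  have hU' : (θ + Real.pi, -b) ∈ C.U i := hg.2.2.2.2.2.1.2 hU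
  have hF' := (asn_spec C i (θ + Real.pi) (-b)).2.2.1 hT'
  have hI' := ((asn_spec C i (θ + Real.pi) (-b)).2.2.2.2.1 hU').1
  have hsm : C.sm i θ b = -C.sp i (θ + Real.pi) (-b) := rfl
  have hmono := (FFd C i).2.2.2.2.2.2.1
  have hpi := Real.pi_pos
  set a := C.asn i θ b with ha
  set a' := C.asn i (θ + Real.pi) (-b) with ha'
  have key : ∀ θ0, C.FF i θ0 (θ + a - θ0) = C.FF i θ0 (θ + Real.pi + a' - θ0) := by
    intro θ0
    have k1 := onb_FF C i θ b hF θ0
    have k2 := onb_FF C i (θ + Real.pi) (-b) hF' θ0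
    rw [← ha] at k1
    rw [← ha'] at k2
    rw [k1, k2]
    have e1 : θ + Real.pi - θ0 = (θ - θ0) + Real.pi := by ring
    rw [e1, Real.sin_add_pi, Real.cos_add_pi, ← heq, hsm]
    ring
  obtain ⟨l1, l2⟩ := hI
  obtain ⟨l3, l4⟩ := hI'
  rcases le_or_gt (a - a') 0 with hcase | hcase
  · -- φ - φ' ∈ (-2π, -π]
    have k := key ((θ + a + (θ + Real.pi + a' - 2 * Real.pi)) / 2)
    set θ0 := (θ + a + (θ + Real.pi + a' - 2 * Real.pi)) / 2 with hθ0
    have k3 : C.FF i θ0 (θ + Real.pi + a' - θ0) =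
        C.FF i θ0 (θ + Real.pi + a' - 2 * Real.pi - θ0) := by
      unfold Cfg.FF
      have e1 : θ0 + (θ + Real.pi + a' - θ0) =
        (θ0 + (θ + Real.pi + a' - 2 * Real.pi - θ0)) + 2 * Real.pi := by ring
      have e2 : θ + Real.pi + a' - θ0 = (θ + Real.pi + a' - 2 * Real.pi - θ0) + 2 * Real.pi := by
        ring
      rw [e1, C.hp, C.hp1, e2, Real.sin_add_two_pi, Real.cos_add_two_pi]
    rw [k3] at k
    have h5 := hmono θ0 (a := θ + Real.pi + a' - 2 * Real.pi - θ0) (b := θ + a - θ0)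
      ⟨by rw [hθ0]; linarith, by rw [hθ0]; linarith⟩
      ⟨by rw [hθ0]; linarith, by rw [hθ0]; linarith⟩ (by linarith)
    exact absurd k (ne_of_gt h5)
  · have k := key ((θ + a + (θ + Real.pi + a')) / 2)
    set θ0 := (θ + a + (θ + Real.pi + a')) / 2 with hθ0
    have h5 := hmono θ0 (a := θ + a - θ0) (b := θ + Real.pi + a' - θ0)
      ⟨by rw [hθ0]; linarith, by rw [hθ0]; linarith⟩
      ⟨by rw [hθ0]; linarith, by rw [hθ0]; linarith⟩ (by linarith)
    exact absurd k (ne_of_lt h5)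

/-- the exit and entry points are on the body -/
theorem onb (C : Cfg n) (i : Fin n) {θ b : ℝ} (h : C.Tch i θ b) :
    (∀ ω, b * Real.sin (ω - θ) + C.sp i θ b * Real.cos (ω - θ) ≤ C.H i ω) ∧
    (∀ ω, b * Real.sin (ω - θ) + C.sm i θ b * Real.cos (ω - θ) ≤ C.H i ω) ∧
    C.sm i θ b ≤ C.sp i θ b ∧ ((θ, b) ∈ C.U i → C.sm i θ b < C.sp i θ b) := by
  refine ⟨onb_one C i h, ?_, onb_le C i h, fun hU =>
    lt_of_le_of_ne (onb_le C i h) (onb_ne C i h hU)⟩
  intro ω
  have hg := (geo_shift C i i θ b).2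
  have hT' : C.Tch i (θ + Real.pi) (-b) := hg.2.2.2.2.1.2 h
  have h2 := onb_one C i hT' ω
  have hsm : C.sm i θ b = -C.sp i (θ + Real.pi) (-b) := rfl
  have e1 : ω - (θ + Real.pi) = (ω - θ) - Real.pi := by ring
  rw [e1, Real.sin_sub_pi, Real.cos_sub_pi] at h2
  rw [hsm]
  linarith

end Pool.LightB
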