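import Pool.Agent.Helper638.LightB.Defs
import Pool.Agent.Helper638.LightB.P_asn_spec
import Pool.Agent.Helper638.LightB.P_geo_shift
import Pool.Agent.Helper638.LightB.P_onb

set_option autoImplicit false

open MeasureTheory Set Filter Topology

namespace Pool.LightB
variable {n : ℕ}


/-- gap estimate: a line touching the bodies `i` and `k`. -/
theorem gap (C : Cfg n) {i k : Fin n} (hik : i ≠ k) {θ b : ℝ} (hi : C.Tch i θ b)
    (hk : C.Tch k θ b) :
    (0 < C.dv i k θ ∧ C.sp i θ b + C.tau ≤ C.sm k θ b) ∨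
    (C.dv i k θ < 0 ∧ C.sp k θ b + C.tau ≤ C.sm i θ b) := by
  have key : ∀ si sk : ℝ,
      (∀ ω, b * Real.sin (ω - θ) + si * Real.cos (ω - θ) ≤ C.H i ω) →
      (∀ ω, b * Real.sin (ω - θ) + sk * Real.cos (ω - θ) ≤ C.H k ω) →
      C.tau ≤ (sk - si) * C.dv i k θ := by
    intro si sk h1 h2
    have e1 := h1 (C.om i k)
    have e2 := h2 (C.om i k + Real.pi)
    have e3 := C.hsep i k hik
    have e4 : C.om i k + Real.pi - θ = (C.om i k - θ) + Real.pi := by ring
    rw [e4, Real.sin_add_pi, Real.cos_add_pi] at e2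
    have e5 : C.dv i k θ = Real.cos (C.om i k - θ) := by
      unfold Cfg.dv
      rw [← Real.cos_neg]
      congr 1
      ring
    rw [e5]
    linarith
  obtain ⟨a1, a2, -, -⟩ := onb C i hi
  obtain ⟨c1, c2, -, -⟩ := onb C k hk
  have ht := C.htau
  have hle1 : C.dv i k θ ≤ 1 := Real.cos_le_one _
  have hge1 : -1 ≤ C.dv i k θ := Real.neg_one_le_cos _
  rcases lt_trichotomy (C.dv i k θ) 0 with h | h | h
  · right
    refine ⟨h, ?_⟩
    have h1 := key _ _ a2 c1
    by_contra hc
    push Not at hc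
    rcases le_total (C.sp k θ b) (C.sm i θ b) with h2 | h2
    · nlinarith
    · nlinarith
  · have h1 := key _ _ a1 c1
    rw [h, mul_zero] at h1
    linarith
  · left
    refine ⟨h, ?_⟩
    have h1 := key _ _ a1 c2
    by_contra hc
    push Not at hc
    rcases le_total (C.sm k θ b) (C.sp i θ b) with h2 | h2
    · nlinarith
    · nlinarith

end Pool.LightB
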