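import Pool.Agent.Helper638.LightB.Defs
import Pool.Agent.Helper638.LightB.P_FFd
import Pool.Agent.Helper638.LightB.P_asn_spec
import Pool.Agent.Helper638.LightB.P_asn_cont
import Pool.Agent.Helper638.LightB.P_geo_shift
import Pool.Agent.Helper638.LightB.P_gap

set_option autoImplicit false

open MeasureTheory Set Filter Topology

namespace Pool.LightB
variable {n : ℕ}


theorem isOpen_hits (C : Cfg n) (i j : Fin n) :
    IsOpen {p : ℝ × ℝ | p ∈ C.U i ∧ C.Hits i j p.1 p.2} := by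
  classical
  by_cases hij : i = j
  · have : {p : ℝ × ℝ | p ∈ C.U i ∧ C.Hits i j p.1 p.2} = ∅ := by
      ext p
      simp only [mem_setOf_eq, mem_empty_iff_false, iff_false, not_and]
      intro _ h
      exact h.1 hij
    rw [this]
    exact isOpen_empty
  have hdv : ∀ a b : Fin n, Continuous (fun p : ℝ × ℝ => C.dv a b p.1) := by
    intro a b
    unfold Cfg.dv
    fun_prop
  have hE : {p : ℝ × ℝ | p ∈ C.U i ∧ C.Hits i j p.1 p.2} =
      ((C.U i ∩ C.U j) ∩ {p : ℝ × ℝ | 0 < C.dv i j p.1}) ∩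
        ⋂ k : Fin n, (if k ≠ i ∧ k ≠ j then
          ({p : ℝ × ℝ | 0 ≤ C.dv i k p.1} ∩ {p | C.Tch k p.1 p.2}) ∩ {p | C.dv j k p.1 ≤ 0}
          else ∅)ᶜ := by
    ext p
    simp only [mem_setOf_eq, mem_inter_iff, mem_iInter, mem_compl_iff]
    constructor
    · rintro ⟨hU, h1, h2, h3, h4⟩
      refine ⟨⟨⟨hU, h3⟩, h2⟩, fun k => ?_⟩
      by_cases hk : k ≠ i ∧ k ≠ j
      · rw [if_pos hk]
        rintro ⟨⟨ha, hb⟩, hc⟩
        simp only [mem_setOf_eq] at ha hb hc
        have hTi : C.Tch i p.1 p.2 := ⟨hU.1.le, hU.2.le⟩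
        rcases gap C (Ne.symm hk.1) hTi hb with hg | hg
        · exact absurd (h4 k hk.1 hk.2 hg.1 hb) (not_lt.2 hc)
        · exact absurd hg.1 (not_lt.2 ha)
      · rw [if_neg hk]
        exact fun h => h
    · rintro ⟨⟨⟨hU, h3⟩, h2⟩, h4⟩
      refine ⟨hU, hij, h2, h3, fun k hk1 hk2 h5 h6 => ?_⟩
      by_contra hc
      have := h4 k
      rw [if_pos ⟨hk1, hk2⟩] at this
      exact this ⟨⟨h5.le, h6⟩, not_lt.1 hc⟩
  rw [hE]
  refine IsOpen.inter (IsOpen.inter (IsOpen.inter (asn_cont C i).2.1 (asn_cont C j).2.1)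
    (isOpen_lt continuous_const (hdv i j))) (isOpen_iInter_of_finite fun k => ?_)
  rw [isOpen_compl_iff]
  split_ifs
  · exact ((isClosed_le continuous_const (hdv i k)).inter (asn_cont C k).2.2.1).inter
      (isClosed_le (hdv j k) continuous_const)
  · exact isClosed_empty

end Pool.LightB
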