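import Pool.Agent.Helper638.LightB.Defs
import Pool.Agent.Helper638.LightB.P_FFd
import Pool.Agent.Helper638.LightB.P_asn_spec
import Pool.Agent.Helper638.LightB.P_geo_shift
import Pool.Agent.Helper638.LightB.P_rr_facts
import Pool.Agent.Helper638.LightB.P_hits_unique
import Pool.Agent.Helper638.LightB.P_T_of_hits
import Pool.Agent.Helper638.LightB.P_Tj_facts

set_option autoImplicit false

open MeasureTheory Set Filter Topology

namespace Pool.LightB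
variable {n : ℕ}


theorem shift_dv (C : Cfg n) (m : ℤ) (i k : Fin n) (θ : ℝ) :
    C.dv i k (θ + 2 * Real.pi * m) = C.dv i k θ :=
  ((geo_shift C i k θ 0).1 m).2.2.2.2.2.2.1

theorem shift_Tch (C : Cfg n) (m : ℤ) (i : Fin n) (θ b : ℝ) :
    C.Tch i (θ + 2 * Real.pi * m) b ↔ C.Tch i θ b :=
  ((geo_shift C i i θ b).1 m).2.2.2.2.2.2.2.1

theorem shift_U (C : Cfg n) (m : ℤ) (i : Fin n) (θ b : ℝ) :
    (θ + 2 * Real.pi * m, b) ∈ C.U i ↔ (θ, b) ∈ C.U i :=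
  ((geo_shift C i i θ b).1 m).2.2.2.2.2.2.2.2.1

theorem shift_rr (C : Cfg n) (m : ℤ) (i : Fin n) (θ b : ℝ) :
    C.rr i (θ + 2 * Real.pi * m, b) =
      ((C.rr i (θ, b)).1 + 2 * Real.pi * m, (C.rr i (θ, b)).2) :=
  ((geo_shift C i i θ b).1 m).2.2.2.2.2.2.2.2.2

theorem shift_lo (C : Cfg n) (m : ℤ) (i : Fin n) (θ : ℝ) :
    C.lo i (θ + 2 * Real.pi * m) = C.lo i θ :=
  ((geo_shift C i i θ 0).1 m).1

theorem shift_hi (C : Cfg n) (m : ℤ) (i : Fin n) (θ : ℝ) :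
    C.hi i (θ + 2 * Real.pi * m) = C.hi i θ :=
  ((geo_shift C i i θ 0).1 m).2.1

theorem shift_cc (C : Cfg n) (m : ℤ) (i : Fin n) (θ b : ℝ) :
    C.cc i (θ + 2 * Real.pi * m) b = C.cc i θ b :=
  ((geo_shift C i i θ b).1 m).2.2.2.1

theorem shift_sp (C : Cfg n) (m : ℤ) (i : Fin n) (θ b : ℝ) :
    C.sp i (θ + 2 * Real.pi * m) b = C.sp i θ b :=
  ((geo_shift C i i θ b).1 m).2.2.2.2.1

theorem shift_sm (C : Cfg n) (m : ℤ) (i : Fin n) (θ b : ℝ) :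
    C.sm i (θ + 2 * Real.pi * m) b = C.sm i θ b :=
  ((geo_shift C i i θ b).1 m).2.2.2.2.2.1

theorem shift_hits (C : Cfg n) (m : ℤ) (i j : Fin n) (θ b : ℝ) :
    C.Hits i j (θ + 2 * Real.pi * m) b ↔ C.Hits i j θ b := by
  unfold Cfg.Hits
  simp only [shift_dv, shift_U, shift_Tch]

theorem shift_Tj (C : Cfg n) (k : ℤ) (j : Fin n) (θ b : ℝ) :
    C.Tj j (θ + 2 * Real.pi * k, b) = ((C.Tj j (θ, b)).1 + 2 * Real.pi * k, (C.Tj j (θ, b)).2) := by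
  show C.rr j (θ + 2 * Real.pi * k + Real.pi, -b) =
    ((C.rr j (θ + Real.pi, -b)).1 + 2 * Real.pi * k, (C.rr j (θ + Real.pi, -b)).2)
  rw [show θ + 2 * Real.pi * k + Real.pi = (θ + Real.pi) + 2 * Real.pi * k by ring, shift_rr]

theorem shift_T (C : Cfg n) (k : ℤ) (l : St n) : C.T (Cfg.sh k l) = Cfg.sh k (C.T l) := by
  obtain ⟨i, θ, b⟩ := l
  by_cases h : ∃ j, C.Hits i j θ b
  · obtain ⟨j, hj⟩ := h
    rw [T_of_hits C hj]
    have h1 : C.Hits i j (θ + 2 * Real.pi * k) b := (shift_hits C k i j θ b).2 hj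
    show C.T (i, θ + 2 * Real.pi * k, b) = _
    rw [T_of_hits C h1, shift_Tj]
    rfl
  · have h1 : ¬ ∃ j, C.Hits i j (θ + 2 * Real.pi * k) b := by
      rintro ⟨j, hj⟩
      exact h ⟨j, (shift_hits C k i j θ b).1 hj⟩
    have h2 : C.T (i, θ, b) = (i, θ, b) := by
      unfold Cfg.T
      exact dif_neg h
    have h3 : C.T (i, θ + 2 * Real.pi * k, b) = (i, θ + 2 * Real.pi * k, b) := by
      unfold Cfg.T
      exact dif_neg h1
    rw [h2]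
    exact h3

theorem shift_exHits (C : Cfg n) (k : ℤ) (l : St n) :
    (∃ j, C.Hits (Cfg.sh k l).1 j (Cfg.sh k l).2.1 (Cfg.sh k l).2.2) ↔ ∃ j, C.Hits l.1 j l.2.1 l.2.2 := by
  constructor
  · rintro ⟨j, hj⟩
    exact ⟨j, (shift_hits C k _ _ _ _).1 hj⟩
  · rintro ⟨j, hj⟩
    exact ⟨j, (shift_hits C k _ _ _ _).2 hj⟩

theorem shift_M (C : Cfg n) (k : ℤ) (l : St n) : Cfg.sh k l ∈ C.M ↔ l ∈ C.M := by
  obtain ⟨i, θ, b⟩ := l
  exact shift_U C k i θ b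

theorem shift_Om (C : Cfg n) (k : ℤ) (m : ℕ) : ∀ l : St n, Cfg.sh k l ∈ C.Om m ↔ l ∈ C.Om m := by
  induction m with
  | zero => intro l; exact shift_M C k l
  | succ m ih =>
    intro l
    show (Cfg.sh k l ∈ C.M ∧ (∃ j, C.Hits (Cfg.sh k l).1 j (Cfg.sh k l).2.1 (Cfg.sh k l).2.2) ∧
      C.T (Cfg.sh k l) ∈ C.Om m) ↔ (l ∈ C.M ∧ (∃ j, C.Hits l.1 j l.2.1 l.2.2) ∧ C.T l ∈ C.Om m)
    rw [shift_T, ih, shift_exHits, shift_M]

theorem shift_S1 (C : Cfg n) (k : ℤ) (l : St n) : Cfg.sh k l ∈ C.S1 ↔ l ∈ C.S1 := by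
  show (Cfg.sh k l ∈ C.M ∧ ∃ k', k' ≠ l.1 ∧ 0 < C.dv l.1 k' (l.2.1 + 2 * Real.pi * k) ∧
    (l.2.2 = C.lo k' (l.2.1 + 2 * Real.pi * k) ∨ l.2.2 = C.hi k' (l.2.1 + 2 * Real.pi * k))) ↔ _
  simp only [shift_dv, shift_lo, shift_hi, shift_M]
  exact Iff.rfl

theorem shift_iter (C : Cfg n) (k : ℤ) (m : ℕ) : ∀ l : St n,
    (C.T^[m]) (Cfg.sh k l) = Cfg.sh k ((C.T^[m]) l) := by
  induction m with
  | zero => intro l; rfl
  | succ m ih =>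
    intro l
    rw [Function.iterate_succ_apply, Function.iterate_succ_apply, shift_T, ih]

theorem shift_sig (C : Cfg n) (k : ℤ) (N : ℕ) : ∀ l : St n, C.sig N (Cfg.sh k l) = C.sig N l := by
  induction N with
  | zero => intro l; rfl
  | succ N ih =>
    intro l
    unfold Cfg.sig
    by_cases h : ∃ j, C.Hits l.1 j l.2.1 l.2.2
    · rw [if_pos h, if_pos ((shift_exHits C k l).2 h), shift_T, ih]
      show C.sm (C.T l).1 (l.2.1 + 2 * Real.pi * k) l.2.2 +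
        Cfg.gf (C.sig N (C.T l) - C.sp (C.T l).1 ((C.T l).2.1 + 2 * Real.pi * k) (C.T l).2.2)
          (C.cc (C.T l).1 ((C.T l).2.1 + 2 * Real.pi * k) (C.T l).2.2) = _
      rw [shift_sm, shift_sp, shift_cc]
    · rw [if_neg h, if_neg (fun h' => h ((shift_exHits C k l).1 h'))]

/-- equivariance under the shift by `2π k`. -/
theorem shift (C : Cfg n) (k : ℤ) (l : St n) :
    C.T (Cfg.sh k l) = Cfg.sh k (C.T l) ∧ C.rho (Cfg.sh k l) = Cfg.sh k (C.rho l) ∧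
    (∀ m, Cfg.sh k l ∈ C.Om m ↔ l ∈ C.Om m) ∧ (Cfg.sh k l ∈ C.S1 ↔ l ∈ C.S1) ∧
    (Cfg.sh k l ∈ C.SS ↔ l ∈ C.SS) ∧ (Cfg.sh k l ∈ C.Trap ↔ l ∈ C.Trap) ∧
    (∀ N, C.sig N (Cfg.sh k l) = C.sig N l) ∧ C.rho (C.rho l) = l ∧
    (l ∈ C.M ↔ C.rho l ∈ C.M) ∧
    (l.2.1 ≤ (C.T l).2.1 ∧ (C.T l).2.1 ≤ l.2.1 + 2 * Real.pi) ∧
    l.2.1 - Real.pi ≤ (C.rho l).2.1 ∧ (C.rho l).2.1 ≤ l.2.1 + Real.pi := by
  refine ⟨shift_T C k l, ?_, fun m => shift_Om C k m l, shift_S1 C k l, ?_, ?_,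
    fun N => shift_sig C k N l, ?_, ?_, ?_, ?_, ?_⟩
  · obtain ⟨i, θ, b⟩ := l
    show (i, C.rr i (θ + 2 * Real.pi * k, b)) = _
    rw [shift_rr]
    rfl
  · constructor
    · rintro ⟨m, h1, h2⟩
      refine ⟨m, (shift_Om C k m l).1 h1, ?_⟩
      rw [shift_iter] at h2
      exact (shift_S1 C k _).1 h2
    · rintro ⟨m, h1, h2⟩
      refine ⟨m, (shift_Om C k m l).2 h1, ?_⟩
      rw [shift_iter]
      exact (shift_S1 C k _).2 h2
  · exact ⟨fun h m => (shift_Om C k m l).1 (h m), fun h m => (shift_Om C k m l).2 (h m)⟩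
  · show (l.1, C.rr l.1 (C.rr l.1 l.2)) = l
    rw [(rr_facts C l.1 l.2).1]
  · exact (rr_facts C l.1 l.2).2.1.symm
  · obtain ⟨i, θ, b⟩ := l
    have hpi := Real.pi_pos
    by_cases h : ∃ j, C.Hits i j θ b
    · obtain ⟨j, hj⟩ := h
      rw [T_of_hits C hj]
      have h1 := Tj_facts C j (θ, b) hj.2.2.1
      exact ⟨h1.2.2.2.2.1, h1.2.2.2.2.2.1⟩
    · have h2 : C.T (i, θ, b) = (i, θ, b) := by
        unfold Cfg.T
        exact dif_neg h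
      rw [h2]
      show θ ≤ θ ∧ θ ≤ θ + 2 * Real.pi
      constructor <;> linarith
  · exact (rr_facts C l.1 l.2).2.2.2.2.2.1
  · exact (rr_facts C l.1 l.2).2.2.2.2.2.2.1

end Pool.LightB
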