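import Pool.Agent.Helper638.LightB.Defs
import Pool.Agent.Helper638.LightB.P_FFd
import Pool.Agent.Helper638.LightB.P_asn_spec
import Pool.Agent.Helper638.LightB.P_asn_cont
import Pool.Agent.Helper638.LightB.P_geo_shift
import Pool.Agent.Helper638.LightB.P_gap
import Pool.Agent.Helper638.LightB.P_hits_unique
import Pool.Agent.Helper638.LightB.P_T_of_hits
import Pool.Agent.Helper638.LightB.P_isOpen_hits
import Pool.Agent.Helper638.LightB.P_shift

set_option autoImplicit false

open MeasureTheory Set Filter Topology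

namespace Pool.LightB
variable {n : ℕ}


theorem meas_prod {β : Type*} [MeasurableSpace β] {E : Type*} [MeasurableSpace E] (f : Fin n → E → β)
    (hf : ∀ i, Measurable (f i)) : Measurable (fun l : Fin n × E => f l.1 l.2) := by
  intro S hS
  have : (fun l : Fin n × E => f l.1 l.2) ⁻¹' S = ⋃ i : Fin n, ({i} : Set (Fin n)) ×ˢ ((f i) ⁻¹' S) := by
    ext l
    simp only [mem_preimage, mem_iUnion, mem_prod, mem_singleton_iff]
    constructor
    · intro h; exact ⟨l.1, rfl, h⟩
    · rintro ⟨i, hi, h⟩; rw [hi]; exact h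
  rw [this]
  exact MeasurableSet.iUnion fun i => (MeasurableSet.singleton i).prod (hf i hS)

theorem meas_dv (C : Cfg n) (i j : Fin n) : Measurable (fun θ : ℝ => C.dv i j θ) := by
  unfold Cfg.dv
  fun_prop

theorem meas_Tch (C : Cfg n) (i : Fin n) : MeasurableSet {p : ℝ × ℝ | C.Tch i p.1 p.2} :=
  (asn_cont C i).2.2.1.measurableSet

theorem meas_U (C : Cfg n) (i : Fin n) : MeasurableSet (C.U i) :=
  (asn_cont C i).2.1.measurableSet

theorem meas_lo (C : Cfg n) (i : Fin n) : Measurable (C.lo i) := (asn_cont C i).2.2.2.1.measurable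

theorem meas_hi (C : Cfg n) (i : Fin n) : Measurable (C.hi i) := (asn_cont C i).2.2.2.2.1.measurable

theorem meas_asn (C : Cfg n) (i : Fin n) : Measurable (fun p : ℝ × ℝ => C.asn i p.1 p.2) :=
  (asn_cont C i).2.2.2.2.2.1

theorem meas_sp (C : Cfg n) (i : Fin n) : Measurable (fun p : ℝ × ℝ => C.sp i p.1 p.2) :=
  (asn_cont C i).2.2.2.2.2.2.1

theorem meas_sm (C : Cfg n) (i : Fin n) : Measurable (fun p : ℝ × ℝ => C.sm i p.1 p.2) :=
  (asn_cont C i).2.2.2.2.2.2.2.1

theorem meas_cc (C : Cfg n) (i : Fin n) : Measurable (fun p : ℝ × ℝ => C.cc i p.1 p.2) :=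
  (asn_cont C i).2.2.2.2.2.2.2.2.1

theorem meas_H1 (C : Cfg n) (i : Fin n) : Measurable (C.H1 i) := by
  have : Continuous (C.H1 i) :=
    continuous_iff_continuousAt.2 fun φ => (C.h1 i φ).continuousAt
  exact this.measurable

theorem meas_rr (C : Cfg n) (i : Fin n) : Measurable (C.rr i) := by
  classical
  have h : Measurable (fun p : ℝ × ℝ => if C.Tch i p.1 p.2 then
      (p.1 + 2 * C.asn i p.1 p.2,
        -p.2 + 2 * C.H1 i (p.1 + C.asn i p.1 p.2) * Real.cos (C.asn i p.1 p.2))
      else p) := by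
    refine Measurable.ite (meas_Tch C i) ?_ measurable_id
    have a := meas_asn C i
    refine Measurable.prodMk (measurable_fst.add (measurable_const.mul a)) ?_
    refine measurable_snd.neg.add (Measurable.mul ?_ (Real.measurable_cos.comp a))
    exact measurable_const.mul ((meas_H1 C i).comp (measurable_fst.add a))
  have e : C.rr i = fun p : ℝ × ℝ => if C.Tch i p.1 p.2 then
      (p.1 + 2 * C.asn i p.1 p.2,
        -p.2 + 2 * C.H1 i (p.1 + C.asn i p.1 p.2) * Real.cos (C.asn i p.1 p.2))
      else p := by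
    funext p
    unfold Cfg.rr
    congr
  rw [e]
  exact h

theorem meas_hits (C : Cfg n) (i j : Fin n) : MeasurableSet {p : ℝ × ℝ | C.Hits i j p.1 p.2} := by
  unfold Cfg.Hits
  refine (MeasurableSet.const _).inter (MeasurableSet.inter ?_ (MeasurableSet.inter ?_ ?_))
  · exact measurableSet_lt measurable_const ((meas_dv C i j).comp measurable_fst)
  · exact meas_U C j
  · have : {p : ℝ × ℝ | ∀ k, k ≠ i → k ≠ j → 0 < C.dv i k p.1 → C.Tch k p.1 p.2 → 0 < C.dv j k p.1} =
        ⋂ k : Fin n, ({p : ℝ × ℝ | k ≠ i}ᶜ ∪ ({p : ℝ × ℝ | k ≠ j}ᶜ ∪ ({p : ℝ × ℝ | 0 < C.dv i k p.1}ᶜ ∪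
          ({p : ℝ × ℝ | C.Tch k p.1 p.2}ᶜ ∪ {p : ℝ × ℝ | 0 < C.dv j k p.1})))) := by
      ext p
      simp only [mem_iInter, mem_union, mem_compl_iff]
      constructor
      · intro h k
        have := h k
        simp only [Set.mem_ofPred_eq]
        tauto
      · intro h k
        have := h k
        simp only [Set.mem_ofPred_eq] at this
        tauto
    change MeasurableSet {p : ℝ × ℝ | ∀ k, k ≠ i → k ≠ j → 0 < C.dv i k p.1 → C.Tch k p.1 p.2 → 0 < C.dv j k p.1}
    rw [this]
    refine MeasurableSet.iInter fun k => ?_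
    refine (MeasurableSet.const _).compl.union ((MeasurableSet.const _).compl.union (MeasurableSet.union ?_ (MeasurableSet.union ?_ ?_)))
    · exact (measurableSet_lt measurable_const ((meas_dv C i k).comp measurable_fst)).compl
    · exact (meas_Tch C k).compl
    · exact measurableSet_lt measurable_const ((meas_dv C j k).comp measurable_fst)

theorem meas_Tj (C : Cfg n) (j : Fin n) : Measurable (C.Tj j) := by
  unfold Cfg.Tj
  exact (meas_rr C j).comp ((measurable_fst.add measurable_const).prodMk measurable_snd.neg)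

theorem meas_T (C : Cfg n) : Measurable C.T := by
  refine meas_prod (fun i p => C.T (i, p)) fun i => ?_
  intro S hS
  have e : (fun p : ℝ × ℝ => C.T (i, p)) ⁻¹' S =
      (⋃ j : Fin n, ({p : ℝ × ℝ | C.Hits i j p.1 p.2} ∩ (fun p : ℝ × ℝ => ((j, C.Tj j p) : St n)) ⁻¹' S)) ∪
      ((⋃ j : Fin n, {p : ℝ × ℝ | C.Hits i j p.1 p.2})ᶜ ∩ (fun p : ℝ × ℝ => ((i, p) : St n)) ⁻¹' S) := by
    ext p
    simp only [mem_preimage, mem_union, mem_iUnion, mem_inter_iff, mem_compl_iff]
    by_cases h : ∃ j, C.Hits i j p.1 p.2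
    · obtain ⟨j, hj⟩ := h
      have h1 : C.T (i, p) = (j, C.Tj j p) := T_of_hits C hj
      rw [h1]
      constructor
      · intro hS'
        exact Or.inl ⟨j, hj, hS'⟩
      · rintro (⟨j', hj', hS'⟩ | ⟨hno, -⟩)
        · have := hits_unique C hj hj'
          subst this
          exact hS'
        · exact absurd ⟨j, hj⟩ hno
    · have h1 : C.T (i, p) = (i, p) := by
        unfold Cfg.T
        rw [dif_neg h]
      rw [h1]
      constructor
      · intro hS'
        exact Or.inr ⟨h, hS'⟩
      · rintro (⟨j', hj', hS'⟩ | ⟨-, hS'⟩)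
        · exact absurd ⟨j', hj'⟩ h
        · exact hS'
  rw [e]
  refine MeasurableSet.union (MeasurableSet.iUnion fun j => ?_) (MeasurableSet.inter ?_ ?_)
  · exact (meas_hits C i j).inter ((measurable_const.prodMk (meas_Tj C j)) hS)
  · exact (MeasurableSet.iUnion fun j => meas_hits C i j).compl
  · exact measurable_prodMk_left hS

theorem meas_M (C : Cfg n) : MeasurableSet C.M := by
  have h := meas_prod (n := n) (β := Prop) (E := ℝ × ℝ) (fun i p => p ∈ C.U i) (fun i => by
    refine measurableSet_setOfPred.1 ?_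
    exact meas_U C i)
  exact measurableSet_setOfPred.2 h

theorem meas_H (C : Cfg n) : MeasurableSet {l : St n | ∃ j, C.Hits l.1 j l.2.1 l.2.2} := by
  have h := meas_prod (n := n) (β := Prop) (E := ℝ × ℝ) (fun i p => ∃ j, C.Hits i j p.1 p.2) (fun i => by
    refine measurableSet_setOfPred.1 ?_
    have : {p : ℝ × ℝ | ∃ j, C.Hits i j p.1 p.2} = ⋃ j, {p : ℝ × ℝ | C.Hits i j p.1 p.2} := by
      ext p; simp
    rw [this]
    exact MeasurableSet.iUnion fun j => meas_hits C i j)
  exact measurableSet_setOfPred.2 h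

theorem meas_Om (C : Cfg n) (m : ℕ) : MeasurableSet (C.Om m) := by
  induction m with
  | zero => exact meas_M C
  | succ m ih => exact (meas_M C).inter ((meas_H C).inter ((meas_T C) ih))

theorem meas_Trap (C : Cfg n) : MeasurableSet C.Trap := by
  have : C.Trap = ⋂ m, C.Om m := by
    ext l
    simp only [mem_iInter]
    rfl
  rw [this]
  exact MeasurableSet.iInter fun m => meas_Om C m

theorem meas_S1 (C : Cfg n) : MeasurableSet C.S1 := by
  have h := meas_prod (n := n) (β := Prop) (E := ℝ × ℝ)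
    (fun i p => ∃ k, k ≠ i ∧ 0 < C.dv i k p.1 ∧ (p.2 = C.lo k p.1 ∨ p.2 = C.hi k p.1)) (fun i => by
    refine measurableSet_setOfPred.1 ?_
    have : {p : ℝ × ℝ | ∃ k, k ≠ i ∧ 0 < C.dv i k p.1 ∧ (p.2 = C.lo k p.1 ∨ p.2 = C.hi k p.1)} =
        ⋃ k, ({p : ℝ × ℝ | k ≠ i} ∩ ({p : ℝ × ℝ | 0 < C.dv i k p.1} ∩
          ({p : ℝ × ℝ | p.2 = C.lo k p.1} ∪ {p : ℝ × ℝ | p.2 = C.hi k p.1}))) := by
      ext p; simp
    rw [this]
    refine MeasurableSet.iUnion fun k => (MeasurableSet.const _).inter (MeasurableSet.inter ?_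
      (MeasurableSet.union ?_ ?_))
    · exact measurableSet_lt measurable_const ((meas_dv C i k).comp measurable_fst)
    · exact measurableSet_eq_fun measurable_snd ((meas_lo C k).comp measurable_fst)
    · exact measurableSet_eq_fun measurable_snd ((meas_hi C k).comp measurable_fst))
  exact (meas_M C).inter (measurableSet_setOfPred.2 h)

theorem meas_SS (C : Cfg n) : MeasurableSet C.SS := by
  have : C.SS = ⋃ m, (C.Om m ∩ (C.T^[m]) ⁻¹' C.S1) := by
    ext l
    simp only [mem_iUnion]
    rfl
  rw [this]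
  exact MeasurableSet.iUnion fun m => (meas_Om C m).inter (((meas_T C).iterate m) (meas_S1 C))

theorem meas_rho (C : Cfg n) : Measurable C.rho := by
  unfold Cfg.rho
  exact measurable_fst.prodMk (meas_prod (fun i p => C.rr i p) fun i => meas_rr C i)

theorem meas_sh (m : ℤ) : Measurable (Cfg.sh (n := n) m) := by
  unfold Cfg.sh
  exact measurable_fst.prodMk (Measurable.prodMk ((measurable_fst.comp measurable_snd).add measurable_const)
    (measurable_snd.comp measurable_snd))

theorem meas_inv (C : Cfg n) (m : ℕ) : Measurable (C.inv m) := by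
  unfold Cfg.inv
  exact (meas_sh _).comp ((meas_rho C).comp (((meas_T C).iterate m).comp (meas_rho C)))

theorem meas_gf {E : Type*} [MeasurableSpace E] {s c : E → ℝ} (hs : Measurable s) (hc : Measurable c) :
    Measurable (fun x => Cfg.gf (s x) (c x)) := by
  unfold Cfg.gf
  exact (hc.mul hs).div (hc.add (measurable_const.mul hs))

theorem meas_comp3 {F : Fin n → ℝ → ℝ → ℝ} (hF : ∀ i, Measurable (fun p : ℝ × ℝ => F i p.1 p.2))
    {E : Type*} [MeasurableSpace E] {j : E → Fin n} {a b : E → ℝ} (hj : Measurable j)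
    (ha : Measurable a) (hb : Measurable b) : Measurable (fun x => F (j x) (a x) (b x)) := by
  have h := meas_prod (n := n) (fun i (p : ℝ × ℝ) => F i p.1 p.2) hF
  exact h.comp (hj.prodMk (ha.prodMk hb))

theorem meas_sig (C : Cfg n) (N : ℕ) : Measurable (C.sig N) := by
  classical
  induction N with
  | zero => exact measurable_const
  | succ m ih =>
    have hTf : Measurable (fun l => (C.T l).1) := measurable_fst.comp (meas_T C)
    have hTm : Measurable (fun l => (C.T l).2.1) := (measurable_fst.comp measurable_snd).comp (meas_T C)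
    have hTs : Measurable (fun l => (C.T l).2.2) := (measurable_snd.comp measurable_snd).comp (meas_T C)
    have h1 : Measurable (fun l : St n => C.sm (C.T l).1 l.2.1 l.2.2) :=
      meas_comp3 (meas_sm C) hTf (measurable_fst.comp measurable_snd)
        (measurable_snd.comp measurable_snd)
    show Measurable (fun l : St n => if ∃ j, C.Hits l.1 j l.2.1 l.2.2 then
        C.sm (C.T l).1 l.2.1 l.2.2 +
          Cfg.gf (C.sig m (C.T l) - C.sp (C.T l).1 (C.T l).2.1 (C.T l).2.2)
            (C.cc (C.T l).1 (C.T l).2.1 (C.T l).2.2) else C.K)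
    refine Measurable.ite (meas_H C) ?_ measurable_const
    exact h1.add (meas_gf ((ih.comp (meas_T C)).sub (meas_comp3 (meas_sp C) hTf hTm hTs))
      (meas_comp3 (meas_cc C) hTf hTm hTs))

/-- measurability of everything. -/
theorem meas (C : Cfg n) :
    Measurable C.T ∧ (∀ m, MeasurableSet (C.Om m)) ∧ MeasurableSet C.Trap ∧ MeasurableSet C.M ∧
    MeasurableSet C.S1 ∧ MeasurableSet C.SS ∧ Measurable C.rho ∧ (∀ m, Measurable (C.inv m)) ∧
    (∀ N, Measurable (C.sig N)) ∧ Measurable C.sigInf ∧ Measurable C.sigU ∧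
    (∀ N, Measurable (C.ZN N)) ∧ Measurable C.Z ∧ Measurable C.cs ∧
    (∀ i, Measurable (C.rr i)) := by
  classical
  have hI : Measurable C.sigInf := Measurable.limsup (fun N => meas_sig C N)
  have hf : Measurable (fun l : St n => l.2.1) := measurable_fst.comp measurable_snd
  have hg : Measurable (fun l : St n => l.2.2) := measurable_snd.comp measurable_snd
  refine ⟨meas_T C, meas_Om C, meas_Trap C, meas_M C, meas_S1 C, meas_SS C, meas_rho C, meas_inv C, meas_sig C,
    hI, ?_, ?_, ?_, ?_, meas_rr C⟩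
  · unfold Cfg.sigU
    exact (meas_comp3 (meas_sp C) measurable_fst hf hg).sub
      (meas_gf ((hI.comp (meas_rho C)).sub (meas_comp3 (meas_sp C) measurable_fst
        (hf.comp (meas_rho C)) (hg.comp (meas_rho C))))
        (meas_comp3 (meas_cc C) measurable_fst hf hg))
  · intro N
    unfold Cfg.ZN
    exact Measurable.ite (meas_Om C N) measurable_const measurable_const
  · unfold Cfg.Z
    exact Measurable.ite (meas_Trap C) measurable_const measurable_const
  · unfold Cfg.cs
    exact meas_comp3 (meas_cc C) measurable_fst hf hg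

end Pool.LightB
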