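import Pool.Agent.Helper638.LightB.Defs
import Pool.Agent.Helper638.LightB.P_FFd
import Pool.Agent.Helper638.LightB.P_asn_spec
import Pool.Agent.Helper638.LightB.P_asn_cont

set_option autoImplicit false

open MeasureTheory Set Filter Topology

namespace Pool.LightB
variable {n : ℕ}


/-- the homeomorphism `(θ,a) ↦ (θ, FF θ a)` -/
noncomputable def asn_deriv_homeo (C : Cfg n) (i : Fin n) :
    OpenPartialHomeomorph (ℝ × ℝ) (ℝ × ℝ) where
  toFun := fun q => (q.1, C.FF i q.1 q.2)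
  invFun := fun q => (q.1, C.asn i q.1 q.2)
  source := {q | q.2 ∈ Ioo (-(Real.pi / 2)) (Real.pi / 2)}
  target := C.U i
  map_source' := fun q hq => (asn_spec C i q.1 0).2.1 q.2 hq
  map_target' := fun q hq => ((asn_spec C i q.1 q.2).2.2.2.2.1 hq).1
  left_inv' := fun q hq => Prod.ext rfl
    (((asn_spec C i q.1 (C.FF i q.1 q.2)).1 q.2 ⟨hq.1.le, hq.2.le⟩ rfl).1)
  right_inv' := fun q hq => Prod.ext rfl
    ((asn_spec C i q.1 q.2).2.2.1 ⟨hq.1.le, hq.2.le⟩)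
  open_source := isOpen_Ioo.preimage continuous_snd
  open_target := (asn_cont C i).2.1
  continuousOn_toFun := (continuous_fst.prodMk (FFd C i).2.2.1.continuous).continuousOn
  continuousOn_invFun := continuousOn_fst.prodMk
    ((asn_cont C i).1.mono fun _ hq => ⟨hq.1.le, hq.2.le⟩)

/-- the triangular linear equivalence -/
noncomputable def asn_deriv_lin (x c : ℝ) (hc : c ≠ 0) : (ℝ × ℝ) ≃L[ℝ] (ℝ × ℝ) :=
  ContinuousLinearEquiv.equivOfInverse
    ((ContinuousLinearMap.fst ℝ ℝ ℝ).prod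
      (x • ContinuousLinearMap.fst ℝ ℝ ℝ + c • ContinuousLinearMap.snd ℝ ℝ ℝ))
    ((ContinuousLinearMap.fst ℝ ℝ ℝ).prod
      (c⁻¹ • (ContinuousLinearMap.snd ℝ ℝ ℝ - x • ContinuousLinearMap.fst ℝ ℝ ℝ)))
    (fun u => by
      ext
      · simp
      · simp only [ContinuousLinearMap.prod_apply, ContinuousLinearMap.smul_apply,
          ContinuousLinearMap.sub_apply, ContinuousLinearMap.add_apply,
          ContinuousLinearMap.coe_fst', ContinuousLinearMap.coe_snd', smul_eq_mul]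
        field_simp
        ring)
    (fun u => by
      ext
      · simp
      · simp only [ContinuousLinearMap.prod_apply, ContinuousLinearMap.smul_apply,
          ContinuousLinearMap.sub_apply, ContinuousLinearMap.add_apply,
          ContinuousLinearMap.coe_fst', ContinuousLinearMap.coe_snd', smul_eq_mul]
        field_simp
        ring)

theorem asn_deriv_main (C : Cfg n) (i : Fin n) (p : ℝ × ℝ) (hp : p ∈ C.U i) :
    ContDiffAt ℝ 2 (fun q : ℝ × ℝ => C.asn i q.1 q.2) p ∧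
    ∃ g' : ℝ × ℝ →L[ℝ] ℝ, HasFDerivAt (fun q : ℝ × ℝ => C.asn i q.1 q.2) g' p ∧
      ∀ u : ℝ × ℝ, g' u = (u.2 + C.sp i p.1 p.2 * u.1) / C.cc i p.1 p.2 - u.1 := by
  obtain ⟨hFa, hFθ, hF2, -, -, -, -, -, -⟩ := FFd C i
  obtain ⟨-, -, hb, -, hU, -, -⟩ := asn_spec C i p.1 p.2
  obtain ⟨ha, hT, hcos, hcc⟩ := hU hp
  have hbp := hb hT
  obtain ⟨a, haa⟩ : ∃ a, a = C.asn i p.1 p.2 := ⟨_, rfl⟩
  obtain ⟨c, hc⟩ : ∃ c, c = C.cc i p.1 p.2 := ⟨_, rfl⟩
  obtain ⟨s, hs⟩ : ∃ s, s = C.sp i p.1 p.2 := ⟨_, rfl⟩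
  have hc' : c = C.rh i (p.1 + a) * Real.cos a := by rw [hc, haa]; rfl
  have hs' : s = C.H i (p.1 + a) * Real.cos a - C.H1 i (p.1 + a) * Real.sin a := by
    rw [hs, haa]; rfl
  have hc0 : c ≠ 0 := by rw [hc]; exact hcc.ne'
  have hD : HasFDerivAt (fun q : ℝ × ℝ => C.FF i q.1 q.2)
      ((c - s) • ContinuousLinearMap.fst ℝ ℝ ℝ + c • ContinuousLinearMap.snd ℝ ℝ ℝ) (p.1, a) := by
    have hd : DifferentiableAt ℝ (fun q : ℝ × ℝ => C.FF i q.1 q.2) (p.1, a) :=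
      (hF2.differentiable (by norm_num)).differentiableAt
    have hd' := hd.hasFDerivAt
    obtain ⟨D, hDD⟩ : ∃ D, D = fderiv ℝ (fun q : ℝ × ℝ => C.FF i q.1 q.2) (p.1, a) := ⟨_, rfl⟩
    rw [← hDD] at hd'
    have e1 : D (1, 0) = c - s := by
      have h1 : HasDerivAt (fun θ : ℝ => ((θ, a) : ℝ × ℝ)) ((1, 0) : ℝ × ℝ) p.1 :=
        (hasDerivAt_id p.1).prodMk (hasDerivAt_const p.1 a)
      have h2 := HasFDerivAt.comp_hasDerivAt p.1 hd' h1
      have h3 := hFθ p.1 a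
      rw [← hc', ← hs'] at h3
      exact h2.unique h3
    have e2 : D (0, 1) = c := by
      have h1 : HasDerivAt (fun θ : ℝ => ((p.1, θ) : ℝ × ℝ)) ((0, 1) : ℝ × ℝ) a :=
        (hasDerivAt_const a p.1).prodMk (hasDerivAt_id a)
      have h2 := HasFDerivAt.comp_hasDerivAt a hd' h1
      have h3 := hFa p.1 a
      rw [← hc'] at h3
      exact h2.unique h3
    have e3 : D = (c - s) • ContinuousLinearMap.fst ℝ ℝ ℝ +
        c • ContinuousLinearMap.snd ℝ ℝ ℝ := by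
      refine ContinuousLinearMap.ext fun u => ?_
      have h1 : u = u.1 • ((1, 0) : ℝ × ℝ) + u.2 • ((0, 1) : ℝ × ℝ) := by
        ext <;> simp
      conv_lhs => rw [h1]
      rw [map_add, map_smul, map_smul, e1, e2]
      simp only [ContinuousLinearMap.smul_apply, ContinuousLinearMap.add_apply,
        ContinuousLinearMap.coe_fst', ContinuousLinearMap.coe_snd', smul_eq_mul]
      ring
    rw [← e3]
    exact hd'
  have hsymm : (asn_deriv_homeo C i).symm p = (p.1, a) := by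
    rw [haa]; rfl
  have hΦ : HasFDerivAt (asn_deriv_homeo C i)
      ((asn_deriv_lin (c - s) c hc0 : (ℝ × ℝ) ≃L[ℝ] (ℝ × ℝ)) : (ℝ × ℝ) →L[ℝ] (ℝ × ℝ))
      ((asn_deriv_homeo C i).symm p) := by
    rw [hsymm]
    exact hasFDerivAt_fst.prodMk hD
  have hpt : p ∈ (asn_deriv_homeo C i).target := hp
  have hcd := (asn_deriv_homeo C i).contDiffAt_symm (n := 2) hpt hΦ
    ((contDiff_fst.prodMk hF2).contDiffAt)
  have hfd := (asn_deriv_homeo C i).hasFDerivAt_symm hpt hΦ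
  refine ⟨contDiff_snd.contDiffAt.comp p hcd, ?_⟩
  refine ⟨(ContinuousLinearMap.snd ℝ ℝ ℝ) ∘L
    ((asn_deriv_lin (c - s) c hc0).symm : (ℝ × ℝ) →L[ℝ] (ℝ × ℝ)), ?_, ?_⟩
  · exact hasFDerivAt_snd.comp p hfd
  · intro u
    rw [← hc, ← hs]
    change c⁻¹ * (u.2 - (c - s) * u.1) = _
    field_simp
    ring

/-- derivative of the exit angle, of the exit parameter and of `c`. -/
theorem asn_deriv (C : Cfg n) (i : Fin n) (p : ℝ × ℝ) (hp : p ∈ C.U i) :
    ContDiffAt ℝ 2 (fun q : ℝ × ℝ => C.asn i q.1 q.2) p ∧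
    ContDiffAt ℝ 1 (fun q : ℝ × ℝ => C.sp i q.1 q.2) p ∧
    ContDiffAt ℝ 1 (fun q : ℝ × ℝ => C.cc i q.1 q.2) p ∧
    ∀ u : ℝ × ℝ, ∀ β : ℝ, β = u.2 + C.sp i p.1 p.2 * u.1 →
      fderiv ℝ (fun q : ℝ × ℝ => C.asn i q.1 q.2) p u = β / C.cc i p.1 p.2 - u.1 ∧
      fderiv ℝ (fun q : ℝ × ℝ => C.sp i q.1 q.2) p u =
        -(C.rh i (p.1 + C.asn i p.1 p.2) * Real.sin (C.asn i p.1 p.2) *
          (β / C.cc i p.1 p.2)) + p.2 * u.1 ∧
      fderiv ℝ (fun q : ℝ × ℝ => C.cc i q.1 q.2) p u =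
        C.rh1 i (p.1 + C.asn i p.1 p.2) * Real.cos (C.asn i p.1 p.2) * (β / C.cc i p.1 p.2) -
          C.rh i (p.1 + C.asn i p.1 p.2) * Real.sin (C.asn i p.1 p.2) *
            (β / C.cc i p.1 p.2 - u.1) := by
  obtain ⟨hcd, g', hg, hg'⟩ := asn_deriv_main C i p hp
  obtain ⟨-, -, -, hH3, hH12, hr1, -, -, -⟩ := FFd C i
  obtain ⟨-, -, hb, -, hU, -, -⟩ := asn_spec C i p.1 p.2
  obtain ⟨ha, hT, hcos, hcc⟩ := hU hp
  have hbp := hb hT
  have hcd1 : ContDiffAt ℝ 1 (fun q : ℝ × ℝ => C.asn i q.1 q.2) p :=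
    hcd.of_le (by norm_num)
  have hφcd : ContDiffAt ℝ 1 (fun q : ℝ × ℝ => q.1 + C.asn i q.1 q.2) p :=
    contDiff_fst.contDiffAt.add hcd1
  have hφ : HasFDerivAt (fun q : ℝ × ℝ => q.1 + C.asn i q.1 q.2)
      (ContinuousLinearMap.fst ℝ ℝ ℝ + g') p := hasFDerivAt_fst.add hg
  have hcosd : HasFDerivAt (fun q : ℝ × ℝ => Real.cos (C.asn i q.1 q.2))
      ((-Real.sin (C.asn i p.1 p.2)) • g') p := hg.cos
  have hsind : HasFDerivAt (fun q : ℝ × ℝ => Real.sin (C.asn i q.1 q.2))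
      ((Real.cos (C.asn i p.1 p.2)) • g') p := hg.sin
  have hHd := (C.h0 i (p.1 + C.asn i p.1 p.2)).comp_hasFDerivAt p hφ
  have hH1d := (C.h1 i (p.1 + C.asn i p.1 p.2)).comp_hasFDerivAt p hφ
  have hrd := (C.h2 i (p.1 + C.asn i p.1 p.2)).comp_hasFDerivAt p hφ
  have hspd := (hHd.mul hcosd).sub (hH1d.mul hsind)
  have hccd := hrd.mul hcosd
  refine ⟨hcd, ?_, ?_, ?_⟩
  · have k1 : ContDiffAt ℝ 1 (fun q : ℝ × ℝ => C.H i (q.1 + C.asn i q.1 q.2)) p :=
      (hH3.of_le (by norm_num)).contDiffAt.comp p hφcd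
    have k2 : ContDiffAt ℝ 1 (fun q : ℝ × ℝ => C.H1 i (q.1 + C.asn i q.1 q.2)) p :=
      (hH12.of_le (by norm_num)).contDiffAt.comp p hφcd
    exact (k1.mul hcd1.cos).sub (k2.mul hcd1.sin)
  · have k3 : ContDiffAt ℝ 1 (fun q : ℝ × ℝ => C.rh i (q.1 + C.asn i q.1 q.2)) p :=
      hr1.contDiffAt.comp p hφcd
    exact k3.mul hcd1.cos
  · intro u β hβ
    have hg'' := hg' u
    rw [← hβ] at hg''
    have hsp : fderiv ℝ (fun q : ℝ × ℝ => C.sp i q.1 q.2) p = _ := hspd.fderiv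
    have hcc' : fderiv ℝ (fun q : ℝ × ℝ => C.cc i q.1 q.2) p = _ := hccd.fderiv
    refine ⟨?_, ?_, ?_⟩
    · rw [hg.fderiv]; exact hg''
    · rw [hsp]
      simp only [ContinuousLinearMap.smul_apply, ContinuousLinearMap.add_apply,
        ContinuousLinearMap.sub_apply, ContinuousLinearMap.coe_fst', smul_eq_mul,
        Function.comp, hg'']
      have hbp' : C.H i (p.1 + C.asn i p.1 p.2) * Real.sin (C.asn i p.1 p.2) +
          C.H1 i (p.1 + C.asn i p.1 p.2) * Real.cos (C.asn i p.1 p.2) = p.2 := hbp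
      generalize β / C.cc i p.1 p.2 = w at *
      linear_combination u.1 * hbp'
    · rw [hcc']
      simp only [ContinuousLinearMap.smul_apply, ContinuousLinearMap.add_apply,
        ContinuousLinearMap.sub_apply, ContinuousLinearMap.coe_fst', smul_eq_mul,
        Function.comp, hg'']
      ring

end Pool.LightB
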