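import Pool.Agent.Helper638.LightB.Defs
import Pool.Agent.Helper638.LightB.P_FFd
import Pool.Agent.Helper638.LightB.P_asn_spec
import Pool.Agent.Helper638.LightB.P_asn_cont
import Pool.Agent.Helper638.LightB.P_asn_deriv
import Pool.Agent.Helper638.LightB.P_rr_facts

set_option autoImplicit false

open MeasureTheory Set Filter Topology

namespace Pool.LightB
variable {n : ℕ}


theorem rr_deriv (C : Cfg n) (i : Fin n) (p : ℝ × ℝ) (hp : p ∈ C.U i) :
    ContDiffAt ℝ 1 (C.rr i) p ∧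
    ∀ u : ℝ × ℝ, ∀ β P : ℝ, β = u.2 + C.sp i p.1 p.2 * u.1 →
      P = -u.1 + 2 / C.cc i p.1 p.2 * β →
      fderiv ℝ (C.rr i) p u = (P, β - C.sp i (C.rr i p).1 (C.rr i p).2 * P) := by
  obtain ⟨ha2, _, _, hder⟩ := asn_deriv C i p hp
  have hUo : IsOpen (C.U i) := (asn_cont C i).2.1
  have hT : ∀ q ∈ C.U i, C.Tch i q.1 q.2 := fun q hq =>
    ((asn_spec C i q.1 q.2).2.2.2.2.1 hq).2.1
  have hc : 0 < C.cc i p.1 p.2 := ((asn_spec C i p.1 p.2).2.2.2.2.1 hp).2.2.2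
  have hrr : ∀ q ∈ C.U i, C.rr i q = (q.1 + 2 * C.asn i q.1 q.2,
      -q.2 + 2 * C.H1 i (q.1 + C.asn i q.1 q.2) * Real.cos (C.asn i q.1 q.2)) := by
    intro q hq
    unfold Cfg.rr
    rw [if_pos (hT q hq)]
  have hev : C.rr i =ᶠ[𝓝 p] fun q => (q.1 + 2 * C.asn i q.1 q.2,
      -q.2 + 2 * C.H1 i (q.1 + C.asn i q.1 q.2) * Real.cos (C.asn i q.1 q.2)) := by
    filter_upwards [hUo.mem_nhds hp] with q hq using hrr q hq
  have hH1 : ContDiff ℝ 2 (C.H1 i) := (FFd C i).2.2.2.2.1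
  have ha1 : ContDiffAt ℝ 1 (fun q : ℝ × ℝ => C.asn i q.1 q.2) p := ha2.of_le (by norm_num)
  refine ⟨?_, ?_⟩
  · refine ContDiffAt.congr_of_eventuallyEq ?_ hev
    have hs : ContDiffAt ℝ 1 (fun q : ℝ × ℝ => q.1 + C.asn i q.1 q.2) p := contDiffAt_fst.add ha1
    have hH : ContDiffAt ℝ 1 (fun q : ℝ × ℝ => C.H1 i (q.1 + C.asn i q.1 q.2)) p :=
      (hH1.of_le (by norm_num)).contDiffAt.comp p hs
    refine ContDiffAt.prodMk (contDiffAt_fst.add (contDiffAt_const.mul ha1)) ?_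
    exact contDiffAt_snd.neg.add ((contDiffAt_const.mul hH).mul
      (Real.contDiff_cos.contDiffAt.comp p ha1))
  · intro u β P hβ hP
    have ha := (ha1.differentiableAt (by norm_num)).hasFDerivAt
    have hαu := (hder u β hβ).1
    obtain ⟨α, hα⟩ : ∃ α, α = fderiv ℝ (fun q : ℝ × ℝ => C.asn i q.1 q.2) p := ⟨_, rfl⟩
    rw [← hα] at ha hαu
    have h1 : HasFDerivAt (fun q : ℝ × ℝ => q.1 + 2 * C.asn i q.1 q.2)
        (ContinuousLinearMap.fst ℝ ℝ ℝ + (2 : ℝ) • α) p := hasFDerivAt_fst.add (ha.const_mul 2)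
    have h2 : HasFDerivAt (fun q : ℝ × ℝ => C.H1 i (q.1 + C.asn i q.1 q.2))
        ((C.rh i (p.1 + C.asn i p.1 p.2) - C.H i (p.1 + C.asn i p.1 p.2)) •
          (ContinuousLinearMap.fst ℝ ℝ ℝ + α)) p :=
      (C.h1 i (p.1 + C.asn i p.1 p.2)).comp_hasFDerivAt p (hasFDerivAt_fst.add ha)
    have h3 : HasFDerivAt (fun q : ℝ × ℝ => Real.cos (C.asn i q.1 q.2))
        (-Real.sin (C.asn i p.1 p.2) • α) p := ha.cos
    have h5 := hasFDerivAt_snd.neg.add ((h2.const_mul 2).mul h3)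
    have h6 := h1.prodMk h5
    have h7 := (h6.congr_of_eventuallyEq hev).fderiv
    rw [h7]
    obtain ⟨_, _, _, hasn, hrr1, _, _, _⟩ := rr_facts C i p
    have hr1 := hrr1 (hT p hp)
    have hsp : C.sp i (C.rr i p).1 (C.rr i p).2 =
        C.H i (p.1 + C.asn i p.1 p.2) * Real.cos (C.asn i p.1 p.2) +
        C.H1 i (p.1 + C.asn i p.1 p.2) * Real.sin (C.asn i p.1 p.2) := by
      unfold Cfg.sp
      rw [hasn, hr1, Real.cos_neg, Real.sin_neg]
      have e : p.1 + 2 * C.asn i p.1 p.2 + -C.asn i p.1 p.2 = p.1 + C.asn i p.1 p.2 := by ring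
      rw [e]
      ring
    have hspp : C.sp i p.1 p.2 =
        C.H i (p.1 + C.asn i p.1 p.2) * Real.cos (C.asn i p.1 p.2) -
        C.H1 i (p.1 + C.asn i p.1 p.2) * Real.sin (C.asn i p.1 p.2) := rfl
    have hcc : C.cc i p.1 p.2 =
        C.rh i (p.1 + C.asn i p.1 p.2) * Real.cos (C.asn i p.1 p.2) := rfl
    rw [hsp]
    have hq : C.rh i (p.1 + C.asn i p.1 p.2) * Real.cos (C.asn i p.1 p.2) *
        (β / C.cc i p.1 p.2) = β := by
      rw [← hcc]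
      field_simp
    have hP' : P = -u.1 + 2 * (β / C.cc i p.1 p.2) := by
      rw [hP]
      ring
    rw [hspp] at hβ
    refine Prod.ext ?_ ?_
    · show u.1 + 2 * α u = P
      rw [hαu, hP']
      ring
    · show -u.2 + ((2 * C.H1 i (p.1 + C.asn i p.1 p.2)) * (-Real.sin (C.asn i p.1 p.2) * α u) +
        Real.cos (C.asn i p.1 p.2) * (2 * ((C.rh i (p.1 + C.asn i p.1 p.2) -
          C.H i (p.1 + C.asn i p.1 p.2)) * (u.1 + α u)))) = _
      rw [hαu, hP']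
      obtain ⟨t, ht⟩ : ∃ t, t = β / C.cc i p.1 p.2 := ⟨_, rfl⟩
      rw [← ht] at hq ⊢
      have hu2 : u.2 = β - (C.H i (p.1 + C.asn i p.1 p.2) * Real.cos (C.asn i p.1 p.2) -
        C.H1 i (p.1 + C.asn i p.1 p.2) * Real.sin (C.asn i p.1 p.2)) * u.1 := by
        linarith
      rw [hu2]
      linear_combination 2 * hq

end Pool.LightB
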