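import Pool.Agent.Helper638.LightB.Defs
import Pool.Agent.Helper638.LightB.P_FFd
import Pool.Agent.Helper638.LightB.P_asn_spec
import Pool.Agent.Helper638.LightB.P_asn_cont
import Pool.Agent.Helper638.LightB.P_geo_shift
import Pool.Agent.Helper638.LightB.P_rr_facts
import Pool.Agent.Helper638.LightB.P_rr_deriv

set_option autoImplicit false

open MeasureTheory Set Filter Topology

namespace Pool.LightB
variable {n : ℕ}


theorem rrMeas_det (A : (ℝ × ℝ) →L[ℝ] (ℝ × ℝ)) (s s' k : ℝ)
    (h : ∀ u : ℝ × ℝ, ∀ β P : ℝ, β = u.2 + s * u.1 → P = -u.1 + k * β →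
      A u = (P, β - s' * P)) : |A.det| = 1 := by
  have h1 := h (1, 0) _ _ rfl rfl
  have h2 := h (0, 1) _ _ rfl rfl
  have hd : A.det = -1 := by
    rw [ContinuousLinearMap.det, ← LinearMap.det_toMatrix (Module.Basis.finTwoProd ℝ),
      Matrix.det_fin_two]
    simp only [LinearMap.toMatrix_apply, Module.Basis.coe_finTwoProd_repr,
      Module.Basis.finTwoProd_zero, Module.Basis.finTwoProd_one,
      ContinuousLinearMap.coe_coe, h1, h2]
    simp
    ring
  rw [hd]
  simp

/-- the reversal on one body preserves `dθ db`. -/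
theorem rrMeas (C : Cfg n) (i : Fin n) (g : ℝ × ℝ → ENNReal) (hg : Measurable g) :
    ∫⁻ p in C.U i, g (C.rr i p) = ∫⁻ p in C.U i, g p := by
  have hU : IsOpen (C.U i) := (asn_cont C i).2.1
  have hinj : InjOn (C.rr i) (C.U i) := by
    intro p _ q _ hpq
    have := congrArg (C.rr i) hpq
    rwa [(rr_facts C i p).1, (rr_facts C i q).1] at this
  have him : C.rr i '' C.U i = C.U i := by
    ext q
    constructor
    · rintro ⟨p, hp, rfl⟩
      exact (rr_facts C i p).2.1.2 hp
    · intro hq
      exact ⟨C.rr i q, (rr_facts C i q).2.1.2 hq, (rr_facts C i q).1⟩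
  have h := lintegral_image_eq_lintegral_abs_det_fderiv_mul volume hU.measurableSet
    (f := C.rr i) (f' := fun p => fderiv ℝ (C.rr i) p)
    (fun p hp => ((((rr_deriv C i p hp).1.differentiableAt (by norm_num)).hasFDerivAt).hasFDerivWithinAt))
    hinj g
  rw [him] at h
  rw [h]
  refine setLIntegral_congr_fun hU.measurableSet ?_
  intro p hp
  have hdet := rrMeas_det (fderiv ℝ (C.rr i) p) (C.sp i p.1 p.2)
    (C.sp i (C.rr i p).1 (C.rr i p).2) (2 / C.cc i p.1 p.2) (rr_deriv C i p hp).2
  show g (C.rr i p) = ENNReal.ofReal |(fderiv ℝ (C.rr i) p).det| * g (C.rr i p)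
  rw [hdet]
  simp

end Pool.LightB
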