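import Pool.Agent.Helper638.LightB.Defs
import Pool.Agent.Helper638.LightB.P_FFd
import Pool.Agent.Helper638.LightB.P_asn_spec
import Pool.Agent.Helper638.LightB.P_asn_cont
import Pool.Agent.Helper638.LightB.P_geo_shift
import Pool.Agent.Helper638.LightB.P_gap
import Pool.Agent.Helper638.LightB.P_rr_facts
import Pool.Agent.Helper638.LightB.P_hits_unique
import Pool.Agent.Helper638.LightB.P_T_of_hits
import Pool.Agent.Helper638.LightB.P_Tj_facts
import Pool.Agent.Helper638.LightB.P_isOpen_hits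
import Pool.Agent.Helper638.LightB.P_meas
import Pool.Agent.Helper638.LightB.P_volSum
import Pool.Agent.Helper638.LightB.P_rrMeas

set_option autoImplicit false

open MeasureTheory Set Filter Topology

namespace Pool.LightB
variable {n : ℕ}


theorem invMeas1_unique0 (C : Cfg n) {i i' j : Fin n} {θ b : ℝ} (hne : i ≠ i')
    (h2 : C.Hits i j θ b) (h1' : C.Tch i' θ b) (h2' : C.Hits i' j θ b) (hd : 0 < C.dv i i' θ) :
    False := by
  have h3 := h2.2.2.2 i' (Ne.symm hne) h2'.1 hd h1'
  have h4 := (geo_shift C j i' θ b).2.2.2.2.1 (Ne.symm h2'.1)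
  have h5 := h2'.2.1
  linarith

theorem invMeas1_unique (C : Cfg n) {i i' j : Fin n} {θ b : ℝ}
    (h1 : (θ, b) ∈ C.U i) (h2 : C.Hits i j θ b)
    (h1' : (θ, b) ∈ C.U i') (h2' : C.Hits i' j θ b) : i = i' := by
  by_contra hne
  have t1 : C.Tch i θ b := ⟨h1.1.le, h1.2.le⟩
  have t1' : C.Tch i' θ b := ⟨h1'.1.le, h1'.2.le⟩
  rcases gap C hne t1 t1' with h | h
  · exact invMeas1_unique0 C hne h2 t1' h2' h.1
  · have h4 := (geo_shift C i i' θ b).2.2.2.2.1 hne
    exact invMeas1_unique0 C (Ne.symm hne) h2' t1 h2 (by linarith [h.1])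

theorem invMeas1_A :
    MeasurePreserving (fun p : ℝ × ℝ => (p.1 + Real.pi, -p.2)) volume volume := by
  have h := (measurePreserving_add_right (volume : Measure ℝ) Real.pi).prod
    (Measure.measurePreserving_neg (volume : Measure ℝ))
  exact h

/-- `T` does not increase the measure `dθ db`. -/
theorem invMeas1 (C : Cfg n) (g : St n → ENNReal) (hg : Measurable g) :
    ∫⁻ l in C.Om 1, g (C.T l) ∂(Cfg.vol n) ≤ ∫⁻ l in C.M, g l ∂(Cfg.vol n) := by
  obtain ⟨mT, mOm, -, mM, -, -, -, -, -, -, -, -, -, -, mrr⟩ := meas C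
  have mOm1 := mOm 1
  rw [← lintegral_indicator mOm1, ← lintegral_indicator mM]
  have hgT : Measurable (fun l => g (C.T l)) := hg.comp mT
  rw [volSum _ (hgT.indicator mOm1), volSum _ (hg.indicator mM)]
  -- the sets
  obtain ⟨H, hH⟩ : ∃ H : Fin n → Fin n → Set (ℝ × ℝ),
    H = fun i j => {p : ℝ × ℝ | p ∈ C.U i ∧ C.Hits i j p.1 p.2} := ⟨_, rfl⟩
  have mH : ∀ i j, MeasurableSet (H i j) := fun i j => by
    rw [hH]; exact (isOpen_hits C i j).measurableSet
  have mU : ∀ j, MeasurableSet (C.U j) := fun j => (asn_cont C j).2.1.measurableSet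
  obtain ⟨G, hG⟩ : ∃ G : Fin n → ℝ × ℝ → ENNReal, G = fun j p =>
    g (j, C.rr j (p.1 + Real.pi, -p.2)) := ⟨_, rfl⟩
  have mG : ∀ j, Measurable (G j) := by
    intro j
    rw [hG]
    exact hg.comp (measurable_const.prodMk ((mrr j).comp invMeas1_A.measurable))
  -- pointwise bound
  have hpt : ∀ i (p : ℝ × ℝ), (C.Om 1).indicator (fun l => g (C.T l)) (i, p) ≤
      ∑ j, (H i j).indicator (G j) p := by
    intro i p
    by_cases hp : (i, p) ∈ C.Om 1
    · rw [Set.indicator_of_mem hp]
      obtain ⟨h1, ⟨j, hj⟩, -⟩ := hp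
      have hT : C.T (i, p) = (j, C.Tj j p) := T_of_hits C hj
      have hmem : p ∈ H i j := by
        rw [hH]
        exact ⟨h1, hj⟩
      have h3 : g (C.T (i, p)) = (H i j).indicator (G j) p := by
        rw [Set.indicator_of_mem hmem, hT, hG]
        rfl
      rw [h3]
      exact Finset.single_le_sum (f := fun j => (H i j).indicator (G j) p)
        (fun _ _ => bot_le) (Finset.mem_univ j)
    · rw [Set.indicator_of_notMem hp]
      exact bot_le
  have hstep1 : ∀ i, ∫⁻ p : ℝ × ℝ, (C.Om 1).indicator (fun l => g (C.T l)) (i, p) ≤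
      ∑ j, ∫⁻ p : ℝ × ℝ, (H i j).indicator (G j) p := by
    intro i
    refine (lintegral_mono (hpt i)).trans ?_
    rw [lintegral_finsetSum]
    intro j _
    exact (mG j).indicator (mH i j)
  have hstep2 : ∀ j, ∑ i, ∫⁻ p : ℝ × ℝ, (H i j).indicator (G j) p ≤
      ∫⁻ p : ℝ × ℝ, (C.M).indicator g (j, p) := by
    intro j
    rw [← lintegral_finsetSum _ (fun i _ => (mG j).indicator (mH i j))]
    have e0 : ∫⁻ p : ℝ × ℝ, (C.M).indicator g (j, p) = ∫⁻ p in C.U j, g (j, p) := by
      rw [← lintegral_indicator (mU j)]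
      apply lintegral_congr
      intro p
      by_cases hp : p ∈ C.U j
      · rw [Set.indicator_of_mem hp, Set.indicator_of_mem]
        exact hp
      · rw [Set.indicator_of_notMem hp, Set.indicator_of_notMem]
        exact hp
    have e1 : ∫⁻ p in C.U j, g (j, p) = ∫⁻ p in C.U j, g (j, C.rr j p) :=
      (rrMeas C j (fun p => g (j, p)) (hg.comp (measurable_const.prodMk measurable_id))).symm
    have e2 : ∫⁻ p in C.U j, g (j, C.rr j p) = ∫⁻ p : ℝ × ℝ, (C.U j).indicator (G j) p := by
      rw [← lintegral_indicator (mU j)]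
      have h3 := invMeas1_A.lintegral_comp
        (f := (C.U j).indicator (fun p => g (j, C.rr j p)))
        ((hg.comp (measurable_const.prodMk (mrr j))).indicator (mU j))
      rw [← h3]
      apply lintegral_congr
      intro p
      have h4 : ((p.1 + Real.pi, -p.2) ∈ C.U j ↔ p ∈ C.U j) :=
        (geo_shift C j j p.1 p.2).2.2.2.2.2.2.1
      by_cases hp : p ∈ C.U j
      · rw [Set.indicator_of_mem hp, Set.indicator_of_mem (h4.mpr hp), hG]
      · rw [Set.indicator_of_notMem hp, Set.indicator_of_notMem (fun h => hp (h4.mp h))]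
    rw [e0, e1, e2]
    apply lintegral_mono
    intro p
    show ∑ i, (H i j).indicator (G j) p ≤ (C.U j).indicator (G j) p
    by_cases hex : ∃ i, p ∈ H i j
    · obtain ⟨i, hi⟩ := hex
      have hi' := hi
      rw [hH] at hi'
      have hi1 : p ∈ C.U i ∧ C.Hits i j p.1 p.2 := hi'
      rw [Finset.sum_eq_single i]
      · rw [Set.indicator_of_mem hi, Set.indicator_of_mem]
        exact hi1.2.2.2.1
      · intro i' _ hne
        apply Set.indicator_of_notMem
        intro hi2
        rw [hH] at hi2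
        have hi3 : p ∈ C.U i' ∧ C.Hits i' j p.1 p.2 := hi2
        exact hne (invMeas1_unique C hi3.1 hi3.2 hi1.1 hi1.2)
      · intro h
        exact absurd (Finset.mem_univ i) h
    · push Not at hex
      rw [Finset.sum_eq_zero]
      · exact bot_le
      · intro i _
        exact Set.indicator_of_notMem (hex i) _
  calc ∑ i, ∫⁻ p : ℝ × ℝ, (C.Om 1).indicator (fun l => g (C.T l)) (i, p)
      ≤ ∑ i, ∑ j, ∫⁻ p : ℝ × ℝ, (H i j).indicator (G j) p :=
        Finset.sum_le_sum (fun i _ => hstep1 i)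
    _ = ∑ j, ∑ i, ∫⁻ p : ℝ × ℝ, (H i j).indicator (G j) p := Finset.sum_comm
    _ ≤ ∑ j, ∫⁻ p : ℝ × ℝ, (C.M).indicator g (j, p) :=
        Finset.sum_le_sum (fun j _ => hstep2 j)

end Pool.LightB
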