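import Pool.Agent.Helper638.LightB.Defs
import Pool.Agent.Helper638.LightB.P_FFd
import Pool.Agent.Helper638.LightB.P_asn_spec
import Pool.Agent.Helper638.LightB.P_asn_cont
import Pool.Agent.Helper638.LightB.P_asn_deriv
import Pool.Agent.Helper638.LightB.P_geo_shift
import Pool.Agent.Helper638.LightB.P_rr_facts
import Pool.Agent.Helper638.LightB.P_rr_deriv
import Pool.Agent.Helper638.LightB.P_Tj_facts

set_option autoImplicit false

open MeasureTheory Set Filter Topology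

namespace Pool.LightB
variable {n : ℕ}


/-- derivative of the reflection map and of the entry parameter. -/
theorem Tj_deriv (C : Cfg n) (j : Fin n) (p : ℝ × ℝ) (hp : p ∈ C.U j) :
    ContDiffAt ℝ 1 (C.Tj j) p ∧ ContDiffAt ℝ 1 (fun q : ℝ × ℝ => C.sm j q.1 q.2) p ∧
    ∀ u : ℝ × ℝ, ∀ β P : ℝ, β = u.2 + C.sm j p.1 p.2 * u.1 →
      P = -u.1 - 2 / C.cc j (C.Tj j p).1 (C.Tj j p).2 * β →
      fderiv ℝ (C.Tj j) p u = (P, -β - C.sp j (C.Tj j p).1 (C.Tj j p).2 * P) ∧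
      fderiv ℝ (fun q : ℝ × ℝ => C.sm j q.1 q.2) p u =
        C.rh j ((C.Tj j p).1 + C.asn j (C.Tj j p).1 (C.Tj j p).2) *
          Real.sin (C.asn j (C.Tj j p).1 (C.Tj j p).2) *
          (β / C.cc j (C.Tj j p).1 (C.Tj j p).2) + p.2 * u.1 := by
  obtain ⟨-, -, -, -, -, -, hU, -, hsp⟩ := geo_shift C j j p.1 p.2
  obtain ⟨-, -, hasn, hTj1, -, -, hcc, -⟩ := Tj_facts C j p hp
  have hAp : ((p.1 + Real.pi, -p.2) : ℝ × ℝ) ∈ C.U j := hU.2 hp
  have hA : HasFDerivAt (fun q : ℝ × ℝ => ((q.1 + Real.pi, -q.2) : ℝ × ℝ))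
      ((ContinuousLinearMap.fst ℝ ℝ ℝ).prod (-(ContinuousLinearMap.snd ℝ ℝ ℝ))) p := by
    refine HasFDerivAt.prodMk ?_ ?_
    · exact (hasFDerivAt_fst).add_const _
    · exact (hasFDerivAt_snd).neg
  have hAc : ContDiffAt ℝ 1 (fun q : ℝ × ℝ => ((q.1 + Real.pi, -q.2) : ℝ × ℝ)) p := by
    fun_prop
  obtain ⟨hr1, hr2⟩ := rr_deriv C j (p.1 + Real.pi, -p.2) hAp
  obtain ⟨-, ha2, -, ha4⟩ := asn_deriv C j (p.1 + Real.pi, -p.2) hAp
  have hTj : C.Tj j = (C.rr j) ∘ (fun q : ℝ × ℝ => ((q.1 + Real.pi, -q.2) : ℝ × ℝ)) := rfl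
  have hsm : (fun q : ℝ × ℝ => C.sm j q.1 q.2) =
      fun q => -(((fun q : ℝ × ℝ => C.sp j q.1 q.2) ∘
        (fun q : ℝ × ℝ => ((q.1 + Real.pi, -q.2) : ℝ × ℝ))) q) := rfl
  have hspc : ContDiffAt ℝ 1 ((fun q : ℝ × ℝ => C.sp j q.1 q.2) ∘
        (fun q : ℝ × ℝ => ((q.1 + Real.pi, -q.2) : ℝ × ℝ))) p :=
    ContDiffAt.comp p ha2 hAc
  have hTjp : C.Tj j p = C.rr j (p.1 + Real.pi, -p.2) := rfl
  refine ⟨?_, ?_, ?_⟩
  · rw [hTj]
    exact ContDiffAt.comp p hr1 hAc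
  · rw [hsm]
    exact hspc.neg
  · intro u β P hβ hP
    have hβ' : -β = ((u.1, -u.2) : ℝ × ℝ).2 +
        C.sp j ((p.1 + Real.pi, -p.2) : ℝ × ℝ).1 ((p.1 + Real.pi, -p.2) : ℝ × ℝ).2 *
          ((u.1, -u.2) : ℝ × ℝ).1 := by
      show -β = -u.2 + C.sp j (p.1 + Real.pi) (-p.2) * u.1
      rw [hsp, hβ]
      ring
    constructor
    · have h1 := hr2 (u.1, -u.2) (-β) P hβ' (by
        show P = -u.1 + 2 / C.cc j (p.1 + Real.pi) (-p.2) * -β
        rw [hP, hcc]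
        ring)
      have h2 : HasFDerivAt (C.Tj j) ((fderiv ℝ (C.rr j) (p.1 + Real.pi, -p.2)).comp
          ((ContinuousLinearMap.fst ℝ ℝ ℝ).prod (-(ContinuousLinearMap.snd ℝ ℝ ℝ)))) p := by
        rw [hTj]
        exact HasFDerivAt.comp p (hr1.differentiableAt (by norm_num)).hasFDerivAt hA
      rw [h2.fderiv]
      show fderiv ℝ (C.rr j) (p.1 + Real.pi, -p.2) (u.1, -u.2) = _
      rw [h1, hTjp]
    · obtain ⟨-, h1, -⟩ := ha4 (u.1, -u.2) (-β) hβ'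
      have h2 : HasFDerivAt (fun q : ℝ × ℝ => C.sm j q.1 q.2)
          (-((fderiv ℝ (fun q : ℝ × ℝ => C.sp j q.1 q.2) (p.1 + Real.pi, -p.2)).comp
          ((ContinuousLinearMap.fst ℝ ℝ ℝ).prod (-(ContinuousLinearMap.snd ℝ ℝ ℝ))))) p := by
        rw [hsm]
        exact (HasFDerivAt.comp p (ha2.differentiableAt (by norm_num)).hasFDerivAt hA).neg
      rw [h2.fderiv]
      show -(fderiv ℝ (fun q : ℝ × ℝ => C.sp j q.1 q.2) (p.1 + Real.pi, -p.2) (u.1, -u.2)) = _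
      rw [h1, hasn, hcc, hTj1, Real.sin_neg]
      have e : p.1 + Real.pi + 2 * C.asn j (p.1 + Real.pi) (-p.2) +
          -C.asn j (p.1 + Real.pi) (-p.2) = p.1 + Real.pi + C.asn j (p.1 + Real.pi) (-p.2) := by
        ring
      rw [e]
      show -(-(C.rh j (p.1 + Real.pi + C.asn j (p.1 + Real.pi) (-p.2)) *
        Real.sin (C.asn j (p.1 + Real.pi) (-p.2)) *
          (-β / C.cc j (p.1 + Real.pi) (-p.2))) + -p.2 * u.1) = _
      ring

end Pool.LightB
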