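import Pool.Agent.Helper638.LightB.Defs
import Pool.Agent.Helper638.LightB.P_om_facts
import Pool.Agent.Helper638.LightB.P_meas
import Pool.Agent.Helper638.LightB.P_invMeas1

set_option autoImplicit false

open MeasureTheory Set Filter Topology

namespace Pool.LightB
variable {n : ℕ}


theorem invMeas (C : Cfg n) (m : ℕ) (g : St n → ENNReal) (hg : Measurable g) :
    ∫⁻ l in C.Om m, g ((C.T^[m]) l) ∂(Cfg.vol n) ≤ ∫⁻ l in C.M, g l ∂(Cfg.vol n) := by
  classical
  have hme := meas C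
  have hT : Measurable C.T := hme.1
  have hOm : ∀ m, MeasurableSet (C.Om m) := hme.2.1
  induction m with
  | zero => exact le_of_eq rfl
  | succ m ih =>
    set G : St n → ENNReal := (C.Om m).indicator (fun l => g ((C.T^[m]) l)) with hG
    have hGm : Measurable G := (hg.comp (hT.iterate m)).indicator (hOm m)
    have hsub : C.Om (m + 1) ⊆ C.Om 1 := by
      intro l hl
      have h1 := ((om_facts C 1).2.2.1 m l).mp (by rw [Nat.add_comm]; exact hl)
      exact h1.1
    have h1 : ∫⁻ l in C.Om (m + 1), g ((C.T^[m + 1]) l) ∂(Cfg.vol n) =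
        ∫⁻ l in C.Om (m + 1), G (C.T l) ∂(Cfg.vol n) := by
      apply setLIntegral_congr_fun (hOm (m + 1))
      intro l hl
      have h2 : C.T l ∈ C.Om m := hl.2.2
      show g ((C.T^[m + 1]) l) = G (C.T l)
      rw [hG, Set.indicator_of_mem h2, Function.iterate_succ_apply]
    rw [h1]
    calc ∫⁻ l in C.Om (m + 1), G (C.T l) ∂(Cfg.vol n)
        ≤ ∫⁻ l in C.Om 1, G (C.T l) ∂(Cfg.vol n) := lintegral_mono_set hsub
      _ ≤ ∫⁻ l in C.M, G l ∂(Cfg.vol n) := invMeas1 C G hGm
      _ ≤ ∫⁻ l, G l ∂(Cfg.vol n) := setLIntegral_le_lintegral _ _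
      _ = ∫⁻ l in C.Om m, g ((C.T^[m]) l) ∂(Cfg.vol n) := by
        rw [hG, lintegral_indicator (hOm m)]
      _ ≤ _ := ih

end Pool.LightB
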