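import Pool.Agent.Helper638.LightB.Defs
import Pool.Agent.Helper638.LightB.P_FFd
import Pool.Agent.Helper638.LightB.P_asn_spec
import Pool.Agent.Helper638.LightB.P_asn_cont
import Pool.Agent.Helper638.LightB.P_asn_deriv
import Pool.Agent.Helper638.LightB.P_geo_shift
import Pool.Agent.Helper638.LightB.P_basics

set_option autoImplicit false

open MeasureTheory Set Filter Topology

namespace Pool.LightB
variable {n : ℕ}


/-- `1/c` is integrable along lines of a given direction. -/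
theorem intc (C : Cfg n) (i : Fin n) (θ : ℝ) :
    ∫⁻ b in Ioo (C.lo i θ) (C.hi i θ), ENNReal.ofReal (1 / C.cc i θ b) ≤
      ENNReal.ofReal Real.pi := by
  set s : Set ℝ := Ioo (C.lo i θ) (C.hi i θ) with hs
  have hU : ∀ b ∈ s, (θ, b) ∈ C.U i := fun b hb => hb
  have hder : ∀ b ∈ s, HasDerivWithinAt (fun b => C.asn i θ b) (1 / C.cc i θ b) s b := by
    intro b hb
    obtain ⟨h1, -, -, h4⟩ := asn_deriv C i (θ, b) (hU b hb)
    have h5 : HasFDerivAt (fun q : ℝ × ℝ => C.asn i q.1 q.2)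
        (fderiv ℝ (fun q : ℝ × ℝ => C.asn i q.1 q.2) (θ, b)) (θ, b) :=
      (h1.differentiableAt (by norm_num)).hasFDerivAt
    have h6 : HasDerivAt (fun b : ℝ => ((θ, b) : ℝ × ℝ)) ((0, 1) : ℝ × ℝ) b :=
      (hasDerivAt_const b θ).prodMk (hasDerivAt_id b)
    have h7 := h5.comp_hasDerivAt b h6
    have h8 := (h4 (0, 1) 1 (by simp)).1
    rw [h8] at h7
    have h9 : (1 : ℝ) / C.cc i (θ, b).1 (θ, b).2 - ((0, 1) : ℝ × ℝ).1 = 1 / C.cc i θ b := by simp
    rw [h9] at h7
    exact h7.hasDerivWithinAt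
  have hinj : InjOn (fun b => C.asn i θ b) s := by
    intro b hb b' hb' hbb
    have e1 := (asn_spec C i θ b).2.2.1 ((asn_spec C i θ b).2.2.2.2.1 (hU b hb)).2.1
    have e2 := (asn_spec C i θ b').2.2.1 ((asn_spec C i θ b').2.2.2.2.1 (hU b' hb')).2.1
    simp only at hbb
    rw [← e1, ← e2, hbb]
  have hms : MeasurableSet s := measurableSet_Ioo
  have h := lintegral_image_eq_lintegral_abs_deriv_mul hms hder hinj (fun _ => 1)
  have h2 : ∫⁻ b in s, ENNReal.ofReal (1 / C.cc i θ b) =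
      ∫⁻ b in s, ENNReal.ofReal |1 / C.cc i θ b| * 1 := by
    refine setLIntegral_congr_fun hms fun b hb => ?_
    have h3 : 0 < C.cc i θ b := ((asn_spec C i θ b).2.2.2.2.1 (hU b hb)).2.2.2
    simp only [mul_one]
    rw [abs_of_pos (by positivity)]
  rw [h2, ← h, lintegral_const, one_mul, Measure.restrict_apply_univ]
  have h4 : (fun b => C.asn i θ b) '' s ⊆ Icc (-(Real.pi / 2)) (Real.pi / 2) := by
    rintro _ ⟨b, hb, rfl⟩
    exact (asn_spec C i θ b).2.2.2.1
  refine (measure_mono h4).trans ?_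
  rw [Real.volume_Icc]
  apply le_of_eq
  congr 1
  ring

end Pool.LightB
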