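import Pool.Agent.Helper638.LightB.Defs
import Pool.Agent.Helper638.LightB.P_rr_facts
import Pool.Agent.Helper638.LightB.P_shift
import Pool.Agent.Helper638.LightB.P_meas
import Pool.Agent.Helper638.LightB.P_volSum
import Pool.Agent.Helper638.LightB.P_rrMeas

set_option autoImplicit false

open MeasureTheory Set Filter Topology

namespace Pool.LightB
variable {n : ℕ}


theorem rhoMeas (C : Cfg n) (g : St n → ENNReal) (hg : Measurable g) :
    ∫⁻ l in C.M, g (C.rho l) ∂(Cfg.vol n) = ∫⁻ l in C.M, g l ∂(Cfg.vol n) := by
  obtain ⟨_, _, _, hM, _, _, hrho, _⟩ := meas C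
  rw [← lintegral_indicator hM, ← lintegral_indicator hM,
    volSum (C.M.indicator fun l => g (C.rho l)) ((hg.comp hrho).indicator hM), volSum _ (hg.indicator hM)]
  refine Finset.sum_congr rfl fun i _ => ?_
  have hmk : Measurable (fun p : ℝ × ℝ => ((i, p) : St n)) :=
    measurable_const.prodMk measurable_id
  have hU : MeasurableSet (C.U i) := by
    have h := hmk hM
    exact h
  have key : ∀ F : St n → ENNReal,
      (∫⁻ p : ℝ × ℝ, C.M.indicator F (i, p)) = ∫⁻ p in C.U i, F (i, p) := by
    intro F
    rw [← lintegral_indicator hU]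
    refine lintegral_congr fun p => ?_
    by_cases hp : p ∈ C.U i
    · rw [Set.indicator_of_mem hp, Set.indicator_of_mem]
      exact hp
    · rw [Set.indicator_of_notMem hp, Set.indicator_of_notMem]
      exact hp
  have e1 := key (fun l => g (C.rho l))
  have e2 := key (fun l => g l)
  have e3 := rrMeas C i (fun p => g (i, p)) (hg.comp hmk)
  refine e1.trans (Eq.trans ?_ e2.symm)
  exact e3

end Pool.LightB
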