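import Pool.Agent.Helper638.LightB.Defs
import Pool.Agent.Helper638.LightB.P_FFd
import Pool.Agent.Helper638.LightB.P_asn_spec
import Pool.Agent.Helper638.LightB.P_asn_cont
import Pool.Agent.Helper638.LightB.P_geo_shift
import Pool.Agent.Helper638.LightB.P_basics
import Pool.Agent.Helper638.LightB.P_rr_facts
import Pool.Agent.Helper638.LightB.P_hits_unique
import Pool.Agent.Helper638.LightB.P_T_of_hits
import Pool.Agent.Helper638.LightB.P_shift
import Pool.Agent.Helper638.LightB.P_om_facts
import Pool.Agent.Helper638.LightB.P_meas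
import Pool.Agent.Helper638.LightB.P_volSum
import Pool.Agent.Helper638.LightB.P_rhoMeas
import Pool.Agent.Helper638.LightB.P_invMeas
import Pool.Agent.Helper638.LightB.P_intc

set_option autoImplicit false

open MeasureTheory Set Filter Topology

namespace Pool.LightB
variable {n : ℕ}


/-- the weight `1 + 1/c` -/
noncomputable def Sr_locint_G (C : Cfg n) (l : St n) : ℝ := 1 + 1 / C.cs l

open Classical in
/-- the terms of the series defining `Sr` -/
noncomputable def Sr_locint_term (C : Cfg n) (A : ℝ) (m : ℕ) (l : St n) : ENNReal :=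
  ENNReal.ofReal (A * C.lam ^ m *
    (if l ∈ C.Om m then 1 + 1 / C.cs ((C.T^[m]) l) else 0))

/-- the series defining `Sr` -/
noncomputable def Sr_locint_SE (C : Cfg n) (A : ℝ) (l : St n) : ENNReal :=
  ∑' m : ℕ, Sr_locint_term C A m l

theorem Sr_locint_eq (C : Cfg n) (A : ℝ) (l : St n) :
    C.Sr A l = (Sr_locint_SE C A l).toReal := rfl

theorem Sr_locint_term_eq (C : Cfg n) (A : ℝ) (hA : 0 < A) (m : ℕ) (l : St n) :
    Sr_locint_term C A m l = ENNReal.ofReal (A * C.lam ^ m) *
      (C.Om m).indicator (fun l => ENNReal.ofReal (Sr_locint_G C ((C.T^[m]) l))) l := by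
  have hlam : 0 < C.lam := by
    obtain ⟨-, -, -, -, -, -, -, -, -, -, -, -, -, -, -, -, h, -⟩ := basics C l.1 0 0
    exact h
  unfold Sr_locint_term
  by_cases h : l ∈ C.Om m
  · rw [if_pos h, indicator_of_mem h, ENNReal.ofReal_mul (by positivity)]
    rfl
  · rw [if_neg h, indicator_of_notMem h]; simp

theorem Sr_locint_hc_meas (C : Cfg n) : Measurable (fun l : St n => C.cs l) :=
  (meas C).2.2.2.2.2.2.2.2.2.2.2.2.2.1

theorem Sr_locint_cs_nonneg (C : Cfg n) (l : St n) : 0 ≤ C.cs l :=
  (basics C l.1 l.2.1 l.2.2).2.2.1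

theorem Sr_locint_G_meas (C : Cfg n) : Measurable (Sr_locint_G C) := by
  unfold Sr_locint_G
  exact measurable_const.add (measurable_const.div (Sr_locint_hc_meas C))

theorem Sr_locint_Tm_meas (C : Cfg n) (m : ℕ) : Measurable (C.T^[m]) :=
  (meas C).1.iterate m

theorem Sr_locint_term_meas (C : Cfg n) (A : ℝ) (m : ℕ) : Measurable (Sr_locint_term C A m) := by
  unfold Sr_locint_term
  apply Measurable.ennreal_ofReal
  apply Measurable.const_mul
  apply Measurable.ite ((meas C).2.1 m)
  · exact (Sr_locint_G_meas C).comp (Sr_locint_Tm_meas C m)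
  · exact measurable_const

theorem Sr_locint_SE_meas (C : Cfg n) (A : ℝ) : Measurable (Sr_locint_SE C A) := by
  unfold Sr_locint_SE
  exact Measurable.tsum fun m => Sr_locint_term_meas C A m

theorem Sr_locint_angle (C : Cfg n) (m : ℕ) (l : St n) (h : l ∈ C.Om m) :
    l.2.1 ≤ ((C.T^[m]) l).2.1 ∧ ((C.T^[m]) l).2.1 ≤ l.2.1 + 2 * Real.pi * m := by
  induction m with
  | zero => simp
  | succ m ih =>
    have h1 := ((om_facts C m).2.2.1 1 l).1 h
    obtain ⟨h2, h3⟩ := h1
    obtain ⟨h4, h5⟩ := ih h2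
    have hs := (shift C 0 ((C.T^[m]) l)).2.2.2.2.2.2.2.2.2.1
    rw [Function.iterate_succ_apply']
    push_cast
    constructor <;> linarith [hs.1, hs.2]

/-- the strip of bounded angle -/
def Sr_locint_B (n : ℕ) (L : ℝ) : Set (St n) := {l | |l.2.1| ≤ L}

theorem Sr_locint_B_meas (L : ℝ) : MeasurableSet (Sr_locint_B n L) := by
  unfold Sr_locint_B
  exact measurableSet_le (measurable_norm.comp (measurable_fst.comp measurable_snd))
    measurable_const

theorem Sr_locint_line (C : Cfg n) (j : Fin n) (θ : ℝ) :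
    ∫⁻ b in Ioo (C.lo j θ) (C.hi j θ), ENNReal.ofReal (1 + 1 / C.cc j θ b) ≤
      ENNReal.ofReal (2 * C.K + Real.pi) := by
  obtain ⟨-, -, -, -, hlo, hhi, -, -, -, -, -, -, -, -, -, hK, -, -⟩ := basics C j θ 0
  have hpi := Real.pi_pos
  have h1 : ∀ b, ENNReal.ofReal (1 + 1 / C.cc j θ b) = 1 + ENNReal.ofReal (1 / C.cc j θ b) := by
    intro b
    have h2 : 0 ≤ C.cc j θ b := (basics C j θ b).2.2.1
    rw [ENNReal.ofReal_add zero_le_one (by positivity), ENNReal.ofReal_one]
  simp only [h1]
  rw [lintegral_add_left measurable_const, setLIntegral_const, one_mul, Real.volume_Ioo,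
    ENNReal.ofReal_add (by positivity) hpi.le]
  refine add_le_add ?_ (intc C j θ)
  apply ENNReal.ofReal_le_ofReal
  rw [abs_le] at hlo hhi
  linarith [hlo.1, hhi.2]

/-- finiteness of the total mass over a strip -/
theorem Sr_locint_term_bound (C : Cfg n) (A : ℝ) (hA : 0 < A) (L : ℝ) (hL : 0 ≤ L) (m : ℕ) :
    ∫⁻ l in Sr_locint_B n L, Sr_locint_term C A m l ∂(Cfg.vol n) ≤
      ENNReal.ofReal (A * C.lam ^ m) * (ENNReal.ofReal (2 * (L + 2 * Real.pi * m)) *
        ∑ _j : Fin n, ENNReal.ofReal (2 * C.K + Real.pi)) := by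
  have hOm := (meas C).2.1 m
  have hMm := (meas C).2.2.2.1
  set L' : ℝ := L + 2 * Real.pi * m with hL'
  set g : St n → ENNReal := (Sr_locint_B n L').indicator
    (fun l => ENNReal.ofReal (Sr_locint_G C l)) with hg
  have hGm : Measurable (fun l => ENNReal.ofReal (Sr_locint_G C l)) :=
    (Sr_locint_G_meas C).ennreal_ofReal
  have hgm : Measurable g := hGm.indicator (Sr_locint_B_meas L')
  have hstep1 : ∫⁻ l in Sr_locint_B n L, Sr_locint_term C A m l ∂(Cfg.vol n) ≤
      ENNReal.ofReal (A * C.lam ^ m) * ∫⁻ l in C.Om m, g ((C.T^[m]) l) ∂(Cfg.vol n) := by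
    have hcomp : Measurable (fun l => g ((C.T^[m]) l)) := hgm.comp (Sr_locint_Tm_meas C m)
    rw [← lintegral_const_mul _ hcomp,
      ← lintegral_indicator (Sr_locint_B_meas L), ← lintegral_indicator hOm]
    apply lintegral_mono
    intro l
    simp only
    by_cases h1 : l ∈ Sr_locint_B n L
    · rw [indicator_of_mem h1, Sr_locint_term_eq C A hA]
      by_cases h2 : l ∈ C.Om m
      · rw [indicator_of_mem h2, indicator_of_mem h2]
        have h3 : (C.T^[m]) l ∈ Sr_locint_B n L' := by
          have h4 := Sr_locint_angle C m l h2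
          have h5 : |l.2.1| ≤ L := h1
          rw [abs_le] at h5
          show |((C.T^[m]) l).2.1| ≤ L'
          rw [abs_le, hL']
          have : 0 ≤ 2 * Real.pi * (m : ℝ) := by positivity
          constructor <;> linarith [h4.1, h4.2, h5.1, h5.2]
        rw [hg, indicator_of_mem h3]
      · rw [indicator_of_notMem h2, mul_zero]; exact zero_le
    · rw [indicator_of_notMem h1]; exact zero_le
  refine hstep1.trans ?_
  gcongr
  refine (invMeas C m g hgm).trans ?_
  rw [← lintegral_indicator hMm, volSum _ (hgm.indicator hMm), Finset.mul_sum]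
  apply Finset.sum_le_sum
  intro j _
  have hmj : Measurable (fun p : ℝ × ℝ => C.M.indicator g (j, p)) :=
    (hgm.indicator hMm).comp measurable_prodMk_left
  rw [Measure.volume_eq_prod, lintegral_prod _ hmj.aemeasurable]
  calc ∫⁻ x : ℝ, ∫⁻ y : ℝ, C.M.indicator g (j, (x, y))
      ≤ ∫⁻ x : ℝ, (Icc (-L') L').indicator (fun _ : ℝ => ENNReal.ofReal (2 * C.K + Real.pi)) x := by
        apply lintegral_mono
        intro x
        simp only
        by_cases h3 : x ∈ Icc (-L') L'
        · rw [indicator_of_mem h3]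
          refine le_trans ?_ (Sr_locint_line C j x)
          rw [← lintegral_indicator measurableSet_Ioo]
          apply lintegral_mono
          intro y
          simp only
          by_cases h1 : ((j, (x, y)) : St n) ∈ C.M
          · rw [indicator_of_mem h1]
            have h5 : y ∈ Ioo (C.lo j x) (C.hi j x) := h1
            rw [indicator_of_mem h5, hg]
            by_cases h2 : ((j, (x, y)) : St n) ∈ Sr_locint_B n L'
            · rw [indicator_of_mem h2]
              exact le_of_eq rfl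
            · rw [indicator_of_notMem h2]; exact zero_le
          · rw [indicator_of_notMem h1]; exact zero_le
        · rw [indicator_of_notMem h3]
          have h6 : ∀ y : ℝ, C.M.indicator g (j, (x, y)) = 0 := by
            intro y
            by_cases h1 : ((j, (x, y)) : St n) ∈ C.M
            · rw [indicator_of_mem h1, hg, indicator_of_notMem]
              intro h2
              have h4 : |x| ≤ L' := h2
              exact h3 (abs_le.1 h4)
            · rw [indicator_of_notMem h1]
          simp only [h6]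
          simp
    _ = _ := by
        rw [lintegral_indicator measurableSet_Icc, setLIntegral_const, Real.volume_Icc, mul_comm]
        congr 2
        ring

theorem Sr_locint_fin (C : Cfg n) (i : Fin n) (A : ℝ) (hA : 0 < A) (L : ℝ) (hL : 0 ≤ L) :
    ∫⁻ l in Sr_locint_B n L, Sr_locint_SE C A l ∂(Cfg.vol n) < ⊤ := by
  obtain ⟨-, -, -, -, -, -, -, -, -, -, -, -, -, -, -, hK, hlam, hlam1⟩ := basics C i 0 0
  unfold Sr_locint_SE
  rw [lintegral_tsum fun m => (Sr_locint_term_meas C A m).aemeasurable]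
  set c : ENNReal := ∑ _j : Fin n, ENNReal.ofReal (2 * C.K + Real.pi) with hc
  have hcfin : c < ⊤ := by
    rw [hc]
    exact ENNReal.sum_lt_top.2 fun j _ => ENNReal.ofReal_lt_top
  have hsum : Summable (fun m : ℕ => A * C.lam ^ m * (2 * (L + 2 * Real.pi * m))) := by
    have s1 : Summable (fun m : ℕ => C.lam ^ m) := summable_geometric_of_lt_one hlam.le hlam1
    have s2 : Summable (fun m : ℕ => (m : ℝ) ^ 1 * C.lam ^ m) :=
      summable_pow_mul_geometric_of_norm_lt_one 1 (by
        rw [Real.norm_eq_abs, abs_of_pos hlam]; exact hlam1)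
    have s3 := (s1.mul_left (2 * A * L)).add (s2.mul_left (4 * A * Real.pi))
    refine s3.congr fun m => ?_
    ring
  calc ∑' m, ∫⁻ l in Sr_locint_B n L, Sr_locint_term C A m l ∂(Cfg.vol n)
      ≤ ∑' m : ℕ, ENNReal.ofReal (A * C.lam ^ m * (2 * (L + 2 * Real.pi * m))) * c := by
        apply ENNReal.tsum_le_tsum
        intro m
        refine (Sr_locint_term_bound C A hA L hL m).trans ?_
        rw [← mul_assoc, ← ENNReal.ofReal_mul (by positivity)]
    _ = ENNReal.ofReal (∑' m : ℕ, A * C.lam ^ m * (2 * (L + 2 * Real.pi * m))) * c := by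
        rw [ENNReal.tsum_mul_right, ENNReal.ofReal_tsum_of_nonneg _ hsum]
        intro m
        positivity
    _ < ⊤ := ENNReal.mul_lt_top ENNReal.ofReal_lt_top hcfin

/-- version on one disc -/
theorem Sr_locint_fin_i (C : Cfg n) (i : Fin n) (A : ℝ) (hA : 0 < A) (L : ℝ) (hL : 0 ≤ L) :
    ∫⁻ p in {p : ℝ × ℝ | |p.1| ≤ L}, Sr_locint_SE C A (i, p) < ⊤ := by
  have h1 := Sr_locint_fin C i A hA L hL
  rw [← lintegral_indicator (Sr_locint_B_meas L),
    volSum _ ((Sr_locint_SE_meas C A).indicator (Sr_locint_B_meas L))] at h1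
  have h2 := (ENNReal.sum_lt_top.1 h1) i (Finset.mem_univ i)
  have hms : MeasurableSet {p : ℝ × ℝ | |p.1| ≤ L} :=
    measurableSet_le (measurable_norm.comp measurable_fst) measurable_const
  rw [← lintegral_indicator hms]
  refine lt_of_le_of_lt (lintegral_mono fun p => ?_) h2
  by_cases h : p ∈ {p : ℝ × ℝ | |p.1| ≤ L}
  · rw [indicator_of_mem h, indicator_of_mem (show ((i, p) : St n) ∈ Sr_locint_B n L from h)]
  · rw [indicator_of_notMem h]; exact zero_le

/-- the same for the time reversed function -/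
theorem Sr_locint_fin_rho (C : Cfg n) (i : Fin n) (A : ℝ) (hA : 0 < A) (L : ℝ) (hL : 0 ≤ L) :
    ∫⁻ p in {p : ℝ × ℝ | |p.1| ≤ L}, Sr_locint_SE C A (C.rho (i, p)) < ⊤ := by
  have hMm := (meas C).2.2.2.1
  have hrho : Measurable C.rho := (meas C).2.2.2.2.2.2.1
  have h1 := Sr_locint_fin C i A hA (L + Real.pi) (by positivity)
  set g : St n → ENNReal := (Sr_locint_B n (L + Real.pi)).indicator (Sr_locint_SE C A) with hg
  have hgm : Measurable g := (Sr_locint_SE_meas C A).indicator (Sr_locint_B_meas _)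
  have h2 : ∫⁻ l in C.M, g (C.rho l) ∂(Cfg.vol n) < ⊤ := by
    rw [rhoMeas C g hgm]
    refine lt_of_le_of_lt (setLIntegral_le_lintegral _ _) ?_
    rw [hg, lintegral_indicator (Sr_locint_B_meas _)]
    exact h1
  have hcomp : Measurable (fun l => g (C.rho l)) := hgm.comp hrho
  rw [← lintegral_indicator hMm, volSum _ (hcomp.indicator hMm)] at h2
  have h3 := (ENNReal.sum_lt_top.1 h2) i (Finset.mem_univ i)
  have hms : MeasurableSet {p : ℝ × ℝ | |p.1| ≤ L} :=
    measurableSet_le (measurable_norm.comp measurable_fst) measurable_const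
  rw [← lintegral_indicator hms]
  refine lt_of_le_of_lt (lintegral_mono fun p => ?_) h3
  by_cases h : p ∈ {p : ℝ × ℝ | |p.1| ≤ L}
  · rw [indicator_of_mem h]
    by_cases hM : ((i, p) : St n) ∈ C.M
    · rw [indicator_of_mem hM]
      have hB : C.rho ((i, p) : St n) ∈ Sr_locint_B n (L + Real.pi) := by
        obtain ⟨-, -, -, -, -, -, -, -, -, -, h5, h6⟩ := shift C 0 ((i, p) : St n)
        have h7 : |p.1| ≤ L := h
        rw [abs_le] at h7
        show |(C.rho ((i, p) : St n)).2.1| ≤ L + Real.pi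
        rw [abs_le]
        have h8 : ((i, p) : St n).2.1 = p.1 := rfl
        rw [h8] at h5 h6
        constructor <;> linarith [h7.1, h7.2]
      show _ ≤ g (C.rho (i, p))
      rw [hg, indicator_of_mem hB]
    · have hM' : C.rho ((i, p) : St n) ∉ C.M := by
        obtain ⟨-, -, -, -, -, -, -, -, h5, -, -⟩ := shift C 0 ((i, p) : St n)
        exact fun h' => hM (h5.2 h')
      have h0 : Sr_locint_SE C A (C.rho (i, p)) = 0 := by
        unfold Sr_locint_SE
        rw [ENNReal.tsum_eq_zero]
        intro m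
        rw [Sr_locint_term_eq C A hA, indicator_of_notMem, mul_zero]
        exact fun h' => hM' ((om_facts C m).2.1 h')
      rw [h0]; exact zero_le
  · rw [indicator_of_notMem h]; exact zero_le

theorem Sr_locint_loc (f : ℝ × ℝ → ENNReal) (hf : Measurable f)
    (hfin : ∀ L : ℝ, 0 ≤ L → ∫⁻ p in {p : ℝ × ℝ | |p.1| ≤ L}, f p < ⊤) :
    LocallyIntegrable (fun p => (f p).toReal) := by
  intro x
  refine ⟨{p : ℝ × ℝ | |p.1| ≤ |x.1| + 1}, ?_, ?_⟩
  · have : ContinuousAt (fun p : ℝ × ℝ => |p.1|) x := (continuous_fst.abs).continuousAt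
    filter_upwards [this.eventually (gt_mem_nhds (show |x.1| < |x.1| + 1 by linarith))] with p hp
    exact hp.le
  · exact integrable_toReal_of_lintegral_ne_top hf.aemeasurable
      (hfin _ (by positivity)).ne

theorem Sr_locint (C : Cfg n) (A : ℝ) (hA : 0 < A) (i : Fin n) :
    Measurable (C.Sr A) ∧ (∀ l, 0 ≤ C.Sr A l) ∧
    LocallyIntegrable (fun p : ℝ × ℝ => C.Sr A (i, p)) ∧
    LocallyIntegrable (fun p : ℝ × ℝ => C.Sr A (C.rho (i, p))) ∧
    (∀ᵐ p : ℝ × ℝ, ∀ N, ∑ m ∈ Finset.range N, A * C.lam ^ m *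
      ((C.Om m).indicator (fun l => 1 + 1 / C.cs ((C.T^[m]) l)) ((i, p) : St n))
        ≤ C.Sr A (i, p)) := by
  obtain ⟨-, -, -, -, -, -, -, -, -, -, -, -, -, -, -, hK, hlam, hlam1⟩ := basics C i 0 0
  have hSm := Sr_locint_SE_meas C A
  have hrho : Measurable C.rho := (meas C).2.2.2.2.2.2.1
  have hi : Measurable (fun p : ℝ × ℝ => ((i, p) : St n)) := measurable_prodMk_left
  refine ⟨hSm.ennreal_toReal, fun l => ENNReal.toReal_nonneg, ?_, ?_, ?_⟩
  · exact Sr_locint_loc (fun p => Sr_locint_SE C A (i, p)) (hSm.comp hi)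
      fun L hL => Sr_locint_fin_i C i A hA L hL
  · exact Sr_locint_loc (fun p => Sr_locint_SE C A (C.rho (i, p))) (hSm.comp (hrho.comp hi))
      fun L hL => Sr_locint_fin_rho C i A hA L hL
  · have hae : ∀ᵐ p : ℝ × ℝ, Sr_locint_SE C A (i, p) < ⊤ := by
      have h1 : ∀ L : ℕ, ∀ᵐ p : ℝ × ℝ, p ∈ {p : ℝ × ℝ | |p.1| ≤ (L : ℝ)} →
          Sr_locint_SE C A (i, p) < ⊤ := by
        intro L
        have hms : MeasurableSet {p : ℝ × ℝ | |p.1| ≤ (L : ℝ)} :=
          measurableSet_le (measurable_norm.comp measurable_fst) measurable_const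
        rw [← ae_restrict_iff' hms]
        exact ae_lt_top (hSm.comp hi) (Sr_locint_fin_i C i A hA L (by positivity)).ne
      rw [← ae_all_iff] at h1
      filter_upwards [h1] with p hp
      obtain ⟨L, hL⟩ := exists_nat_ge |p.1|
      exact hp L hL
    filter_upwards [hae] with p hp N
    rw [Sr_locint_eq]
    have h2 : ∑ m ∈ Finset.range N, Sr_locint_term C A m (i, p) ≤ Sr_locint_SE C A (i, p) :=
      ENNReal.sum_le_tsum _
    have h3 := ENNReal.toReal_mono hp.ne h2
    refine le_trans (le_of_eq ?_) h3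
    rw [ENNReal.toReal_sum]
    · apply Finset.sum_congr rfl
      intro m _
      unfold Sr_locint_term
      by_cases hm : ((i, p) : St n) ∈ C.Om m
      · rw [indicator_of_mem hm, if_pos hm, ENNReal.toReal_ofReal]
        have := Sr_locint_cs_nonneg C ((C.T^[m]) (i, p))
        positivity
      · rw [indicator_of_notMem hm, if_neg hm]; simp
    · intro m _
      unfold Sr_locint_term
      exact ENNReal.ofReal_ne_top

end Pool.LightB
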