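import Pool.Agent.Helper638.LightB.Defs
import Pool.Agent.Helper638.LightB.P_asn_spec
import Pool.Agent.Helper638.LightB.P_geo_shift
import Pool.Agent.Helper638.LightB.P_gap
import Pool.Agent.Helper638.LightB.P_basics
import Pool.Agent.Helper638.LightB.P_hits_unique
import Pool.Agent.Helper638.LightB.P_T_of_hits
import Pool.Agent.Helper638.LightB.P_isOpen_hits

set_option autoImplicit false

open MeasureTheory Set Filter Topology

namespace Pool.LightB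
variable {n : ℕ}


/-- local form of the first hit map. -/
theorem Tsmooth (C : Cfg n) {i j : Fin n} {p : ℝ × ℝ} (hp : p ∈ C.U i)
    (h : C.Hits i j p.1 p.2) :
    (∀ᶠ q in 𝓝 p, q ∈ C.U i ∧ C.Hits i j q.1 q.2 ∧ C.T (i, q) = (j, C.Tj j q)) ∧
    p ∈ C.U j ∧ C.T (i, p) = (j, C.Tj j p) ∧
    C.sp i p.1 p.2 + C.tau ≤ C.sm j p.1 p.2 := by
  obtain ⟨θ, b⟩ := p
  have hdv : 0 < C.dv i j θ := h.2.1
  have hUj : (θ, b) ∈ C.U j := h.2.2.1
  refine ⟨?_, hUj, T_of_hits C h, ?_⟩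
  · filter_upwards [(isOpen_hits C i j).mem_nhds
      (show ((θ, b) : ℝ × ℝ) ∈ {p : ℝ × ℝ | p ∈ C.U i ∧ C.Hits i j p.1 p.2} from ⟨hp, h⟩)]
      with q hq
    exact ⟨hq.1, hq.2, T_of_hits C hq.2⟩
  · have hi : C.Tch i θ b := ⟨le_of_lt hp.1, le_of_lt hp.2⟩
    have hj : C.Tch j θ b := ⟨le_of_lt hUj.1, le_of_lt hUj.2⟩
    rcases gap C h.1 hi hj with hg | hg
    · exact hg.2
    · exact absurd hg.1 (not_lt.2 hdv.le)

end Pool.LightB
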