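import Pool.Agent.Helper638.LightB.Defs

set_option autoImplicit false

open MeasureTheory Set Filter Topology

namespace Pool.LightB

variable {n : ℕ}

/-- offset of the line through `x` in direction `θ` -/
noncomputable def bx (x : ℝ × ℝ) (θ : ℝ) : ℝ := x.2 * Real.cos θ - x.1 * Real.sin θ

/-- parameter of `x` on this line -/
noncomputable def sx (x : ℝ × ℝ) (θ : ℝ) : ℝ := x.1 * Real.cos θ + x.2 * Real.sin θ

/-- the ray from `x` in direction `θ` hits body `j` first, transversally -/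
def HitsX (C : Cfg n) (x : ℝ × ℝ) (j : Fin n) (θ : ℝ) : Prop :=
  (θ, bx x θ) ∈ C.U j ∧ sx x θ < C.sm j θ (bx x θ) ∧
    ∀ k, k ≠ j → C.Tch k θ (bx x θ) → sx x θ < C.sm k θ (bx x θ) →
      C.sm j θ (bx x θ) < C.sm k θ (bx x θ)

/-- state after the first reflection of the ray from `x` -/
noncomputable def stX (C : Cfg n) (x : ℝ × ℝ) (j : Fin n) (θ : ℝ) : St n :=
  (j, C.Tj j (θ, bx x θ))

/-- `x` is outside of all bodies -/
def OutX (C : Cfg n) (x : ℝ × ℝ) : Prop :=
  ∀ k, ∃ ω, C.H k ω < x.1 * Real.cos ω + x.2 * Real.sin ω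


end Pool.LightB
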