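import Pool.Agent.Helper638.LightB.Defs

set_option autoImplicit false

open MeasureTheory Set Filter Topology

namespace Pool.LightB
variable {n : ℕ}


/-- AT4: no essential jump implies a.e. constant. -/
theorem at4 (x y : ℝ) (Z : ℝ × ℝ → ℝ) (θ : ℝ)
    (h : ∀ b ∈ Ioo x y, ¬ Jump Z θ b) :
    ∃ z, ∀ᵐ b ∂(volume.restrict (Ioo x y)), Z (θ, b) = z := by
  by_cases hxy : y ≤ x
  · refine ⟨0, ?_⟩
    rw [Ioo_eq_empty (not_lt.mpr hxy), Measure.restrict_empty]
    simp
  have hxy' : x < y := not_le.mp hxy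
  have h1 : ∀ b, ∃ δ, ∃ z : ℝ, b ∈ Ioo x y → 0 < δ ∧
      ∀ᵐ b' : ℝ, b' ∈ Ioo (b - δ) (b + δ) → Z (θ, b') = z := by
    intro b
    by_cases hb : b ∈ Ioo x y
    · have h2 := h b hb
      unfold Jump at h2
      rw [not_not] at h2
      obtain ⟨δ, hδ, z, hz⟩ := h2
      rw [ae_restrict_iff' measurableSet_Ioo] at hz
      exact ⟨δ, z, fun _ => ⟨hδ, hz⟩⟩
    · exact ⟨0, 0, fun hb' => absurd hb' hb⟩
  choose δ z hz using h1
  have hI : IsPreconnected (Ioo x y) := isPreconnected_Ioo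
  have hconst : ∀ s ∈ Ioo x y, ∀ t ∈ Ioo x y, z s = z t := by
    intro s hs t ht
    refine hI.induction₂ (fun s t => z s = z t) ?_ ?_ ?_ hs ht
    · intro s hs
      have hδ := (hz s hs).1
      have hn : Ioo (s - δ s) (s + δ s) ∈ 𝓝[Ioo x y] s :=
        mem_nhdsWithin_of_mem_nhds (Ioo_mem_nhds (by linarith) (by linarith))
      filter_upwards [hn, self_mem_nhdsWithin] with t ht ht'
      have hδy := (hz t ht').1
      by_contra hne
      have e1 := (hz s hs).2
      have e2 := (hz t ht').2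
      have e3 : ∀ᵐ b' : ℝ, b' ∉ Ioo (s - δ s) (s + δ s) ∩ Ioo (t - δ t) (t + δ t) := by
        filter_upwards [e1, e2] with b' f1 f2 hb'
        exact hne ((f1 hb'.1).symm.trans (f2 hb'.2))
      have hopen : IsOpen (Ioo (s - δ s) (s + δ s) ∩ Ioo (t - δ t) (t + δ t)) :=
        isOpen_Ioo.inter isOpen_Ioo
      have hne' : (Ioo (s - δ s) (s + δ s) ∩ Ioo (t - δ t) (t + δ t)).Nonempty :=
        ⟨t, ht, by constructor <;> linarith⟩
      have hpos := hopen.measure_pos (volume : Measure ℝ) hne'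
      have hzero : volume (Ioo (s - δ s) (s + δ s) ∩ Ioo (t - δ t) (t + δ t)) = 0 :=
        measure_eq_zero_iff_ae_notMem.2 e3
      exact absurd hzero hpos.ne'
    · intro s t w _ _ _ h1 h2
      exact h1.trans h2
    · intro s t _ _ h1
      exact h1.symm
  have h0 : (x + y) / 2 ∈ Ioo x y := by constructor <;> linarith
  refine ⟨z ((x + y) / 2), ?_⟩
  rw [ae_restrict_iff' measurableSet_Ioo, ae_iff]
  refine measure_null_of_locally_null _ (fun s hs => ?_)
  have hs' : s ∈ Ioo x y := by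
    by_contra hcon
    exact hs (fun h => absurd h hcon)
  have hδ := (hz s hs').1
  refine ⟨Ioo (s - δ s) (s + δ s) ∩ {a | ¬(a ∈ Ioo x y → Z (θ, a) = z ((x + y) / 2))}, ?_, ?_⟩
  · rw [inter_comm]
    exact inter_mem_nhdsWithin _ (Ioo_mem_nhds (by linarith) (by linarith))
  · have e1 := (hz s hs').2
    rw [hconst s hs' _ h0] at e1
    refine measure_eq_zero_iff_ae_notMem.2 ?_
    filter_upwards [e1] with b' f1 hb'
    exact hb'.2 (fun _ => f1 hb'.1)

end Pool.LightB
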