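import Pool.Agent.Helper638.LightB.Defs
import Pool.Agent.Helper638.LightB.P_at2_core
import Pool.Agent.Helper638.LightB.P_at4

set_option autoImplicit false

open MeasureTheory Set Filter Topology

namespace Pool.LightB
variable {n : ℕ}


/-- locally a.e. equal to `z` -/
def at2_local_LC (g : ℝ → ℝ) (z b : ℝ) : Prop :=
  ∃ δ > 0, ∀ᵐ b' ∂(volume.restrict (Ioo (b - δ) (b + δ))), g b' = z

theorem at2_local_LC_open (g : ℝ → ℝ) (z : ℝ) : IsOpen {b | at2_local_LC g z b} := by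
  rw [Metric.isOpen_iff]
  rintro b ⟨δ, hδ, hb⟩
  refine ⟨δ, hδ, fun b' hb' => ?_⟩
  rw [Real.ball_eq_Ioo] at hb'
  refine ⟨min (b' - (b - δ)) ((b + δ) - b'), lt_min (by linarith [hb'.1]) (by linarith [hb'.2]), ?_⟩
  refine ae_restrict_of_ae_restrict_of_subset ?_ hb
  intro x hx
  have h1 := min_le_left (b' - (b - δ)) ((b + δ) - b')
  have h2 := min_le_right (b' - (b - δ)) ((b + δ) - b')
  exact ⟨by linarith [hx.1], by linarith [hx.2]⟩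

theorem at2_local_nebot (b δ : ℝ) (hδ : 0 < δ) :
    (ae (volume.restrict (Ioo (b - δ) (b + δ)))).NeBot := by
  rw [ae_neBot, Ne, Measure.restrict_eq_zero, Real.volume_Ioo]
  have : 0 < b + δ - (b - δ) := by linarith
  simpa using this

theorem at2_local_LC_disj (g : ℝ → ℝ) (z z' b : ℝ) (h : at2_local_LC g z b)
    (h' : at2_local_LC g z' b) : z = z' := by
  obtain ⟨δ, hδ, hb⟩ := h
  obtain ⟨δ', hδ', hb'⟩ := h'
  have m1 := min_le_left δ δ'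
  have m2 := min_le_right δ δ'
  have k1 : ∀ᵐ x ∂(volume.restrict (Ioo (b - min δ δ') (b + min δ δ'))), g x = z :=
    ae_restrict_of_ae_restrict_of_subset
      (show Ioo (b - min δ δ') (b + min δ δ') ⊆ Ioo (b - δ) (b + δ) from
        fun x hx => ⟨by linarith [hx.1], by linarith [hx.2]⟩) hb
  have k2 : ∀ᵐ x ∂(volume.restrict (Ioo (b - min δ δ') (b + min δ δ'))), g x = z' :=
    ae_restrict_of_ae_restrict_of_subset
      (show Ioo (b - min δ δ') (b + min δ δ') ⊆ Ioo (b - δ') (b + δ') from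
        fun x hx => ⟨by linarith [hx.1], by linarith [hx.2]⟩) hb'
  have := at2_local_nebot b (min δ δ') (lt_min hδ hδ')
  obtain ⟨x, hx⟩ := (k1.and k2).exists
  exact hx.1.symm.trans hx.2

theorem at2_local_LC_val (g : ℝ → ℝ) (hg : ∀ x, g x = 0 ∨ g x = 1) (z b : ℝ)
    (h : at2_local_LC g z b) : z = 0 ∨ z = 1 := by
  obtain ⟨δ, hδ, hb⟩ := h
  have := at2_local_nebot b δ hδ
  obtain ⟨x, hx⟩ := hb.exists
  rw [← hx]
  exact hg x

theorem at2_local_LC_ae (g : ℝ → ℝ) (z : ℝ) (G : Set ℝ) (hG : MeasurableSet G)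
    (h : G ⊆ {b | at2_local_LC g z b}) : ∀ᵐ b ∂(volume.restrict G), g b = z := by
  rw [ae_restrict_iff' hG, ae_iff]
  apply measure_null_of_locally_null
  intro x hx
  have hxG : x ∈ G := by
    by_contra hxG
    exact hx (fun h => absurd h hxG)
  obtain ⟨δ, hδ, hb⟩ := h hxG
  refine ⟨{a | ¬ (a ∈ G → g a = z)} ∩ Ioo (x - δ) (x + δ),
    inter_mem_nhdsWithin _ (Ioo_mem_nhds (by linarith) (by linarith)), ?_⟩
  rw [ae_restrict_iff' measurableSet_Ioo, ae_iff] at hb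
  refine measure_mono_null ?_ hb
  rintro a ⟨h1, h2⟩ h3
  exact h1 (fun _ => h3 h2)

theorem at2_local_const (g : ℝ → ℝ) (hg : ∀ x, g x = 0 ∨ g x = 1) (G : Set ℝ) (hGo : IsOpen G)
    (hGc : IsPreconnected G) (h : ∀ b ∈ G, ∃ z, at2_local_LC g z b) :
    ∃ z, (z = 0 ∨ z = 1) ∧ ∀ᵐ b ∂(volume.restrict G), g b = z := by
  have hcov : G ⊆ {b | at2_local_LC g 0 b} ∪ {b | at2_local_LC g 1 b} := by
    intro b hb
    obtain ⟨z, hz⟩ := h b hb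
    rcases at2_local_LC_val g hg z b hz with rfl | rfl
    · exact Or.inl hz
    · exact Or.inr hz
  have hdis : Disjoint {b | at2_local_LC g 0 b} {b | at2_local_LC g 1 b} := by
    rw [Set.disjoint_left]
    intro b h0 h1
    exact zero_ne_one (at2_local_LC_disj g 0 1 b h0 h1)
  rcases hGc.subset_or_subset (at2_local_LC_open g 0) (at2_local_LC_open g 1) hdis hcov with h0 | h0
  · exact ⟨0, Or.inl rfl, at2_local_LC_ae g 0 G hGo.measurableSet h0⟩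
  · exact ⟨1, Or.inr rfl, at2_local_LC_ae g 1 G hGo.measurableSet h0⟩

theorem at2_local_notJump (Z : ℝ × ℝ → ℝ) (θ b : ℝ) :
    ¬ Jump Z θ b ↔ ∃ z, at2_local_LC (fun b => Z (θ, b)) z b := by
  unfold Jump at2_local_LC
  rw [not_not]
  constructor
  · rintro ⟨δ, hδ, z, h⟩
    exact ⟨z, δ, hδ, h⟩
  · rintro ⟨z, δ, hδ, h⟩
    exact ⟨δ, hδ, z, h⟩

theorem at2_local_mono (W : Set (ℝ × ℝ)) (hW : IsOpen W) (F : ℝ × ℝ → ℝ) (hF : ContDiffOn ℝ 1 F W)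
    (hFb : ∀ q ∈ W, 0 < fderiv ℝ F q (0, 1)) (θ b₁ b₂ : ℝ) (h : ∀ b ∈ Icc b₁ b₂, (θ, b) ∈ W) :
    StrictMonoOn (fun b => F (θ, b)) (Icc b₁ b₂) := by
  have hd : ∀ b ∈ Icc b₁ b₂, HasDerivAt (fun b => F (θ, b)) (fderiv ℝ F (θ, b) (0, 1)) b := by
    intro b hb
    have h1 : HasFDerivAt F (fderiv ℝ F (θ, b)) (θ, b) :=
      ((hF.differentiableOn (by norm_num)).differentiableAt (hW.mem_nhds (h b hb))).hasFDerivAt
    have h2 : HasDerivAt (fun b : ℝ => (θ, b)) ((0 : ℝ), (1 : ℝ)) b :=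
      (hasDerivAt_const b θ).prodMk (hasDerivAt_id b)
    exact HasFDerivAt.comp_hasDerivAt (f := fun b : ℝ => (θ, b)) b h1 h2
  apply strictMonoOn_of_deriv_pos (convex_Icc _ _)
  · exact fun b hb => (hd b hb).continuousAt.continuousWithinAt
  · intro b hb
    have hb' := interior_subset hb
    rw [(hd b hb').deriv]
    exact hFb _ (h b hb')

/-- AT2 local version near a point of the curve. -/
theorem at2_local (U : Set (ℝ × ℝ)) (hUo : IsOpen U) (τ K : ℝ) (hτ : 0 < τ)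
    (Z : ℝ × ℝ → ℝ) (hZm : Measurable Z) (hZ : ∀ p, Z p = 0 ∨ Z p = 1)
    (a : ℝ × ℝ → ℝ) (ham : Measurable a) (ha : ∀ p : ℝ × ℝ, p ∈ U → |a p| ≤ K)
    (S : ℝ × ℝ → ℝ) (hS0 : ∀ p, 0 ≤ S p) (hSm : Measurable S) (hS : LocallyIntegrable S)
    (ν : Measure (ℝ × ℝ)) [IsFiniteMeasureOnCompacts ν]
    (h : ∀ φ, TF U φ →
      |∫ p, Z p * fderiv ℝ φ p (1, -a p)| ≤ (∫ p, |φ p| * S p) + ∫ p, |φ p| ∂ν)
    (ν' : Measure (ℝ × ℝ)) [IsFiniteMeasureOnCompacts ν'] (A : ENNReal) (hA : A ≠ ⊤)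
    (hJ : ∀ O : Set (ℝ × ℝ), IsOpen O → O ⊆ U →
      volume {θ : ℝ | ∃ b, (θ, b) ∈ O ∧ Jump Z θ b} ≤ A * ν' O)
    (W : Set (ℝ × ℝ)) (hW : IsOpen W) (hWU : W ⊆ U)
    (F : ℝ × ℝ → ℝ) (hF : ContDiffOn ℝ 1 F W) (hFb : ∀ q ∈ W, 0 < fderiv ℝ F q (0, 1))
    (s : ℝ) (hs : s = 1 ∨ s = -1)
    (hFa : ∀ q ∈ W, τ * fderiv ℝ F q (0, 1) ≤ s * fderiv ℝ F q (1, -a q))
    (hν : ν (W ∩ {q | F q = 0}) = 0)
    (p₀ : ℝ × ℝ) (hp₀ : p₀ ∈ W) (hFp₀ : F p₀ = 0) :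
    ∃ B : Set (ℝ × ℝ), IsOpen B ∧ p₀ ∈ B ∧ B ⊆ W ∧
      ∀ᵐ θ : ℝ, ∀ b, (θ, b) ∈ B → F (θ, b) = 0 → ¬ Jump Z θ b := by
  obtain ⟨t₀, b₀⟩ := p₀
  have hFc : ContinuousOn F W := hF.continuousOn
  obtain ⟨ε, hε, hεW⟩ := Metric.nhds_basis_closedBall.mem_iff.1 (hW.mem_nhds hp₀)
  rw [← closedBall_prod_same, Real.closedBall_eq_Icc, Real.closedBall_eq_Icc] at hεW
  set b₁ := b₀ - ε with hb₁
  set b₂ := b₀ + ε with hb₂
  have hmono := at2_local_mono W hW F hF hFb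
  have hmt := hmono t₀ b₁ b₂ (fun b hb => hεW ⟨⟨by simp only []; linarith, by simp only []; linarith⟩, hb⟩)
  have hF1 : F (t₀, b₁) < 0 := by
    rw [← hFp₀]
    exact hmt ⟨le_refl _, by linarith⟩ ⟨by linarith, by linarith⟩ (by linarith)
  have hF2 : 0 < F (t₀, b₂) := by
    rw [← hFp₀]
    exact hmt ⟨by linarith, by linarith⟩ ⟨by linarith, le_refl _⟩ (by linarith)
  set δ₀ := min (-F (t₀, b₁)) (F (t₀, b₂)) / 2 with hδ₀
  have hmin : 0 < min (-F (t₀, b₁)) (F (t₀, b₂)) := lt_min (by linarith) hF2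
  have hδ₀0 : 0 < δ₀ := by linarith
  have hδ1 : F (t₀, b₁) < -δ₀ := by
    have := min_le_left (-F (t₀, b₁)) (F (t₀, b₂))
    linarith
  have hδ2 : δ₀ < F (t₀, b₂) := by
    have := min_le_right (-F (t₀, b₁)) (F (t₀, b₂))
    linarith
  have hcl : ∀ b ∈ Icc b₁ b₂, ContinuousAt (fun θ => F (θ, b)) t₀ := by
    intro b hb
    have hmem : (t₀, b) ∈ W := hεW ⟨⟨by simp only []; linarith, by simp only []; linarith⟩, hb⟩
    have h1 : ContinuousAt F (t₀, b) := hFc.continuousAt (hW.mem_nhds hmem)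
    exact ContinuousAt.comp (f := fun θ : ℝ => (θ, b)) h1 (by fun_prop)
  have hev1 : ∀ᶠ θ in 𝓝 t₀, F (θ, b₁) < -δ₀ :=
    (hcl b₁ ⟨le_refl _, by linarith⟩).eventually (gt_mem_nhds hδ1)
  have hev2 : ∀ᶠ θ in 𝓝 t₀, δ₀ < F (θ, b₂) :=
    (hcl b₂ ⟨by linarith, le_refl _⟩).eventually (lt_mem_nhds hδ2)
  obtain ⟨ε', hε', hε'W⟩ := Metric.nhds_basis_closedBall.mem_iff.1 (hev1.and hev2)
  rw [Real.closedBall_eq_Icc] at hε'W
  have me1 := min_le_left ε ε'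
  have me2 := min_le_right ε ε'
  have me0 : 0 < min ε ε' := lt_min hε hε'
  set θ₁ := t₀ - min ε ε' with hθ₁
  set θ₂ := t₀ + min ε ε' with hθ₂
  have hbox : Icc θ₁ θ₂ ×ˢ Icc b₁ b₂ ⊆ W := by
    rintro ⟨θ, b⟩ ⟨h1, h2⟩
    exact hεW ⟨⟨by linarith [h1.1], by linarith [h1.2]⟩, h2⟩
  have hm : ∀ θ ∈ Icc θ₁ θ₂, F (θ, b₁) < -δ₀ ∧ δ₀ < F (θ, b₂) := by
    intro θ hθ
    exact hε'W ⟨by linarith [hθ.1], by linarith [hθ.2]⟩
  have hthl : θ₁ < θ₂ := by linarith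
  have hbl : b₁ < b₂ := by linarith
  set B : Set (ℝ × ℝ) := Ioo θ₁ θ₂ ×ˢ Ioo b₁ b₂ with hB
  have hBo : IsOpen B := isOpen_Ioo.prod isOpen_Ioo
  have hBbox : B ⊆ Icc θ₁ θ₂ ×ˢ Icc b₁ b₂ := Set.prod_mono Ioo_subset_Icc_self Ioo_subset_Icc_self
  have hBW : B ⊆ W := hBbox.trans hbox
  have hFB : ContinuousOn F B := hFc.mono hBW
  refine ⟨B, hBo, ⟨⟨by simp only []; linarith, by simp only []; linarith⟩,
    ⟨by simp only []; linarith, by simp only []; linarith⟩⟩, hBW, ?_⟩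
  set η : ℕ → ℝ := fun n => δ₀ / ((n : ℝ) + 1) with hη
  have hη0 : ∀ n, 0 < η n := fun n => by
    simp only [hη]
    positivity
  have hηδ : ∀ n, η n ≤ δ₀ := by
    intro n
    simp only [hη]
    exact div_le_self hδ₀0.le (by linarith [(Nat.cast_nonneg n : (0 : ℝ) ≤ n)])
  have hηlim : Tendsto η atTop (𝓝 0) := by
    have h1 := (tendsto_one_div_add_atTop_nhds_zero_nat (𝕜 := ℝ)).const_mul δ₀
    simpa [hη, div_eq_mul_inv] using h1
  set O : ℕ → Set (ℝ × ℝ) := fun n => B ∩ F ⁻¹' {x | x ≠ 0 ∧ |x| < η n} with hO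
  have hOo : ∀ n, IsOpen (O n) := by
    intro n
    apply hFB.isOpen_inter_preimage hBo
    exact isOpen_ne.inter (isOpen_lt continuous_abs continuous_const)
  have hOanti : Antitone O := by
    intro n k hnk q hq
    refine ⟨hq.1, hq.2.1, lt_of_lt_of_le hq.2.2 ?_⟩
    simp only [hη]
    apply div_le_div_of_nonneg_left hδ₀0.le (by positivity)
    have : (n : ℝ) ≤ k := by exact_mod_cast hnk
    linarith
  have hOempty : ⋂ n, O n = ∅ := by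
    rw [Set.eq_empty_iff_forall_notMem]
    intro q hq
    rw [Set.mem_iInter] at hq
    have hne := (hq 0).2.1
    have h1 : ∀ n, |F q| < η n := fun n => (hq n).2.2
    have h2 : |F q| ≤ 0 := ge_of_tendsto' hηlim (fun n => (h1 n).le)
    exact hne (abs_eq_zero.1 (le_antisymm h2 (abs_nonneg _)))
  have hOfin : ν' (O 0) ≠ ⊤ := by
    have h1 : IsCompact (Icc θ₁ θ₂ ×ˢ Icc b₁ b₂) := isCompact_Icc.prod isCompact_Icc
    exact ne_top_of_le_ne_top h1.measure_lt_top.ne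
      (measure_mono ((Set.inter_subset_left).trans hBbox))
  have hOlim : Tendsto (fun n => A * ν' (O n)) atTop (𝓝 0) := by
    have h1 := tendsto_measure_iInter_atTop (μ := ν') (s := O)
      (fun n => (hOo n).measurableSet.nullMeasurableSet) hOanti ⟨0, hOfin⟩
    rw [hOempty, measure_empty] at h1
    have h2 := ENNReal.Tendsto.const_mul (a := A) h1 (Or.inr hA)
    rw [mul_zero] at h2
    exact h2
  set N : Set ℝ := ⋂ n, {θ : ℝ | ∃ b, (θ, b) ∈ O n ∧ Jump Z θ b} with hN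
  have hN0 : volume N = 0 := by
    apply le_antisymm _ (by simp)
    refine ge_of_tendsto' hOlim (fun n => ?_)
    refine (measure_mono (Set.iInter_subset _ n)).trans ?_
    exact hJ (O n) (hOo n) ((Set.inter_subset_left.trans hBW).trans hWU)
  set Dm : ℕ → ℝ → Set (ℝ × ℝ) := fun n z =>
    (B ∩ F ⁻¹' {x | -η n < x ∧ x < 0}) ∩ {q | Z q ≠ z} with hDm
  set Dp : ℕ → ℝ → Set (ℝ × ℝ) := fun n z =>
    (B ∩ F ⁻¹' {x | 0 < x ∧ x < η n}) ∩ {q | Z q ≠ z} with hDp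
  have hZne : ∀ z : ℝ, MeasurableSet {q | Z q ≠ z} := fun z =>
    (hZm (measurableSet_singleton z)).compl
  have hDmm : ∀ n z, MeasurableSet (Dm n z) := by
    intro n z
    refine (hFB.isOpen_inter_preimage hBo ?_).measurableSet.inter (hZne z)
    exact isOpen_Ioo
  have hDpm : ∀ n z, MeasurableSet (Dp n z) := by
    intro n z
    refine (hFB.isOpen_inter_preimage hBo ?_).measurableSet.inter (hZne z)
    exact isOpen_Ioo
  set Θ : ℕ → ℝ → ℝ → Set ℝ := fun n zm zp =>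
    Ioo θ₁ θ₂ ∩ {θ | volume (Prod.mk θ ⁻¹' (Dm n zm ∪ Dp n zp)) = 0} with hΘ
  have hΘm : ∀ n zm zp, MeasurableSet (Θ n zm zp) := by
    intro n zm zp
    refine measurableSet_Ioo.inter ?_
    exact measurable_measure_prodMk_left ((hDmm n zm).union (hDpm n zp)) (measurableSet_singleton 0)
  have hΘae : ∀ n zm zp, ∀ θ ∈ Ioo θ₁ θ₂, (θ ∈ Θ n zm zp ↔
      ∀ᵐ b ∂(volume.restrict (Ioo b₁ b₂)),
        (-η n < F (θ, b) → F (θ, b) < 0 → Z (θ, b) = zm) ∧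
        (0 < F (θ, b) → F (θ, b) < η n → Z (θ, b) = zp)) := by
    intro n zm zp θ hθ
    rw [ae_restrict_iff' measurableSet_Ioo, ae_iff]
    have hset : {b | ¬ (b ∈ Ioo b₁ b₂ → (-η n < F (θ, b) → F (θ, b) < 0 → Z (θ, b) = zm) ∧
        (0 < F (θ, b) → F (θ, b) < η n → Z (θ, b) = zp))} =
        Prod.mk θ ⁻¹' (Dm n zm ∪ Dp n zp) := by
      ext b
      constructor
      · intro hb
        by_contra hcon
        apply hb
        intro hbI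
        refine ⟨fun h1 h2 => ?_, fun h1 h2 => ?_⟩
        · by_contra h3
          exact hcon (Or.inl ⟨⟨⟨hθ, hbI⟩, h1, h2⟩, h3⟩)
        · by_contra h3
          exact hcon (Or.inr ⟨⟨⟨hθ, hbI⟩, h1, h2⟩, h3⟩)
      · rintro (⟨⟨⟨_, hbI⟩, h1, h2⟩, h3⟩ | ⟨⟨⟨_, hbI⟩, h1, h2⟩, h3⟩) hb
        · exact h3 ((hb hbI).1 h1 h2)
        · exact h3 ((hb hbI).2 h1 h2)
    rw [hset]
    exact ⟨fun h1 => h1.2, fun h1 => ⟨hθ, h1⟩⟩
  have hΘ0 : ∀ n zm zp, ((zm = 0 ∧ zp = 1) ∨ (zm = 1 ∧ zp = 0)) → volume (Θ n zm zp) = 0 := by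
    intro n zm zp hz
    refine at2_core U hUo τ K hτ Z hZm hZ a ham ha S hS0 hSm hS ν h W hW hWU F hF hFb s hs hFa hν
      θ₁ θ₂ b₁ b₂ (η n) hthl hbl (hη0 n) hbox ?_ (Θ n zm zp) (hΘm n zm zp)
      Set.inter_subset_left zm zp hz ?_
    · intro θ hθ
      have h1 := hm θ hθ
      have h2 := hηδ n
      exact ⟨by linarith, by linarith⟩
    · intro θ hθ
      exact (hΘae n zm zp θ hθ.1).1 hθ
  have hae1 : ∀ᵐ θ : ℝ, θ ∉ N := measure_eq_zero_iff_ae_notMem.1 hN0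
  have hae2 : ∀ᵐ θ : ℝ, ∀ n : ℕ, θ ∉ Θ n 0 1 ∧ θ ∉ Θ n 1 0 := by
    rw [ae_all_iff]
    intro n
    exact (measure_eq_zero_iff_ae_notMem.1 (hΘ0 n 0 1 (Or.inl ⟨rfl, rfl⟩))).and
      (measure_eq_zero_iff_ae_notMem.1 (hΘ0 n 1 0 (Or.inr ⟨rfl, rfl⟩)))
  filter_upwards [hae1, hae2] with θ hθN hθΘ b hbB hFb0
  obtain ⟨hθI, hbI⟩ : θ ∈ Ioo θ₁ θ₂ ∧ b ∈ Ioo b₁ b₂ := hbB
  rw [hN, Set.mem_iInter] at hθN
  push Not at hθN
  obtain ⟨n, hn⟩ := hθN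
  have hnj : ∀ b', (θ, b') ∈ O n → ¬ Jump Z θ b' := by
    intro b' hb' hj
    exact hn ⟨b', hb', hj⟩
  have hmθ := hmono θ b₁ b₂ (fun b hb => hbox ⟨Ioo_subset_Icc_self hθI, hb⟩)
  have hcθ : ContinuousOn (fun b => F (θ, b)) (Ioo b₁ b₂) := by
    refine hFB.comp (f := fun b : ℝ => (θ, b)) (by fun_prop) ?_
    intro b' hb'
    exact ⟨hθI, hb'⟩
  have hgZ : ∀ x, (fun b => Z (θ, b)) x = 0 ∨ (fun b => Z (θ, b)) x = 1 := fun x => hZ _
  have key : ∀ I : Set ℝ, IsOpen I → I.OrdConnected → (∀ x ∈ I, x ≠ 0 ∧ |x| < η n) →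
      ∃ z, (z = 0 ∨ z = 1) ∧
        ∀ᵐ b' ∂(volume.restrict (Ioo b₁ b₂ ∩ (fun b => F (θ, b)) ⁻¹' I)), Z (θ, b') = z := by
    intro I hIo hIc hI
    apply at2_local_const (fun b => Z (θ, b)) hgZ
    · exact hcθ.isOpen_inter_preimage isOpen_Ioo hIo
    · apply Set.OrdConnected.isPreconnected
      rw [Set.ordConnected_iff]
      intro x hx y hy hxy w hw
      have hwI : w ∈ Ioo b₁ b₂ := ⟨lt_of_lt_of_le hx.1.1 hw.1, lt_of_le_of_lt hw.2 hy.1.2⟩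
      refine ⟨hwI, ?_⟩
      have h1 := hmθ.monotoneOn (Ioo_subset_Icc_self hx.1) (Ioo_subset_Icc_self hwI) hw.1
      have h2 := hmθ.monotoneOn (Ioo_subset_Icc_self hwI) (Ioo_subset_Icc_self hy.1) hw.2
      exact hIc.out hx.2 hy.2 ⟨h1, h2⟩
    · intro b' hb'
      exact (at2_local_notJump Z θ b').1 (hnj b' ⟨⟨hθI, hb'.1⟩, hI _ hb'.2⟩)
  obtain ⟨zm, hzm, hzmae⟩ := key (Ioo (-η n) 0) isOpen_Ioo ordConnected_Ioo (fun x hx =>
    ⟨hx.2.ne, abs_lt.2 ⟨hx.1, by linarith [hx.2, hη0 n]⟩⟩)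
  obtain ⟨zp, hzp, hzpae⟩ := key (Ioo 0 (η n)) isOpen_Ioo ordConnected_Ioo (fun x hx =>
    ⟨hx.1.ne', abs_lt.2 ⟨by linarith [hx.1, hη0 n], hx.2⟩⟩)
  have hmeas : ∀ I : Set ℝ, IsOpen I → MeasurableSet (Ioo b₁ b₂ ∩ (fun b => F (θ, b)) ⁻¹' I) :=
    fun I hI => (hcθ.isOpen_inter_preimage isOpen_Ioo hI).measurableSet
  rw [ae_restrict_iff' (hmeas _ isOpen_Ioo)] at hzmae hzpae
  have hall : ∀ᵐ b ∂(volume.restrict (Ioo b₁ b₂)),
      (-η n < F (θ, b) → F (θ, b) < 0 → Z (θ, b) = zm) ∧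
      (0 < F (θ, b) → F (θ, b) < η n → Z (θ, b) = zp) := by
    rw [ae_restrict_iff' measurableSet_Ioo]
    filter_upwards [hzmae, hzpae] with b' h1 h2 hb'
    exact ⟨fun h3 h4 => h1 ⟨hb', h3, h4⟩, fun h3 h4 => h2 ⟨hb', h3, h4⟩⟩
  have hmem := (hΘae n zm zp θ hθI).2 hall
  have hzz : zm = zp := by
    rcases hzm with rfl | rfl <;> rcases hzp with rfl | rfl
    · rfl
    · exact absurd hmem (hθΘ n).1
    · exact absurd hmem (hθΘ n).2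
    · rfl
  subst hzz
  rw [at2_local_notJump]
  refine ⟨zm, ?_⟩
  have hcb : ContinuousAt (fun b => F (θ, b)) b := hcθ.continuousAt (isOpen_Ioo.mem_nhds hbI)
  have hnear : ∀ᶠ b' in 𝓝 b, b' ∈ Ioo b₁ b₂ ∧ |F (θ, b')| < η n := by
    have hIoo : ∀ᶠ b' in 𝓝 b, b' ∈ Ioo b₁ b₂ := isOpen_Ioo.mem_nhds hbI
    refine hIoo.and ?_
    have h1 : ContinuousAt (fun b => |F (θ, b)|) b := hcb.abs
    have h2 : |F (θ, b)| < η n := by
      rw [hFb0, abs_zero]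
      exact hη0 n
    exact h1.eventually (gt_mem_nhds h2)
  obtain ⟨δ, hδ, hδs⟩ := Metric.mem_nhds_iff.1 hnear
  rw [Real.ball_eq_Ioo] at hδs
  refine ⟨δ, hδ, ?_⟩
  rw [ae_restrict_iff' measurableSet_Ioo]
  rw [ae_restrict_iff' measurableSet_Ioo] at hall
  have hneb : ∀ᵐ b' : ℝ, b' ≠ b := by
    rw [ae_iff]
    simp
  filter_upwards [hall, hneb] with b' h1 h2 h3
  obtain ⟨h4, h5⟩ := hδs h3
  have h6 := h1 h4
  rw [abs_lt] at h5
  rcases lt_trichotomy (F (θ, b')) 0 with h7 | h7 | h7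
  · exact h6.1 h5.1 h7
  · exfalso
    apply h2
    apply hmθ.injOn (Ioo_subset_Icc_self h4) (Ioo_subset_Icc_self hbI)
    simp only []
    rw [h7, hFb0]
  · exact h6.2 h7 h5.2

end Pool.LightB
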