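import Pool.Agent.Helper638.LightB.Defs
import Pool.Agent.Helper638.LightB.P_at2_local

set_option autoImplicit false

open MeasureTheory Set Filter Topology

namespace Pool.LightB
variable {n : ℕ}


/-- AT2: no jumps along a curve `F = 0` which is transversal to `∂_θ - a ∂_b`. -/
theorem at2 (U : Set (ℝ × ℝ)) (hUo : IsOpen U) (τ K : ℝ) (hτ : 0 < τ)
    (Z : ℝ × ℝ → ℝ) (hZm : Measurable Z) (hZ : ∀ p, Z p = 0 ∨ Z p = 1)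
    (a : ℝ × ℝ → ℝ) (ham : Measurable a) (ha : ∀ p : ℝ × ℝ, p ∈ U → |a p| ≤ K)
    (S : ℝ × ℝ → ℝ) (hS0 : ∀ p, 0 ≤ S p) (hSm : Measurable S) (hS : LocallyIntegrable S)
    (ν : Measure (ℝ × ℝ)) [IsFiniteMeasureOnCompacts ν]
    (h : ∀ φ, TF U φ →
      |∫ p, Z p * fderiv ℝ φ p (1, -a p)| ≤ (∫ p, |φ p| * S p) + ∫ p, |φ p| ∂ν)
    (ν' : Measure (ℝ × ℝ)) [IsFiniteMeasureOnCompacts ν'] (A : ENNReal) (hA : A ≠ ⊤)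
    (hJ : ∀ O : Set (ℝ × ℝ), IsOpen O → O ⊆ U →
      volume {θ : ℝ | ∃ b, (θ, b) ∈ O ∧ Jump Z θ b} ≤ A * ν' O)
    (W : Set (ℝ × ℝ)) (hW : IsOpen W) (hWU : W ⊆ U)
    (F : ℝ × ℝ → ℝ) (hF : ContDiffOn ℝ 1 F W) (hFb : ∀ q ∈ W, 0 < fderiv ℝ F q (0, 1))
    (s : ℝ) (hs : s = 1 ∨ s = -1)
    (hFa : ∀ q ∈ W, τ * fderiv ℝ F q (0, 1) ≤ s * fderiv ℝ F q (1, -a q))
    (hν : ν (W ∩ {q | F q = 0}) = 0) :
    ∀ᵐ θ : ℝ, ∀ b, (θ, b) ∈ W → F (θ, b) = 0 → ¬ Jump Z θ b := by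
  classical
  have hch : ∀ p : ℝ × ℝ, ∃ B : Set (ℝ × ℝ), (p ∈ W ∧ F p = 0) → (IsOpen B ∧ p ∈ B ∧ B ⊆ W ∧
      ∀ᵐ θ : ℝ, ∀ b, (θ, b) ∈ B → F (θ, b) = 0 → ¬ Jump Z θ b) := by
    intro p
    by_cases hp : p ∈ W ∧ F p = 0
    · obtain ⟨B, hB⟩ := at2_local U hUo τ K hτ Z hZm hZ a ham ha S hS0 hSm hS ν h ν' A hA hJ W hW
        hWU F hF hFb s hs hFa hν p hp.1 hp.2
      exact ⟨B, fun _ => hB⟩
    · exact ⟨∅, fun h => absurd h hp⟩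
  choose B hB using hch
  obtain ⟨t, hts, htc, hcov⟩ := TopologicalSpace.countable_cover_nhdsWithin
    (s := {p : ℝ × ℝ | p ∈ W ∧ F p = 0}) (f := B)
    (fun p hp => mem_nhdsWithin_of_mem_nhds ((hB p hp).1.mem_nhds (hB p hp).2.1))
  have hae : ∀ᵐ θ : ℝ, ∀ p ∈ t, ∀ b, (θ, b) ∈ B p → F (θ, b) = 0 → ¬ Jump Z θ b :=
    (ae_ball_iff htc).mpr (fun p hp => (hB p (hts hp)).2.2.2)
  filter_upwards [hae] with θ hθ b hbW hbF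
  have hmem : (θ, b) ∈ {p : ℝ × ℝ | p ∈ W ∧ F p = 0} := ⟨hbW, hbF⟩
  obtain ⟨p, hp, hpB⟩ := Set.mem_iUnion₂.mp (hcov hmem)
  exact hθ p hp b hpB hbF

end Pool.LightB
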