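import Pool.Agent.Helper638.LightB.Defs
import Pool.Agent.Helper638.LightB.P_FFd
import Pool.Agent.Helper638.LightB.P_asn_spec
import Pool.Agent.Helper638.LightB.P_asn_cont
import Pool.Agent.Helper638.LightB.P_geo_shift
import Pool.Agent.Helper638.LightB.P_hits_unique
import Pool.Agent.Helper638.LightB.P_T_of_hits
import Pool.Agent.Helper638.LightB.P_Tj_facts
import Pool.Agent.Helper638.LightB.P_om_facts
import Pool.Agent.Helper638.LightB.P_meas
import Pool.Agent.Helper638.LightB.P_volSum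
import Pool.Agent.Helper638.LightB.P_S1_null

set_option autoImplicit false

open MeasureTheory Set Filter Topology

namespace Pool.LightB
variable {n : ℕ}


theorem cut_lim_Qf {a : ℝ} (ha : a ≠ 0) :
    ∀ᶠ ε in 𝓝[>] (0 : ℝ), Cfg.Qf (a / ε) = 1 := by
  have h1 : Ioo (0 : ℝ) |a| ∈ 𝓝[>] (0 : ℝ) := Ioo_mem_nhdsGT (abs_pos.2 ha)
  filter_upwards [h1] with ε hε
  unfold Cfg.Qf
  apply Real.smoothTransition.one_of_one_le
  have h2 : 1 ≤ |a / ε| := by
    rw [abs_div, abs_of_pos hε.1, le_div_iff₀ hε.1, one_mul]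
    exact hε.2.le
  have h3 : (a / ε) ^ 2 = |a / ε| ^ 2 := (sq_abs _).symm
  rw [h3]
  nlinarith

theorem cut_lim_kap (C : Cfg n) (l : St n) (hM : l ∈ C.M) (hS : l ∉ C.S1) :
    Tendsto (fun ε => C.kap ε l) (𝓝[>] 0) (𝓝 1) := by
  have h : ∀ᶠ ε in 𝓝[>] (0 : ℝ), ∀ k : Fin n, k ≠ l.1 ∧ 0 < C.dv l.1 k l.2.1 →
      Cfg.Qf ((l.2.2 - C.hi k l.2.1) / ε) = 1 ∧
      Cfg.Qf ((l.2.2 - C.lo k l.2.1) / ε) = 1 := by
    rw [Filter.eventually_all]
    intro k
    by_cases hk : k ≠ l.1 ∧ 0 < C.dv l.1 k l.2.1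
    · have h1 : l.2.2 - C.hi k l.2.1 ≠ 0 := by
        intro h
        exact hS ⟨hM, k, hk.1, hk.2, Or.inr (sub_eq_zero.1 h)⟩
      have h2 : l.2.2 - C.lo k l.2.1 ≠ 0 := by
        intro h
        exact hS ⟨hM, k, hk.1, hk.2, Or.inl (sub_eq_zero.1 h)⟩
      filter_upwards [cut_lim_Qf h1, cut_lim_Qf h2] with ε e1 e2 _
      exact ⟨e1, e2⟩
    · exact Filter.Eventually.of_forall fun ε h => absurd h hk
  refine tendsto_const_nhds.congr' ?_
  filter_upwards [h] with ε hε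
  unfold Cfg.kap
  symm
  refine Finset.prod_eq_one fun k _ => ?_
  split_ifs with hk
  · rw [(hε k hk).1, (hε k hk).2, one_mul]
  · rfl

theorem cut_lim_pt (C : Cfg n) (N : ℕ) : ∀ l : St n, l ∈ C.M →
    (∀ m < N, ¬ (l ∈ C.Om m ∧ (C.T^[m]) l ∈ C.S1)) →
    Tendsto (fun ε => C.cut ε N l) (𝓝[>] 0) (𝓝 (C.ZN N l)) := by
  induction N with
  | zero =>
    intro l hM _
    have h1 : C.ZN 0 l = 1 := if_pos hM
    rw [h1]
    exact tendsto_const_nhds
  | succ N ih =>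
    intro l hM hno
    by_cases hh : ∃ j, C.Hits l.1 j l.2.1 l.2.2
    · have hcut : ∀ ε, C.cut ε (N + 1) l = C.kap ε l * C.cut ε N (C.T l) := fun ε => if_pos hh
      have hZ : C.ZN (N + 1) l = 1 * C.ZN N (C.T l) := by
        rw [one_mul]
        unfold Cfg.ZN
        by_cases h : C.T l ∈ C.Om N
        · rw [if_pos h, if_pos (show l ∈ C.Om (N + 1) from ⟨hM, hh, h⟩)]
        · rw [if_neg h, if_neg (fun h' : l ∈ C.Om (N + 1) => h h'.2.2)]
      simp only [hcut]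
      rw [hZ]
      have hS : l ∉ C.S1 := fun h => hno 0 (Nat.succ_pos N) ⟨hM, h⟩
      refine (cut_lim_kap C l hM hS).mul (ih (C.T l) ?_ ?_)
      · obtain ⟨j, hj⟩ := hh
        have h1 : C.T l = (j, C.Tj j (l.2.1, l.2.2)) := T_of_hits C hj
        rw [h1]
        exact (Tj_facts C j (l.2.1, l.2.2) hj.2.2.1).1
      · intro m hm h
        exact hno (m + 1) (by omega) ⟨⟨hM, hh, h.1⟩, by
          rw [Function.iterate_succ_apply]; exact h.2⟩
    · have hcut : ∀ ε, C.cut ε (N + 1) l = 0 := fun ε => if_neg hh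
      have hZ : C.ZN (N + 1) l = 0 := if_neg fun h => hh h.2.1
      simp only [hcut]
      rw [hZ]
      exact tendsto_const_nhds

theorem cut_lim_slice (A : Set (St n)) (hA : MeasurableSet A) (h0 : Cfg.vol n A = 0) (i : Fin n) :
    ∀ᵐ p : ℝ × ℝ, ((i, p) : St n) ∉ A := by
  have h1 := volSum (A.indicator fun _ => (1 : ENNReal)) (measurable_const.indicator hA)
  rw [lintegral_indicator_const hA, one_mul, h0] at h1
  have h2 : ∫⁻ p : ℝ × ℝ, A.indicator (fun _ => (1 : ENNReal)) ((i, p) : St n) = 0 :=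
    (Finset.sum_eq_zero_iff.1 h1.symm) i (Finset.mem_univ i)
  have hm : Measurable fun p : ℝ × ℝ => A.indicator (fun _ => (1 : ENNReal)) ((i, p) : St n) :=
    (measurable_const.indicator hA).comp (measurable_const.prodMk measurable_id)
  rw [lintegral_eq_zero_iff hm] at h2
  filter_upwards [h2] with p hp hpA
  have h3 : A.indicator (fun _ => (1 : ENNReal)) ((i, p) : St n) = 0 := hp
  rw [Set.indicator_of_mem hpA] at h3
  exact one_ne_zero h3

/-- the cutoffs converge to the indicator of `Om N`, a.e. -/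
theorem cut_lim (C : Cfg n) (N : ℕ) (i : Fin n) :
    ∀ᵐ p : ℝ × ℝ, p ∈ C.U i →
      Tendsto (fun ε => C.cut ε N (i, p)) (𝓝[>] 0) (𝓝 (C.ZN N (i, p))) := by
  obtain ⟨hT, hOm, -, -, hS1, -⟩ := meas C
  have h1 : ∀ m : ℕ, ∀ᵐ p : ℝ × ℝ,
      ((i, p) : St n) ∉ {l : St n | l ∈ C.Om m ∧ (C.T^[m]) l ∈ C.S1} := by
    intro m
    refine cut_lim_slice _ ?_ (S1_null C m) i
    exact (hOm m).inter ((hT.iterate m) hS1)
  rw [← ae_all_iff] at h1
  filter_upwards [h1] with p hp hpr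
  exact cut_lim_pt C N (i, p) hpr fun m _ => hp m

end Pool.LightB
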