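import Pool.Agent.Helper638.LightB.Defs
import Pool.Agent.Helper638.LightB.P_asn_spec
import Pool.Agent.Helper638.LightB.P_Tj_facts
import Pool.Agent.Helper638.LightB.P_Tj_deriv

set_option autoImplicit false

open MeasureTheory Set Filter Topology

namespace Pool.LightB
variable {n : ℕ}


theorem chainT_lin (L : ℝ × ℝ →L[ℝ] ℝ) (s a b : ℝ) :
    L (a, b) = a * L (1, -s) + (b + a * s) * L (0, 1) := by
  have h1 : ((a, b) : ℝ × ℝ) = a • ((1, -s) : ℝ × ℝ) + (b + a * s) • ((0, 1) : ℝ × ℝ) := by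
    ext
    · simp
    · simp
  rw [h1, map_add, map_smul, map_smul, smul_eq_mul, smul_eq_mul]

/-- chain rule for `Tj` in the frame (stable direction, `∂_b`). -/
theorem chainT (C : Cfg n) (j : Fin n) (p : ℝ × ℝ) (hp : p ∈ C.U j) (f : ℝ × ℝ → ℝ)
    (hf : DifferentiableAt ℝ f (C.Tj j p)) (s' f' c' s : ℝ)
    (hc' : c' = C.cc j (C.Tj j p).1 (C.Tj j p).2)
    (hf' : f' = s' - C.sp j (C.Tj j p).1 (C.Tj j p).2) (h0 : 0 < f')
    (hs : s = C.sm j p.1 p.2 + Cfg.gf f' c') :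
    fderiv ℝ (fun q : ℝ × ℝ => f (C.Tj j q)) p (1, -s) =
      -(c' / (c' + 2 * f')) * fderiv ℝ f (C.Tj j p) (1, -s') ∧
    fderiv ℝ (fun q : ℝ × ℝ => f (C.Tj j q)) p (0, 1) =
      -(2 / c') * fderiv ℝ f (C.Tj j p) (1, -s') -
      ((c' + 2 * f') / c') * fderiv ℝ f (C.Tj j p) (0, 1) := by
  obtain ⟨hT1, -, hT2⟩ := Tj_deriv C j p hp
  have hTd : DifferentiableAt ℝ (C.Tj j) p := hT1.differentiableAt one_ne_zero
  have hcp : 0 < c' := by
    rw [hc']
    exact (Tj_facts C j p hp).2.2.2.2.2.2.2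
  have hcomp : fderiv ℝ (fun q : ℝ × ℝ => f (C.Tj j q)) p =
      (fderiv ℝ f (C.Tj j p)).comp (fderiv ℝ (C.Tj j) p) :=
    fderiv_comp (g := f) (f := C.Tj j) p hf hTd
  have hu1 := (hT2 (1, -s) (-Cfg.gf f' c') (-1 - 2 / c' * (-Cfg.gf f' c'))
    (by simp only [mul_one]; rw [hs]; ring) (by simp only; rw [← hc'])).1
  have hu2 := (hT2 (0, 1) 1 (0 - 2 / c' * 1)
    (by simp) (by simp only [neg_zero]; rw [← hc'])).1
  obtain ⟨L, hL⟩ : ∃ L, L = fderiv ℝ f (C.Tj j p) := ⟨_, rfl⟩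
  rw [hcomp, ContinuousLinearMap.comp_apply, ContinuousLinearMap.comp_apply, hu1, hu2, ← hL]
  have hsp : C.sp j (C.Tj j p).1 (C.Tj j p).2 = s' - f' := by rw [hf']; ring
  rw [hsp]
  have h2s : 0 < c' + 2 * f' := by linarith
  constructor
  · rw [chainT_lin L s']
    have h3 : -1 - 2 / c' * (-Cfg.gf f' c') = -(c' / (c' + 2 * f')) := by
      unfold Cfg.gf
      field_simp
      ring
    have h4 : -(-Cfg.gf f' c') - (s' - f') * -(c' / (c' + 2 * f')) + -(c' / (c' + 2 * f')) * s' = 0 := by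
      unfold Cfg.gf
      field_simp
      ring
    rw [h3, h4]
    ring
  · rw [chainT_lin L s']
    field_simp
    ring

end Pool.LightB
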