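import Pool.Agent.Helper638.LightB.Defs
import Pool.Agent.Helper638.LightB.P_FFd
import Pool.Agent.Helper638.LightB.P_asn_spec
import Pool.Agent.Helper638.LightB.P_asn_cont
import Pool.Agent.Helper638.LightB.P_geo_shift
import Pool.Agent.Helper638.LightB.P_gap

set_option autoImplicit false

open MeasureTheory Set Filter Topology

namespace Pool.LightB
variable {n : ℕ}


theorem isOpen_E0_cont_dv (C : Cfg n) (i k : Fin n) :
    Continuous (fun p : ℝ × ℝ => C.dv i k p.1) := by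
  unfold Cfg.dv
  fun_prop

theorem isOpen_E0 (C : Cfg n) (i : Fin n) :
    IsOpen {p : ℝ × ℝ | ((i, p) : St n) ∈ C.E0} ∧
    (∀ p : ℝ × ℝ, ((i, p) : St n) ∈ C.E0 → ∀ j, ¬ C.Hits i j p.1 p.2) := by
  constructor
  · have h1 : {p : ℝ × ℝ | ((i, p) : St n) ∈ C.E0} =
        C.U i ∩ ⋂ k : Fin n, {p : ℝ × ℝ | k ≠ i →
          ¬ (0 ≤ C.dv i k p.1 ∧ C.Tch k p.1 p.2)} := by
      ext p
      constructor
      · rintro ⟨hM, h⟩
        have hM' : C.lo i p.1 < p.2 ∧ p.2 < C.hi i p.1 := hM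
        refine ⟨hM', Set.mem_iInter.2 fun k hk hc => ?_⟩
        have hg := gap C (i := i) (k := k) (Ne.symm hk) (θ := p.1) (b := p.2)
          ⟨hM'.1.le, hM'.2.le⟩ hc.2
        rcases hg with hg | hg
        · exact h k hk hg.1 hc.2
        · exact absurd hc.1 (not_le.2 hg.1)
      · rintro ⟨hM, h⟩
        refine ⟨hM, fun k hk hpos hT => ?_⟩
        exact (Set.mem_iInter.1 h k) hk ⟨le_of_lt hpos, hT⟩
    rw [h1]
    refine (asn_cont C i).2.1.inter (isOpen_iInter_of_finite fun k => ?_)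
    by_cases hk : k = i
    · have : {p : ℝ × ℝ | k ≠ i → ¬ (0 ≤ C.dv i k p.1 ∧ C.Tch k p.1 p.2)} = univ := by
        ext p
        simp [hk]
      rw [this]
      exact isOpen_univ
    · have : {p : ℝ × ℝ | k ≠ i → ¬ (0 ≤ C.dv i k p.1 ∧ C.Tch k p.1 p.2)} =
          {p : ℝ × ℝ | 0 ≤ C.dv i k p.1 ∧ C.Tch k p.1 p.2}ᶜ := by
        ext p
        constructor
        · intro h
          exact h hk
        · intro h _
          exact h
      rw [this, isOpen_compl_iff]
      exact (isClosed_le continuous_const (isOpen_E0_cont_dv C i k)).inter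
        (asn_cont C k).2.2.1
  · rintro p ⟨-, h⟩ j ⟨hij, hdv, hU, -⟩
    exact h j (Ne.symm hij) hdv ⟨hU.1.le, hU.2.le⟩

end Pool.LightB
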