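import Pool.Agent.Helper638.LightB.Defs
import Pool.Agent.Helper638.LightB.P_asn_spec
import Pool.Agent.Helper638.LightB.P_geo_shift
import Pool.Agent.Helper638.LightB.P_supp_ineq
import Pool.Agent.Helper638.LightB.P_onb

set_option autoImplicit false

open MeasureTheory Set Filter Topology

namespace Pool.LightB
variable {n : ℕ}


theorem gap0_per (C : Cfg n) (k : Fin n) (x : ℝ) (m : ℤ) : C.H k (x + m * (2 * Real.pi)) = C.H k x := by
  have hper : Function.Periodic (C.H k) (2 * Real.pi) := fun φ => C.hp k φ
  exact hper.int_mul m x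

/-- lines touching body `i` and parallel to the separating line stay away from body `k`. -/
theorem gap0 (C : Cfg n) {i k : Fin n} (hik : i ≠ k) {θ b : ℝ} (hi : C.Tch i θ b)
    (h0 : C.dv i k θ = 0) : b + C.tau ≤ C.lo k θ ∨ C.hi k θ + C.tau ≤ b := by
  have hsep := C.hsep i k hik
  have h1 := (onb C i hi).1 (C.om i k)
  unfold Cfg.dv at h0
  have hc : Real.cos (C.om i k - θ) = 0 := by
    rw [← Real.cos_neg, neg_sub]; exact h0
  rw [hc, mul_zero, add_zero] at h1
  obtain ⟨m, hm⟩ := Real.cos_eq_zero_iff.1 h0
  rcases Int.even_or_odd' m with ⟨j, hj | hj⟩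
  · right
    have e1 : C.om i k - θ = -(Real.pi / 2 + j * (2 * Real.pi)) := by
      rw [hj] at hm
      push_cast at hm
      linarith
    have e2 : Real.sin (C.om i k - θ) = -1 := by
      rw [e1, Real.sin_neg, Real.sin_add_int_mul_two_pi, Real.sin_pi_div_two]
    rw [e2] at h1
    have e3 : C.hi k θ = C.H k (C.om i k + Real.pi) := by
      unfold Cfg.hi
      have e4 : θ + Real.pi / 2 = C.om i k + Real.pi + j * (2 * Real.pi) := by linarith
      rw [e4, gap0_per]
    rw [e3]
    linarith
  · left
    have e1 : C.om i k - θ = Real.pi / 2 + ((-(j + 1) : ℤ) : ℝ) * (2 * Real.pi) := by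
      rw [hj] at hm
      push_cast at hm ⊢
      linarith
    have e2 : Real.sin (C.om i k - θ) = 1 := by
      rw [e1, Real.sin_add_int_mul_two_pi, Real.sin_pi_div_two]
    rw [e2] at h1
    have e3 : C.lo k θ = -C.H k (C.om i k + Real.pi) := by
      unfold Cfg.lo
      have e4 : θ - Real.pi / 2 = C.om i k + Real.pi + j * (2 * Real.pi) := by
        push_cast at e1
        linarith
      rw [e4, gap0_per]
    rw [e3]
    linarith

end Pool.LightB
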