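import Pool.Agent.Helper638.LightB.Defs
import Pool.Agent.Helper638.LightB.P_FFd
import Pool.Agent.Helper638.LightB.P_asn_spec
import Pool.Agent.Helper638.LightB.P_asn_cont
import Pool.Agent.Helper638.LightB.P_geo_shift
import Pool.Agent.Helper638.LightB.P_gap
import Pool.Agent.Helper638.LightB.P_gap0
import Pool.Agent.Helper638.LightB.P_basics

set_option autoImplicit false

open MeasureTheory Set Filter Topology

namespace Pool.LightB
variable {n : ℕ}


theorem kap_facts_Qf_contDiff : ContDiff ℝ 1 Cfg.Qf := by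
  have h : ContDiff ℝ 1 (fun u : ℝ => 4 * u ^ 2 - 1) := by fun_prop
  exact Real.smoothTransition.contDiff.comp h

theorem kap_facts_Qf_zero {u : ℝ} (hu : |u| ≤ 1 / 2) : Cfg.Qf u = 0 := by
  unfold Cfg.Qf
  apply Real.smoothTransition.zero_of_nonpos
  have h := sq_abs u
  have h0 := abs_nonneg u
  nlinarith

theorem kap_facts_Qf_one {u : ℝ} (hu : 1 / 2 ≤ u ^ 2) : Cfg.Qf u = 1 := by
  unfold Cfg.Qf
  apply Real.smoothTransition.one_of_one_le
  linarith

theorem kap_facts_Qf_mem (u : ℝ) : 0 ≤ Cfg.Qf u ∧ Cfg.Qf u ≤ 1 :=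
  ⟨Real.smoothTransition.nonneg _, Real.smoothTransition.le_one _⟩

theorem kap_facts_Qf_deriv {u : ℝ} (hu : 1 ≤ |u|) : deriv Cfg.Qf u = 0 := by
  have h1 : Cfg.Qf =ᶠ[𝓝 u] fun _ => (1 : ℝ) := by
    have h2 : ∀ᶠ v in 𝓝 u, 1 / 2 < v ^ 2 := by
      have hc : Continuous fun v : ℝ => v ^ 2 := by fun_prop
      apply hc.tendsto u |>.eventually_const_lt
      have := sq_abs u
      nlinarith
    filter_upwards [h2] with v hv
    exact kap_facts_Qf_one hv.le
  rw [h1.deriv_eq]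
  simp

theorem kap_facts_bound : ∃ q0 : ℝ, 0 ≤ q0 ∧ ∀ u, |deriv Cfg.Qf u| ≤ q0 := by
  have hc : Continuous (deriv Cfg.Qf) := kap_facts_Qf_contDiff.continuous_deriv le_rfl
  obtain ⟨q, hq⟩ := (isCompact_Icc (a := (-1 : ℝ)) (b := 1)).exists_bound_of_continuousOn
    hc.continuousOn
  refine ⟨max q 0, le_max_right _ _, fun u => ?_⟩
  by_cases hu : 1 ≤ |u|
  · rw [kap_facts_Qf_deriv hu, abs_zero]; exact le_max_right _ _
  · push Not at hu
    rw [abs_lt] at hu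
    have := hq u ⟨hu.1.le, hu.2.le⟩
    rw [Real.norm_eq_abs] at this
    exact this.trans (le_max_left _ _)

open Classical in
/-- one factor of the cutoff -/
noncomputable def kap_facts_F (C : Cfg n) (ε : ℝ) (i k : Fin n) (q : ℝ × ℝ) : ℝ :=
  if k ≠ i ∧ 0 < C.dv i k q.1 then
    Cfg.Qf ((q.2 - C.hi k q.1) / ε) * Cfg.Qf ((q.2 - C.lo k q.1) / ε) else 1

theorem kap_facts_prod (C : Cfg n) (ε : ℝ) (i : Fin n) (q : ℝ × ℝ) :
    C.kap ε (i, q) = ∏ k, kap_facts_F C ε i k q := rfl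

/-- the smooth branch -/
noncomputable def kap_facts_G (C : Cfg n) (ε : ℝ) (k : Fin n) (q : ℝ × ℝ) : ℝ :=
  Cfg.Qf ((q.2 - C.hi k q.1) / ε) * Cfg.Qf ((q.2 - C.lo k q.1) / ε)

theorem kap_facts_dv_cont (C : Cfg n) (i k : Fin n) :
    Continuous (fun q : ℝ × ℝ => C.dv i k q.1) := by
  unfold Cfg.dv
  fun_prop

theorem kap_facts_G_contDiff (C : Cfg n) (ε : ℝ) (k : Fin n) :
    ContDiff ℝ 1 (kap_facts_G C ε k) := by
  unfold kap_facts_G
  obtain ⟨-, -, -, -, -, -, -, -, -, -, -, -, -, hh, hl, -⟩ := basics C k 0 0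
  have h1 : ContDiff ℝ 1 (fun q : ℝ × ℝ => q.2 - C.hi k q.1) :=
    contDiff_snd.sub (hh.comp contDiff_fst)
  have h2 : ContDiff ℝ 1 (fun q : ℝ × ℝ => q.2 - C.lo k q.1) :=
    contDiff_snd.sub (hl.comp contDiff_fst)
  exact (kap_facts_Qf_contDiff.comp (h1.div_const ε)).mul
    (kap_facts_Qf_contDiff.comp (h2.div_const ε))

theorem kap_facts_Q_deriv (h : ℝ → ℝ) (h' : ℝ) (ε : ℝ) (p : ℝ × ℝ) (hh : HasDerivAt h h' p.1) :
    HasFDerivAt (fun q : ℝ × ℝ => Cfg.Qf ((q.2 - h q.1) / ε))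
      (deriv Cfg.Qf ((p.2 - h p.1) / ε) • (ε⁻¹ •
        (ContinuousLinearMap.snd ℝ ℝ ℝ - h' • ContinuousLinearMap.fst ℝ ℝ ℝ))) p := by
  have h0 : HasFDerivAt (fun q : ℝ × ℝ => h q.1) (h' • ContinuousLinearMap.fst ℝ ℝ ℝ) p :=
    hh.comp_hasFDerivAt p hasFDerivAt_fst
  have h00 : HasFDerivAt (fun q : ℝ × ℝ => q.2 - h q.1)
      (ContinuousLinearMap.snd ℝ ℝ ℝ - h' • ContinuousLinearMap.fst ℝ ℝ ℝ) p :=
    hasFDerivAt_snd.sub h0
  have h1 : HasFDerivAt (fun q : ℝ × ℝ => (q.2 - h q.1) / ε) (ε⁻¹ •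
        (ContinuousLinearMap.snd ℝ ℝ ℝ - h' • ContinuousLinearMap.fst ℝ ℝ ℝ)) p := by
    have h2 := h00.const_smul ε⁻¹
    refine h2.congr_of_eventuallyEq (Filter.Eventually.of_forall fun q => ?_)
    simp only [Pi.smul_apply, smul_eq_mul]
    ring
  have h3 : HasDerivAt Cfg.Qf (deriv Cfg.Qf ((p.2 - h p.1) / ε))
      ((p.2 - h p.1) / ε) :=
    (kap_facts_Qf_contDiff.differentiable one_ne_zero _).hasDerivAt
  have h5 : HasFDerivAt (Cfg.Qf ∘ fun q : ℝ × ℝ => (q.2 - h q.1) / ε) _ p :=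
    h3.comp_hasFDerivAt p h1
  exact h5

/-- derivative of the smooth branch in the direction `(1,-s)` -/
theorem kap_facts_G_deriv (C : Cfg n) {q0 : ℝ} (hq0 : 0 ≤ q0) (hq : ∀ u, |deriv Cfg.Qf u| ≤ q0)
    {ε : ℝ} (hε : 0 < ε) (k : Fin n) (p : ℝ × ℝ) (s : ℝ) (hs : |s| ≤ C.K) :
    |fderiv ℝ (kap_facts_G C ε k) p (1, -s)| ≤ 4 * q0 * C.K / ε ∧
    (ε ≤ |p.2 - C.hi k p.1| → ε ≤ |p.2 - C.lo k p.1| →
      fderiv ℝ (kap_facts_G C ε k) p (1, -s) = 0) := by
  obtain ⟨-, -, -, -, -, -, -, hdh, hdl, -⟩ := basics C k p.1 0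
  have hspb : ∀ b, |C.sp k p.1 b| ≤ C.K := fun b => by
    have h0 := (basics C k p.1 b).1
    have h01 := C.hR1
    have h02 := C.htau
    linarith
  have hK := C.hK0
  have h1 := kap_facts_Q_deriv (C.hi k) _ ε p hdh
  have h2 := kap_facts_Q_deriv (C.lo k) _ ε p hdl
  have h3 := h1.mul h2
  have h4 : kap_facts_G C ε k = (fun q : ℝ × ℝ => Cfg.Qf ((q.2 - C.hi k q.1) / ε)) *
      fun q : ℝ × ℝ => Cfg.Qf ((q.2 - C.lo k q.1) / ε) := by
    funext q
    simp only [kap_facts_G, Pi.mul_apply]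
  rw [h4, h3.fderiv]
  simp only [ContinuousLinearMap.add_apply, ContinuousLinearMap.smul_apply, smul_eq_mul,
    ContinuousLinearMap.sub_apply, ContinuousLinearMap.coe_snd', ContinuousLinearMap.coe_fst']
  set u1 := (p.2 - C.hi k p.1) / ε with hu1
  set u2 := (p.2 - C.lo k p.1) / ε with hu2
  have hD : ∀ b, |ε⁻¹ * (-s - -C.sp k p.1 b * 1)| ≤ ε⁻¹ * (2 * C.K) := by
    intro b
    rw [abs_mul, abs_of_pos (inv_pos.2 hε)]
    refine mul_le_mul_of_nonneg_left ?_ (inv_pos.2 hε).le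
    have h5 : -s - -C.sp k p.1 b * 1 = C.sp k p.1 b - s := by ring
    rw [h5]
    calc |C.sp k p.1 b - s| ≤ |C.sp k p.1 b| + |s| := abs_sub _ _
      _ ≤ 2 * C.K := by linarith [hspb b]
  have hone : ∀ u v b, |Cfg.Qf u * (deriv Cfg.Qf v * (ε⁻¹ * (-s - -C.sp k p.1 b * 1)))| ≤
      q0 * (ε⁻¹ * (2 * C.K)) := by
    intro u v b
    rw [abs_mul, abs_mul (deriv Cfg.Qf v)]
    have h6 := kap_facts_Qf_mem u
    rw [abs_of_nonneg h6.1]
    calc Cfg.Qf u * (|deriv Cfg.Qf v| * |ε⁻¹ * (-s - -C.sp k p.1 b * 1)|) ≤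
          1 * (q0 * (ε⁻¹ * (2 * C.K))) := by
          refine mul_le_mul h6.2 (mul_le_mul (hq v) (hD b) (abs_nonneg _) hq0)
            (by positivity) zero_le_one
      _ = _ := one_mul _
  refine ⟨?_, fun ha hb => ?_⟩
  · refine (abs_add_le _ _).trans ?_
    have h7 := hone u1 u2 (C.lo k p.1)
    have h8 := hone u2 u1 (C.hi k p.1)
    calc _ ≤ q0 * (ε⁻¹ * (2 * C.K)) + q0 * (ε⁻¹ * (2 * C.K)) := add_le_add h7 h8
      _ = _ := by field_simp; ring
  · have e1 : deriv Cfg.Qf u1 = 0 := by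
      apply kap_facts_Qf_deriv
      rw [hu1, abs_div, abs_of_pos hε, le_div_iff₀ hε, one_mul]
      exact ha
    have e2 : deriv Cfg.Qf u2 = 0 := by
      apply kap_facts_Qf_deriv
      rw [hu2, abs_div, abs_of_pos hε, le_div_iff₀ hε, one_mul]
      exact hb
    rw [e1, e2]; ring

/-- local structure of a factor -/
theorem kap_facts_local (C : Cfg n) {ε : ℝ} (hε : 0 < ε) (hετ : ε < C.tau / 2)
    (i k : Fin n) (p : ℝ × ℝ) (hp : p ∈ C.U i) :
    (k ≠ i ∧ 0 < C.dv i k p.1 ∧ kap_facts_F C ε i k =ᶠ[𝓝 p] kap_facts_G C ε k) ∨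
    kap_facts_F C ε i k =ᶠ[𝓝 p] fun _ => 1 := by
  by_cases hki : k = i
  · right
    refine Filter.Eventually.of_forall fun q => ?_
    unfold kap_facts_F
    rw [if_neg]
    exact fun h => h.1 hki
  have hcont := kap_facts_dv_cont C i k
  have hτ := C.htau
  rcases lt_trichotomy (C.dv i k p.1) 0 with h | h | h
  · right
    have h1 : ∀ᶠ q in 𝓝 p, C.dv i k q.1 < 0 := (hcont.tendsto p).eventually_lt_const h
    filter_upwards [h1] with q hq
    unfold kap_facts_F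
    rw [if_neg]
    exact fun h' => absurd h'.2 (not_lt.2 hq.le)
  · right
    have hT : C.Tch i p.1 p.2 := ⟨hp.1.le, hp.2.le⟩
    have hg := gap0 C (fun h => hki h.symm) hT h
    have hlohi : C.lo k p.1 < C.hi k p.1 := (asn_spec C k p.1 0).2.2.2.2.2.2
    obtain ⟨-, -, -, -, -, -, -, -, -, -, -, -, -, hh, hl, -⟩ := basics C k 0 0
    have hhc : Continuous (fun q : ℝ × ℝ => |q.2 - C.hi k q.1|) :=
      (continuous_snd.sub (hh.continuous.comp continuous_fst)).abs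
    have hlc : Continuous (fun q : ℝ × ℝ => |q.2 - C.lo k q.1|) :=
      (continuous_snd.sub (hl.continuous.comp continuous_fst)).abs
    have a1 : C.tau / 2 < |p.2 - C.hi k p.1| := by
      rcases hg with hg | hg
      · rw [abs_of_neg (by linarith)]; linarith
      · rw [abs_of_pos (by linarith)]; linarith
    have a2 : C.tau / 2 < |p.2 - C.lo k p.1| := by
      rcases hg with hg | hg
      · rw [abs_of_neg (by linarith)]; linarith
      · rw [abs_of_pos (by linarith)]; linarith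
    have h5 : ∀ᶠ q : ℝ × ℝ in 𝓝 p, C.tau / 2 < |q.2 - C.hi k q.1| :=
      (hhc.tendsto p).eventually_const_lt a1
    have h6 : ∀ᶠ q : ℝ × ℝ in 𝓝 p, C.tau / 2 < |q.2 - C.lo k q.1| :=
      (hlc.tendsto p).eventually_const_lt a2
    filter_upwards [h5, h6] with q hq1 hq2
    unfold kap_facts_F
    split_ifs with hc
    · have key : ∀ x : ℝ, C.tau / 2 < |x| → Cfg.Qf (x / ε) = 1 := by
        intro x hx
        apply kap_facts_Qf_one
        have h8 : 1 ≤ |x / ε| := by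
          rw [abs_div, abs_of_pos hε, le_div_iff₀ hε]
          linarith
        rw [← sq_abs]
        nlinarith
      rw [key _ hq1, key _ hq2, one_mul]
    · rfl
  · left
    refine ⟨hki, h, ?_⟩
    have h1 : ∀ᶠ q in 𝓝 p, 0 < C.dv i k q.1 := (hcont.tendsto p).eventually_const_lt h
    filter_upwards [h1] with q hq
    unfold kap_facts_F kap_facts_G
    rw [if_pos ⟨hki, hq⟩]

theorem kap_facts_F_mem (C : Cfg n) (ε : ℝ) (i k : Fin n) (q : ℝ × ℝ) :
    0 ≤ kap_facts_F C ε i k q ∧ kap_facts_F C ε i k q ≤ 1 := by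
  unfold kap_facts_F
  split_ifs
  · have h1 := kap_facts_Qf_mem ((q.2 - C.hi k q.1) / ε)
    have h2 := kap_facts_Qf_mem ((q.2 - C.lo k q.1) / ε)
    exact ⟨mul_nonneg h1.1 h2.1, mul_le_one₀ h1.2 h2.1 h2.2⟩
  · exact ⟨zero_le_one, le_rfl⟩

theorem kap_facts_F_deriv (C : Cfg n) {q0 : ℝ} (hq0 : 0 ≤ q0)
    (hq : ∀ u, |deriv Cfg.Qf u| ≤ q0) {ε : ℝ} (hε : 0 < ε) (hετ : ε < C.tau / 2)
    (i k : Fin n) (p : ℝ × ℝ) (hp : p ∈ C.U i) :
    ContDiffAt ℝ 1 (kap_facts_F C ε i k) p ∧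
    ∀ s : ℝ, |s| ≤ C.K → |fderiv ℝ (kap_facts_F C ε i k) p (1, -s)| ≤ 4 * q0 * C.K / ε ∧
      (((i, p) : St n) ∉ C.Strip ε → fderiv ℝ (kap_facts_F C ε i k) p (1, -s) = 0) := by
  have hK := C.hK0
  rcases kap_facts_local C hε hετ i k p hp with ⟨hki, hdv, heq⟩ | heq
  · refine ⟨(kap_facts_G_contDiff C ε k).contDiffAt.congr_of_eventuallyEq heq, fun s hs => ?_⟩
    rw [heq.fderiv_eq]
    obtain ⟨h1, h2⟩ := kap_facts_G_deriv C hq0 hq hε k p s hs
    refine ⟨h1, fun hS => h2 ?_ ?_⟩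
    · by_contra h
      push Not at h
      exact hS ⟨hp, k, hki, hdv, Or.inl h⟩
    · by_contra h
      push Not at h
      exact hS ⟨hp, k, hki, hdv, Or.inr h⟩
  · refine ⟨contDiffAt_const.congr_of_eventuallyEq heq, fun s hs => ?_⟩
    rw [heq.fderiv_eq]
    simp only [fderiv_fun_const, Pi.zero_apply, ContinuousLinearMap.zero_apply, abs_zero,
      implies_true, and_true]
    positivity

/-- the one-step cutoff. -/
theorem kap_facts (C : Cfg n) : ∃ ε₀ > 0, ∃ B > 0, ∀ ε, 0 < ε → ε < ε₀ →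
    ∀ (i : Fin n) (p : ℝ × ℝ), p ∈ C.U i →
      (0 ≤ C.kap ε (i, p) ∧ C.kap ε (i, p) ≤ 1) ∧
      ContDiffAt ℝ 1 (fun q : ℝ × ℝ => C.kap ε (i, q)) p ∧
      (((i, p) : St n) ∈ C.S1 → ∀ᶠ q in 𝓝 p, C.kap ε (i, q) = 0) ∧
      (∀ s : ℝ, |s| ≤ C.K → |fderiv ℝ (fun q : ℝ × ℝ => C.kap ε (i, q)) p (1, -s)| ≤
        B / ε * (C.Strip ε).indicator 1 ((i, p) : St n)) := by
  obtain ⟨q0, hq0, hq⟩ := kap_facts_bound
  have hτ := C.htau
  have hK := C.hK0
  refine ⟨C.tau / 2, by positivity, n * (4 * q0 * C.K) + 1, by positivity,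
    fun ε hε hετ i p hp => ?_⟩
  have hfun : (fun q : ℝ × ℝ => C.kap ε (i, q)) = fun q => ∏ k, kap_facts_F C ε i k q := by
    funext q; exact kap_facts_prod C ε i q
  have hF := fun k => kap_facts_F_deriv C hq0 hq hε hετ i k p hp
  refine ⟨⟨?_, ?_⟩, ?_, ?_, ?_⟩
  · rw [kap_facts_prod]
    exact Finset.prod_nonneg fun k _ => (kap_facts_F_mem C ε i k p).1
  · rw [kap_facts_prod]
    exact Finset.prod_le_one (fun k _ => (kap_facts_F_mem C ε i k p).1)
      fun k _ => (kap_facts_F_mem C ε i k p).2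
  · rw [hfun]
    exact contDiffAt_prod fun k _ => (hF k).1
  · rintro ⟨-, k, hki, hdv, hbp⟩
    obtain ⟨-, -, -, -, -, -, -, -, -, -, -, -, -, hh, hl, -⟩ := basics C k 0 0
    have h1 : ∀ᶠ q in 𝓝 p, 0 < C.dv i k q.1 :=
      ((kap_facts_dv_cont C i k).tendsto p).eventually_const_lt hdv
    have key : ∀ h : ℝ → ℝ, Continuous h → p.2 = h p.1 →
        ∀ᶠ q : ℝ × ℝ in 𝓝 p, Cfg.Qf ((q.2 - h q.1) / ε) = 0 := by
      intro h hc ha
      have h2 : ∀ᶠ q : ℝ × ℝ in 𝓝 p, |(q.2 - h q.1) / ε| < 1 / 2 := by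
        have hc : Continuous (fun q : ℝ × ℝ => |(q.2 - h q.1) / ε|) :=
          ((continuous_snd.sub (hc.comp continuous_fst)).div_const ε).abs
        apply (hc.tendsto p).eventually_lt_const
        rw [ha, sub_self]; norm_num
      filter_upwards [h2] with q hq
      exact kap_facts_Qf_zero hq.le
    have hb : p.2 = C.lo k p.1 ∨ p.2 = C.hi k p.1 := hbp
    have hz : ∀ᶠ q : ℝ × ℝ in 𝓝 p, kap_facts_F C ε i k q = 0 := by
      rcases hb with hb | hb
      · filter_upwards [h1, key (C.lo k) hl.continuous hb] with q hq1 hq2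
        unfold kap_facts_F
        rw [if_pos ⟨hki, hq1⟩, hq2, mul_zero]
      · filter_upwards [h1, key (C.hi k) hh.continuous hb] with q hq1 hq2
        unfold kap_facts_F
        rw [if_pos ⟨hki, hq1⟩, hq2, zero_mul]
    filter_upwards [hz] with q hq
    rw [kap_facts_prod]
    exact Finset.prod_eq_zero (Finset.mem_univ k) hq
  · intro s hs
    rw [hfun]
    have hprod := HasFDerivAt.finsetProd (u := Finset.univ) (g := fun k => kap_facts_F C ε i k)
      (g' := fun k => fderiv ℝ (kap_facts_F C ε i k) p) (x := p)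
      (fun k _ => ((hF k).1.differentiableAt one_ne_zero).hasFDerivAt)
    rw [hprod.fderiv]
    have hsum : |(∑ k, (∏ j ∈ Finset.univ.erase k, kap_facts_F C ε i j p) •
        fderiv ℝ (kap_facts_F C ε i k) p) (1, -s)| ≤
        ∑ k, |fderiv ℝ (kap_facts_F C ε i k) p (1, -s)| := by
      rw [ContinuousLinearMap.sum_apply]
      refine (Finset.abs_sum_le_sum_abs _ _).trans (Finset.sum_le_sum fun k _ => ?_)
      rw [ContinuousLinearMap.smul_apply, smul_eq_mul, abs_mul]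
      have h1 : |∏ j ∈ Finset.univ.erase k, kap_facts_F C ε i j p| ≤ 1 := by
        rw [abs_of_nonneg (Finset.prod_nonneg fun k _ => (kap_facts_F_mem C ε i k p).1)]
        exact Finset.prod_le_one (fun k _ => (kap_facts_F_mem C ε i k p).1)
          fun k _ => (kap_facts_F_mem C ε i k p).2
      calc _ ≤ 1 * _ := mul_le_mul_of_nonneg_right h1 (abs_nonneg _)
        _ = _ := one_mul _
    refine hsum.trans ?_
    by_cases hS : ((i, p) : St n) ∈ C.Strip ε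
    · rw [Set.indicator_of_mem hS]
      simp only [Pi.one_apply, mul_one]
      calc ∑ k, |fderiv ℝ (kap_facts_F C ε i k) p (1, -s)|
          ≤ ∑ k : Fin n, 4 * q0 * C.K / ε := Finset.sum_le_sum fun k _ => ((hF k).2 s hs).1
        _ = n * (4 * q0 * C.K / ε) := by simp
        _ ≤ (n * (4 * q0 * C.K) + 1) / ε := by
          rw [le_div_iff₀ hε]
          have : n * (4 * q0 * C.K / ε) * ε = n * (4 * q0 * C.K) := by field_simp
          linarith
    · rw [Set.indicator_of_notMem hS, mul_zero]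
      refine le_of_eq (Finset.sum_eq_zero fun k _ => ?_)
      rw [((hF k).2 s hs).2 hS, abs_zero]

end Pool.LightB
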