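import Pool.Agent.Helper638.LightB.Defs
import Pool.Agent.Helper638.LightB.P_asn_spec
import Pool.Agent.Helper638.LightB.P_geo_shift
import Pool.Agent.Helper638.LightB.P_gap
import Pool.Agent.Helper638.LightB.P_basics
import Pool.Agent.Helper638.LightB.P_hits_unique
import Pool.Agent.Helper638.LightB.P_T_of_hits
import Pool.Agent.Helper638.LightB.P_Tj_facts

set_option autoImplicit false

open MeasureTheory Set Filter Topology

namespace Pool.LightB
variable {n : ℕ}


theorem sig_bounds_gf {f c : ℝ} (hc : 0 ≤ c) (hf : 0 < f) :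
    0 ≤ Cfg.gf f c ∧ Cfg.gf f c ≤ c := by
  have h1 : 0 < c + 2 * f := by linarith
  unfold Cfg.gf
  constructor
  · exact div_nonneg (mul_nonneg hc hf.le) h1.le
  · rw [div_le_iff₀ h1]
    nlinarith [mul_nonneg hc hf.le, mul_nonneg hc hc]

theorem sig_bounds (C : Cfg n) (N : ℕ) (l : St n) (hl : l ∈ C.M) :
    C.sp l.1 l.2.1 l.2.2 + C.tau ≤ C.sig N l ∧ C.sig N l ≤ C.K := by
  classical
  have hcr : ∀ l : St n, C.sp l.1 l.2.1 l.2.2 + C.tau ≤ C.K := by
    intro l
    have h1 := (basics C l.1 l.2.1 l.2.2).1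
    have h2 := le_abs_self (C.sp l.1 l.2.1 l.2.2)
    have h3 := C.hR1
    linarith
  induction N generalizing l with
  | zero => exact ⟨hcr l, le_rfl⟩
  | succ N ih =>
    by_cases h : ∃ j, C.Hits l.1 j l.2.1 l.2.2
    · obtain ⟨i, θ, b⟩ := l
      obtain ⟨j, hj⟩ := h
      have hj' : C.Hits i j θ b := hj
      have hT := T_of_hits C hj'
      have hij : i ≠ j := hj'.1
      have hdv : 0 < C.dv i j θ := hj'.2.1
      have hU : (θ, b) ∈ C.U j := hj'.2.2.1
      have hfacts := Tj_facts C j (θ, b) hU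
      have hTM : C.T (i, θ, b) ∈ C.M := by
        rw [hT]
        exact hfacts.1
      have hih := (ih (C.T (i, θ, b)) hTM).1
      have hsig : C.sig (N + 1) (i, θ, b) = C.sm (C.T (i, θ, b)).1 θ b +
          Cfg.gf (C.sig N (C.T (i, θ, b)) -
            C.sp (C.T (i, θ, b)).1 (C.T (i, θ, b)).2.1 (C.T (i, θ, b)).2.2)
            (C.cc (C.T (i, θ, b)).1 (C.T (i, θ, b)).2.1 (C.T (i, θ, b)).2.2) := by
        show (if ∃ j, C.Hits i j θ b then _ else _) = _
        rw [if_pos ⟨j, hj'⟩]
      have hb' := basics C (C.T (i, θ, b)).1 (C.T (i, θ, b)).2.1 (C.T (i, θ, b)).2.2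
      have hgf := sig_bounds_gf (f := C.sig N (C.T (i, θ, b)) -
            C.sp (C.T (i, θ, b)).1 (C.T (i, θ, b)).2.1 (C.T (i, θ, b)).2.2) hb'.2.2.1
            (by have := C.htau; linarith)
      have hcR := hb'.2.2.2.1
      have hTi : C.Tch i θ b := ⟨le_of_lt hl.1, le_of_lt hl.2⟩
      have hTj : C.Tch j θ b := ⟨le_of_lt hU.1, le_of_lt hU.2⟩
      have hgap : C.sp i θ b + C.tau ≤ C.sm j θ b := by
        rcases gap C hij hTi hTj with hg | hg
        · exact hg.2
        · exact absurd hg.1 (not_lt.mpr hdv.le)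
      have hsm := (basics C j θ b).2.1
      have hT1 : (C.T (i, θ, b)).1 = j := by rw [hT]
      rw [hsig]
      rw [hT1] at hgf hcR ⊢
      have h1 := le_abs_self (C.sm j θ b)
      have htau := C.htau
      constructor
      · show C.sp i θ b + C.tau ≤ _
        linarith [hgf.1]
      · linarith [hgf.2]
    · have hsig : C.sig (N + 1) l = C.K := by
        show (if ∃ j, C.Hits l.1 j l.2.1 l.2.2 then _ else _) = _
        rw [if_neg h]
      rw [hsig]
      exact ⟨hcr l, le_rfl⟩

end Pool.LightB
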