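import Pool.Agent.Helper638.LightB.Defs
import Pool.Agent.Helper638.LightB.P_FFd
import Pool.Agent.Helper638.LightB.P_asn_spec
import Pool.Agent.Helper638.LightB.P_geo_shift
import Pool.Agent.Helper638.LightB.P_supp_ineq
import Pool.Agent.Helper638.LightB.P_onb
import Pool.Agent.Helper638.LightB.P_gap
import Pool.Agent.Helper638.LightB.P_basics

set_option autoImplicit false

open MeasureTheory Set Filter Topology

namespace Pool.LightB
variable {n : ℕ}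


theorem trichotomy (C : Cfg n) {l : St n} (hl : l ∈ C.M) :
    (∃ j, C.Hits l.1 j l.2.1 l.2.2) ∨ l ∈ C.E0 ∨ l ∈ C.S1 := by
  classical
  obtain ⟨i, θ, b⟩ := l
  by_cases hE : (i, θ, b) ∈ C.E0
  · exact Or.inr (Or.inl hE)
  by_cases hS : (i, θ, b) ∈ C.S1
  · exact Or.inr (Or.inr hS)
  left
  show ∃ j, C.Hits i j θ b
  have hne : ∃ k, k ≠ i ∧ 0 < C.dv i k θ ∧ C.Tch k θ b := by
    by_contra hcon
    apply hE
    refine ⟨hl, ?_⟩
    intro k hk hdv hT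
    exact hcon ⟨k, hk, hdv, hT⟩
  have hlt : ∀ k, k ≠ i → 0 < C.dv i k θ → C.Tch k θ b → (θ, b) ∈ C.U k := by
    intro k hk hdv hle
    have h1 : C.lo k θ ≠ b := fun h => hS ⟨hl, k, hk, hdv, Or.inl h.symm⟩
    have h2 : b ≠ C.hi k θ := fun h => hS ⟨hl, k, hk, hdv, Or.inr h⟩
    exact ⟨lt_of_le_of_ne hle.1 h1, lt_of_le_of_ne hle.2 h2⟩
  set F : Finset (Fin n) := Finset.univ.filter
    (fun k => k ≠ i ∧ 0 < C.dv i k θ ∧ C.Tch k θ b) with hF
  have hFne : F.Nonempty := by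
    obtain ⟨k, hk⟩ := hne
    exact ⟨k, Finset.mem_filter.2 ⟨Finset.mem_univ _, hk⟩⟩
  obtain ⟨j, hj, hmin⟩ := F.exists_min_image (fun k => C.sm k θ b) hFne
  obtain ⟨_, hj1, hj2, hj3⟩ := Finset.mem_filter.1 hj
  refine ⟨j, hj1.symm, hj2, hlt j hj1 hj2 hj3, ?_⟩
  intro k hk1 hk2 hk3 hk4
  have hkF : k ∈ F := Finset.mem_filter.2 ⟨Finset.mem_univ _, hk1, hk3, hk4⟩
  have hle := hmin k hkF
  rcases gap C hk2.symm hj3 hk4 with ⟨h, _⟩ | ⟨_, h⟩
  · exact h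
  · exfalso
    have h5 := (onb C k hk4).2.2.1
    have h6 := C.htau
    have h7 : C.sm j θ b ≤ C.sm k θ b := hle
    linarith

end Pool.LightB
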