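import Pool.Agent.Helper638.LightB.Defs

set_option autoImplicit false

open MeasureTheory Set Filter Topology

namespace Pool.LightB


variable {n : ℕ}

theorem intZero (H : ℝ × ℝ → ℝ) (hH : ContDiff ℝ 1 H) (hc : HasCompactSupport H) (u : ℝ × ℝ) :
    ∫ p, fderiv ℝ H p u = 0 := by
  have hcont : Continuous (fun p => fderiv ℝ H p u) :=
    (hH.continuous_fderiv (by norm_num)).clm_apply continuous_const
  have hc' : HasCompactSupport (fun p => fderiv ℝ H p u) :=
    hc.fderiv_apply (𝕜 := ℝ) u
  have hi1 : Integrable (fun p => fderiv ℝ H p u) := hcont.integrable_of_hasCompactSupport hc'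
  have hi2 : Integrable H := hH.continuous.integrable_of_hasCompactSupport hc
  have h := integral_bilinear_hasLineDerivAt_right_eq_neg_left_of_integrable
    (μ := (volume : Measure (ℝ × ℝ))) (f := fun _ => (1 : ℝ)) (f' := fun _ => (0 : ℝ)) (g := H)
    (g' := fun p => fderiv ℝ H p u) (v := u) (B := ContinuousLinearMap.mul ℝ ℝ)
    (by simp) (by simpa using hi1) (by simpa using hi2)
    (fun x _ => by
      have : HasLineDerivAt ℝ (fun _ : ℝ × ℝ => (1 : ℝ)) 0 x u := by
        simpa using (hasFDerivAt_const (1 : ℝ) x).hasLineDerivAt u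
      exact this)
    (fun x _ => ((hH.differentiable (by norm_num)) x).hasFDerivAt.hasLineDerivAt u)
  simpa using h

end Pool.LightB
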