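import Pool.Agent.Helper638.LightB.Defs
import Pool.Agent.Helper638.LightB.P_FFd
import Pool.Agent.Helper638.LightB.P_asn_spec
import Pool.Agent.Helper638.LightB.P_asn_deriv
import Pool.Agent.Helper638.LightB.P_basics
import Pool.Agent.Helper638.LightB.P_Tj_facts
import Pool.Agent.Helper638.LightB.P_Tj_deriv
import Pool.Agent.Helper638.LightB.P_chainT

set_option autoImplicit false

open MeasureTheory Set Filter Topology

namespace Pool.LightB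
variable {n : ℕ}


theorem sig_step_gf {A c : ℝ × ℝ → ℝ} {A' c' : ℝ × ℝ →L[ℝ] ℝ} {p : ℝ × ℝ}
    (hA : HasFDerivAt A A' p) (hc : HasFDerivAt c c' p) (h : c p + 2 * A p ≠ 0) :
    HasFDerivAt (fun q => Cfg.gf (A q) (c q))
      (((c p / (c p + 2 * A p)) ^ 2) • A' + (2 * (A p / (c p + 2 * A p)) ^ 2) • c') p := by
  have h1 : HasFDerivAt (fun q => c q * A q) (c p • A' + A p • c') p := hc.mul hA
  have h2 : HasFDerivAt (fun q => c q + 2 * A q) (c' + (2 : ℝ) • A') p :=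
    hc.add (hA.const_mul 2)
  have h3 : HasFDerivAt (fun q => (c q + 2 * A q)⁻¹)
      ((-((c p + 2 * A p) ^ 2)⁻¹) • (c' + (2 : ℝ) • A')) p :=
    (hasDerivAt_inv h).comp_hasFDerivAt p h2
  have h4 : HasFDerivAt (fun q => c q * A q * (c q + 2 * A q)⁻¹)
      ((c p * A p) • ((-((c p + 2 * A p) ^ 2)⁻¹) • (c' + (2 : ℝ) • A')) +
        (c p + 2 * A p)⁻¹ • (c p • A' + A p • c')) p := h1.mul h3
  refine h4.congr_fderiv ?_
  refine ContinuousLinearMap.ext fun u => ?_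
  simp only [add_apply, smul_apply, smul_eq_mul]
  field_simp
  ring

theorem sig_step_mul {x y a b : ℝ} (hx : |x| ≤ a) (hy : |y| ≤ b) : |x * y| ≤ a * b := by
  rw [abs_mul]
  exact mul_le_mul hx hy (abs_nonneg _) ((abs_nonneg _).trans hx)

theorem sig_step_real1 {K lam m w S R b b' Y : ℝ} (hK : 0 < K) (hm0 : 0 ≤ m) (hm1 : m ≤ lam)
    (hl : lam < 1) (hw0 : 0 ≤ w) (hw1 : w ≤ 1 / 2) (hS : |S| ≤ K) (hR : |R| ≤ K)
    (hb : |b| ≤ K) (hb' : |b'| ≤ K) :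
    |-(S * w) + b - m ^ 3 * Y + m ^ 2 * (S * w + m * b') + 2 * w ^ 2 * (R * w - S * (w + m))| ≤
      lam ^ 3 * |Y| + 5 * K := by
  have hwa : |w| ≤ 1 / 2 := by rw [abs_of_nonneg hw0]; exact hw1
  have hma : |m| ≤ 1 := by rw [abs_of_nonneg hm0]; linarith
  have h1 : |S * w| ≤ K * (1 / 2) := sig_step_mul hS hwa
  have h3 : |m ^ 3 * Y| ≤ lam ^ 3 * |Y| := by
    refine sig_step_mul ?_ le_rfl
    rw [abs_of_nonneg (pow_nonneg hm0 3)]
    exact pow_le_pow_left₀ hm0 hm1 3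
  have hm2 : |m ^ 2| ≤ 1 := by
    rw [abs_of_nonneg (sq_nonneg m)]
    nlinarith
  have h4 : |m ^ 2 * (S * w + m * b')| ≤ 1 * (K * (1 / 2) + 1 * K) := by
    refine sig_step_mul hm2 ((abs_add_le _ _).trans (add_le_add h1 (sig_step_mul hma hb')))
  have hw2 : |2 * w ^ 2| ≤ 1 / 2 := by
    rw [abs_of_nonneg (by positivity)]
    nlinarith
  have hwm : |w + m| ≤ 3 / 2 := by
    rw [abs_of_nonneg (by positivity)]
    linarith
  have h5 : |2 * w ^ 2 * (R * w - S * (w + m))| ≤ 1 / 2 * (K * (1 / 2) + K * (3 / 2)) := by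
    refine sig_step_mul hw2 ((abs_sub _ _).trans (add_le_add (sig_step_mul hR hwa)
      (sig_step_mul hS hwm)))
  rw [abs_le] at h1 h3 h4 h5 hb ⊢
  constructor <;> linarith [h1.1, h1.2, h3.1, h3.2, h4.1, h4.2, h5.1, h5.2, hb.1, hb.2]

theorem sig_step_real2 {K lam m w S R b' Y D v t τ : ℝ} (_hK : 0 < K) (hm0 : 0 ≤ m)
    (hm1 : m ≤ lam) (hl : lam < 1) (hw0 : 0 ≤ w) (hw1 : w ≤ 1 / 2) (hS : |S| ≤ K)
    (hR : |R| ≤ K) (hb' : |b'| ≤ K) (hv : 0 ≤ v) (ht0 : 0 ≤ t) (hτ : 0 < τ)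
    (ht : t ≤ 1 / (2 * τ)) :
    |S * v + (-(2 * m * t) * Y - m * D - m ^ 2 * (S * v - 2 * b' * v)) +
      2 * w ^ 2 * (-(R * v) - S * v)| ≤
      lam * |D| + (1 / τ) * |Y| + 5 * K * v := by
  have hma : |m| ≤ 1 := by rw [abs_of_nonneg hm0]; linarith
  have hva : |v| ≤ v := by rw [abs_of_nonneg hv]
  have h1 : |S * v| ≤ K * v := sig_step_mul hS hva
  have h1' : |R * v| ≤ K * v := sig_step_mul hR hva
  have h2 : |2 * m * t * Y| ≤ 1 / τ * |Y| := by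
    refine sig_step_mul ?_ le_rfl
    rw [abs_of_nonneg (by positivity)]
    have h3 : 1 / τ = 2 * 1 * (1 / (2 * τ)) := by field_simp
    rw [h3]
    have hm1' : m ≤ 1 := by linarith
    have h4 : 0 ≤ 1 / (2 * τ) := by positivity
    calc 2 * m * t ≤ 2 * 1 * t := by nlinarith
      _ ≤ 2 * 1 * (1 / (2 * τ)) := by linarith
  have h3 : |m * D| ≤ lam * |D| := by
    refine sig_step_mul ?_ le_rfl
    rw [abs_of_nonneg hm0]
    exact hm1
  have hm2 : |m ^ 2| ≤ 1 := by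
    rw [abs_of_nonneg (sq_nonneg m)]
    nlinarith
  have h4 : |m ^ 2 * (S * v - 2 * b' * v)| ≤ 1 * (K * v + 2 * K * v) := by
    refine sig_step_mul hm2 ((abs_sub _ _).trans (add_le_add h1 (sig_step_mul ?_ hva)))
    exact sig_step_mul (by norm_num) hb'
  have hw2 : |2 * w ^ 2| ≤ 1 / 2 := by
    rw [abs_of_nonneg (by positivity)]
    nlinarith
  have h5 : |2 * w ^ 2 * (-(R * v) - S * v)| ≤ 1 / 2 * (K * v + K * v) := by
    refine sig_step_mul hw2 ((abs_sub _ _).trans (add_le_add ?_ h1))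
    rw [abs_neg]
    exact h1'
  rw [abs_le] at h1 h2 h3 h4 h5 ⊢
  constructor <;> linarith [h1.1, h1.2, h3.1, h3.2, h4.1, h4.2, h5.1, h5.2, h2.1, h2.2]

theorem sig_step_key (C : Cfg n) (j : Fin n) (p : ℝ × ℝ) (hp : p ∈ C.U j) (f : ℝ × ℝ → ℝ)
    (hf : ContDiffAt ℝ 1 f (C.Tj j p)) (c' f' : ℝ)
    (hc' : c' = C.cc j (C.Tj j p).1 (C.Tj j p).2)
    (hAp : f (C.Tj j p) - C.sp j (C.Tj j p).1 (C.Tj j p).2 = f') (hden : 0 < c' + 2 * f')
    (G : ℝ × ℝ → ℝ) (hG : ∀ q, G q = C.sm j q.1 q.2 +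
      Cfg.gf (f (C.Tj j q) - C.sp j (C.Tj j q).1 (C.Tj j q).2)
        (C.cc j (C.Tj j q).1 (C.Tj j q).2)) :
    ContDiffAt ℝ 1 G p ∧
    ∀ u : ℝ × ℝ, fderiv ℝ G p u = fderiv ℝ (fun q : ℝ × ℝ => C.sm j q.1 q.2) p u +
      ((c' / (c' + 2 * f')) ^ 2 * (fderiv ℝ (fun q => f (C.Tj j q)) p u -
        fderiv ℝ (fun q => C.sp j (C.Tj j q).1 (C.Tj j q).2) p u) +
      2 * (f' / (c' + 2 * f')) ^ 2 *
        fderiv ℝ (fun q => C.cc j (C.Tj j q).1 (C.Tj j q).2) p u) := by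
  obtain ⟨hTU, _, _, _, _, _, _, hcpos⟩ := Tj_facts C j p hp
  obtain ⟨hTc, hsmc, hTd⟩ := Tj_deriv C j p hp
  obtain ⟨_, hspc, hccc, had⟩ := asn_deriv C j (C.Tj j p) hTU
  have fT : ContDiffAt ℝ 1 (fun q => f (C.Tj j q)) p := hf.comp p hTc
  have spT : ContDiffAt ℝ 1 (fun q => C.sp j (C.Tj j q).1 (C.Tj j q).2) p := hspc.comp p hTc
  have ccT : ContDiffAt ℝ 1 (fun q => C.cc j (C.Tj j q).1 (C.Tj j q).2) p := hccc.comp p hTc
  have hGe : G = fun q => C.sm j q.1 q.2 +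
      Cfg.gf (f (C.Tj j q) - C.sp j (C.Tj j q).1 (C.Tj j q).2)
        (C.cc j (C.Tj j q).1 (C.Tj j q).2) := funext hG
  have hne : C.cc j (C.Tj j p).1 (C.Tj j p).2 +
      2 * (f (C.Tj j p) - C.sp j (C.Tj j p).1 (C.Tj j p).2) ≠ 0 := by
    rw [hAp, ← hc']
    exact hden.ne'
  have hGc : ContDiffAt ℝ 1 G p := by
    rw [hGe]
    refine hsmc.add ?_
    unfold Cfg.gf
    exact (ccT.mul (fT.sub spT)).div (ccT.add (contDiffAt_const.mul (fT.sub spT))) hne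
  have hsmd := (hsmc.differentiableAt (by norm_num)).hasFDerivAt
  have fTd := (fT.differentiableAt (by norm_num)).hasFDerivAt
  have spTd := (spT.differentiableAt (by norm_num)).hasFDerivAt
  have ccTd := (ccT.differentiableAt (by norm_num)).hasFDerivAt
  have hgfd := sig_step_gf (fTd.sub spTd) ccTd hne
  have hGd := (hsmd.add hgfd).fderiv
  refine ⟨hGc, fun u => ?_⟩
  refine (DFunLike.congr_fun ((congrArg (fun g => fderiv ℝ g p) hGe).trans hGd) u).trans ?_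
  rw [← hAp, hc']
  rfl

theorem sig_step_alg1 (S R Y c f p2 b : ℝ) (hc : 0 < c) (hf : 0 < f) :
    S * (-(c * f / (c + 2 * f)) / c) + p2 * 1 +
        ((c / (c + 2 * f)) ^ 2 * (-(c / (c + 2 * f)) * Y -
          -(c / (c + 2 * f)) * (-(S * (-f / c)) + b * 1)) +
        2 * (f / (c + 2 * f)) ^ 2 * (-(c / (c + 2 * f)) *
          (R * (-f / c) - S * (-f / c - 1)))) =
        -(S * (f / (c + 2 * f))) + p2 - (c / (c + 2 * f)) ^ 3 * Y +
          (c / (c + 2 * f)) ^ 2 * (S * (f / (c + 2 * f)) +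
            (c / (c + 2 * f)) * b) +
          2 * (f / (c + 2 * f)) ^ 2 * (R * (f / (c + 2 * f)) -
            S * ((f / (c + 2 * f)) + (c / (c + 2 * f)))) := by
  have hd : c + 2 * f ≠ 0 := by positivity
  field_simp
  ring

theorem sig_step_alg2 (S R Y D c f p2 b : ℝ) (hc : 0 < c) (hf : 0 < f) :
    S * (1 / c) + p2 * 0 +
        ((c / (c + 2 * f)) ^ 2 * (-(2 / c) * Y - ((c + 2 * f) / c) * D -
          (-(2 / c) * (-(S * (-f / c)) + b * 1) -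
            ((c + 2 * f) / c) * (-(S * (1 / c)) + b * 0))) +
        2 * (f / (c + 2 * f)) ^ 2 * (-(2 / c) *
          (R * (-f / c) - S * (-f / c - 1)) -
            ((c + 2 * f) / c) * (R * (1 / c) - S * (1 / c - 0)))) =
        S * (1 / c) + (-(2 * (c / (c + 2 * f)) * (1 / (c + 2 * f))) * Y -
          (c / (c + 2 * f)) * D - (c / (c + 2 * f)) ^ 2 *
            (S * (1 / c) - 2 * b * (1 / c))) +
          2 * (f / (c + 2 * f)) ^ 2 * (-(R * (1 / c)) - S * (1 / c)) := by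
  have hd : c + 2 * f ≠ 0 := by positivity
  field_simp
  ring

theorem sig_step_fin (K w v y L : ℝ) (hK : 0 < K) (hw : 0 < w) (hv : 0 < v) (hy : 0 ≤ y) :
    L + w * y + 5 * K * v ≤ L + (5 * K + w + 1) * (y + 1 + v) := by
  have h1 := mul_nonneg hK.le hy
  have h2 := mul_nonneg hw.le hv.le
  nlinarith

theorem sig_step_lam (c f R t : ℝ) (hc : 0 < c) (hf : t ≤ f) (ht : 0 < t) (hR : 0 < R)
    (hcR : c ≤ R) : c / (c + 2 * f) ≤ R / (R + 2 * t) := by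
  rw [div_le_div_iff₀ (by linarith) (by linarith)]
  have h := mul_le_mul hcR hf ht.le hR.le
  nlinarith

/-- one step of the recursion for `σ` and its derivatives. -/
theorem sig_step (C : Cfg n) : ∃ B : ℝ, 0 < B ∧ ∀ (j : Fin n) (p : ℝ × ℝ), p ∈ C.U j →
    ∀ (f : ℝ × ℝ → ℝ), ContDiffAt ℝ 1 f (C.Tj j p) → ∀ (s' c' Y' D' : ℝ),
    s' = f (C.Tj j p) → c' = C.cc j (C.Tj j p).1 (C.Tj j p).2 →
    C.sp j (C.Tj j p).1 (C.Tj j p).2 + C.tau ≤ s' → s' ≤ C.K →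
    Y' = fderiv ℝ f (C.Tj j p) (1, -s') → D' = fderiv ℝ f (C.Tj j p) (0, 1) →
    ∀ G : ℝ × ℝ → ℝ, (∀ q, G q = C.sm j q.1 q.2 +
      Cfg.gf (f (C.Tj j q) - C.sp j (C.Tj j q).1 (C.Tj j q).2)
        (C.cc j (C.Tj j q).1 (C.Tj j q).2)) →
    ContDiffAt ℝ 1 G p ∧ |fderiv ℝ G p (1, -G p)| ≤ C.lam ^ 3 * |Y'| + B ∧
    |fderiv ℝ G p (0, 1)| ≤ C.lam * |D'| + B * (|Y'| + 1 + 1 / c') := by
  have hK := C.hK0
  have htau := C.htau
  refine ⟨5 * C.K + 1 / C.tau + 1, by positivity, ?_⟩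
  intro j p hp f hf s' c' Y' D' hs' hc' hsp hsK hY hD G hG
  obtain ⟨hTU, _, _, _, _, _, _, hcpos⟩ := Tj_facts C j p hp
  obtain ⟨hTc, hsmc, hTd⟩ := Tj_deriv C j p hp
  obtain ⟨_, hspc, hccc, had⟩ := asn_deriv C j (C.Tj j p) hTU
  obtain ⟨hb1, _, _, hccR, _, _, hbK, _, _, _, _, _, _, _, _, _, hlam0, hlam1⟩ :=
    basics C j (C.Tj j p).1 (C.Tj j p).2
  obtain ⟨_, _, _, _, _, _, hbK2, _, _, _, _, _, _, _, _, _, _, _⟩ := basics C j p.1 p.2
  have hb'K := hbK ((asn_spec C j (C.Tj j p).1 (C.Tj j p).2).2.2.2.2.1 hTU).2.1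
  have hbK' := hbK2 ((asn_spec C j p.1 p.2).2.2.2.2.1 hp).2.1
  obtain ⟨a, ha⟩ : ∃ a, a = C.asn j (C.Tj j p).1 (C.Tj j p).2 := ⟨_, rfl⟩
  obtain ⟨S, hS⟩ : ∃ S, S = C.rh j ((C.Tj j p).1 + C.asn j (C.Tj j p).1 (C.Tj j p).2) *
      Real.sin (C.asn j (C.Tj j p).1 (C.Tj j p).2) := ⟨_, rfl⟩
  obtain ⟨R, hR⟩ : ∃ R, R = C.rh1 j ((C.Tj j p).1 + C.asn j (C.Tj j p).1 (C.Tj j p).2) *
      Real.cos (C.asn j (C.Tj j p).1 (C.Tj j p).2) := ⟨_, rfl⟩
  have hKj := C.hK j ((C.Tj j p).1 + C.asn j (C.Tj j p).1 (C.Tj j p).2)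
  have hRj := C.hR j ((C.Tj j p).1 + C.asn j (C.Tj j p).1 (C.Tj j p).2)
  have hR1K : C.R1 ≤ C.K := by
    have := abs_nonneg (C.sp j (C.Tj j p).1 (C.Tj j p).2)
    linarith
  have hSK : |S| ≤ C.K := by
    rw [hS]
    refine (sig_step_mul (a := C.R1) (b := 1) ?_ (Real.abs_sin_le_one _)).trans (by linarith)
    rw [abs_of_nonneg (by linarith [C.hR0, hRj.1])]
    exact hRj.2
  have hRK : |R| ≤ C.K := by
    rw [hR]
    refine (sig_step_mul (a := C.K) (b := 1) ?_ (Real.abs_cos_le_one _)).trans (by linarith)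
    have h1 := abs_nonneg (C.H j ((C.Tj j p).1 + C.asn j (C.Tj j p).1 (C.Tj j p).2))
    have h2 := abs_nonneg (C.H1 j ((C.Tj j p).1 + C.asn j (C.Tj j p).1 (C.Tj j p).2))
    have h3 := C.hR1
    linarith
  rw [← hS, ← hR] at had
  rw [← hS] at hTd
  rw [← hc'] at hcpos hccR had hTd
  obtain ⟨f', hf'⟩ : ∃ f', f' = s' - C.sp j (C.Tj j p).1 (C.Tj j p).2 := ⟨_, rfl⟩
  have hf'τ : C.tau ≤ f' := by linarith
  have hf'0 : 0 < f' := by linarith
  have hGp : G p = C.sm j p.1 p.2 + Cfg.gf f' c' := by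
    rw [hG, hf', hs', hc']
  have hden : 0 < c' + 2 * f' := by linarith
  have hchain := fun (φ : ℝ × ℝ → ℝ) (hφ : DifferentiableAt ℝ φ (C.Tj j p)) =>
    chainT C j p hp φ hφ s' f' c' (G p) hc' hf' hf'0 hGp
  have hAp : f (C.Tj j p) - C.sp j (C.Tj j p).1 (C.Tj j p).2 = f' := by rw [hf', hs']
  obtain ⟨hGc, key⟩ := sig_step_key C j p hp f hf c' f' hc' hAp hden G hG
  obtain ⟨c1, c2⟩ := hchain f (hf.differentiableAt (by norm_num))
  obtain ⟨d1, d2⟩ := hchain (fun q => C.sp j q.1 q.2) (hspc.differentiableAt (by norm_num))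
  obtain ⟨e1, e2⟩ := hchain (fun q => C.cc j q.1 q.2) (hccc.differentiableAt (by norm_num))
  obtain ⟨_, f1, g1⟩ := had (1, -s') (-f') (by
    rw [hf']
    show -(s' - _) = -s' + _ * 1
    ring)
  obtain ⟨_, f2, g2⟩ := had (0, 1) 1 (by
    show (1 : ℝ) = 1 + _ * 0
    ring)
  have h1 := (hTd (1, -G p) (-(Cfg.gf f' c')) _ (by
    rw [hGp]
    show -(Cfg.gf f' c') = -(_ + _) + _ * 1
    ring) rfl).2
  have h2 := (hTd (0, 1) 1 _ (by
    show (1 : ℝ) = 1 + _ * 0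
    ring) rfl).2
  rw [f1] at d1 d2
  rw [g1] at e1 e2
  rw [f2] at d2
  rw [g2] at e2
  rw [← hY] at c1 c2
  rw [← hD] at c2
  have hm0 : 0 ≤ c' / (c' + 2 * f') := by positivity
  have hm1 : c' / (c' + 2 * f') ≤ C.lam := sig_step_lam c' f' C.R1 C.tau hcpos hf'τ htau C.hR1 hccR
  have hw0 : 0 ≤ f' / (c' + 2 * f') := by positivity
  have hw1 : f' / (c' + 2 * f') ≤ 1 / 2 := by
    rw [div_le_div_iff₀ hden (by norm_num)]
    linarith
  refine ⟨hGc, ?_, ?_⟩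
  · rw [key, c1, d1, e1, h1]
    have e := sig_step_alg1 S R Y' c' f' p.2 (C.Tj j p).2 hcpos hf'0
    refine (congrArg abs e).le.trans ?_
    refine (sig_step_real1 hK hm0 hm1 hlam1 hw0 hw1 hSK hRK hbK' hb'K).trans ?_
    have : 0 < 1 / C.tau := by positivity
    linarith
  · rw [key, c2, d2, e2, h2]
    have e := sig_step_alg2 S R Y' D' c' f' p.2 (C.Tj j p).2 hcpos hf'0
    refine (congrArg abs e).le.trans ?_
    refine (sig_step_real2 hK hm0 hm1 hlam1 hw0 hw1 hSK hRK hb'K (by positivity)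
      (by positivity) htau ?_).trans ?_
    · rw [div_le_div_iff₀ hden (by positivity)]
      linarith
    · exact sig_step_fin C.K (1 / C.tau) (1 / c') |Y'| (C.lam * |D'|) hK (by positivity)
        (by positivity) (abs_nonneg Y')

end Pool.LightB
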