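import Pool.Agent.Helper638.LightB.Defs
import Pool.Agent.Helper638.LightB.P_FFd
import Pool.Agent.Helper638.LightB.P_asn_spec
import Pool.Agent.Helper638.LightB.P_asn_cont
import Pool.Agent.Helper638.LightB.P_geo_shift
import Pool.Agent.Helper638.LightB.P_gap
import Pool.Agent.Helper638.LightB.P_basics
import Pool.Agent.Helper638.LightB.P_hits_unique
import Pool.Agent.Helper638.LightB.P_T_of_hits
import Pool.Agent.Helper638.LightB.P_Tj_facts
import Pool.Agent.Helper638.LightB.P_Tj_deriv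
import Pool.Agent.Helper638.LightB.P_isOpen_hits
import Pool.Agent.Helper638.LightB.P_om_facts
import Pool.Agent.Helper638.LightB.P_sig_bounds
import Pool.Agent.Helper638.LightB.P_Tsmooth
import Pool.Agent.Helper638.LightB.P_sig_step

set_option autoImplicit false

open MeasureTheory Set Filter Topology

namespace Pool.LightB
variable {n : ℕ}


theorem sig_deriv_hits (C : Cfg n) (N : ℕ) {i j : Fin n} {q : ℝ × ℝ} (h : C.Hits i j q.1 q.2)
    (hT : C.T (i, q) = (j, C.Tj j q)) :
    C.sig (N + 1) (i, q) = C.sm j q.1 q.2 +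
      Cfg.gf (C.sig N (j, C.Tj j q) - C.sp j (C.Tj j q).1 (C.Tj j q).2)
        (C.cc j (C.Tj j q).1 (C.Tj j q).2) := by
  have hex : ∃ j, C.Hits ((i, q) : St n).1 j ((i, q) : St n).2.1 ((i, q) : St n).2.2 := ⟨j, h⟩
  rw [Cfg.sig]
  simp only [if_pos hex]
  rw [hT]

/-- smoothness and derivative bounds of the slope fields. -/
theorem sig_deriv (C : Cfg n) : ∃ A : ℝ, 0 < A ∧ ∀ (N : ℕ) (i : Fin n) (p : ℝ × ℝ),
    ((i, p) : St n) ∈ C.Om N →
      ContDiffAt ℝ 1 (fun q : ℝ × ℝ => C.sig N (i, q)) p ∧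
      |fderiv ℝ (fun q : ℝ × ℝ => C.sig N (i, q)) p (1, -C.sig N (i, p))| ≤ A ∧
      |fderiv ℝ (fun q : ℝ × ℝ => C.sig N (i, q)) p (0, 1)| ≤
        ∑ m ∈ Finset.range N, C.lam ^ m *
          (A * (1 + 1 / C.cs ((C.T^[m + 1]) (i, p)))) := by
  rcases isEmpty_or_nonempty (Fin n) with hn | ⟨⟨i0⟩⟩
  · exact ⟨1, one_pos, fun N i => (hn.false i).elim⟩
  have hbas := basics C i0 0 0
  obtain ⟨-, -, -, -, -, -, -, -, -, -, -, -, -, -, -, hK, hlam0, hlam1⟩ := hbas
  obtain ⟨B, hB, hstep⟩ := sig_step C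
  set AY : ℝ := B / (1 - C.lam) with hAY
  have h1lam : 0 < 1 - C.lam := by linarith
  have hAY0 : 0 < AY := by positivity
  have hAYe : C.lam * AY + B = AY := by
    rw [hAY]; field_simp; ring
  set A : ℝ := B * (AY + 1) + AY with hA
  have hA0 : 0 < A := by positivity
  have hA1 : AY ≤ A := by
    have : 0 < B * (AY + 1) := by positivity
    rw [hA]; linarith
  have hA2 : B * (AY + 1) ≤ A := by rw [hA]; linarith
  have hA3 : B ≤ A := by
    have : 0 < B * AY := by positivity
    nlinarith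
  have key : ∀ (N : ℕ) (i : Fin n) (p : ℝ × ℝ), ((i, p) : St n) ∈ C.Om N →
      ContDiffAt ℝ 1 (fun q : ℝ × ℝ => C.sig N (i, q)) p ∧
      |fderiv ℝ (fun q : ℝ × ℝ => C.sig N (i, q)) p (1, -C.sig N (i, p))| ≤ AY ∧
      |fderiv ℝ (fun q : ℝ × ℝ => C.sig N (i, q)) p (0, 1)| ≤
        ∑ m ∈ Finset.range N, C.lam ^ m *
          (A * (1 + 1 / C.cs ((C.T^[m + 1]) (i, p)))) := by
    intro N
    induction N with
    | zero =>
      intro i p hp
      have he : (fun q : ℝ × ℝ => C.sig 0 (i, q)) = fun _ => C.K := by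
        funext q; rfl
      rw [he]
      refine ⟨contDiffAt_const, ?_, ?_⟩
      · simp [hAY0.le]
      · simp
    | succ N ih =>
      intro i p hp
      obtain ⟨hpM, ⟨j, hj⟩, hTp⟩ := hp
      have hj' : C.Hits i j p.1 p.2 := hj
      have hpM' : p ∈ C.U i := hpM
      obtain ⟨hev, hpU, hTi, -⟩ := Tsmooth C hpM' hj'
      rw [hTi] at hTp
      obtain ⟨ih1, ih2, ih3⟩ := ih j (C.Tj j p) hTp
      have hM' : ((j, C.Tj j p) : St n) ∈ C.M := (om_facts C N).2.1 hTp
      obtain ⟨hsb1, hsb2⟩ := sig_bounds C N (j, C.Tj j p) hM'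
      obtain ⟨-, -, -, -, -, -, -, hc0⟩ := Tj_facts C j p hpU
      set f : ℝ × ℝ → ℝ := fun q' => C.sig N (j, q') with hf
      set s' : ℝ := f (C.Tj j p) with hs'
      set c' : ℝ := C.cc j (C.Tj j p).1 (C.Tj j p).2 with hc'
      set G : ℝ × ℝ → ℝ := fun q => C.sm j q.1 q.2 +
        Cfg.gf (f (C.Tj j q) - C.sp j (C.Tj j q).1 (C.Tj j q).2)
          (C.cc j (C.Tj j q).1 (C.Tj j q).2) with hG
      set Y' : ℝ := fderiv ℝ f (C.Tj j p) (1, -s') with hY'
      set D' : ℝ := fderiv ℝ f (C.Tj j p) (0, 1) with hD'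
      obtain ⟨st1, st2, st3⟩ := hstep j p hpU f ih1 s' c' Y' D' rfl rfl hsb1 hsb2 rfl rfl G
        (fun q => rfl)
      have hEq : (fun q : ℝ × ℝ => C.sig (N + 1) (i, q)) =ᶠ[𝓝 p] G := by
        filter_upwards [hev] with q hq
        exact sig_deriv_hits C N hq.2.1 hq.2.2
      have hval : C.sig (N + 1) (i, p) = G p := sig_deriv_hits C N hj' hTi
      have hY'b : |Y'| ≤ AY := ih2
      refine ⟨st1.congr_of_eventuallyEq hEq, ?_, ?_⟩
      · rw [hEq.fderiv_eq, hval]
        refine st2.trans ?_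
        have t1 : C.lam ^ 3 * |Y'| ≤ C.lam * AY := by
          apply mul_le_mul _ hY'b (abs_nonneg _) hlam0.le
          exact pow_le_of_le_one hlam0.le hlam1.le (by norm_num)
        linarith
      · rw [hEq.fderiv_eq, Finset.sum_range_succ']
        refine st3.trans ?_
        have hsum : ∑ k ∈ Finset.range N, C.lam ^ (k + 1) *
            (A * (1 + 1 / C.cs ((C.T^[k + 1 + 1]) (i, p)))) =
            C.lam * ∑ m ∈ Finset.range N, C.lam ^ m *
              (A * (1 + 1 / C.cs ((C.T^[m + 1]) (j, C.Tj j p)))) := by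
          rw [Finset.mul_sum]
          apply Finset.sum_congr rfl
          intro k _
          have : (C.T^[k + 1 + 1]) (i, p) = (C.T^[k + 1]) (j, C.Tj j p) := by
            rw [Function.iterate_succ_apply, hTi]
          rw [this]
          ring
        rw [hsum]
        have h0 : (C.T^[0 + 1]) (i, p) = (j, C.Tj j p) := by
          simp [hTi]
        have h0' : C.cs ((C.T^[0 + 1]) (i, p)) = c' := by
          rw [h0]; rfl
        rw [h0', pow_zero, one_mul]
        have t2 : C.lam * |D'| ≤ C.lam * ∑ m ∈ Finset.range N, C.lam ^ m *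
              (A * (1 + 1 / C.cs ((C.T^[m + 1]) (j, C.Tj j p)))) :=
          mul_le_mul_of_nonneg_left ih3 hlam0.le
        have t4 : B * (|Y'| + 1 + 1 / c') ≤ A * (1 + 1 / c') := by
          have h5 : B * (1 / c') ≤ A * (1 / c') :=
            mul_le_mul_of_nonneg_right hA3 (by positivity)
          have h6 : B * (|Y'| + 1) ≤ B * (AY + 1) :=
            mul_le_mul_of_nonneg_left (by linarith) hB.le
          have h7 : A * (1 + 1 / c') = A + A * (1 / c') := by ring
          have h8 : B * (|Y'| + 1 + 1 / c') = B * (|Y'| + 1) + B * (1 / c') := by ring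
          rw [h7, h8]; linarith
        linarith
  refine ⟨A, hA0, fun N i p hp => ?_⟩
  obtain ⟨k1, k2, k3⟩ := key N i p hp
  exact ⟨k1, k2.trans hA1, k3⟩

end Pool.LightB
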