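import Pool.Agent.Helper638.LightB.Defs
import Pool.Agent.Helper638.LightB.P_asn_spec
import Pool.Agent.Helper638.LightB.P_geo_shift
import Pool.Agent.Helper638.LightB.P_gap
import Pool.Agent.Helper638.LightB.P_rr_facts
import Pool.Agent.Helper638.LightB.P_hits_unique
import Pool.Agent.Helper638.LightB.P_T_of_hits
import Pool.Agent.Helper638.LightB.P_Tj_facts

set_option autoImplicit false

open MeasureTheory Set Filter Topology

namespace Pool.LightB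
variable {n : ℕ}


theorem reversal1_hits (C : Cfg n) {i j : Fin n} {θ b : ℝ} (hb : (θ, b) ∈ C.U i)
    (h : C.Hits i j θ b) : C.Hits j i (θ + Real.pi) (-b) := by
  obtain ⟨hij, hdv, hU, hmin⟩ := h
  obtain ⟨-, -, -, a1, a2, -, -, -, -⟩ := geo_shift C j i θ b
  obtain ⟨-, -, -, -, -, -, c1, -, -⟩ := geo_shift C i j θ b
  have e0 := a2 hij.symm
  refine ⟨hij.symm, ?_, c1.2 hb, ?_⟩
  · rw [a1, ← e0]
    exact hdv
  · intro k hkj hki hk1 hk2
    obtain ⟨-, -, -, b1, -, -, -, -, -⟩ := geo_shift C j k θ b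
    obtain ⟨-, -, -, d1, -, -, -, -, -⟩ := geo_shift C i k θ b
    obtain ⟨-, -, -, -, -, f1, -, -, -⟩ := geo_shift C k i θ b
    have hTk : C.Tch k θ b := f1.1 hk2
    obtain ⟨-, -, -, -, g1, -, -⟩ := asn_spec C i θ b
    have hTi : C.Tch i θ b := (g1 hb).2.1
    rw [b1] at hk1
    rw [d1]
    rcases gap C (Ne.symm hki) hTi hTk with ⟨h1, -⟩ | ⟨h1, -⟩
    · have := hmin k hki hkj h1 hTk
      linarith
    · linarith

theorem reversal1 (C : Cfg n) {l : St n} (hl : l ∈ C.Om 1) :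
    C.T l ∈ C.M ∧ C.rho (C.T l) ∈ C.Om 1 ∧ C.T (C.rho (C.T l)) = Cfg.sh 1 (C.rho l) := by
  obtain ⟨i, θ, b⟩ := l
  obtain ⟨hM, ⟨j, hj⟩, -⟩ := hl
  have hb : (θ, b) ∈ C.U i := hM
  have hj' : C.Hits i j θ b := hj
  have hUj : (θ, b) ∈ C.U j := hj'.2.2.1
  have hT : C.T (i, θ, b) = (j, C.Tj j (θ, b)) := T_of_hits C hj'
  have hH := reversal1_hits C hb hj'
  obtain ⟨t1, t2, -⟩ := Tj_facts C j (θ, b) hUj
  have hrho : C.rho (C.T (i, θ, b)) = (j, θ + Real.pi, -b) := by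
    rw [hT]
    show ((j, C.rr j (C.Tj j (θ, b))) : St n) = _
    rw [t2]
  have hT2 : C.T (C.rho (C.T (i, θ, b))) = (i, C.Tj i (θ + Real.pi, -b)) := by
    rw [hrho, T_of_hits C hH]
  have hUi' : (θ + Real.pi, -b) ∈ C.U i := hH.2.2.1
  obtain ⟨t3, -⟩ := Tj_facts C i (θ + Real.pi, -b) hUi'
  obtain ⟨s1, -⟩ := geo_shift C i i θ b
  obtain ⟨-, -, -, -, -, -, s2, -, -⟩ := geo_shift C j i θ b
  obtain ⟨-, -, -, -, -, -, -, -, -, s3⟩ := s1 1
  refine ⟨?_, ⟨?_, ?_, ?_⟩, ?_⟩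
  · rw [hT]
    exact t1
  · rw [hrho]
    exact s2.2 hUj
  · rw [hrho]
    exact ⟨i, hH⟩
  · rw [hT2]
    exact t3
  · rw [hT2]
    have e1 : C.Tj i (θ + Real.pi, -b) = C.rr i (θ + 2 * Real.pi * ((1 : ℤ) : ℝ), b) := by
      unfold Cfg.Tj
      congr 1
      refine Prod.ext ?_ ?_
      · show θ + Real.pi + Real.pi = θ + 2 * Real.pi * ((1 : ℤ) : ℝ)
        push_cast
        ring
      · show - -b = b
        ring
    rw [e1, s3]
    rfl

end Pool.LightB
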