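import Pool.Agent.Helper638.LightB.Defs
import Pool.Agent.Helper638.LightB.P_reversal1
import Pool.Agent.Helper638.LightB.P_shift
import Pool.Agent.Helper638.LightB.P_om_facts

set_option autoImplicit false

open MeasureTheory Set Filter Topology

namespace Pool.LightB
variable {n : ℕ}


theorem reversal_sh_sh (a b : ℤ) (l : St n) : Cfg.sh a (Cfg.sh b l) = Cfg.sh (a + b) l := by
  obtain ⟨i, θ, b'⟩ := l
  simp only [Cfg.sh, Prod.mk.injEq, and_true, true_and]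
  push_cast
  ring

theorem reversal_sh_zero (l : St n) : Cfg.sh 0 l = l := by
  obtain ⟨i, θ, b'⟩ := l
  simp [Cfg.sh]

theorem reversal_iter_sh (C : Cfg n) (k : ℤ) (m : ℕ) (l : St n) :
    (C.T^[m]) (Cfg.sh k l) = Cfg.sh k ((C.T^[m]) l) := by
  induction m with
  | zero => rfl
  | succ m ih => rw [Function.iterate_succ_apply', ih, (shift C k _).1,
      Function.iterate_succ_apply']

theorem reversal_key (C : Cfg n) (m : ℕ) : ∀ l ∈ C.Om m, (C.T^[m]) l ∈ C.M ∧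
    C.rho ((C.T^[m]) l) ∈ C.Om m ∧ (C.T^[m]) (C.rho ((C.T^[m]) l)) = Cfg.sh (m : ℤ) (C.rho l) := by
  induction m with
  | zero =>
    intro l hl
    have hM : l ∈ C.M := hl
    obtain ⟨-, -, -, -, -, -, -, -, h9, -⟩ := shift C 0 l
    refine ⟨hM, h9.1 hM, ?_⟩
    rw [Nat.cast_zero, reversal_sh_zero]
    rfl
  | succ m ih =>
    intro l hl
    obtain ⟨hM, hhit, hTl⟩ : l ∈ C.M ∧ (∃ j, C.Hits l.1 j l.2.1 l.2.2) ∧ C.T l ∈ C.Om m := hl
    have hTM : C.T l ∈ C.M := (om_facts C m).2.1 hTl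
    have hl1 : l ∈ C.Om 1 := ⟨hM, hhit, hTM⟩
    obtain ⟨-, hr1, hr2⟩ := reversal1 C hl1
    obtain ⟨hi1, hi2, hi3⟩ := ih (C.T l) hTl
    rw [Function.iterate_succ_apply]
    refine ⟨hi1, ?_, ?_⟩
    · rw [(om_facts C m).2.2.1 1]
      refine ⟨hi2, ?_⟩
      rw [hi3]
      exact ((shift C (m : ℤ) (C.rho (C.T l))).2.2.1 1).2 hr1
    · rw [Function.iterate_succ_apply', hi3, (shift C (m : ℤ) (C.rho (C.T l))).1, hr2,
        reversal_sh_sh, Nat.cast_succ]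

/-- time reversal for iterates; `inv m` inverts `T^[m]`. -/
theorem reversal (C : Cfg n) (m : ℕ) :
    (∀ l ∈ C.Om m, (C.T^[m]) l ∈ C.M ∧ C.rho ((C.T^[m]) l) ∈ C.Om m ∧
      C.inv m ((C.T^[m]) l) = l) ∧
    (∀ l, C.rho l ∈ C.Om m → l ∈ C.M → C.inv m l ∈ C.Om m ∧ (C.T^[m]) (C.inv m l) = l) := by
  have hrho : ∀ l, C.rho (C.rho l) = l := fun l => (shift C 0 l).2.2.2.2.2.2.2.1
  constructor
  · intro l hl
    obtain ⟨h1, h2, h3⟩ := reversal_key C m l hl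
    refine ⟨h1, h2, ?_⟩
    unfold Cfg.inv
    rw [h3, (shift C (m : ℤ) (C.rho l)).2.1, hrho, reversal_sh_sh, neg_add_cancel,
      reversal_sh_zero]
  · intro l hl hM
    obtain ⟨h1, h2, h3⟩ := reversal_key C m (C.rho l) hl
    refine ⟨?_, ?_⟩
    · unfold Cfg.inv
      exact ((shift C (-(m : ℤ)) _).2.2.1 m).2 h2
    · unfold Cfg.inv
      rw [reversal_iter_sh, h3, hrho, reversal_sh_sh, neg_add_cancel, reversal_sh_zero]

end Pool.LightB
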