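import Pool.Agent.Helper638.LightB.Defs
import Pool.Agent.Helper638.LightB.P_FFd
import Pool.Agent.Helper638.LightB.P_asn_spec
import Pool.Agent.Helper638.LightB.P_asn_cont
import Pool.Agent.Helper638.LightB.P_geo_shift
import Pool.Agent.Helper638.LightB.P_gap
import Pool.Agent.Helper638.LightB.P_basics
import Pool.Agent.Helper638.LightB.P_rr_facts
import Pool.Agent.Helper638.LightB.P_rr_deriv
import Pool.Agent.Helper638.LightB.P_zeros_countable
import Pool.Agent.Helper638.LightB.P_transv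

set_option autoImplicit false

open MeasureTheory Set Filter Topology

namespace Pool.LightB
variable {n : ℕ}


/-- version with an abstract tangent function -/
theorem tang_null_aux (C : Cfg n) (i k : Fin n) (hik : k ≠ i) (bs : ℝ → ℝ)
    (hbs : ∀ θ, HasDerivAt bs (-C.sm k θ (bs θ)) θ) (htch : ∀ θ, C.Tch k θ (bs θ)) :
    ∀ᵐ θ : ℝ, 0 < C.dv i k θ →
      (bs θ ≠ C.lo i θ ∧ bs θ ≠ C.hi i θ) ∧
      ((θ, bs θ) ∈ C.U i → ((i, C.rr i (θ, bs θ)) : St n) ∉ C.SS) := by
  have hcdv : Continuous (fun t => C.dv i k t) := by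
    unfold Cfg.dv
    fun_prop
  have hO1 : IsOpen {t : ℝ | 0 < C.dv i k t} := isOpen_lt continuous_const hcdv
  have hbc : Continuous bs := by
    rw [continuous_iff_continuousAt]
    exact fun t => (hbs t).continuousAt
  have hgap : ∀ θ, 0 < C.dv i k θ → C.Tch i θ (bs θ) →
      C.sp i θ (bs θ) + C.tau ≤ C.sm k θ (bs θ) := by
    intro θ hpos hi
    rcases gap C (Ne.symm hik) hi (htch θ) with h | h
    · exact h.2
    · exact absurd h.1 (not_lt.mpr hpos.le)
  have htau := C.htau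
  have h1 : {t | t ∈ {t : ℝ | 0 < C.dv i k t} ∧ bs t - C.lo i t = 0}.Countable :=
    zeros_countable _ hO1 (fun t => bs t - C.lo i t)
      (fun t => -C.sm k t (bs t) - (-C.sp i t (C.lo i t)))
      (fun t _ => (hbs t).sub (basics C i t 0).2.2.2.2.2.2.2.2.1)
      (fun t ht h0 => by
        have hb : bs t = C.lo i t := by linarith
        have hT : C.Tch i t (bs t) := by
          rw [hb]
          exact (basics C i t 0).2.2.2.2.2.2.2.2.2.2.2.2.1
        have := hgap t ht hT
        rw [hb] at this ⊢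
        intro h
        linarith)
  have h2 : {t | t ∈ {t : ℝ | 0 < C.dv i k t} ∧ bs t - C.hi i t = 0}.Countable :=
    zeros_countable _ hO1 (fun t => bs t - C.hi i t)
      (fun t => -C.sm k t (bs t) - (-C.sp i t (C.hi i t)))
      (fun t _ => (hbs t).sub (basics C i t 0).2.2.2.2.2.2.2.1)
      (fun t ht h0 => by
        have hb : bs t = C.hi i t := by linarith
        have hT : C.Tch i t (bs t) := by
          rw [hb]
          exact (basics C i t 0).2.2.2.2.2.2.2.2.2.2.2.1
        have := hgap t ht hT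
        rw [hb] at this ⊢
        intro h
        linarith)
  have hO2 : IsOpen {t : ℝ | 0 < C.dv i k t ∧ (t, bs t) ∈ C.U i} :=
    hO1.inter ((asn_cont C i).2.1.preimage (continuous_id.prodMk hbc))
  have h3 := transv C i {t : ℝ | 0 < C.dv i k t ∧ (t, bs t) ∈ C.U i} hO2
    (fun t => (C.rr i (t, bs t)).1) (fun t => (C.rr i (t, bs t)).2)
    (fun t => -1 + 2 / C.cc i t (bs t) * (-C.sm k t (bs t) + C.sp i t (bs t) * 1))
    (fun t => (-C.sm k t (bs t) + C.sp i t (bs t) * 1) -
      C.sp i (C.rr i (t, bs t)).1 (C.rr i (t, bs t)).2 *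
        (-1 + 2 / C.cc i t (bs t) * (-C.sm k t (bs t) + C.sp i t (bs t) * 1))) (by
      intro t ht
      obtain ⟨ht1, ht2⟩ := ht
      have hsp := (asn_spec C i t (bs t)).2.2.2.2.1 ht2
      have hcc : 0 < C.cc i t (bs t) := hsp.2.2.2
      have hT : C.Tch i t (bs t) := hsp.2.1
      have hg := hgap t ht1 hT
      obtain ⟨hd1, hd2⟩ := rr_deriv C i (t, bs t) ht2
      have hcurve : HasDerivAt (fun t => ((t, bs t) : ℝ × ℝ)) ((1, -C.sm k t (bs t)) : ℝ × ℝ) t :=
        (hasDerivAt_id t).prodMk (hbs t)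
      have hdiff : HasFDerivAt (C.rr i) (fderiv ℝ (C.rr i) (t, bs t)) (t, bs t) :=
        (hd1.differentiableAt (by norm_num)).hasFDerivAt
      have hcomp : HasDerivAt (fun t => C.rr i (t, bs t))
          (fderiv ℝ (C.rr i) (t, bs t) ((1, -C.sm k t (bs t)) : ℝ × ℝ)) t :=
        HasFDerivAt.comp_hasDerivAt (l := C.rr i) (f := fun t => ((t, bs t) : ℝ × ℝ)) t hdiff hcurve
      have hval := hd2 ((1, -C.sm k t (bs t)) : ℝ × ℝ)
        (-C.sm k t (bs t) + C.sp i t (bs t) * 1)
        (-1 + 2 / C.cc i t (bs t) * (-C.sm k t (bs t) + C.sp i t (bs t) * 1)) rfl rfl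
      rw [hval] at hcomp
      have hfst := (hasFDerivAt_fst (𝕜 := ℝ) (E := ℝ) (F := ℝ)
        (p := C.rr i (t, bs t))).comp_hasDerivAt t hcomp
      have hsnd := (hasFDerivAt_snd (𝕜 := ℝ) (E := ℝ) (F := ℝ)
        (p := C.rr i (t, bs t))).comp_hasDerivAt t hcomp
      refine ⟨hfst, hsnd, ?_, ?_⟩
      · exact (rr_facts C i (t, bs t)).2.1.mpr ht2
      · have hβ : -C.sm k t (bs t) + C.sp i t (bs t) * 1 < 0 := by linarith
        have hP : -1 + 2 / C.cc i t (bs t) * (-C.sm k t (bs t) + C.sp i t (bs t) * 1) < 0 := by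
          have h5 : 0 < 2 / C.cc i t (bs t) := by positivity
          nlinarith
        have e : (-C.sm k t (bs t) + C.sp i t (bs t) * 1) -
            C.sp i (C.rr i (t, bs t)).1 (C.rr i (t, bs t)).2 *
              (-1 + 2 / C.cc i t (bs t) * (-C.sm k t (bs t) + C.sp i t (bs t) * 1)) +
            C.sp i (C.rr i (t, bs t)).1 (C.rr i (t, bs t)).2 *
              (-1 + 2 / C.cc i t (bs t) * (-C.sm k t (bs t) + C.sp i t (bs t) * 1)) =
            -C.sm k t (bs t) + C.sp i t (bs t) * 1 := by ring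
        show UC _ _
        rw [e]
        exact ⟨hβ.ne, (mul_pos_of_neg_of_neg hP hβ).le⟩)
  have e1 := h1.ae_notMem (volume : Measure ℝ)
  have e2 := h2.ae_notMem (volume : Measure ℝ)
  have e3 := h3.ae_notMem (volume : Measure ℝ)
  filter_upwards [e1, e2, e3] with t ht1 ht2 ht3 hpos
  refine ⟨⟨?_, ?_⟩, ?_⟩
  · intro h
    exact ht1 ⟨hpos, by rw [h]; ring⟩
  · intro h
    exact ht2 ⟨hpos, by rw [h]; ring⟩
  · intro hM hS
    exact ht3 ⟨⟨hpos, hM⟩, hS⟩

/-- a.e. tangent state, reversed, is regular; and is not on the boundary of `U i`. -/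
theorem tang_null (C : Cfg n) (i k : Fin n) (hik : k ≠ i) (s : Bool) :
    ∀ᵐ θ : ℝ, 0 < C.dv i k θ →
      ((C.tang i k s θ).2.2 ≠ C.lo i θ ∧ (C.tang i k s θ).2.2 ≠ C.hi i θ) ∧
      (C.tang i k s θ ∈ C.M → C.rho (C.tang i k s θ) ∉ C.SS) := by
  cases s with
  | true =>
    have := tang_null_aux C i k hik (C.hi k)
      (fun θ => by
        rw [(basics C k θ 0).2.2.2.2.2.2.2.2.2.1]
        exact (basics C k θ 0).2.2.2.2.2.2.2.1)
      (fun θ => (basics C k θ 0).2.2.2.2.2.2.2.2.2.2.2.1)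
    filter_upwards [this] with θ hθ hpos
    exact hθ hpos
  | false =>
    have := tang_null_aux C i k hik (C.lo k)
      (fun θ => by
        rw [(basics C k θ 0).2.2.2.2.2.2.2.2.2.2.1]
        exact (basics C k θ 0).2.2.2.2.2.2.2.2.1)
      (fun θ => (basics C k θ 0).2.2.2.2.2.2.2.2.2.2.2.2.1)
    filter_upwards [this] with θ hθ hpos
    exact hθ hpos

end Pool.LightB
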