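import Pool.Agent.Helper638.LightB.Defs
import Pool.Agent.Helper638.LightB.P_basics
import Pool.Agent.Helper638.LightB.P_shift
import Pool.Agent.Helper638.LightB.P_om_facts
import Pool.Agent.Helper638.LightB.P_reversal
import Pool.Agent.Helper638.LightB.P_meas
import Pool.Agent.Helper638.LightB.P_volSum
import Pool.Agent.Helper638.LightB.P_rhoMeas
import Pool.Agent.Helper638.LightB.P_invMeas

set_option autoImplicit false

open MeasureTheory Set Filter Topology

namespace Pool.LightB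
variable {n : ℕ}


theorem poincare_vol (X : Set (St n)) (hX : MeasurableSet X) :
    Cfg.vol n X = ∑ i, volume {p : ℝ × ℝ | ((i, p) : St n) ∈ X} := by
  have h := volSum (X.indicator (fun _ => (1:ENNReal))) (measurable_const.indicator hX)
  rw [lintegral_indicator_const hX, one_mul] at h
  rw [h]
  refine Finset.sum_congr rfl fun i _ => ?_
  have hXi : MeasurableSet {p : ℝ × ℝ | ((i, p) : St n) ∈ X} := measurable_prodMk_left hX
  have h1 : ∀ p : ℝ × ℝ, X.indicator (fun _ => (1:ENNReal)) (i, p) =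
      ({p : ℝ × ℝ | ((i, p) : St n) ∈ X}).indicator (fun _ => (1:ENNReal)) p := by
    intro p
    by_cases hp : ((i, p) : St n) ∈ X
    · rw [Set.indicator_of_mem hp, Set.indicator_of_mem (show p ∈ {p : ℝ × ℝ | ((i, p) : St n) ∈ X} from hp)]
    · rw [Set.indicator_of_notMem hp, Set.indicator_of_notMem (show p ∉ {p : ℝ × ℝ | ((i, p) : St n) ∈ X} from hp)]
  rw [lintegral_congr h1, lintegral_indicator_const hXi, one_mul]

theorem poincare_sh_meas (k : ℤ) : Measurable (fun l : St n => Cfg.sh k l) := by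
  unfold Cfg.sh
  fun_prop

theorem poincare_sh_vol (X : Set (St n)) (hX : MeasurableSet X) (k : ℤ) :
    Cfg.vol n {l | Cfg.sh k l ∈ X} = Cfg.vol n X := by
  have hX' : MeasurableSet {l | Cfg.sh k l ∈ X} := poincare_sh_meas k hX
  rw [poincare_vol X hX, poincare_vol _ hX']
  refine Finset.sum_congr rfl fun i _ => ?_
  have h1 : {p : ℝ × ℝ | ((i, p) : St n) ∈ {l : St n | Cfg.sh k l ∈ X}} =
      (fun p : ℝ × ℝ => p + (2 * Real.pi * k, 0)) ⁻¹' {p : ℝ × ℝ | ((i, p) : St n) ∈ X} := by
    ext p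
    have h2 : Cfg.sh k ((i, p) : St n) = (i, p + (2 * Real.pi * k, 0)) := by
      unfold Cfg.sh
      simp only [Prod.mk.injEq, true_and]
      ext
      · rfl
      · simp
    change Cfg.sh k ((i, p) : St n) ∈ X ↔ ((i, p + (2 * Real.pi * k, 0)) : St n) ∈ X
    rw [h2]
  rw [h1, measure_preimage_add_right]

/-- fundamental strips -/
def poincare_JJ (n : ℕ) (k : ℤ) : Set (St n) :=
  {l | 2 * Real.pi * k ≤ l.2.1 ∧ l.2.1 < 2 * Real.pi * k + 2 * Real.pi}

/-- long strips -/
def poincare_J (n : ℕ) (L : ℕ) : Set (St n) := {l | 0 ≤ l.2.1 ∧ l.2.1 < 2 * Real.pi * L}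

theorem poincare_JJ_meas (k : ℤ) : MeasurableSet (poincare_JJ n k) := by
  have hm : Measurable (fun l : St n => l.2.1) := by fun_prop
  exact (measurableSet_le measurable_const hm).inter (measurableSet_lt hm measurable_const)

theorem poincare_J_meas (k : ℕ) : MeasurableSet (poincare_J n k) := by
  have hm : Measurable (fun l : St n => l.2.1) := by fun_prop
  exact (measurableSet_le measurable_const hm).inter (measurableSet_lt hm measurable_const)

theorem poincare_JJ_vol (X : Set (St n)) (hX : MeasurableSet X)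
    (hinv : ∀ (k : ℤ) l, Cfg.sh k l ∈ X ↔ l ∈ X) (k : ℤ) :
    Cfg.vol n (X ∩ poincare_JJ n k) = Cfg.vol n (X ∩ poincare_JJ n 0) := by
  rw [← poincare_sh_vol (X ∩ poincare_JJ n k) (hX.inter (poincare_JJ_meas k)) k]
  congr 1
  ext l
  constructor
  · rintro ⟨h1, h2, h3⟩
    refine ⟨(hinv k l).mp h1, ?_, ?_⟩
    · change 2 * Real.pi * k ≤ l.2.1 + 2 * Real.pi * k at h2
      push_cast
      linarith
    · change l.2.1 + 2 * Real.pi * k < 2 * Real.pi * k + 2 * Real.pi at h3
      push_cast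
      linarith
  · rintro ⟨h1, h2, h3⟩
    push_cast at h2 h3
    refine ⟨(hinv k l).mpr h1, ?_, ?_⟩
    · change 2 * Real.pi * k ≤ l.2.1 + 2 * Real.pi * k
      linarith
    · change l.2.1 + 2 * Real.pi * k < 2 * Real.pi * k + 2 * Real.pi
      linarith

theorem poincare_J_vol (X : Set (St n)) (hX : MeasurableSet X)
    (hinv : ∀ (k : ℤ) l, Cfg.sh k l ∈ X ↔ l ∈ X) (L : ℕ) :
    Cfg.vol n (X ∩ poincare_J n L) = L * Cfg.vol n (X ∩ poincare_JJ n 0) := by
  induction L with
  | zero =>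
    have h : X ∩ poincare_J n 0 = ∅ := by
      rw [Set.eq_empty_iff_forall_notMem]
      rintro l ⟨-, h1, h2⟩
      push_cast at h2
      linarith
    rw [h]
    simp
  | succ L ih =>
    have h : X ∩ poincare_J n (L+1) = (X ∩ poincare_J n L) ∪ (X ∩ poincare_JJ n L) := by
      rw [← Set.inter_union_distrib_left]
      congr 1
      ext l
      have hpi := Real.pi_pos
      have hL : (0:ℝ) ≤ 2 * Real.pi * L := by positivity
      constructor
      · rintro ⟨h1, h2⟩
        push_cast at h2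
        by_cases h3 : l.2.1 < 2 * Real.pi * L
        · exact Or.inl ⟨h1, h3⟩
        · refine Or.inr ⟨?_, ?_⟩
          · push_cast
            exact not_lt.mp h3
          · push_cast
            linarith
      · rintro (⟨h1, h2⟩ | ⟨h1, h2⟩)
        · refine ⟨h1, ?_⟩
          push_cast
          linarith
        · push_cast at h1 h2
          refine ⟨by linarith, ?_⟩
          push_cast
          linarith
    have hd : Disjoint (X ∩ poincare_J n L) (X ∩ poincare_JJ n L) := by
      rw [Set.disjoint_left]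
      rintro l ⟨-, -, h1⟩ ⟨-, h2, -⟩
      push_cast at h2
      linarith
    rw [h, measure_union hd (hX.inter (poincare_JJ_meas _)), ih, poincare_JJ_vol X hX hinv (L:ℤ)]
    push_cast
    rw [add_mul, one_mul]

theorem poincare_null (X : Set (St n)) (hX : MeasurableSet X)
    (hinv : ∀ (k : ℤ) l, Cfg.sh k l ∈ X ↔ l ∈ X) (h0 : Cfg.vol n (X ∩ poincare_JJ n 0) = 0) :
    Cfg.vol n X = 0 := by
  have h : X ⊆ ⋃ k : ℤ, X ∩ poincare_JJ n k := by
    intro l hl
    rw [Set.mem_iUnion]
    have hpi : 0 < 2 * Real.pi := by positivity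
    refine ⟨⌊l.2.1 / (2 * Real.pi)⌋, hl, ?_, ?_⟩
    · have h1 := Int.floor_le (l.2.1 / (2 * Real.pi))
      rw [le_div_iff₀ hpi] at h1
      linarith
    · have h1 := Int.lt_floor_add_one (l.2.1 / (2 * Real.pi))
      rw [div_lt_iff₀ hpi] at h1
      linarith
  refine measure_mono_null h ?_
  rw [measure_iUnion_null_iff]
  intro k
  rw [poincare_JJ_vol X hX hinv, h0]

theorem poincare_fin (C : Cfg n) : Cfg.vol n (C.M ∩ poincare_JJ n 0) < ⊤ := by
  rw [poincare_vol _ ((meas C).2.2.2.1.inter (poincare_JJ_meas 0))]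
  rw [ENNReal.sum_lt_top]
  intro i _
  refine lt_of_le_of_lt (measure_mono ?_)
    ((isCompact_Icc (a := (0:ℝ)) (b := 2 * Real.pi)).prod
      (isCompact_Icc (a := -C.K) (b := C.K))).measure_lt_top
  rintro p ⟨h1, h2, h3⟩
  change C.lo i p.1 < p.2 ∧ p.2 < C.hi i p.1 at h1
  change 2 * Real.pi * ((0:ℤ):ℝ) ≤ p.1 at h2
  change p.1 < 2 * Real.pi * ((0:ℤ):ℝ) + 2 * Real.pi at h3
  push_cast at h2 h3
  have hb := basics C i p.1 p.2
  have hlo := abs_le.1 hb.2.2.2.2.1
  have hhi := abs_le.1 hb.2.2.2.2.2.1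
  exact ⟨⟨by linarith, by linarith⟩, ⟨by linarith [hlo.1, h1.1], by linarith [hhi.2, h1.2]⟩⟩

theorem poincare_iter (C : Cfg n) (l : St n) (hl : l ∈ C.Trap) (m : ℕ) :
    (C.T^[m]) l ∈ C.Trap ∧ l.2.1 ≤ ((C.T^[m]) l).2.1 ∧
      ((C.T^[m]) l).2.1 ≤ l.2.1 + 2 * Real.pi * m := by
  induction m with
  | zero => simp [hl]
  | succ m ih =>
    obtain ⟨h1, h2, h3⟩ := ih
    rw [Function.iterate_succ_apply']
    have h4 := (om_facts C 0).2.2.2.2 _ h1
    have h5 : (C.T^[m]) l ∈ C.M := h1 0
    have h6 := (shift C 0 ((C.T^[m]) l)).2.2.2.2.2.2.2.2.2.1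
    refine ⟨h4, h2.trans h6.1, ?_⟩
    push_cast
    linarith [h6.2]

theorem poincare_Am (C : Cfg n) (m : ℕ) : Cfg.vol n {l | l ∈ C.Trap ∧ C.rho l ∉ C.Om m} = 0 := by
  obtain ⟨-, mOm, mTrap, mM, -, -, mrho, -⟩ := meas C
  have hTinv : ∀ (k : ℤ) l, Cfg.sh k l ∈ C.Trap ↔ l ∈ C.Trap := fun k l => (shift C k l).2.2.2.2.2.1
  have hRinv : ∀ (k : ℤ) l, C.rho (Cfg.sh k l) ∈ C.Om m ↔ C.rho l ∈ C.Om m := by
    intro k l
    rw [(shift C k l).2.1]
    exact (shift C k (C.rho l)).2.2.1 m
  set A : Set (St n) := {l | l ∈ C.Trap ∧ C.rho l ∉ C.Om m} with hA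
  set B : Set (St n) := {l | l ∈ C.Trap ∧ C.rho l ∈ C.Om m} with hB
  have mB : MeasurableSet B := mTrap.inter (mrho (mOm m))
  have mA : MeasurableSet A := mTrap.inter (mrho (mOm m)).compl
  have iA : ∀ (k : ℤ) l, Cfg.sh k l ∈ A ↔ l ∈ A := by
    intro k l
    change (_ ∧ ¬ _) ↔ (_ ∧ ¬ _)
    rw [hTinv, hRinv]
  have iB : ∀ (k : ℤ) l, Cfg.sh k l ∈ B ↔ l ∈ B := by
    intro k l
    change (_ ∧ _) ↔ (_ ∧ _)
    rw [hTinv, hRinv]
  apply poincare_null A mA iA
  have hTM : C.Trap ⊆ C.M := fun l hl => hl 0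
  have hfinB : Cfg.vol n (B ∩ poincare_JJ n 0) ≠ ⊤ :=
    (lt_of_le_of_lt (measure_mono (Set.inter_subset_inter_left _ (fun l hl => hTM hl.1)))
      (poincare_fin C)).ne
  have hsum : Cfg.vol n (C.Trap ∩ poincare_JJ n 0) =
      Cfg.vol n (A ∩ poincare_JJ n 0) + Cfg.vol n (B ∩ poincare_JJ n 0) := by
    rw [← measure_union _ (mB.inter (poincare_JJ_meas 0))]
    · congr 1
      rw [← Set.union_inter_distrib_right]
      congr 1
      ext l
      constructor
      · intro h
        by_cases h1 : C.rho l ∈ C.Om m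
        · exact Or.inr ⟨h, h1⟩
        · exact Or.inl ⟨h, h1⟩
      · rintro (h | h)
        · exact h.1
        · exact h.1
    · rw [Set.disjoint_left]
      rintro l ⟨h1, -⟩ ⟨h2, -⟩
      exact h1.2 h2.2
  have hmain : ∀ L : ℕ, (L : ENNReal) * Cfg.vol n (C.Trap ∩ poincare_JJ n 0) ≤
      ((L + m : ℕ) : ENNReal) * Cfg.vol n (B ∩ poincare_JJ n 0) := by
    intro L
    rw [← poincare_J_vol C.Trap mTrap hTinv L, ← poincare_J_vol B mB iB (L + m)]
    have mBJ : MeasurableSet (B ∩ poincare_J n (L + m)) := mB.inter (poincare_J_meas _)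
    have mTJ : MeasurableSet (C.Trap ∩ poincare_J n L) := mTrap.inter (poincare_J_meas _)
    have h1 := invMeas C m ((B ∩ poincare_J n (L + m)).indicator (fun _ => 1))
      (measurable_const.indicator mBJ)
    calc Cfg.vol n (C.Trap ∩ poincare_J n L)
        = ∫⁻ l in C.Om m, (C.Trap ∩ poincare_J n L).indicator (fun _ => 1) l ∂(Cfg.vol n) := by
          rw [lintegral_indicator_const mTJ, one_mul, Measure.restrict_apply mTJ]
          congr 1
          symm
          apply Set.inter_eq_self_of_subset_left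
          intro l hl
          exact hl.1 m
      _ ≤ ∫⁻ l in C.Om m, (B ∩ poincare_J n (L + m)).indicator (fun _ => 1) ((C.T^[m]) l)
            ∂(Cfg.vol n) := by
          apply lintegral_mono
          intro l
          by_cases hl : l ∈ C.Trap ∩ poincare_J n L
          · have h2 := poincare_iter C l hl.1 m
            have h3 := ((reversal C m).1 l (hl.1 m)).2.1
            have h4 : (C.T^[m]) l ∈ B ∩ poincare_J n (L + m) := by
              refine ⟨⟨h2.1, h3⟩, le_trans hl.2.1 h2.2.1, ?_⟩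
              have h5 := hl.2.2
              push_cast
              linarith [h2.2.2]
            simp only
            rw [Set.indicator_of_mem hl, Set.indicator_of_mem h4]
          · simp only
            rw [Set.indicator_of_notMem hl]
            exact zero_le
      _ ≤ _ := h1
      _ ≤ ∫⁻ l, (B ∩ poincare_J n (L + m)).indicator (fun _ => 1) l ∂(Cfg.vol n) :=
          setLIntegral_le_lintegral _ _
      _ = Cfg.vol n (B ∩ poincare_J n (L + m)) := by
          rw [lintegral_indicator_const mBJ, one_mul]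
  by_contra hne
  have hb : (m : ENNReal) * Cfg.vol n (B ∩ poincare_JJ n 0) ≠ ⊤ :=
    ENNReal.mul_ne_top (ENNReal.natCast_ne_top m) hfinB
  obtain ⟨L, hL⟩ := ENNReal.exists_nat_mul_gt hne hb
  have h1 := hmain L
  rw [hsum, mul_add] at h1
  push_cast at h1
  rw [add_mul, add_comm ((L:ENNReal) * Cfg.vol n (B ∩ poincare_JJ n 0))] at h1
  have h2 : (L:ENNReal) * Cfg.vol n (B ∩ poincare_JJ n 0) ≠ ⊤ :=
    ENNReal.mul_ne_top (ENNReal.natCast_ne_top L) hfinB
  have h3 := (ENNReal.add_le_add_iff_right h2).mp h1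
  exact absurd hL (not_lt.mpr h3)

/-- recurrence: a.e. forward trapped state is backward trapped. -/
theorem poincare (C : Cfg n) :
    ∀ᵐ l ∂((Cfg.vol n).restrict C.M), (l ∈ C.Trap ↔ C.rho l ∈ C.Trap) := by
  obtain ⟨-, mOm, mTrap, mM, -, -, mrho, -⟩ := meas C
  set N : Set (St n) := {l | l ∈ C.Trap ∧ C.rho l ∉ C.Trap} with hN
  have mN : MeasurableSet N := mTrap.inter (mrho mTrap).compl
  have hN0 : Cfg.vol n N = 0 := by
    have h1 : N ⊆ ⋃ m : ℕ, {l | l ∈ C.Trap ∧ C.rho l ∉ C.Om m} := by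
      rintro l ⟨h2, h3⟩
      rw [Set.mem_iUnion]
      by_contra h4
      apply h3
      intro m
      by_contra h5
      exact h4 ⟨m, h2, h5⟩
    refine measure_mono_null h1 ?_
    rw [measure_iUnion_null_iff]
    exact poincare_Am C
  have hN1 : ∫⁻ l in C.M, N.indicator (fun _ => 1) (C.rho l) ∂(Cfg.vol n) = 0 := by
    rw [rhoMeas C _ (measurable_const.indicator mN), lintegral_indicator_const mN, one_mul]
    exact le_antisymm ((Measure.restrict_apply_le _ _).trans hN0.le) zero_le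
  have hN2 : ∀ᵐ l ∂((Cfg.vol n).restrict C.M), C.rho l ∉ N := by
    have h2 : Measurable (fun l : St n => N.indicator (fun _ => (1:ENNReal)) (C.rho l)) :=
      (measurable_const.indicator mN).comp mrho
    rw [lintegral_eq_zero_iff h2] at hN1
    filter_upwards [hN1] with l hl h3
    simp only [Pi.zero_apply] at hl
    rw [Set.indicator_of_mem h3] at hl
    exact one_ne_zero hl
  have hN3 : ∀ᵐ l ∂((Cfg.vol n).restrict C.M), l ∉ N := by
    apply ae_restrict_of_ae
    exact measure_eq_zero_iff_ae_notMem.mp hN0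
  filter_upwards [hN2, hN3] with l h2 h3
  constructor
  · intro h4
    by_contra h5
    exact h3 ⟨h4, h5⟩
  · intro h4
    by_contra h5
    apply h2
    refine ⟨h4, ?_⟩
    rw [(shift C 0 l).2.2.2.2.2.2.2.1]
    exact h5

end Pool.LightB
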