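import Pool.Agent.Helper638.LightB.Defs
import Pool.Agent.Helper638.LightB.P_asn_spec
import Pool.Agent.Helper638.LightB.P_geo_shift
import Pool.Agent.Helper638.LightB.P_gap
import Pool.Agent.Helper638.LightB.P_basics
import Pool.Agent.Helper638.LightB.P_hits_unique
import Pool.Agent.Helper638.LightB.P_T_of_hits
import Pool.Agent.Helper638.LightB.P_Tj_facts
import Pool.Agent.Helper638.LightB.P_om_facts
import Pool.Agent.Helper638.LightB.P_sig_bounds

set_option autoImplicit false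

open MeasureTheory Set Filter Topology

namespace Pool.LightB
variable {n : ℕ}


theorem sig_lim_gf (C : Cfg n) (c s s' : ℝ) (hc : 0 ≤ c) (hs : C.tau ≤ s)
    (hs' : C.tau ≤ s') (hcK : c ≤ C.R1) :
    |Cfg.gf s c - Cfg.gf s' c| ≤ C.lam ^ 2 * |s - s'| := by
  have ht := C.htau
  have h1 : 0 < c + 2 * s := by linarith
  have h2 : 0 < c + 2 * s' := by linarith
  have e : Cfg.gf s c - Cfg.gf s' c = (c / (c + 2 * s)) * (c / (c + 2 * s')) * (s - s') := by
    unfold Cfg.gf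
    have h1' : c + 2 * s ≠ 0 := h1.ne'
    have h2' : c + 2 * s' ≠ 0 := h2.ne'
    rw [div_sub_div _ _ h1' h2', div_mul_div_comm, div_mul_eq_mul_div]
    congr 1
    ring
  have hl : ∀ t : ℝ, C.tau ≤ t → 0 ≤ c / (c + 2 * t) ∧ c / (c + 2 * t) ≤ C.lam := by
    intro t htt
    have h3 : 0 < c + 2 * t := by linarith
    refine ⟨div_nonneg hc h3.le, ?_⟩
    unfold Cfg.lam
    have hR := C.hR1
    rw [div_le_div_iff₀ h3 (by linarith)]
    nlinarith
  have h3 := hl s hs
  have h4 := hl s' hs'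
  rw [e, abs_mul, abs_of_nonneg (mul_nonneg h3.1 h4.1)]
  refine mul_le_mul_of_nonneg_right ?_ (abs_nonneg _)
  rw [pow_two]
  exact mul_le_mul h3.2 h4.2 h4.1 (h3.1.trans h3.2)

theorem sig_lim_step (C : Cfg n) (N : ℕ) : ∀ l ∈ C.Trap,
    |C.sig (N + 1) l - C.sig N l| ≤ 2 * C.K * (C.lam ^ 2) ^ N := by
  induction N with
  | zero =>
    intro l hl
    have hM : l ∈ C.M := hl 0
    have h1 := sig_bounds C 0 l hM
    have h2 := sig_bounds C 1 l hM
    have h3 := (basics C l.1 l.2.1 l.2.2).1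
    have h4 := neg_abs_le (C.sp l.1 l.2.1 l.2.2)
    have ht := C.htau
    have hR := C.hR1
    rw [pow_zero, mul_one, abs_le]
    constructor <;> linarith [h1.1, h1.2, h2.1, h2.2]
  | succ N ih =>
    intro l hl
    have hT : C.T l ∈ C.Trap := (om_facts C 0).2.2.2.2 l hl
    have hTM : C.T l ∈ C.M := hT 0
    have hh : ∃ j, C.Hits l.1 j l.2.1 l.2.2 := (hl 1).2.1
    have e : ∀ m, C.sig (m + 1) l = C.sm (C.T l).1 l.2.1 l.2.2 +
        Cfg.gf (C.sig m (C.T l) - C.sp (C.T l).1 (C.T l).2.1 (C.T l).2.2)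
          (C.cc (C.T l).1 (C.T l).2.1 (C.T l).2.2) := by
      intro m
      rw [Cfg.sig]
      exact if_pos hh
    have h1 := sig_bounds C N (C.T l) hTM
    have h2 := sig_bounds C (N + 1) (C.T l) hTM
    have hbas := basics C (C.T l).1 (C.T l).2.1 (C.T l).2.2
    have h4 := sig_lim_gf C (C.cc (C.T l).1 (C.T l).2.1 (C.T l).2.2)
      (C.sig (N + 1) (C.T l) - C.sp (C.T l).1 (C.T l).2.1 (C.T l).2.2)
      (C.sig N (C.T l) - C.sp (C.T l).1 (C.T l).2.1 (C.T l).2.2)
      hbas.2.2.1 (by linarith [h2.1]) (by linarith [h1.1]) hbas.2.2.2.1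
    have h5 := ih (C.T l) hT
    rw [e (N + 1), e N]
    rw [add_sub_add_left_eq_sub]
    refine h4.trans ?_
    rw [sub_sub_sub_cancel_right]
    calc C.lam ^ 2 * |C.sig (N + 1) (C.T l) - C.sig N (C.T l)|
        ≤ C.lam ^ 2 * (2 * C.K * (C.lam ^ 2) ^ N) :=
          mul_le_mul_of_nonneg_left h5 (sq_nonneg _)
      _ = 2 * C.K * (C.lam ^ 2) ^ (N + 1) := by rw [pow_succ]; ring

theorem sig_lim (C : Cfg n) (l : St n) (hl : l ∈ C.M) :
    (C.sp l.1 l.2.1 l.2.2 + C.tau ≤ C.sigInf l ∧ C.sigInf l ≤ C.K) ∧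
    (l ∈ C.Trap → Tendsto (fun N => C.sig N l) atTop (𝓝 (C.sigInf l))) := by
  have hb := fun N => sig_bounds C N l hl
  have hbdd : IsBoundedUnder (· ≤ ·) atTop (fun N => C.sig N l) :=
    isBoundedUnder_of ⟨C.K, fun N => (hb N).2⟩
  have hbddb : IsBoundedUnder (· ≥ ·) atTop (fun N => C.sig N l) :=
    isBoundedUnder_of ⟨C.sp l.1 l.2.1 l.2.2 + C.tau, fun N => (hb N).1⟩
  refine ⟨⟨?_, ?_⟩, ?_⟩
  · show C.sp l.1 l.2.1 l.2.2 + C.tau ≤ limsup (fun N => C.sig N l) atTop
    exact le_limsup_of_frequently_le (Filter.Frequently.of_forall (fun N => (hb N).1)) hbdd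
  · show limsup (fun N => C.sig N l) atTop ≤ C.K
    exact limsup_le_of_le hbddb.isCoboundedUnder_le
      (Filter.Eventually.of_forall (fun N => (hb N).2))
  · intro hT
    obtain ⟨-, -, -, -, -, -, -, -, -, -, -, -, -, -, -, hK, hlam0, hlam1⟩ := basics C l.1 0 0
    have hcau : CauchySeq (fun N => C.sig N l) := by
      refine cauchySeq_of_le_geometric (C.lam ^ 2) (2 * C.K) ?_ ?_
      · nlinarith
      · intro N
        rw [Real.dist_eq, abs_sub_comm]
        exact sig_lim_step C N l hT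
    obtain ⟨L, hL⟩ := cauchySeq_tendsto_of_complete hcau
    have : C.sigInf l = L := hL.limsup_eq
    rw [this]
    exact hL

end Pool.LightB
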