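import Pool.Agent.Helper638.LightB.Defs
import Pool.Agent.Helper638.LightB.P_FFd
import Pool.Agent.Helper638.LightB.P_asn_spec
import Pool.Agent.Helper638.LightB.P_asn_cont
import Pool.Agent.Helper638.LightB.P_geo_shift
import Pool.Agent.Helper638.LightB.P_basics
import Pool.Agent.Helper638.LightB.P_rr_facts
import Pool.Agent.Helper638.LightB.P_rr_deriv
import Pool.Agent.Helper638.LightB.P_hits_unique
import Pool.Agent.Helper638.LightB.P_T_of_hits
import Pool.Agent.Helper638.LightB.P_shift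
import Pool.Agent.Helper638.LightB.P_om_facts
import Pool.Agent.Helper638.LightB.P_meas
import Pool.Agent.Helper638.LightB.P_volSum
import Pool.Agent.Helper638.LightB.P_rrMeas
import Pool.Agent.Helper638.LightB.P_rhoMeas
import Pool.Agent.Helper638.LightB.P_poincare
import Pool.Agent.Helper638.LightB.P_sig_bounds
import Pool.Agent.Helper638.LightB.P_sig_lim
import Pool.Agent.Helper638.LightB.P_Sr_locint
import Pool.Agent.Helper638.LightB.P_nu_facts
import Pool.Agent.Helper638.LightB.P_centralInf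

set_option autoImplicit false

open MeasureTheory Set Filter Topology

namespace Pool.LightB
variable {n : ℕ}


theorem centralU_rho (C : Cfg n) (i : Fin n) (p : ℝ × ℝ) :
    C.rho (i, p) = (i, C.rr i p) := rfl

theorem centralU_RR (C : Cfg n) (i : Fin n) (p : ℝ × ℝ) :
    C.rr i (C.rr i p) = p := (rr_facts C i p).1

theorem centralU_RU (C : Cfg n) (i : Fin n) (p : ℝ × ℝ) :
    C.rr i p ∈ C.U i ↔ p ∈ C.U i := (rr_facts C i p).2.1

theorem centralU_Rmeas (C : Cfg n) (i : Fin n) : Measurable (C.rr i) :=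
  (meas C).2.2.2.2.2.2.2.2.2.2.2.2.2.2 i

theorem centralU_Uopen (C : Cfg n) (i : Fin n) : IsOpen (C.U i) := (asn_cont C i).2.1

theorem centralU_Rmp (C : Cfg n) (i : Fin n) :
    MeasurePreserving (C.rr i) ((volume : Measure (ℝ × ℝ)).restrict (C.U i))
      ((volume : Measure (ℝ × ℝ)).restrict (C.U i)) := by
  refine ⟨centralU_Rmeas C i, ?_⟩
  ext s hs
  rw [Measure.map_apply (centralU_Rmeas C i) hs]
  have h := rrMeas C i (s.indicator (fun _ => 1)) (measurable_const.indicator hs)
  have h1 : ∫⁻ p in C.U i, s.indicator (fun _ => (1 : ENNReal)) p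
      = ((volume : Measure (ℝ × ℝ)).restrict (C.U i)) s := by
    rw [lintegral_indicator_const hs, one_mul]
  have h2 : ∫⁻ p in C.U i, s.indicator (fun _ => (1 : ENNReal)) (C.rr i p)
      = ((volume : Measure (ℝ × ℝ)).restrict (C.U i)) (C.rr i ⁻¹' s) := by
    have h3 : (fun p => s.indicator (fun _ => (1 : ENNReal)) (C.rr i p))
        = (C.rr i ⁻¹' s).indicator (fun _ => (1 : ENNReal)) := by
      ext p
      by_cases h9 : C.rr i p ∈ s
      · rw [Set.indicator_of_mem h9, Set.indicator_of_mem (show p ∈ C.rr i ⁻¹' s from h9)]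
      · rw [Set.indicator_of_notMem h9, Set.indicator_of_notMem (show p ∉ C.rr i ⁻¹' s from h9)]
    rw [h3, lintegral_indicator_const (centralU_Rmeas C i hs), one_mul]
  rw [← h2, ← h1]
  exact h

theorem centralU_Rme (C : Cfg n) (i : Fin n) : MeasurableEmbedding (C.rr i) := by
  let e : (ℝ × ℝ) ≃ᵐ (ℝ × ℝ) :=
    { toFun := C.rr i
      invFun := C.rr i
      left_inv := centralU_RR C i
      right_inv := centralU_RR C i
      measurable_toFun := centralU_Rmeas C i
      measurable_invFun := centralU_Rmeas C i }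
  exact e.measurableEmbedding

theorem centralU_int (C : Cfg n) (i : Fin n) (F : ℝ × ℝ → ℝ) (hF : ∀ p, p ∉ C.U i → F p = 0) :
    ∫ p, F (C.rr i p) = ∫ p, F p := by
  have h1 : ∫ p in C.U i, F (C.rr i p) = ∫ p in C.U i, F p :=
    (centralU_Rmp C i).integral_comp (centralU_Rme C i) F
  have h2 : ∫ p in C.U i, F (C.rr i p) = ∫ p, F (C.rr i p) :=
    setIntegral_eq_integral_of_forall_compl_eq_zero
      (fun p hp => hF _ (fun h => hp ((centralU_RU C i p).1 h)))
  have h3 : ∫ p in C.U i, F p = ∫ p, F p :=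
    setIntegral_eq_integral_of_forall_compl_eq_zero hF
  rw [← h2, h1, h3]

theorem centralU_zero (C : Cfg n) (i : Fin n) (φ : ℝ × ℝ → ℝ) (h : TF (C.U i) φ) (p : ℝ × ℝ)
    (hp : p ∉ C.U i) : φ p = 0 ∧ fderiv ℝ φ p = 0 := by
  have hnt : p ∉ tsupport φ := fun hmem => hp (h.2.2 hmem)
  have : φ =ᶠ[𝓝 p] fun _ => 0 := by
    filter_upwards [(isClosed_tsupport φ).isOpen_compl.mem_nhds hnt] with q hq
    exact image_eq_zero_of_notMem_tsupport hq
  refine ⟨image_eq_zero_of_notMem_tsupport hnt, ?_⟩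
  rw [this.fderiv_eq]
  simp

theorem centralU_TF (C : Cfg n) (i : Fin n) (φ : ℝ × ℝ → ℝ) (h : TF (C.U i) φ) :
    TF (C.U i) (fun p => φ (C.rr i p)) := by
  obtain ⟨hφ, hcs, hts⟩ := h
  have hRc : ContinuousOn (C.rr i) (tsupport φ) := fun p hp =>
    ((rr_deriv C i p (hts hp)).1.continuousAt).continuousWithinAt
  have hcomp : IsCompact ((C.rr i) '' (tsupport φ)) := hcs.isCompact.image_of_continuousOn hRc
  have hcl : IsClosed ((C.rr i) '' (tsupport φ)) := hcomp.isClosed
  have hsub : (C.rr i) '' (tsupport φ) ⊆ C.U i := by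
    rintro _ ⟨q, hq, rfl⟩
    exact (centralU_RU C i q).2 (hts hq)
  have hsupp : Function.support (fun p => φ (C.rr i p)) ⊆ (C.rr i) '' (tsupport φ) := by
    intro p hp
    exact ⟨C.rr i p, subset_tsupport φ hp, centralU_RR C i p⟩
  have hts' : tsupport (fun p => φ (C.rr i p)) ⊆ (C.rr i) '' (tsupport φ) :=
    closure_minimal hsupp hcl
  have hzero : ∀ p, p ∉ (C.rr i) '' (tsupport φ) →
      (fun p => φ (C.rr i p)) =ᶠ[𝓝 p] fun _ => 0 := by
    intro p hp
    filter_upwards [hcl.isOpen_compl.mem_nhds hp] with q hq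
    by_contra hne
    exact hq (hsupp hne)
  refine ⟨?_, ?_, hts'.trans hsub⟩
  · rw [contDiff_iff_contDiffAt]
    intro p
    by_cases hp : p ∈ C.U i
    · exact hφ.contDiffAt.comp p (rr_deriv C i p hp).1
    · exact contDiffAt_const.congr_of_eventuallyEq (hzero p (fun h => hp (hsub h)))
  · exact HasCompactSupport.of_support_subset_isCompact hcomp hsupp

theorem centralU_key (C : Cfg n) (i : Fin n) (φ : ℝ × ℝ → ℝ) (h : TF (C.U i) φ) (p : ℝ × ℝ) :
    Cfg.gw true (C.sigInf (i, p) - C.sp i p.1 p.2) (C.cc i p.1 p.2) *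
        fderiv ℝ (fun p => φ (C.rr i p)) p (1, -C.sigInf (i, p))
      = - fderiv ℝ φ (C.rr i p) (1, -C.sigU (i, C.rr i p)) := by
  by_cases hp : p ∈ C.U i
  · obtain ⟨hcd, hder⟩ := rr_deriv C i p hp
    have hD : HasFDerivAt (C.rr i) (fderiv ℝ (C.rr i) p) p :=
      (hcd.differentiableAt one_ne_zero).hasFDerivAt
    have hφd : HasFDerivAt φ (fderiv ℝ φ (C.rr i p)) (C.rr i p) :=
      (h.1.differentiable one_ne_zero _).hasFDerivAt
    have hcomp := (hφd.comp p hD).fderiv
    have hM : ((i, p) : St n) ∈ C.M := hp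
    have hs : C.sp i p.1 p.2 + C.tau ≤ C.sigInf (i, p) := (sig_lim C (i, p) hM).1.1
    have hU : (p.1, p.2) ∈ C.U i := hp
    have hspec := (asn_spec C i p.1 p.2).2.2.2.2.1 hU
    have hc0 : 0 < C.cc i p.1 p.2 := hspec.2.2.2
    have hT : C.Tch i p.1 p.2 := hspec.2.1
    have hcc : C.cc i (C.rr i p).1 (C.rr i p).2 = C.cc i p.1 p.2 :=
      (rr_facts C i p).2.2.2.2.2.2.2 hT
    have hsU : C.sigU (i, C.rr i p) = C.sp i (C.rr i p).1 (C.rr i p).2 -
        Cfg.gf (C.sigInf (i, p) - C.sp i p.1 p.2) (C.cc i p.1 p.2) := by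
      unfold Cfg.sigU
      rw [centralU_rho, centralU_RR]
      show C.sp i (C.rr i p).1 (C.rr i p).2 -
        Cfg.gf (C.sigInf (i, p) - C.sp i p.1 p.2) (C.cc i (C.rr i p).1 (C.rr i p).2) = _
      rw [hcc]
    have htau := C.htau
    have hd := hder (1, -C.sigInf (i, p)) (-(C.sigInf (i, p) - C.sp i p.1 p.2))
      (-((C.cc i p.1 p.2 + 2 * (C.sigInf (i, p) - C.sp i p.1 p.2)) / C.cc i p.1 p.2))
      (by
        show -(C.sigInf (i, p) - C.sp i p.1 p.2) = -C.sigInf (i, p) + C.sp i p.1 p.2 * 1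
        ring) (by
        show _ = -(1 : ℝ) + _
        field_simp
        ring)
    have hcomp' : fderiv ℝ (fun p => φ (C.rr i p)) p (1, -C.sigInf (i, p))
        = fderiv ℝ φ (C.rr i p) (fderiv ℝ (C.rr i) p (1, -C.sigInf (i, p))) := by
      have : fderiv ℝ (fun p => φ (C.rr i p)) p
          = (fderiv ℝ φ (C.rr i p)).comp (fderiv ℝ (C.rr i) p) := hcomp
      rw [this]
      rfl
    rw [hcomp', hd, hsU]
    have hf0 : 0 < C.sigInf (i, p) - C.sp i p.1 p.2 := by linarith
    generalize C.sigInf (i, p) - C.sp i p.1 p.2 = f at *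
    generalize C.cc i p.1 p.2 = c at *
    generalize C.sp i (C.rr i p).1 (C.rr i p).2 = w at *
    have h2 : 0 < c + 2 * f := by linarith
    have hcne := hc0.ne'
    have h2ne := h2.ne'
    have hv : ((-((c + 2 * f) / c), -f - w * -((c + 2 * f) / c)) : ℝ × ℝ)
        = (-((c + 2 * f) / c)) • ((1, -(w - Cfg.gf f c)) : ℝ × ℝ) := by
      unfold Cfg.gf
      ext
      · simp
      · show -f - w * -((c + 2 * f) / c) = -((c + 2 * f) / c) * -(w - c * f / (c + 2 * f))
        field_simp
        ring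
    rw [hv, map_smul, smul_eq_mul]
    unfold Cfg.gw
    simp only [if_true]
    field_simp
  · have h1 := (centralU_zero C i _ (centralU_TF C i φ h) p hp).2
    have h2 := (centralU_zero C i φ h (C.rr i p) (fun h => hp ((centralU_RU C i p).1 h))).2
    rw [h1, h2]
    simp

theorem centralU_poinc (C : Cfg n) (i : Fin n) :
    ∀ᵐ p : ℝ × ℝ, p ∈ C.U i → C.Z (i, C.rr i p) = C.Z (i, p) := by
  classical
  have hm := meas C
  have hTrap : MeasurableSet C.Trap := hm.2.2.1
  have hMm : MeasurableSet C.M := hm.2.2.2.1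
  have hrho : Measurable C.rho := hm.2.2.2.2.2.2.1
  have hbad : MeasurableSet {l : St n | l ∈ C.M ∧ ¬ (l ∈ C.Trap ↔ C.rho l ∈ C.Trap)} := by
    have h1 : MeasurableSet {l : St n | l ∈ C.Trap} := hTrap
    have h2 : MeasurableSet {l : St n | C.rho l ∈ C.Trap} := hrho hTrap
    exact hMm.inter (MeasurableSet.compl (h1.iff h2))
  have hp := poincare C
  rw [ae_restrict_iff' hMm] at hp
  have h0 : ∫⁻ l, ({l : St n | l ∈ C.M ∧ ¬ (l ∈ C.Trap ↔ C.rho l ∈ C.Trap)}).indicator
      (fun _ => (1 : ENNReal)) l ∂(Cfg.vol n) = 0 := by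
    rw [lintegral_indicator_const hbad, one_mul]
    rw [ae_iff] at hp
    convert hp using 2
    ext l
    simp only [Set.mem_ofPred_eq, Classical.not_imp]
  rw [volSum _ (measurable_const.indicator hbad), Finset.sum_eq_zero_iff] at h0
  have h1 := h0 i (Finset.mem_univ i)
  have hmeas : Measurable (fun p : ℝ × ℝ => ({l : St n | l ∈ C.M ∧
      ¬ (l ∈ C.Trap ↔ C.rho l ∈ C.Trap)}).indicator (fun _ => (1 : ENNReal)) (i, p)) :=
    (measurable_const.indicator hbad).comp measurable_prodMk_left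
  rw [lintegral_eq_zero_iff hmeas] at h1
  filter_upwards [h1] with p hp1 hp2
  have h3 : ((i, p) : St n) ∉ {l : St n | l ∈ C.M ∧ ¬ (l ∈ C.Trap ↔ C.rho l ∈ C.Trap)} := by
    intro hmem
    rw [Set.indicator_of_mem hmem] at hp1
    simp at hp1
  have h4 : ((i, p) : St n) ∈ C.Trap ↔ C.rho (i, p) ∈ C.Trap := by
    by_contra hcon
    exact h3 ⟨hp2, hcon⟩
  rw [centralU_rho] at h4
  unfold Cfg.Z
  simp only [h4]

theorem centralU (C : Cfg n) : ∃ A > 0, ∀ (i : Fin n) (φ : ℝ × ℝ → ℝ), TF (C.U i) φ →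
      (|∫ p, C.Z (i, p) * fderiv ℝ φ p (1, -C.sigInf (i, p))| ≤
        (∫ p, |φ p| * C.Sr A (i, p)) + ∫ p, |φ p| ∂(C.nui A i)) ∧
      (|∫ p, C.Z (i, p) * fderiv ℝ φ p (1, -C.sigU (i, p))| ≤
        (∫ p, |φ p| * C.Sr A (C.rho (i, p))) +
          ∫ p, |φ p| ∂(Measure.map (C.rr i) (C.nui A i))) := by
  obtain ⟨A, hA, hInf⟩ := centralInf C
  refine ⟨A, hA, fun i φ hφ => ⟨?_, ?_⟩⟩
  · have := hInf false i φ hφ
    simpa [Cfg.gw] using this
  · have h1 := hInf true i (fun p => φ (C.rr i p)) (centralU_TF C i φ hφ)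
    have hL : ∫ p, C.Z (i, p) *
          Cfg.gw true (C.sigInf (i, p) - C.sp i p.1 p.2) (C.cc i p.1 p.2) *
          fderiv ℝ (fun p => φ (C.rr i p)) p (1, -C.sigInf (i, p))
        = - ∫ p, C.Z (i, p) * fderiv ℝ φ p (1, -C.sigU (i, p)) := by
      have e1 : ∀ p, C.Z (i, p) *
          Cfg.gw true (C.sigInf (i, p) - C.sp i p.1 p.2) (C.cc i p.1 p.2) *
          fderiv ℝ (fun p => φ (C.rr i p)) p (1, -C.sigInf (i, p))
          = (fun p => -(C.Z (i, C.rr i p) * fderiv ℝ φ p (1, -C.sigU (i, p))))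
            (C.rr i p) := by
        intro p
        simp only [centralU_RR]
        rw [mul_assoc, centralU_key C i φ hφ p]
        ring
      rw [integral_congr_ae (Filter.Eventually.of_forall e1),
        centralU_int C i (fun p => -(C.Z (i, C.rr i p) * fderiv ℝ φ p (1, -C.sigU (i, p))))
          (fun p hp => by
            show -(C.Z (i, C.rr i p) * fderiv ℝ φ p (1, -C.sigU (i, p))) = 0
            rw [(centralU_zero C i φ hφ p hp).2]
            simp),
        integral_neg]
      congr 1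
      refine integral_congr_ae ?_
      filter_upwards [centralU_poinc C i] with p hp
      by_cases hb : p ∈ C.U i
      · simp only [hp hb]
      · rw [(centralU_zero C i φ hφ p hb).2]
        simp
    rw [hL, abs_neg] at h1
    refine h1.trans (le_of_eq ?_)
    congr 1
    · have e2 : ∀ p, |φ (C.rr i p)| * C.Sr A (i, p)
          = (fun p => |φ p| * C.Sr A (C.rho (i, p))) (C.rr i p) := by
        intro p
        simp only [centralU_rho, centralU_RR]
      rw [integral_congr_ae (Filter.Eventually.of_forall e2),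
        centralU_int C i (fun p => |φ p| * C.Sr A (C.rho (i, p)))
          (fun p hp => by
            show |φ p| * C.Sr A (C.rho (i, p)) = 0
            rw [(centralU_zero C i φ hφ p hp).1]
            simp)]
    · rw [integral_map (centralU_Rmeas C i).aemeasurable]
      exact (hφ.1.continuous.abs).aestronglyMeasurable

end Pool.LightB
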