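import Pool.Agent.Helper638.LightB.Defs
import Pool.Agent.Helper638.LightB.P_FFd
import Pool.Agent.Helper638.LightB.P_asn_spec
import Pool.Agent.Helper638.LightB.P_asn_cont
import Pool.Agent.Helper638.LightB.P_geo_shift
import Pool.Agent.Helper638.LightB.P_gap
import Pool.Agent.Helper638.LightB.P_basics
import Pool.Agent.Helper638.LightB.P_hits_unique
import Pool.Agent.Helper638.LightB.P_T_of_hits
import Pool.Agent.Helper638.LightB.P_Tj_facts
import Pool.Agent.Helper638.LightB.P_Tj_deriv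
import Pool.Agent.Helper638.LightB.P_isOpen_hits
import Pool.Agent.Helper638.LightB.P_om_facts
import Pool.Agent.Helper638.LightB.P_Tsmooth

set_option autoImplicit false

open MeasureTheory Set Filter Topology

namespace Pool.LightB
variable {n : ℕ}


noncomputable def curvesS_bd (C : Cfg n) (k : Fin n) (s : Bool) (θ : ℝ) : ℝ :=
  if s then C.hi k θ else C.lo k θ

theorem curvesS_bdf (C : Cfg n) (k : Fin n) (s : Bool) (θ : ℝ) :
    HasDerivAt (curvesS_bd C k s) (-C.sp k θ (curvesS_bd C k s θ)) θ ∧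
    C.sm k θ (curvesS_bd C k s θ) = C.sp k θ (curvesS_bd C k s θ) ∧
    C.Tch k θ (curvesS_bd C k s θ) ∧ ContDiff ℝ 1 (curvesS_bd C k s) := by
  obtain ⟨-, -, -, -, -, -, -, h1, h2, h3, h4, h5, h6, h7, h8, -⟩ := basics C k θ 0
  cases s
  · have e : curvesS_bd C k false = C.lo k := by
      funext θ
      simp [curvesS_bd]
    rw [e]
    exact ⟨h2, h4, h6, h8⟩
  · have e : curvesS_bd C k true = C.hi k := by
      funext θ
      simp [curvesS_bd]
    rw [e]
    exact ⟨h1, h3, h5, h7⟩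

/-- the functions -/
noncomputable def curvesS_G (C : Cfg n) (i : Fin n) (m : ℕ) (k : Fin n) (s : Bool) (q : ℝ × ℝ) : ℝ :=
  (-1) ^ m * (((C.T^[m]) ((i, q) : St n)).2.2 - curvesS_bd C k s ((C.T^[m]) ((i, q) : St n)).2.1)

/-- the pointwise condition -/
def curvesS_P (C : Cfg n) (i : Fin n) (m : ℕ) (k : Fin n) (s : Bool) (q : ℝ × ℝ) : Prop :=
  q ∈ C.U i ∧ ContDiffAt ℝ 1 (curvesS_G C i m k s) q ∧
  0 < fderiv ℝ (curvesS_G C i m k s) q (0, 1) ∧
  (C.sp i q.1 q.2 + C.tau / 2) * fderiv ℝ (curvesS_G C i m k s) q (0, 1) ≤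
    fderiv ℝ (curvesS_G C i m k s) q (1, 0) ∧
  (curvesS_G C i m k s q = 0 → ((i, q) : St n) ∈ C.Om m ∧ (C.T^[m]) ((i, q) : St n) ∈ C.S1)

theorem curvesS_zero (C : Cfg n) (i k : Fin n) (s : Bool) (q0 : ℝ × ℝ)
    (hq0 : q0 ∈ C.U i) (hk : k ≠ i) (hdv : 0 < C.dv i k q0.1)
    (hb : q0.2 = curvesS_bd C k s q0.1) : ∀ᶠ q in 𝓝 q0, curvesS_P C i 0 k s q := by
  have hG : curvesS_G C i 0 k s = fun q : ℝ × ℝ => q.2 - curvesS_bd C k s q.1 := by
    funext q
    simp only [curvesS_G, pow_zero, one_mul, Function.iterate_zero, id_eq]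
  have hder : ∀ q : ℝ × ℝ, HasFDerivAt (curvesS_G C i 0 k s)
      (ContinuousLinearMap.snd ℝ ℝ ℝ - (-C.sp k q.1 (curvesS_bd C k s q.1)) •
        ContinuousLinearMap.fst ℝ ℝ ℝ) q := by
    intro q
    rw [hG]
    have h2 : HasFDerivAt (fun q : ℝ × ℝ => curvesS_bd C k s q.1)
        ((-C.sp k q.1 (curvesS_bd C k s q.1)) • ContinuousLinearMap.fst ℝ ℝ ℝ) q :=
      (curvesS_bdf C k s q.1).1.comp_hasFDerivAt q (hasFDerivAt_fst)
    exact hasFDerivAt_snd.sub h2
  have hcd : ContDiff ℝ 1 (curvesS_G C i 0 k s) := by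
    rw [hG]
    exact contDiff_snd.sub ((curvesS_bdf C k s 0).2.2.2.comp contDiff_fst)
  have hTi : C.Tch i q0.1 q0.2 := ⟨hq0.1.le, hq0.2.le⟩
  have hTk : C.Tch k q0.1 q0.2 := by
    rw [hb]
    exact (curvesS_bdf C k s q0.1).2.2.1
  have hgap : C.sp i q0.1 q0.2 + C.tau ≤ C.sp k q0.1 (curvesS_bd C k s q0.1) := by
    rcases gap C (Ne.symm hk) hTi hTk with h | h
    · have e : C.sm k q0.1 q0.2 = C.sp k q0.1 (curvesS_bd C k s q0.1) := by
        rw [hb]
        exact (curvesS_bdf C k s q0.1).2.1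
      rw [← e]
      exact h.2
    · exact absurd h.1 (not_lt.2 hdv.le)
  obtain ⟨-, hUo, -, -, -, -, -, -, -, hspi, -, -⟩ := asn_cont C i
  obtain ⟨-, -, -, -, -, -, -, -, -, hspk, -, -⟩ := asn_cont C k
  have hci : ContinuousAt (fun q : ℝ × ℝ => C.sp i q.1 q.2) q0 :=
    hspi.continuousAt (Filter.mem_of_superset (hUo.mem_nhds hq0) (fun q hq => ⟨hq.1.le, hq.2.le⟩))
  have hbc : Continuous (curvesS_bd C k s) := (curvesS_bdf C k s 0).2.2.2.continuous
  have hck : Continuous (fun q : ℝ × ℝ => C.sp k q.1 (curvesS_bd C k s q.1)) := by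
    have h1 : Continuous (fun q : ℝ × ℝ => (q.1, curvesS_bd C k s q.1)) :=
      continuous_fst.prodMk (hbc.comp continuous_fst)
    exact hspk.comp_continuous h1 (fun q => (curvesS_bdf C k s q.1).2.2.1)
  have hcontdv : Continuous fun q : ℝ × ℝ => C.dv i k q.1 := by
    unfold Cfg.dv
    fun_prop
  have e1 : ∀ᶠ q : ℝ × ℝ in 𝓝 q0, q ∈ C.U i := hUo.mem_nhds hq0
  have e2 : ∀ᶠ q : ℝ × ℝ in 𝓝 q0, 0 < C.dv i k q.1 :=
    continuousAt_const.eventually_lt hcontdv.continuousAt hdv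
  have e3 : ∀ᶠ q : ℝ × ℝ in 𝓝 q0, C.sp i q.1 q.2 + C.tau / 2 < C.sp k q.1 (curvesS_bd C k s q.1) := by
    refine (hci.add continuousAt_const).eventually_lt hck.continuousAt ?_
    have := C.htau
    show C.sp i q0.1 q0.2 + C.tau / 2 < C.sp k q0.1 (curvesS_bd C k s q0.1)
    linarith
  filter_upwards [e1, e2, e3] with q h1 h2 h3
  have hf := (hder q).fderiv
  refine ⟨h1, hcd.contDiffAt, ?_, ?_, ?_⟩
  · rw [hf]; simp
  · rw [hf]; simp; exact h3.le
  · intro h0
    rw [hG] at h0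
    have hb' : q.2 = curvesS_bd C k s q.1 := by
      have h0' : q.2 - curvesS_bd C k s q.1 = 0 := h0
      linarith
    refine ⟨h1, h1, k, hk, h2, ?_⟩
    show q.2 = C.lo k q.1 ∨ q.2 = C.hi k q.1
    rw [hb']
    cases s
    · left; simp [curvesS_bd]
    · right; simp [curvesS_bd]

theorem curvesS_main (C : Cfg n) (k : Fin n) (s : Bool) :
    ∀ (m : ℕ) (i : Fin n) (q0 : ℝ × ℝ), ((i, q0) : St n) ∈ C.Om m →
      k ≠ ((C.T^[m]) ((i, q0) : St n)).1 →
      0 < C.dv ((C.T^[m]) ((i, q0) : St n)).1 k ((C.T^[m]) ((i, q0) : St n)).2.1 →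
      ((C.T^[m]) ((i, q0) : St n)).2.2 = curvesS_bd C k s ((C.T^[m]) ((i, q0) : St n)).2.1 →
      ∀ᶠ q in 𝓝 q0, curvesS_P C i m k s q := by
  intro m
  induction m with
  | zero =>
    intro i q0 hq hk hdv hb
    exact curvesS_zero C i k s q0 hq hk hdv hb
  | succ m ih =>
    intro i q0 hq hk hdv hb
    obtain ⟨hM, ⟨j, hj⟩, hT⟩ := hq
    have hM' : q0 ∈ C.U i := hM
    have hj' : C.Hits i j q0.1 q0.2 := hj
    have hTq0 : C.T ((i, q0) : St n) = (j, C.Tj j q0) := T_of_hits C hj'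
    rw [Function.iterate_succ_apply, hTq0] at hk hdv hb
    rw [hTq0] at hT
    have hev := ih j (C.Tj j q0) hT hk hdv hb
    obtain ⟨hloc, hUj0, -, -⟩ := Tsmooth C hM' hj'
    have hcd0 := (Tj_deriv C j q0 hUj0).1
    have hcont : Filter.Tendsto (fun q : ℝ × ℝ => C.Tj j q) (𝓝 q0) (𝓝 (C.Tj j q0)) :=
      hcd0.continuousAt
    have hev2 := hcont.eventually hev
    filter_upwards [hloc.eventually_nhds, hev2] with q hq1 hq2
    obtain ⟨hqr, hqh, hqT⟩ := hq1.self_of_nhds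
    obtain ⟨-, hqUj, -, hgap⟩ := Tsmooth C hqr hqh
    obtain ⟨hcdq, -, hder⟩ := Tj_deriv C j q hqUj
    obtain ⟨-, -, -, -, -, -, -, hc'pos⟩ := Tj_facts C j q hqUj
    have hGeq : curvesS_G C i (m + 1) k s =ᶠ[𝓝 q]
        fun q' => -(curvesS_G C j m k s (C.Tj j q')) := by
      filter_upwards [hq1] with q' hq'
      simp only [curvesS_G, Function.iterate_succ_apply]
      rw [hq'.2.2, pow_succ]
      ring
    obtain ⟨hP1, hP2, hP3, hP4, hP5⟩ := hq2
    have hcomp : ContDiffAt ℝ 1 (fun q' : ℝ × ℝ => -(curvesS_G C j m k s (C.Tj j q'))) q := by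
      refine ContDiffAt.neg ?_
      exact ContDiffAt.comp (g := curvesS_G C j m k s)
        (f := C.Tj j) q hP2 hcdq
    have hfd : ∀ u, fderiv ℝ (curvesS_G C i (m + 1) k s) q u =
        -(fderiv ℝ (curvesS_G C j m k s) (C.Tj j q)
          (fderiv ℝ (C.Tj j) q u)) := by
      intro u
      rw [hGeq.fderiv_eq]
      have h1 : HasFDerivAt (curvesS_G C j m k s)
          (fderiv ℝ (curvesS_G C j m k s) (C.Tj j q)) (C.Tj j q) :=
        (hP2.differentiableAt (by norm_num)).hasFDerivAt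
      have h2 : HasFDerivAt (C.Tj j)
          (fderiv ℝ (C.Tj j) q) q :=
        (hcdq.differentiableAt (by norm_num)).hasFDerivAt
      have h3 : HasFDerivAt (fun q' : ℝ × ℝ => -(curvesS_G C j m k s (C.Tj j q')))
          (-((fderiv ℝ (curvesS_G C j m k s) (C.Tj j q)).comp
            (fderiv ℝ (C.Tj j) q))) q :=
        (HasFDerivAt.comp (g := curvesS_G C j m k s)
          (f := C.Tj j) q h1 h2).neg
      rw [h3.fderiv]
      rfl
    set L := fderiv ℝ (curvesS_G C j m k s) (C.Tj j q) with hL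
    have hLdec : ∀ x y : ℝ, L (x, y) = x * L (1, 0) + y * L (0, 1) := by
      intro x y
      have : ((x, y) : ℝ × ℝ) = x • (1, 0) + y • (0, 1) := by
        simp
      rw [this, map_add, map_smul, map_smul, smul_eq_mul, smul_eq_mul]
    set c' := C.cc j (C.Tj j q).1 (C.Tj j q).2 with hc'
    set sp' := C.sp j (C.Tj j q).1 (C.Tj j q).2 with hsp'
    set sm := C.sm j q.1 q.2 with hsm
    have ht := C.htau
    have hd01 := (hder (0, 1) 1 (-(2 / c')) (by simp) (by simp)).1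
    have hd10 := (hder (1, 0) sm (-1 - 2 / c' * sm) (by simp) (by simp)).1
    have hDel : C.tau / 2 * L (0, 1) ≤ L (1, 0) - sp' * L (0, 1) := by linarith
    have hDel0 : 0 < L (1, 0) - sp' * L (0, 1) :=
      lt_of_lt_of_le (mul_pos (by linarith) hP3) hDel
    have hfb : fderiv ℝ (curvesS_G C i (m + 1) k s) q (0, 1) =
        2 / c' * (L (1, 0) - sp' * L (0, 1)) + L (0, 1) := by
      rw [hfd, hd01, hLdec]
      ring
    have hfbpos : 0 < 2 / c' * (L (1, 0) - sp' * L (0, 1)) + L (0, 1) :=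
      add_pos (mul_pos (div_pos two_pos hc'pos) hDel0) hP3
    have hft : fderiv ℝ (curvesS_G C i (m + 1) k s) q (1, 0) =
        sm * (2 / c' * (L (1, 0) - sp' * L (0, 1)) + L (0, 1)) + (L (1, 0) - sp' * L (0, 1)) := by
      rw [hfd, hd10, hLdec]
      ring
    refine ⟨hqr, hcomp.congr_of_eventuallyEq hGeq, ?_, ?_, ?_⟩
    · rw [hfb]; exact hfbpos
    · rw [hfb, hft]
      have h1 : C.sp i q.1 q.2 + C.tau / 2 ≤ sm := by linarith
      have h2 := mul_le_mul_of_nonneg_right h1 hfbpos.le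
      linarith
    · intro h0
      have h1 := hGeq.self_of_nhds
      rw [h0] at h1
      have h2 : curvesS_G C j m k s (C.Tj j q) = 0 := by
        have h3 : (0 : ℝ) = -(curvesS_G C j m k s (C.Tj j q)) := h1
        linarith
      obtain ⟨h3, h4⟩ := hP5 h2
      refine ⟨⟨hqr, ⟨j, hqh⟩, ?_⟩, ?_⟩
      · rw [hqT]; exact h3
      · rw [Function.iterate_succ_apply, hqT]; exact h4

theorem curvesS (C : Cfg n) (i : Fin n) :
    ∃ (W : ℕ → Set (ℝ × ℝ)) (F : ℕ → ℝ × ℝ → ℝ),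
      (∀ l, IsOpen (W l) ∧ W l ⊆ C.U i ∧ ContDiffOn ℝ 1 (F l) (W l) ∧
        (∀ q ∈ W l, 0 < fderiv ℝ (F l) q (0, 1) ∧
          (C.sp i q.1 q.2 + C.tau / 2) * fderiv ℝ (F l) q (0, 1) ≤
            fderiv ℝ (F l) q (1, 0)) ∧
        (∀ q ∈ W l, F l q = 0 → ((i, q) : St n) ∈ C.SS)) ∧
      ∀ q, ((i, q) : St n) ∈ C.SS → ∃ l, q ∈ W l ∧ F l q = 0 := by
  haveI : Nonempty (ℕ × Fin n × Bool) := ⟨(0, i, true)⟩
  obtain ⟨e, he⟩ := exists_surjective_nat (ℕ × Fin n × Bool)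
  refine ⟨fun l => interior {q | curvesS_P C i (e l).1 (e l).2.1 (e l).2.2 q},
    fun l => curvesS_G C i (e l).1 (e l).2.1 (e l).2.2, ?_, ?_⟩
  · intro l
    refine ⟨isOpen_interior, ?_, ?_, ?_, ?_⟩
    · intro q hq
      exact (interior_subset hq).1
    · intro q hq
      exact ((interior_subset hq).2.1).contDiffWithinAt
    · intro q hq
      exact ⟨(interior_subset hq).2.2.1, (interior_subset hq).2.2.2.1⟩
    · intro q hq h0
      obtain ⟨h1, h2⟩ := (interior_subset hq).2.2.2.2 h0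
      exact ⟨_, h1, h2⟩
  · intro q hq
    obtain ⟨m, hm, hS⟩ := hq
    obtain ⟨-, k, hk, hdv, hb⟩ := hS
    obtain ⟨b, hbb⟩ : ∃ b : Bool, ((C.T^[m]) ((i, q) : St n)).2.2 =
        curvesS_bd C k b ((C.T^[m]) ((i, q) : St n)).2.1 := by
      rcases hb with h | h
      · exact ⟨false, by simp [curvesS_bd, h]⟩
      · exact ⟨true, by simp [curvesS_bd, h]⟩
    obtain ⟨l, hl⟩ := he (m, k, b)
    refine ⟨l, ?_, ?_⟩
    · rw [mem_interior_iff_mem_nhds]
      simp only [hl]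
      exact curvesS_main C k b m i q hm hk hdv hbb
    · simp only [hl, curvesS_G]
      rw [hbb, sub_self, mul_zero]

end Pool.LightB
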