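import Pool.Agent.Helper638.LightB.Defs
import Pool.Agent.Helper638.LightB.P_FFd
import Pool.Agent.Helper638.LightB.P_asn_spec
import Pool.Agent.Helper638.LightB.P_asn_cont
import Pool.Agent.Helper638.LightB.P_geo_shift
import Pool.Agent.Helper638.LightB.P_basics
import Pool.Agent.Helper638.LightB.P_rr_facts
import Pool.Agent.Helper638.LightB.P_rr_deriv
import Pool.Agent.Helper638.LightB.P_hits_unique
import Pool.Agent.Helper638.LightB.P_T_of_hits
import Pool.Agent.Helper638.LightB.P_shift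
import Pool.Agent.Helper638.LightB.P_curvesS

set_option autoImplicit false

open MeasureTheory Set Filter Topology

namespace Pool.LightB
variable {n : ℕ}


theorem curvesU_lin (L : ℝ × ℝ →L[ℝ] ℝ) (x y : ℝ) :
    L (x, y) = x * L (1, 0) + y * L (0, 1) := by
  have h : ((x, y) : ℝ × ℝ) = x • ((1 : ℝ), (0 : ℝ)) + y • ((0 : ℝ), (1 : ℝ)) := by
    simp
  rw [h, map_add, map_smul, map_smul, smul_eq_mul, smul_eq_mul]

theorem curvesU_fd (C : Cfg n) (i : Fin n) (F : ℝ × ℝ → ℝ) (p : ℝ × ℝ) (hp : p ∈ C.U i)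
    (hF : DifferentiableAt ℝ F (C.rr i p)) :
    fderiv ℝ (fun q => F (C.rr i q)) p (0, 1) =
      2 / C.cc i p.1 p.2 * (fderiv ℝ F (C.rr i p) (1, 0) -
        C.sp i (C.rr i p).1 (C.rr i p).2 * fderiv ℝ F (C.rr i p) (0, 1)) +
        fderiv ℝ F (C.rr i p) (0, 1) ∧
    fderiv ℝ (fun q => F (C.rr i q)) p (1, 0) =
      -(fderiv ℝ F (C.rr i p) (1, 0) -
        C.sp i (C.rr i p).1 (C.rr i p).2 * fderiv ℝ F (C.rr i p) (0, 1)) +
      C.sp i p.1 p.2 * (2 / C.cc i p.1 p.2 * (fderiv ℝ F (C.rr i p) (1, 0) -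
        C.sp i (C.rr i p).1 (C.rr i p).2 * fderiv ℝ F (C.rr i p) (0, 1)) +
        fderiv ℝ F (C.rr i p) (0, 1)) := by
  obtain ⟨hc, hd⟩ := rr_deriv C i p hp
  have hRd : DifferentiableAt ℝ (C.rr i) p := hc.differentiableAt one_ne_zero
  have h1 : HasFDerivAt (fun q => F (C.rr i q))
      ((fderiv ℝ F (C.rr i p)).comp (fderiv ℝ (C.rr i) p)) p :=
    hF.hasFDerivAt.comp p hRd.hasFDerivAt
  rw [h1.fderiv]
  constructor
  · rw [ContinuousLinearMap.comp_apply, hd (0, 1) 1 (2 / C.cc i p.1 p.2) (by simp) (by simp),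
      curvesU_lin]
    ring
  · rw [ContinuousLinearMap.comp_apply, hd (1, 0) (C.sp i p.1 p.2)
      (-1 + 2 / C.cc i p.1 p.2 * C.sp i p.1 p.2) (by simp) (by simp),
      curvesU_lin]
    ring

theorem curvesU (C : Cfg n) (i : Fin n) :
    ∃ (W : ℕ → Set (ℝ × ℝ)) (F : ℕ → ℝ × ℝ → ℝ),
      (∀ l, IsOpen (W l) ∧ W l ⊆ C.U i ∧ ContDiffOn ℝ 1 (F l) (W l) ∧
        (∀ q ∈ W l, 0 < fderiv ℝ (F l) q (0, 1) ∧
          fderiv ℝ (F l) q (1, 0) ≤ C.sp i q.1 q.2 * fderiv ℝ (F l) q (0, 1)) ∧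
        (∀ q ∈ W l, F l q = 0 → C.rho ((i, q) : St n) ∈ C.SS)) ∧
      ∀ q, q ∈ C.U i → C.rho ((i, q) : St n) ∈ C.SS → ∃ l, q ∈ W l ∧ F l q = 0 := by
  obtain ⟨W, F, hWF, hSS⟩ := curvesS C i
  have hU : IsOpen (C.U i) := (asn_cont C i).2.1
  have hrc : ContinuousOn (C.rr i) (C.U i) := fun p hp =>
    (rr_deriv C i p hp).1.continuousAt.continuousWithinAt
  refine ⟨fun l => C.U i ∩ (C.rr i) ⁻¹' (W l), fun l q => F l (C.rr i q), ?_, ?_⟩
  · intro l
    obtain ⟨hWo, hWs, hFc, hFd, hFz⟩ := hWF l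
    refine ⟨hrc.isOpen_inter_preimage hU hWo, inter_subset_left, ?_, ?_, ?_⟩
    · apply hFc.comp (g := F l)
      · intro q hq
        exact (rr_deriv C i q hq.1).1.contDiffWithinAt
      · intro q hq
        exact hq.2
    · intro q hq
      obtain ⟨hq1, hq2⟩ := hq
      have hd : DifferentiableAt ℝ (F l) (C.rr i q) :=
        (hFc.contDiffAt (hWo.mem_nhds hq2)).differentiableAt one_ne_zero
      obtain ⟨e1, e2⟩ := curvesU_fd C i (F l) q hq1 hd
      obtain ⟨hp1, hp2⟩ := hFd _ hq2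
      have hcpos : 0 < C.cc i q.1 q.2 := ((asn_spec C i q.1 q.2).2.2.2.2.1 hq1).2.2.2
      have htau := C.htau
      show 0 < fderiv ℝ (fun q => F l (C.rr i q)) q (0, 1) ∧
        fderiv ℝ (fun q => F l (C.rr i q)) q (1, 0)
          ≤ C.sp i q.1 q.2 * fderiv ℝ (fun q => F l (C.rr i q)) q (0, 1)
      rw [e1, e2]
      have hg : 0 < fderiv ℝ (F l) (C.rr i q) (1, 0) -
          C.sp i (C.rr i q).1 (C.rr i q).2 * fderiv ℝ (F l) (C.rr i q) (0, 1) := by
        have h3 : 0 < C.tau / 2 * fderiv ℝ (F l) (C.rr i q) (0, 1) :=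
          mul_pos (half_pos htau) hp1
        nlinarith [hp2, h3]
      have h2c : 0 < 2 / C.cc i q.1 q.2 := div_pos two_pos hcpos
      constructor
      · exact add_pos (mul_pos h2c hg) hp1
      · linarith
    · intro q hq hz
      exact hFz _ hq.2 hz
  · intro q hq hS
    obtain ⟨l, hl1, hl2⟩ := hSS (C.rr i q) hS
    exact ⟨l, ⟨hq, hl1⟩, hl2⟩

end Pool.LightB
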