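import Pool.Agent.Helper638.LightB.Defs
import Pool.Agent.Helper638.LightB.P_absThm
import Pool.Agent.Helper638.LightB.P_FFd
import Pool.Agent.Helper638.LightB.P_asn_spec
import Pool.Agent.Helper638.LightB.P_asn_cont
import Pool.Agent.Helper638.LightB.P_geo_shift
import Pool.Agent.Helper638.LightB.P_basics
import Pool.Agent.Helper638.LightB.P_rr_facts
import Pool.Agent.Helper638.LightB.P_hits_unique
import Pool.Agent.Helper638.LightB.P_T_of_hits
import Pool.Agent.Helper638.LightB.P_shift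
import Pool.Agent.Helper638.LightB.P_meas
import Pool.Agent.Helper638.LightB.P_sig_bounds
import Pool.Agent.Helper638.LightB.P_sig_lim
import Pool.Agent.Helper638.LightB.P_Sr_locint
import Pool.Agent.Helper638.LightB.P_nu_facts
import Pool.Agent.Helper638.LightB.P_centralU
import Pool.Agent.Helper638.LightB.P_curvesS
import Pool.Agent.Helper638.LightB.P_curvesU

set_option autoImplicit false

open MeasureTheory Set Filter Topology

namespace Pool.LightB
variable {n : ℕ}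


theorem zfib_gf {f c : ℝ} (hc : 0 ≤ c) (hf : 0 < f) :
    0 ≤ Cfg.gf f c ∧ Cfg.gf f c ≤ c := by
  have h1 : 0 < c + 2 * f := by linarith
  unfold Cfg.gf
  constructor
  · apply div_nonneg (mul_nonneg hc hf.le) h1.le
  · rw [div_le_iff₀ h1]
    nlinarith [mul_nonneg hc hf.le]

theorem zfib_lin (f : ℝ × ℝ →L[ℝ] ℝ) (a : ℝ) : f (1, -a) = f (1, 0) - a * f (0, 1) := by
  have : ((1, -a) : ℝ × ℝ) = (1, 0) + (-a) • (0, 1) := by
    ext <;> simp
  rw [this, map_add, map_smul, smul_eq_mul]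
  ring

theorem zfib_slopes (C : Cfg n) (i : Fin n) (p : ℝ × ℝ) (hp : p ∈ C.U i) :
    C.sp i p.1 p.2 + C.tau ≤ C.sigInf (i, p) ∧ |C.sigInf (i, p)| ≤ C.K ∧
    C.sigU (i, p) ≤ C.sp i p.1 p.2 ∧ |C.sigU (i, p)| ≤ C.K := by
  have hM : ((i, p) : St n) ∈ C.M := hp
  have h1 := (sig_lim C (i, p) hM).1
  have hM2 : C.rho ((i, p) : St n) ∈ C.M := ((shift C 0 (i, p)).2.2.2.2.2.2.2.2.1).1 hM
  have h2 := (sig_lim C _ hM2).1
  obtain ⟨hb1, -, hc0, hcR, -⟩ := basics C i p.1 p.2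
  have ht := C.htau
  have hR1 := C.hR1
  have h3 := abs_le.1 (show |C.sp i p.1 p.2| ≤ C.K - C.R1 - C.tau by linarith)
  have h4 : 0 < C.sigInf (C.rho (i, p)) - C.sp i (C.rho (i, p)).2.1 (C.rho (i, p)).2.2 := by
    have h5 : C.sp i (C.rho (i, p)).2.1 (C.rho (i, p)).2.2 + C.tau ≤ C.sigInf (C.rho (i, p)) :=
      h2.1
    linarith
  have h5 := zfib_gf hc0 h4
  have h6 : C.sigU (i, p) = C.sp i p.1 p.2 -
      Cfg.gf (C.sigInf (C.rho (i, p)) - C.sp i (C.rho (i, p)).2.1 (C.rho (i, p)).2.2)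
        (C.cc i p.1 p.2) := rfl
  have h7 : C.sp i p.1 p.2 + C.tau ≤ C.sigInf (i, p) := h1.1
  refine ⟨h7, abs_le.2 ⟨by linarith [h3.1], h1.2⟩, ?_, abs_le.2 ⟨?_, ?_⟩⟩
  · rw [h6]
    linarith [h5.1]
  · rw [h6]
    linarith [h5.2, h3.1]
  · rw [h6]
    linarith [h5.1, h3.2]

theorem zfib_fin (C : Cfg n) (i : Fin n) (ν : Measure (ℝ × ℝ)) [IsFiniteMeasureOnCompacts ν] :
    IsFiniteMeasureOnCompacts (Measure.map (C.rr i) ν) := by
  refine ⟨fun S hS => ?_⟩
  have hrm : Measurable (C.rr i) := (meas C).2.2.2.2.2.2.2.2.2.2.2.2.2.2 i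
  rw [Measure.map_apply hrm hS.measurableSet]
  obtain ⟨L, hL⟩ := hS.isBounded.exists_norm_le
  have hsub : (C.rr i) ⁻¹' S ⊆
      Icc (-(L + Real.pi)) (L + Real.pi) ×ˢ Icc (-(max C.K L)) (max C.K L) := by
    intro p hp
    have h1 := hL _ hp
    have h2 := (norm_prod_le_iff.1 h1)
    simp only [Real.norm_eq_abs] at h2
    obtain ⟨h3, h4⟩ := h2
    obtain ⟨-, -, -, -, -, h5, h6, -⟩ := rr_facts C i p
    rw [abs_le] at h3
    have h7 : |p.2| ≤ max C.K L := by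
      by_cases hT : C.Tch i p.1 p.2
      · exact ((basics C i p.1 p.2).2.2.2.2.2.2.1 hT).trans (le_max_left _ _)
      · have h8 : C.rr i p = p := by
          unfold Cfg.rr
          rw [if_neg hT]
        rw [h8] at h4
        exact h4.trans (le_max_right _ _)
    refine ⟨⟨?_, ?_⟩, abs_le.1 h7⟩ <;> linarith [h3.1, h3.2]
  refine lt_of_le_of_lt (measure_mono hsub) ?_
  exact (isCompact_Icc.prod isCompact_Icc).measure_lt_top

theorem zfib (C : Cfg n) (i : Fin n) :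
    ∀ᵐ θ : ℝ, ∃ z, ∀ᵐ b ∂(volume.restrict (Ioo (C.lo i θ) (C.hi i θ))), C.Z (i, θ, b) = z := by
  obtain ⟨A, hA, hcen⟩ := centralU C
  obtain ⟨hSm, hS0, hSL, hSR, -⟩ := Sr_locint C A hA i
  obtain ⟨hfin, hnS, hnU⟩ := nu_facts C A hA i
  obtain ⟨WS, FS, hW1, hW2⟩ := curvesS C i
  obtain ⟨WU, FU, hV1, hV2⟩ := curvesU C i
  have hms := meas C
  obtain ⟨-, -, -, -, -, hSSm, hrho, -, -, hsI, hsU, -, hZm, -, hrr⟩ := hms
  have hrm : Measurable (C.rr i) := hrr i
  have hmk : Measurable (fun p : ℝ × ℝ => ((i, p) : St n)) := measurable_prodMk_left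
  have _hfin := hfin
  have _hfin2 := zfib_fin C i (C.nui A i)
  have hνU1 : Measure.map (C.rr i) (C.nui A i)
      {q | ((i, q) : St n) ∈ C.SS} = 0 := by
    have hm1 : MeasurableSet {q : ℝ × ℝ | ((i, q) : St n) ∈ C.SS} := hmk hSSm
    rw [Measure.map_apply hrm hm1]
    exact hnU
  have hνU2 : Measure.map (C.rr i) (C.nui A i)
      {q | C.rho ((i, q) : St n) ∉ C.SS} = 0 := by
    have hm2 : MeasurableSet {q : ℝ × ℝ | C.rho ((i, q) : St n) ∉ C.SS} :=
      ((hrho.comp hmk) hSSm).compl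
    rw [Measure.map_apply hrm hm2]
    refine measure_mono_null ?_ hnS
    intro p hp
    have h1 : C.rho (C.rho ((i, p) : St n)) ∉ C.SS := hp
    rw [(shift C 0 (i, p)).2.2.2.2.2.2.2.1] at h1
    exact h1
  have key := absThm (C.U i) (asn_cont C i).2.1 (C.lo i) (C.hi i) rfl (C.tau / 2) C.K
    (half_pos C.htau)
    (fun p => C.Z (i, p)) (hZm.comp hmk) (fun p => by
      unfold Cfg.Z
      split_ifs
      · exact Or.inr rfl
      · exact Or.inl rfl)
    (fun p => C.sigInf (i, p)) (fun p => C.sigU (i, p)) (hsI.comp hmk) (hsU.comp hmk)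
    (fun p hp => by
      obtain ⟨h1, h2, h3, h4⟩ := zfib_slopes C i p hp
      have := C.htau
      exact ⟨h2, h4, by linarith⟩)
    (fun p => C.Sr A (i, p)) (fun p => C.Sr A (C.rho (i, p)))
    (fun p => hS0 _) (hSm.comp hmk) hSL (fun p => hS0 _) (hSm.comp (hrho.comp hmk)) hSR
    (C.nui A i) (Measure.map (C.rr i) (C.nui A i))
    (fun φ hφ => (hcen i φ hφ).1) (fun φ hφ => (hcen i φ hφ).2)
    WS WU FS FU
    (fun l => by
      obtain ⟨h1, h2, h3, h4, h5⟩ := hW1 l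
      refine ⟨h1, h2, h3, fun q hq => ?_, ?_⟩
      · obtain ⟨h6, h7⟩ := h4 q hq
        refine ⟨h6, ?_⟩
        rw [zfib_lin]
        obtain ⟨k1, k2, k3, k4⟩ := zfib_slopes C i q (h2 hq)
        nlinarith
      · refine measure_mono_null ?_ hνU1
        rintro q ⟨hq1, hq2⟩
        exact h5 q hq1 hq2)
    (fun l => by
      obtain ⟨h1, h2, h3, h4, h5⟩ := hV1 l
      refine ⟨h1, h2, h3, fun q hq => ?_, ?_⟩
      · obtain ⟨h6, h7⟩ := h4 q hq
        refine ⟨h6, ?_⟩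
        rw [zfib_lin]
        obtain ⟨k1, k2, k3, k4⟩ := zfib_slopes C i q (h2 hq)
        have := C.htau
        nlinarith
      · refine measure_mono_null ?_ hnU
        rintro q ⟨hq1, hq2⟩
        exact h5 q hq1 hq2)
    (by
      refine measure_mono_null ?_ hnS
      rintro q ⟨hq1, hq2⟩ hq3
      obtain ⟨l, hl1, hl2⟩ := hW2 q hq3
      exact hq2 (mem_iUnion.2 ⟨l, hl1, hl2⟩))
    (by
      refine measure_mono_null ?_ hνU2
      rintro q ⟨hq1, hq2⟩ hq3
      obtain ⟨l, hl1, hl2⟩ := hV2 q hq1 hq3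
      exact hq2 (mem_iUnion.2 ⟨l, hl1, hl2⟩))
  exact key

end Pool.LightB
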