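import Pool.Agent.Helper638.LightB.Defs
import Pool.Agent.Helper638.LightB.P_FFd
import Pool.Agent.Helper638.LightB.P_asn_spec
import Pool.Agent.Helper638.LightB.P_asn_cont
import Pool.Agent.Helper638.LightB.P_geo_shift
import Pool.Agent.Helper638.LightB.P_onb
import Pool.Agent.Helper638.LightB.P_gap
import Pool.Agent.Helper638.LightB.P_basics
import Pool.Agent.Helper638.LightB.P_hits_unique
import Pool.Agent.Helper638.LightB.P_T_of_hits
import Pool.Agent.Helper638.LightB.P_Tj_facts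
import Pool.Agent.Helper638.LightB.P_isOpen_hits
import Pool.Agent.Helper638.LightB.P_shift
import Pool.Agent.Helper638.LightB.P_om_facts
import Pool.Agent.Helper638.LightB.P_meas
import Pool.Agent.Helper638.LightB.P_volSum
import Pool.Agent.Helper638.LightB.P_invMeas1
import Pool.Agent.Helper638.LightB.P_Tsmooth
import Pool.Agent.Helper638.LightB.P_zconst

set_option autoImplicit false

open MeasureTheory Set Filter Topology

namespace Pool.LightB
variable {n : ℕ}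


theorem hull_Z (C : Cfg n) (l : St n) : C.Z l = 1 ↔ l ∈ C.Trap := by
  unfold Cfg.Z
  split_ifs with h
  · simp [h]
  · simp [h]

theorem hull_p0 (C : Cfg n) (i : Fin n) :
    (0, C.FF i 0 0) ∈ C.U i ∧ C.Tch i 0 (C.FF i 0 0) ∧ C.sp i 0 (C.FF i 0 0) = C.H i 0 := by
  have hpi := Real.pi_pos
  obtain ⟨h1, h2, -⟩ := asn_spec C i 0 (C.FF i 0 0)
  have h3 := h1 0 ⟨by linarith, by linarith⟩ rfl
  refine ⟨h2 0 ⟨by linarith, by linarith⟩, h3.2, ?_⟩
  unfold Cfg.sp
  rw [h3.1]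
  simp

theorem hull_nbhd (C : Cfg n) (J : Finset (Fin n)) (i : Fin n)
    (hmax : ∀ k ∈ J, C.H k 0 ≤ C.H i 0) :
    ∀ᶠ p : ℝ × ℝ in 𝓝 (0, C.FF i 0 0), ∀ k ∈ J, k ≠ i →
      ¬ (0 < C.dv i k p.1 ∧ C.Tch k p.1 p.2) := by
  have key : ∀ k : Fin n, ∀ᶠ p : ℝ × ℝ in 𝓝 (0, C.FF i 0 0), k ∈ J → k ≠ i →
      ¬ (0 < C.dv i k p.1 ∧ C.Tch k p.1 p.2) := by
    intro k
    by_cases hk : k ∈ J ∧ k ≠ i
    · obtain ⟨hkJ, hki⟩ := hk
      have hc1 : Continuous fun p : ℝ × ℝ => C.dv i k p.1 := by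
        unfold Cfg.dv
        fun_prop
      have hcl : IsClosed {p : ℝ × ℝ | 0 ≤ C.dv i k p.1 ∧ C.Tch k p.1 p.2} :=
        (isClosed_le continuous_const hc1).inter (asn_cont C k).2.2.1
      have h0 : ((0, C.FF i 0 0) : ℝ × ℝ) ∉
          {p : ℝ × ℝ | 0 ≤ C.dv i k p.1 ∧ C.Tch k p.1 p.2} := by
        rintro ⟨h1, h2⟩
        obtain ⟨-, h3, h4⟩ := hull_p0 C i
        rcases gap C (Ne.symm hki) h3 h2 with ⟨-, h5⟩ | ⟨h5, -⟩
        · have h6 := (onb C k h2).2.1 0
          have h7 := hmax k hkJ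
          have h8 := C.htau
          simp only [sub_zero, sub_self, Real.sin_zero, Real.cos_zero, mul_zero, mul_one,
            zero_add] at h6
          rw [h4] at h5
          linarith
        · exact absurd h5 (not_lt.2 h1)
      filter_upwards [hcl.isOpen_compl.mem_nhds h0] with p hp _ _ hcon
      exact hp ⟨hcon.1.le, hcon.2⟩
    · exact Filter.Eventually.of_forall fun p h1 h2 => absurd ⟨h1, h2⟩ hk
  have := Filter.eventually_all.2 key
  filter_upwards [this] with p hp k hk hki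
  exact hp k hk hki

theorem hull (C : Cfg n) (i : Fin n) : ∀ᵐ p : ℝ × ℝ, p ∈ C.U i → C.Z (i, p) = 0 := by
  classical
  by_contra hcon
  set J : Finset (Fin n) := Finset.univ.filter
    (fun i => ∀ᵐ p : ℝ × ℝ, p ∈ C.U i → C.Z (i, p) = 1) with hJ
  have hiJ : i ∈ J := by
    rw [hJ, Finset.mem_filter]
    exact ⟨Finset.mem_univ _, (zconst C i).resolve_left hcon⟩
  obtain ⟨i0, hi0, hmax⟩ := Finset.exists_max_image J (fun k => C.H k 0) ⟨i, hiJ⟩
  have hZ1 : ∀ᵐ p : ℝ × ℝ, p ∈ C.U i0 → C.Z (i0, p) = 1 := (Finset.mem_filter.1 hi0).2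
  -- a trapped point near the origin
  have hV := hull_nbhd C J i0 hmax
  have hV2 : ∀ᶠ p : ℝ × ℝ in 𝓝 (0, C.FF i0 0 0), p ∈ C.U i0 :=
    (asn_cont C i0).2.1.mem_nhds (hull_p0 C i0).1
  obtain ⟨q, ⟨hq1, hq2⟩, hq3⟩ : ∃ q : ℝ × ℝ, ((∀ k ∈ J, k ≠ i0 →
      ¬ (0 < C.dv i0 k q.1 ∧ C.Tch k q.1 q.2)) ∧ q ∈ C.U i0) ∧
      (q ∈ C.U i0 → C.Z (i0, q) = 1) := by
    have hmem := hV.and hV2
    obtain ⟨W, hW1, hW2, hW3⟩ := mem_nhds_iff.1 hmem
    have hpos : 0 < volume W := hW2.measure_pos volume ⟨_, hW3⟩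
    have hfreq : ∃ᵐ p : ℝ × ℝ ∂(volume : Measure (ℝ × ℝ)), p ∈ W := by
      rw [frequently_ae_mem_iff]
      exact hpos.ne'
    obtain ⟨q, hq, hq'⟩ := (hfreq.and_eventually hZ1).exists
    exact ⟨q, hW1 hq, hq'⟩
  have hqT : ((i0, q) : St n) ∈ C.Trap := (hull_Z C _).1 (hq3 hq2)
  obtain ⟨-, ⟨j, hj⟩, -⟩ := hqT 1
  have hj' : C.Hits i0 j q.1 q.2 := hj
  have hjJ : j ∉ J := by
    intro h
    exact hq1 j h hj'.1.symm ⟨hj'.2.1, hj'.2.2.1.1.le, hj'.2.2.1.2.le⟩
  have hZ0 : ∀ᵐ p : ℝ × ℝ, p ∈ C.U j → C.Z (j, p) = 0 := by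
    rcases zconst C j with h | h
    · exact h
    · exact absurd (show j ∈ J by rw [hJ, Finset.mem_filter]; exact ⟨Finset.mem_univ _, h⟩) hjJ
  have hmeas := meas C
  obtain ⟨hTm, hOm, -, -, -, -, -, -, -, -, -, -, hZm, -, -⟩ := hmeas
  set V' : Set (ℝ × ℝ) := {p | p ∈ C.U i0 ∧ C.Hits i0 j p.1 p.2} with hV'
  have hV'o : IsOpen V' := isOpen_hits C i0 j
  have hV'pos : 0 < volume V' := hV'o.measure_pos volume ⟨q, hq2, hj'⟩
  let N : Set (St n) := {l | l.1 = j ∧ l.2 ∈ C.U j ∧ C.Z l = 1}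
  have hNm : MeasurableSet N := by
    have h1 : MeasurableSet {l : St n | l.1 = j} := measurable_fst (measurableSet_singleton j)
    have h2 : MeasurableSet {l : St n | l.2 ∈ C.U j} :=
      measurable_snd (asn_cont C j).2.1.measurableSet
    have h3 : MeasurableSet {l : St n | C.Z l = 1} := hZm (measurableSet_singleton 1)
    exact h1.inter (h2.inter h3)
  let g : St n → ENNReal := N.indicator (fun _ => 1)
  have hgm : Measurable g := measurable_const.indicator hNm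
  have hle := invMeas1 C g hgm
  have hzero : ∫⁻ l, g l ∂(Cfg.vol n) = 0 := by
    rw [volSum g hgm]
    refine Finset.sum_eq_zero fun k _ => ?_
    have hm : Measurable (fun p : ℝ × ℝ => g (k, p)) := hgm.comp measurable_prodMk_left
    refine (lintegral_eq_zero_iff hm).2 ?_
    by_cases hkj : k = j
    · subst hkj
      filter_upwards [hZ0] with p hp
      refine Set.indicator_of_notMem ?_ _
      rintro ⟨-, h1, h2⟩
      rw [hp h1] at h2
      exact zero_ne_one h2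
    · refine Filter.Eventually.of_forall fun p => ?_
      refine Set.indicator_of_notMem ?_ _
      rintro ⟨h1, -⟩
      exact hkj h1
  have hleft : ∫⁻ l in C.Om 1, g (C.T l) ∂(Cfg.vol n) = 0 := by
    refine le_antisymm (hle.trans ?_) bot_le
    rw [← hzero]
    exact setLIntegral_le_lintegral _ _
  rw [← lintegral_indicator (hOm 1)] at hleft
  have hgm2 : Measurable ((C.Om 1).indicator fun l => g (C.T l)) :=
    (hgm.comp hTm).indicator (hOm 1)
  rw [volSum _ hgm2, Finset.sum_eq_zero_iff] at hleft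
  have h0 := hleft i0 (Finset.mem_univ _)
  have hge : volume V' ≤ ∫⁻ p : ℝ × ℝ, ((C.Om 1).indicator fun l => g (C.T l)) (i0, p) := by
    rw [← lintegral_indicator_one hV'o.measurableSet]
    refine lintegral_mono_ae ?_
    filter_upwards [hZ1] with p hp
    by_cases hpV : p ∈ V'
    · have hpT : ((i0, p) : St n) ∈ C.Trap := (hull_Z C _).1 (hp hpV.1)
      have hTT : C.T (i0, p) ∈ C.Trap := (om_facts C 0).2.2.2.2 _ hpT
      have hTe : C.T (i0, p) = (j, C.Tj j p) := T_of_hits C hpV.2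
      have hTM : C.T (i0, p) ∈ C.M := hTT 0
      have hN : C.T (i0, p) ∈ N := by
        refine ⟨by rw [hTe], ?_, (hull_Z C _).2 hTT⟩
        rw [hTe] at hTM ⊢
        exact hTM
      rw [Set.indicator_of_mem hpV, Set.indicator_of_mem (hpT 1)]
      change (1 : ℝ × ℝ → ENNReal) p ≤ N.indicator (fun _ => 1) (C.T (i0, p))
      rw [Set.indicator_of_mem hN]
      rfl
    · rw [Set.indicator_of_notMem hpV]
      exact bot_le
  rw [h0] at hge
  exact absurd hge (not_le.2 hV'pos)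

end Pool.LightB
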