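import Pool.Agent.Helper638.LightB.Defs
import Pool.Agent.Helper638.LightB.P_FFd
import Pool.Agent.Helper638.LightB.P_asn_spec
import Pool.Agent.Helper638.LightB.P_asn_cont
import Pool.Agent.Helper638.LightB.P_geo_shift
import Pool.Agent.Helper638.LightB.P_gap
import Pool.Agent.Helper638.LightB.P_basics
import Pool.Agent.Helper638.LightB.P_hits_unique
import Pool.Agent.Helper638.LightB.P_T_of_hits
import Pool.Agent.Helper638.LightB.P_Tj_facts
import Pool.Agent.Helper638.LightB.P_Tj_deriv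
import Pool.Agent.Helper638.LightB.P_isOpen_hits
import Pool.Agent.Helper638.LightB.P_om_facts
import Pool.Agent.Helper638.LightB.P_Tsmooth
import Pool.Agent.Helper638.LightB.P_zeros_countable

set_option autoImplicit false

open MeasureTheory Set Filter Topology

namespace Pool.LightB
variable {n : ℕ}


theorem transv_cont (C : Cfg n) {i : Fin n} {O : Set ℝ} {th b th' b' : ℝ → ℝ}
    (h : ∀ s ∈ O, HasDerivAt th (th' s) s ∧ HasDerivAt b (b' s) s ∧ (th s, b s) ∈ C.U i ∧
      UC (th' s) (b' s + C.sp i (th s) (b s) * th' s)) {s : ℝ} (hs : s ∈ O) :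
    ContinuousAt (fun s => (th s, b s)) s :=
  (h s hs).1.continuousAt.prodMk (h s hs).2.1.continuousAt

theorem transv_uc {p β d : ℝ} (h : UC p β) (hd : 0 < d) : β + d * p ≠ 0 := by
  intro h0
  have hβ : β = -(d * p) := by linarith
  have h1 := h.2
  rw [hβ] at h1
  have h2 : d * p ^ 2 ≤ 0 := by nlinarith
  have h3 : 0 ≤ d * p ^ 2 := mul_nonneg hd.le (sq_nonneg p)
  have h4 : d * p ^ 2 = 0 := le_antisymm h2 h3
  have h5 : p = 0 := by
    rcases mul_eq_zero.mp h4 with h6 | h6
    · exact absurd h6 hd.ne'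
    · exact pow_eq_zero_iff (two_ne_zero) |>.mp h6
  apply h.1
  rw [hβ, h5]
  ring

theorem transv_step {p β d c : ℝ} (h : UC p β) (hd : 0 < d) (hc : 0 < c) :
    UC (-p - 2 / c * (β + d * p)) (-(β + d * p)) := by
  refine ⟨neg_ne_zero.mpr (transv_uc h hd), ?_⟩
  have h1 := h.2
  have h2 : 0 ≤ d * p ^ 2 := mul_nonneg hd.le (sq_nonneg p)
  have h3 : 0 ≤ 2 / c * (β + d * p) ^ 2 := mul_nonneg (by positivity) (sq_nonneg _)
  nlinarith

theorem transv_aux (C : Cfg n) (m : ℕ) : ∀ (i : Fin n) (O : Set ℝ) (_ : IsOpen O)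
    (th b th' b' : ℝ → ℝ)
    (_ : ∀ s ∈ O, HasDerivAt th (th' s) s ∧ HasDerivAt b (b' s) s ∧ (th s, b s) ∈ C.U i ∧
      UC (th' s) (b' s + C.sp i (th s) (b s) * th' s)),
    {s | s ∈ O ∧ ((i, th s, b s) : St n) ∈ C.Om m ∧
      (C.T^[m]) ((i, th s, b s) : St n) ∈ C.S1}.Countable := by
  induction m with
  | zero =>
    intro i O hO th b th' b' h
    have key : ∀ k : Fin n, ∀ F : ℝ → ℝ, (∀ θ, HasDerivAt F (-C.sp k θ (F θ)) θ ∧
          C.sm k θ (F θ) = C.sp k θ (F θ) ∧ C.Tch k θ (F θ)) → k ≠ i →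
        {s | s ∈ {s | s ∈ O ∧ 0 < C.dv i k (th s)} ∧ b s - F (th s) = 0}.Countable := by
      intro k F hF hki
      apply zeros_countable _ _ _
        (fun s => b' s - -C.sp k (th s) (F (th s)) * th' s)
      · intro s hs
        exact (h s hs.1).2.1.sub ((hF (th s)).1.comp s (h s hs.1).1)
      · intro s hs hz
        have hU := (h s hs.1).2.2.1
        have hbF : b s = F (th s) := by linarith
        obtain ⟨hF1, hF2, hF3⟩ := hF (th s)
        have htk : C.Tch k (th s) (b s) := by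
          rw [hbF]
          exact hF3
        have hti : C.Tch i (th s) (b s) := ((asn_spec C i (th s) (b s)).2.2.2.2.1 hU).2.1
        have hg : C.sp i (th s) (b s) + C.tau ≤ C.sm k (th s) (b s) := by
          rcases gap C hki.symm hti htk with h1 | h1
          · exact h1.2
          · exact absurd hs.2 (not_lt.mpr h1.1.le)
        have hd : 0 < C.sm k (th s) (b s) - C.sp i (th s) (b s) := by
          have := C.htau
          linarith
        have hne := transv_uc (h s hs.1).2.2.2 hd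
        intro h0
        apply hne
        have e1 : C.sm k (th s) (b s) = C.sp k (th s) (F (th s)) := by
          rw [hbF, hF2]
        rw [e1]
        linear_combination h0
      · rw [isOpen_iff_mem_nhds]
        intro s hs
        have h1 : Continuous (fun θ => C.dv i k θ) := by
          unfold Cfg.dv
          fun_prop
        have h2 : ContinuousAt (fun s => C.dv i k (th s)) s :=
          ContinuousAt.comp (f := th) (g := fun t => C.dv i k t) h1.continuousAt
            (h s hs.1).1.continuousAt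
        have h3 := h2.eventually (lt_mem_nhds hs.2)
        filter_upwards [hO.mem_nhds hs.1, h3] with x hx1 hx2
        exact ⟨hx1, hx2⟩
    have hhi : ∀ k θ, HasDerivAt (C.hi k) (-C.sp k θ (C.hi k θ)) θ ∧
        C.sm k θ (C.hi k θ) = C.sp k θ (C.hi k θ) ∧ C.Tch k θ (C.hi k θ) := by
      intro k θ
      obtain ⟨_, _, _, _, _, _, _, h1, _, h2, _, h3, _⟩ := basics C k θ 0
      exact ⟨h1, h2, h3⟩
    have hlo : ∀ k θ, HasDerivAt (C.lo k) (-C.sp k θ (C.lo k θ)) θ ∧
        C.sm k θ (C.lo k θ) = C.sp k θ (C.lo k θ) ∧ C.Tch k θ (C.lo k θ) := by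
      intro k θ
      obtain ⟨_, _, _, _, _, _, _, _, h1, _, h2, _, h3, _⟩ := basics C k θ 0
      exact ⟨h1, h2, h3⟩
    apply Set.Countable.mono (s₂ := ⋃ k : Fin n, ⋃ (_ : k ≠ i),
      ({s | s ∈ {s | s ∈ O ∧ 0 < C.dv i k (th s)} ∧ b s - C.lo k (th s) = 0} ∪
       {s | s ∈ {s | s ∈ O ∧ 0 < C.dv i k (th s)} ∧ b s - C.hi k (th s) = 0}))
    · rintro s ⟨hs, _, _, k, hki, hdv, hbp⟩
      simp only [Function.iterate_zero, id] at hki hdv hbp
      simp only [Set.mem_iUnion]
      refine ⟨k, hki, ?_⟩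
      rcases hbp with h1 | h1
      · left
        exact ⟨⟨hs, hdv⟩, sub_eq_zero.mpr h1⟩
      · right
        exact ⟨⟨hs, hdv⟩, sub_eq_zero.mpr h1⟩
    · apply Set.countable_iUnion
      intro k
      apply Set.countable_iUnion
      intro hki
      exact (key k (C.lo k) (hlo k) hki).union (key k (C.hi k) (hhi k) hki)
  | succ m ih =>
    intro i O hO th b th' b' h
    have hopen : ∀ j : Fin n, IsOpen {s | s ∈ O ∧ C.Hits i j (th s) (b s)} := by
      intro j
      rw [isOpen_iff_mem_nhds]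
      rintro s ⟨hs, hh⟩
      have h1 := (isOpen_hits C i j).mem_nhds (x := (th s, b s)) ⟨(h s hs).2.2.1, hh⟩
      have h2 := (transv_cont C h hs).eventually h1
      filter_upwards [hO.mem_nhds hs, h2] with x hx1 hx2
      exact ⟨hx1, hx2.2⟩
    have key : ∀ j : Fin n, {s | s ∈ {s | s ∈ O ∧ C.Hits i j (th s) (b s)} ∧
        ((j, (C.Tj j (th s, b s)).1, (C.Tj j (th s, b s)).2) : St n) ∈ C.Om m ∧
        (C.T^[m]) ((j, (C.Tj j (th s, b s)).1, (C.Tj j (th s, b s)).2) : St n) ∈
          C.S1}.Countable := by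
      intro j
      apply ih j _ (hopen j) _ _
        (fun s => -th' s - 2 / C.cc j (C.Tj j (th s, b s)).1 (C.Tj j (th s, b s)).2 *
          (b' s + C.sm j (th s) (b s) * th' s))
        (fun s => -(b' s + C.sm j (th s) (b s) * th' s) -
          C.sp j (C.Tj j (th s, b s)).1 (C.Tj j (th s, b s)).2 *
          (-th' s - 2 / C.cc j (C.Tj j (th s, b s)).1 (C.Tj j (th s, b s)).2 *
            (b' s + C.sm j (th s) (b s) * th' s)))
      rintro s ⟨hs, hh⟩
      have hU := (h s hs).2.2.1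
      obtain ⟨_, hUj, _, hg⟩ := Tsmooth C (p := (th s, b s)) hU hh
      obtain ⟨hT1, _, hT2⟩ := Tj_deriv C j (th s, b s) hUj
      obtain ⟨hTf1, _, _, _, _, _, _, hTf8⟩ := Tj_facts C j (th s, b s) hUj
      have hcurve : HasDerivAt (fun s => (th s, b s)) (th' s, b' s) s :=
        (h s hs).1.prodMk (h s hs).2.1
      have hF := (hT1.differentiableAt (by norm_num)).hasFDerivAt
      have hcomp := HasFDerivAt.comp_hasDerivAt (f := fun s => (th s, b s)) s hF hcurve
      rw [(hT2 (th' s, b' s) _ _ rfl rfl).1] at hcomp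
      have hfst := (ContinuousLinearMap.fst ℝ ℝ ℝ).hasFDerivAt.comp_hasDerivAt s hcomp
      have hsnd := (ContinuousLinearMap.snd ℝ ℝ ℝ).hasFDerivAt.comp_hasDerivAt s hcomp
      refine ⟨hfst, hsnd, hTf1, ?_⟩
      have hd : 0 < C.sm j (th s) (b s) - C.sp i (th s) (b s) := by
        have := C.htau
        simp only at hg
        linarith
      have hst := transv_step (h s hs).2.2.2 hd hTf8
      have e1 : b' s + C.sp i (th s) (b s) * th' s +
          (C.sm j (th s) (b s) - C.sp i (th s) (b s)) * th' s =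
          b' s + C.sm j (th s) (b s) * th' s := by ring
      rw [e1] at hst
      have e2 : ∀ B S P : ℝ, -B - S * P + S * P = -B := by
        intro B S P
        ring
      simp only [e2]
      exact hst
    apply Set.Countable.mono (s₂ := ⋃ j : Fin n, {s | s ∈ {s | s ∈ O ∧ C.Hits i j (th s) (b s)} ∧
        ((j, (C.Tj j (th s, b s)).1, (C.Tj j (th s, b s)).2) : St n) ∈ C.Om m ∧
        (C.T^[m]) ((j, (C.Tj j (th s, b s)).1, (C.Tj j (th s, b s)).2) : St n) ∈ C.S1})
    · rintro s ⟨hs, ⟨_, ⟨j, hj⟩, hOm⟩, hS1⟩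
      rw [Set.mem_iUnion]
      have hT := T_of_hits C hj
      refine ⟨j, ⟨hs, hj⟩, ?_, ?_⟩
      · rw [hT] at hOm
        exact hOm
      · rw [Function.iterate_succ_apply, hT] at hS1
        exact hS1
    · exact Set.countable_iUnion key

/-- an unstable curve meets the singular set in a countable set. -/
theorem transv (C : Cfg n) (i : Fin n) (O : Set ℝ) (hO : IsOpen O) (th b th' b' : ℝ → ℝ)
    (h : ∀ s ∈ O, HasDerivAt th (th' s) s ∧ HasDerivAt b (b' s) s ∧ (th s, b s) ∈ C.U i ∧
      UC (th' s) (b' s + C.sp i (th s) (b s) * th' s)) :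
    {s | s ∈ O ∧ ((i, th s, b s) : St n) ∈ C.SS}.Countable := by
  apply Set.Countable.mono (s₂ := ⋃ m : ℕ, {s | s ∈ O ∧ ((i, th s, b s) : St n) ∈ C.Om m ∧
      (C.T^[m]) ((i, th s, b s) : St n) ∈ C.S1})
  · rintro s ⟨hs, m, h1, h2⟩
    exact Set.mem_iUnion.2 ⟨m, hs, h1, h2⟩
  · exact Set.countable_iUnion (fun m => transv_aux C m i O hO th b th' b' h)

end Pool.LightB
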