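import Pool.Agent.Helper638.LightB.Defs
import Pool.Agent.Helper638.LightB.P_FFd
import Pool.Agent.Helper638.LightB.P_asn_spec
import Pool.Agent.Helper638.LightB.P_asn_cont
import Pool.Agent.Helper638.LightB.P_geo_shift
import Pool.Agent.Helper638.LightB.P_basics
import Pool.Agent.Helper638.LightB.P_rr_facts
import Pool.Agent.Helper638.LightB.P_hits_unique
import Pool.Agent.Helper638.LightB.P_T_of_hits
import Pool.Agent.Helper638.LightB.P_shift
import Pool.Agent.Helper638.LightB.P_om_facts
import Pool.Agent.Helper638.LightB.P_reversal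
import Pool.Agent.Helper638.LightB.P_meas
import Pool.Agent.Helper638.LightB.P_transv
import Pool.Agent.Helper638.LightB.P_tang_null
import Pool.Agent.Helper638.LightB.P_nu_facts

set_option autoImplicit false

open MeasureTheory Set Filter Topology

namespace Pool.LightB
variable {n : ℕ}


theorem nu_curve_tang_meas (C : Cfg n) (i k : Fin n) (s : Bool) :
    Measurable (fun θ => C.tang i k s θ) := by
  have hlo : Measurable (C.lo k) := (asn_cont C k).2.2.2.1.measurable
  have hhi : Measurable (C.hi k) := (asn_cont C k).2.2.2.2.1.measurable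
  unfold Cfg.tang
  cases s
  · simp only [Bool.false_eq_true, if_false]
    exact measurable_const.prodMk (measurable_id.prodMk hlo)
  · simp only [if_true]
    exact measurable_const.prodMk (measurable_id.prodMk hhi)

theorem nu_curve_map_null (C : Cfg n) (m : ℕ) (i k : Fin n) (s : Bool) (x : St n) :
    Measure.map (fun θ => C.inv m (C.tang i k s θ)) (volume.restrict (C.nuSet m i k s)) {x} = 0 := by
  have hf : Measurable (fun θ => C.inv m (C.tang i k s θ)) :=
    ((meas C).2.2.2.2.2.2.2.1 m).comp (nu_curve_tang_meas C i k s)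
  rw [Measure.map_apply hf (measurableSet_singleton x),
    Measure.restrict_apply (hf (measurableSet_singleton x))]
  have hs : ((fun θ => C.inv m (C.tang i k s θ)) ⁻¹' {x} ∩ C.nuSet m i k s).Subsingleton := by
    have key : ∀ θ ∈ ((fun θ => C.inv m (C.tang i k s θ)) ⁻¹' {x} ∩ C.nuSet m i k s),
        θ = ((C.T^[m]) x).2.1 := by
      intro θ hθ
      obtain ⟨h1, h2⟩ := hθ
      have h1' : C.inv m (C.tang i k s θ) = x := h1
      have h2' : k ≠ i ∧ 0 < C.dv i k θ ∧ C.tang i k s θ ∈ C.M ∧
        C.rho (C.tang i k s θ) ∈ C.Om m := h2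
      have h3 := ((reversal C m).2 (C.tang i k s θ) h2'.2.2.2 h2'.2.2.1).2
      rw [h1'] at h3
      rw [h3]
      rfl
    intro a ha b hb
    rw [key a ha, key b hb]
  exact hs.measure_zero _

theorem nu_curve_point (C : Cfg n) (A : ℝ) (i : Fin n) (p : ℝ × ℝ) :
    C.nui A i {p} = 0 := by
  have h1 : C.nui A i {p} = C.nu A ((fun p : ℝ × ℝ => ((i, p) : St n)) '' {p}) := by
    unfold Cfg.nui
    exact MeasurableEmbedding.comap_apply (measurableEmbedding_prodMk_left i) _ _
  rw [h1, Set.image_singleton]
  unfold Cfg.nu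
  rw [Measure.sum_apply _ (measurableSet_singleton _)]
  simp only [ENNReal.tsum_eq_zero]
  intro m
  rw [Measure.smul_apply]
  have h2 : C.num m {((i, p) : St n)} = 0 := by
    unfold Cfg.num
    simp only [Measure.coe_finsetSum, Finset.sum_apply, Measure.add_apply,
      nu_curve_map_null, add_zero, Finset.sum_const_zero]
  rw [h2, smul_zero]

/-- unstable curves are null for the singular measure. -/
theorem nu_curve (C : Cfg n) (A : ℝ) (hA : 0 < A) (i : Fin n) (O : Set ℝ) (hO : IsOpen O)
    (th b th' b' : ℝ → ℝ)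
    (h : ∀ s ∈ O, HasDerivAt th (th' s) s ∧ HasDerivAt b (b' s) s ∧ (th s, b s) ∈ C.U i ∧
      UC (th' s) (b' s + C.sp i (th s) (b s) * th' s)) :
    C.nui A i {p | ∃ s ∈ O, p = (th s, b s)} = 0 := by
  have hc := transv C i O hO th b th' b' h
  have hc2 : ((fun s => (th s, b s)) '' {s | s ∈ O ∧ ((i, th s, b s) : St n) ∈ C.SS}).Countable :=
    hc.image _
  have h0 : C.nui A i ((fun s => (th s, b s)) '' {s | s ∈ O ∧ ((i, th s, b s) : St n) ∈ C.SS}) = 0 := by
    rw [← Set.biUnion_of_singleton
      ((fun s => (th s, b s)) '' {s | s ∈ O ∧ ((i, th s, b s) : St n) ∈ C.SS})]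
    rw [measure_biUnion_null_iff hc2]
    intro p _
    exact nu_curve_point C A i p
  refine measure_mono_null ?_ (measure_union_null (nu_facts C A hA i).2.1 h0)
  intro p hp
  obtain ⟨s, hs, rfl⟩ := hp
  by_cases hS : ((i, th s, b s) : St n) ∈ C.SS
  · right
    exact ⟨s, ⟨hs, hS⟩, rfl⟩
  · left
    exact hS

end Pool.LightB
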