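import Pool.Agent.Helper638.LightB.Defs
import Pool.Agent.Helper638.LightB.P_FFd
import Pool.Agent.Helper638.LightB.P_asn_spec
import Pool.Agent.Helper638.LightB.P_asn_cont
import Pool.Agent.Helper638.LightB.P_geo_shift
import Pool.Agent.Helper638.LightB.P_onb
import Pool.Agent.Helper638.LightB.P_basics
import Pool.Agent.Helper638.LightB.P_XDefs

set_option autoImplicit false

open MeasureTheory Set Filter Topology

namespace Pool.LightB
variable {n : ℕ}


/-- a point outside of a body is before the entry point or after the exit point. -/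
theorem xline (C : Cfg n) (x : ℝ × ℝ) (k : Fin n)
    (hx : ∃ ω, C.H k ω < x.1 * Real.cos ω + x.2 * Real.sin ω) (θ : ℝ)
    (h : C.Tch k θ (bx x θ)) :
    sx x θ < C.sm k θ (bx x θ) ∨ C.sp k θ (bx x θ) < sx x θ := by
  obtain ⟨ω, hω⟩ := hx
  by_contra hcon
  push Not at hcon
  obtain ⟨h1, h2⟩ := hcon
  obtain ⟨ha, hb, -, -⟩ := onb C k h
  have ha := ha ω
  have hb := hb ω
  have key : bx x θ * Real.sin (ω - θ) + sx x θ * Real.cos (ω - θ) =
      x.1 * Real.cos ω + x.2 * Real.sin ω := by
    have e1 : Real.cos ω = Real.cos (ω - θ) * Real.cos θ - Real.sin (ω - θ) * Real.sin θ := by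
      rw [← Real.cos_add, sub_add_cancel]
    have e2 : Real.sin ω = Real.sin (ω - θ) * Real.cos θ + Real.cos (ω - θ) * Real.sin θ := by
      rw [← Real.sin_add, sub_add_cancel]
    rw [e1, e2]
    unfold bx sx
    ring
  have hle : bx x θ * Real.sin (ω - θ) + sx x θ * Real.cos (ω - θ) ≤ C.H k ω := by
    rcases le_total 0 (Real.cos (ω - θ)) with hc | hc
    · have := mul_le_mul_of_nonneg_right h2 hc
      linarith
    · have := mul_le_mul_of_nonpos_right h1 hc
      linarith
  linarith

end Pool.LightB
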