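import Pool.Agent.Helper638.LightB.Defs
import Pool.Agent.Helper638.LightB.P_FFd
import Pool.Agent.Helper638.LightB.P_asn_spec
import Pool.Agent.Helper638.LightB.P_asn_cont
import Pool.Agent.Helper638.LightB.P_geo_shift
import Pool.Agent.Helper638.LightB.P_basics
import Pool.Agent.Helper638.LightB.P_zeros_countable
import Pool.Agent.Helper638.LightB.P_XDefs
import Pool.Agent.Helper638.LightB.P_xline

set_option autoImplicit false

open MeasureTheory Set Filter Topology

namespace Pool.LightB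
variable {n : ℕ}


theorem xgeneric_deriv (x : ℝ × ℝ) (θ : ℝ) : HasDerivAt (bx x) (-sx x θ) θ := by
  have h := ((Real.hasDerivAt_cos θ).const_mul x.2).sub ((Real.hasDerivAt_sin θ).const_mul x.1)
  refine h.congr_deriv ?_
  unfold sx
  ring

theorem xgeneric_hi (C : Cfg n) (x : ℝ × ℝ) (hx : OutX C x) (k : Fin n) :
    {θ : ℝ | bx x θ = C.hi k θ}.Countable := by
  have h := zeros_countable Set.univ isOpen_univ (fun θ => bx x θ - C.hi k θ)
    (fun θ => -sx x θ - (-C.sp k θ (C.hi k θ)))
    (fun θ _ => (xgeneric_deriv x θ).sub (basics C k θ 0).2.2.2.2.2.2.2.1)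
    (fun θ _ h0 => by
      have e : bx x θ = C.hi k θ := sub_eq_zero.1 h0
      obtain ⟨_, _, _, _, _, _, _, _, _, b1, _, b2, _⟩ := basics C k θ 0
      have h1 := xline C x k (hx k) θ (by rw [e]; exact b2)
      rw [e, b1] at h1
      intro h2
      have h3 : C.sp k θ (C.hi k θ) = sx x θ := by linarith
      rcases h1 with h1 | h1
      · linarith
      · linarith)
  refine h.mono ?_
  intro θ hθ
  exact ⟨Set.mem_univ _, sub_eq_zero.2 hθ⟩

theorem xgeneric_lo (C : Cfg n) (x : ℝ × ℝ) (hx : OutX C x) (k : Fin n) :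
    {θ : ℝ | bx x θ = C.lo k θ}.Countable := by
  have h := zeros_countable Set.univ isOpen_univ (fun θ => bx x θ - C.lo k θ)
    (fun θ => -sx x θ - (-C.sp k θ (C.lo k θ)))
    (fun θ _ => (xgeneric_deriv x θ).sub (basics C k θ 0).2.2.2.2.2.2.2.2.1)
    (fun θ _ h0 => by
      have e : bx x θ = C.lo k θ := sub_eq_zero.1 h0
      obtain ⟨_, _, _, _, _, _, _, _, _, _, b1, _, b2, _⟩ := basics C k θ 0
      have h1 := xline C x k (hx k) θ (by rw [e]; exact b2)
      rw [e, b1] at h1
      intro h2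
      have h3 : C.sp k θ (C.lo k θ) = sx x θ := by linarith
      rcases h1 with h1 | h1
      · linarith
      · linarith)
  refine h.mono ?_
  intro θ hθ
  exact ⟨Set.mem_univ _, sub_eq_zero.2 hθ⟩

/-- for all but countably many directions the line through `x` is tangent to no body. -/
theorem xgeneric (C : Cfg n) (x : ℝ × ℝ) (hx : OutX C x) :
    {θ : ℝ | ∃ k, bx x θ = C.lo k θ ∨ bx x θ = C.hi k θ}.Countable := by
  have h : {θ : ℝ | ∃ k, bx x θ = C.lo k θ ∨ bx x θ = C.hi k θ} ⊆
      ⋃ k : Fin n, ({θ : ℝ | bx x θ = C.lo k θ} ∪ {θ : ℝ | bx x θ = C.hi k θ}) := by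
    rintro θ ⟨k, hk⟩
    rw [Set.mem_iUnion]
    exact ⟨k, hk⟩
  exact (Set.countable_iUnion fun k => (xgeneric_lo C x hx k).union (xgeneric_hi C x hx k)).mono h

end Pool.LightB
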