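import Pool.Agent.Helper638.LightB.Defs
import Pool.Agent.Helper638.LightB.P_FFd
import Pool.Agent.Helper638.LightB.P_asn_spec
import Pool.Agent.Helper638.LightB.P_asn_cont
import Pool.Agent.Helper638.LightB.P_geo_shift
import Pool.Agent.Helper638.LightB.P_onb
import Pool.Agent.Helper638.LightB.P_gap
import Pool.Agent.Helper638.LightB.P_basics
import Pool.Agent.Helper638.LightB.P_XDefs
import Pool.Agent.Helper638.LightB.P_xline

set_option autoImplicit false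

open MeasureTheory Set Filter Topology

namespace Pool.LightB
variable {n : ℕ}


/-- a generic direction escapes or hits some body first, and then so do the nearby directions. -/
theorem xhits (C : Cfg n) (x : ℝ × ℝ) (hx : OutX C x) (θ₀ : ℝ)
    (hg : ∀ k, bx x θ₀ ≠ C.lo k θ₀ ∧ bx x θ₀ ≠ C.hi k θ₀) :
    (∀ k, C.Tch k θ₀ (bx x θ₀) → ¬ sx x θ₀ < C.sm k θ₀ (bx x θ₀)) ∨
    ∃ j, ∀ᶠ θ in 𝓝 θ₀, HitsX C x j θ := by
  classical
  by_cases hF : ∀ k, C.Tch k θ₀ (bx x θ₀) → ¬ sx x θ₀ < C.sm k θ₀ (bx x θ₀)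
  · exact Or.inl hF
  right
  push Not at hF
  obtain ⟨k0, hk0, hk0'⟩ := hF
  obtain ⟨j, hjF, hjmin⟩ := Finset.exists_min_image
    (Finset.univ.filter fun k => C.Tch k θ₀ (bx x θ₀) ∧ sx x θ₀ < C.sm k θ₀ (bx x θ₀))
    (fun k => C.sm k θ₀ (bx x θ₀)) ⟨k0, by simp [hk0, hk0']⟩
  simp only [Finset.mem_filter, Finset.mem_univ, true_and] at hjF hjmin
  have hbc : Continuous fun θ : ℝ => bx x θ := by unfold bx; fun_prop
  have hsc : Continuous fun θ : ℝ => sx x θ := by unfold sx; fun_prop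
  have hpc : Continuous fun θ : ℝ => ((θ, bx x θ) : ℝ × ℝ) := continuous_id.prodMk hbc
  have hU : ∀ k, C.Tch k θ₀ (bx x θ₀) → (θ₀, bx x θ₀) ∈ C.U k := by
    intro k hk
    exact ⟨lt_of_le_of_ne hk.1 (hg k).1.symm, lt_of_le_of_ne hk.2 (hg k).2⟩
  have hUn : ∀ k, C.Tch k θ₀ (bx x θ₀) → C.U k ∈ 𝓝 ((θ₀, bx x θ₀) : ℝ × ℝ) := by
    intro k hk
    exact (asn_cont C k).2.1.mem_nhds (hU k hk)
  have hTn : ∀ k, C.Tch k θ₀ (bx x θ₀) →
      {p : ℝ × ℝ | C.Tch k p.1 p.2} ∈ 𝓝 ((θ₀, bx x θ₀) : ℝ × ℝ) := by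
    intro k hk
    exact mem_of_superset (hUn k hk) fun p hp => ⟨hp.1.le, hp.2.le⟩
  have hsm : ∀ k, C.Tch k θ₀ (bx x θ₀) →
      ContinuousAt (fun θ : ℝ => C.sm k θ (bx x θ)) θ₀ := by
    intro k hk
    have h1 : ContinuousAt (fun p : ℝ × ℝ => C.sm k p.1 p.2) (θ₀, bx x θ₀) :=
      ((asn_cont C k).2.2.2.2.2.2.2.2.2.2.1).continuousAt (hTn k hk)
    exact ContinuousAt.comp (f := fun θ : ℝ => ((θ, bx x θ) : ℝ × ℝ)) h1 hpc.continuousAt
  have hsp : ∀ k, C.Tch k θ₀ (bx x θ₀) →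
      ContinuousAt (fun θ : ℝ => C.sp k θ (bx x θ)) θ₀ := by
    intro k hk
    have h1 : ContinuousAt (fun p : ℝ × ℝ => C.sp k p.1 p.2) (θ₀, bx x θ₀) :=
      ((asn_cont C k).2.2.2.2.2.2.2.2.2.1).continuousAt (hTn k hk)
    exact ContinuousAt.comp (f := fun θ : ℝ => ((θ, bx x θ) : ℝ × ℝ)) h1 hpc.continuousAt
  refine ⟨j, ?_⟩
  have e1 : ∀ᶠ θ in 𝓝 θ₀, ((θ, bx x θ) : ℝ × ℝ) ∈ C.U j :=
    hpc.continuousAt.eventually (hUn j hjF.1)
  have e2 : ∀ᶠ θ in 𝓝 θ₀, sx x θ < C.sm j θ (bx x θ) :=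
    hsc.continuousAt.eventually_lt (hsm j hjF.1) hjF.2
  have e3 : ∀ᶠ θ in 𝓝 θ₀, ∀ k, k ≠ j → C.Tch k θ (bx x θ) → sx x θ < C.sm k θ (bx x θ) →
      C.sm j θ (bx x θ) < C.sm k θ (bx x θ) := by
    rw [Filter.eventually_all]
    intro k
    by_cases hk : C.Tch k θ₀ (bx x θ₀)
    · rcases xline C x k (hx k) θ₀ hk with h1 | h1
      · by_cases hkj : k = j
        · exact Filter.Eventually.of_forall fun θ h => absurd hkj h
        have h2 := hjmin k ⟨hk, h1⟩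
        have h3 : C.sm j θ₀ (bx x θ₀) < C.sm k θ₀ (bx x θ₀) := by
          have t := C.htau
          rcases gap C (Ne.symm hkj) hjF.1 hk with ⟨-, h4⟩ | ⟨-, h4⟩
          · have h5 := (onb C j hjF.1).2.2.1
            linarith
          · have h5 := (onb C k hk).2.2.1
            linarith
        filter_upwards [(hsm j hjF.1).eventually_lt (hsm k hk) h3] with θ h4 _ _ _
        exact h4
      · filter_upwards [(hsp k hk).eventually_lt hsc.continuousAt h1] with θ h4 _ h5 h6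
        have h7 := (onb C k h5).2.2.1
        linarith
    · have h1 : IsClosed {p : ℝ × ℝ | C.Tch k p.1 p.2} := (asn_cont C k).2.2.1
      have h2 : ∀ᶠ θ in 𝓝 θ₀, ((θ, bx x θ) : ℝ × ℝ) ∈ {p : ℝ × ℝ | C.Tch k p.1 p.2}ᶜ :=
        hpc.continuousAt.eventually (h1.isOpen_compl.mem_nhds hk)
      filter_upwards [h2] with θ h3 _ h4
      exact absurd h4 h3
  filter_upwards [e1, e2, e3] with θ h1 h2 h3
  exact ⟨h1, h2, h3⟩

end Pool.LightB
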