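import Pool.Agent.Helper638.LightB.Defs
import Pool.Agent.Helper638.LightB.P_FFd
import Pool.Agent.Helper638.LightB.P_asn_spec
import Pool.Agent.Helper638.LightB.P_asn_cont
import Pool.Agent.Helper638.LightB.P_asn_deriv
import Pool.Agent.Helper638.LightB.P_geo_shift
import Pool.Agent.Helper638.LightB.P_gap
import Pool.Agent.Helper638.LightB.P_basics
import Pool.Agent.Helper638.LightB.P_hits_unique
import Pool.Agent.Helper638.LightB.P_T_of_hits
import Pool.Agent.Helper638.LightB.P_Tj_facts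
import Pool.Agent.Helper638.LightB.P_Tj_deriv
import Pool.Agent.Helper638.LightB.P_trichotomy
import Pool.Agent.Helper638.LightB.P_om_facts
import Pool.Agent.Helper638.LightB.P_transv
import Pool.Agent.Helper638.LightB.P_source
import Pool.Agent.Helper638.LightB.P_XDefs
import Pool.Agent.Helper638.LightB.P_xline
import Pool.Agent.Helper638.LightB.P_xgeneric
import Pool.Agent.Helper638.LightB.P_xhits

set_option autoImplicit false

open MeasureTheory Set Filter Topology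

namespace Pool.LightB
variable {n : ℕ}


theorem coreDense_trap (C : Cfg n) (l : St n) (hl : l ∈ C.M) (hS : l ∉ C.SS)
    (hE : ∀ m, l ∈ C.Om m → (C.T^[m]) l ∉ C.E0) : l ∈ C.Trap := by
  intro m
  induction m with
  | zero => exact hl
  | succ m ih =>
    have h1 := (om_facts C m).2.2.1
    have h2 : (C.T^[m]) l ∈ C.M := ((h1 0 l).mp ih).2
    rw [h1 1 l]
    refine ⟨ih, ?_⟩
    rcases trichotomy C h2 with ⟨j, hj⟩ | h3 | h3
    · refine ⟨h2, ⟨j, hj⟩, ?_⟩
      have h4 : C.T ((C.T^[m]) l) = (j, C.Tj j (((C.T^[m]) l).2.1, ((C.T^[m]) l).2.2)) :=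
        T_of_hits C hj
      rw [h4]
      exact (Tj_facts C j _ hj.2.2.1).1
    · exact absurd h3 (hE m ih)
    · exact absurd ⟨m, ih, h3⟩ hS

theorem coreDense_bx (x : ℝ × ℝ) (θ : ℝ) : HasDerivAt (bx x) (-sx x θ) θ := by
  have h1 := (Real.hasDerivAt_cos θ).const_mul x.2
  have h2 := (Real.hasDerivAt_sin θ).const_mul x.1
  have h3 : HasDerivAt (bx x) (x.2 * -Real.sin θ - x.1 * Real.cos θ) θ := h1.sub h2
  refine h3.congr_deriv ?_
  unfold sx
  ring

noncomputable def coreDense_B (C : Cfg n) (x : ℝ × ℝ) (j : Fin n) (θ : ℝ) : ℝ :=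
  C.sm j θ (bx x θ) - sx x θ

noncomputable def coreDense_P (C : Cfg n) (x : ℝ × ℝ) (j : Fin n) (θ : ℝ) : ℝ :=
  -1 - 2 / C.cc j (C.Tj j (θ, bx x θ)).1 (C.Tj j (θ, bx x θ)).2 * coreDense_B C x j θ

noncomputable def coreDense_Q (C : Cfg n) (x : ℝ × ℝ) (j : Fin n) (θ : ℝ) : ℝ :=
  -coreDense_B C x j θ -
    C.sp j (C.Tj j (θ, bx x θ)).1 (C.Tj j (θ, bx x θ)).2 * coreDense_P C x j θ

theorem coreDense_curve (C : Cfg n) (x : ℝ × ℝ) (j : Fin n) (θ : ℝ)
    (h : (θ, bx x θ) ∈ C.U j) :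
    HasDerivAt (fun t => C.Tj j (t, bx x t)) (coreDense_P C x j θ, coreDense_Q C x j θ) θ := by
  obtain ⟨h1, _, h3⟩ := Tj_deriv C j (θ, bx x θ) h
  have hd : HasFDerivAt (C.Tj j) (fderiv ℝ (C.Tj j) (θ, bx x θ)) (θ, bx x θ) :=
    (h1.differentiableAt (by norm_num)).hasFDerivAt
  have hc : HasDerivAt (fun t => (t, bx x t)) ((1 : ℝ), -sx x θ) θ :=
    (hasDerivAt_id θ).prodMk (coreDense_bx x θ)
  have h4 := hd.comp_hasDerivAt θ hc
  have h5 := (h3 (1, -sx x θ) (coreDense_B C x j θ) (coreDense_P C x j θ)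
    (by unfold coreDense_B; ring) (by unfold coreDense_P; rfl)).1
  rw [h5] at h4
  exact h4

theorem coreDense_signs (C : Cfg n) (x : ℝ × ℝ) (j : Fin n) (θ : ℝ) (h : HitsX C x j θ) :
    0 < coreDense_B C x j θ ∧ coreDense_P C x j θ < -1 := by
  have h1 : 0 < coreDense_B C x j θ := sub_pos.mpr h.2.1
  refine ⟨h1, ?_⟩
  have h2 := (Tj_facts C j (θ, bx x θ) h.1).2.2.2.2.2.2.2
  have h3 : 0 < 2 / C.cc j (C.Tj j (θ, bx x θ)).1 (C.Tj j (θ, bx x θ)).2 *
      coreDense_B C x j θ := by positivity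
  unfold coreDense_P
  linarith

theorem coreDense_cont (C : Cfg n) (x : ℝ × ℝ) (j : Fin n) (θ : ℝ) (h : HitsX C x j θ) :
    ContinuousAt (coreDense_P C x j) θ ∧ ContinuousAt (coreDense_Q C x j) θ := by
  have hTc : ContinuousAt (fun t => C.Tj j (t, bx x t)) θ :=
    (coreDense_curve C x j θ h.1).continuousAt
  have hTU := (Tj_facts C j (θ, bx x θ) h.1).1
  have hcpos := (Tj_facts C j (θ, bx x θ) h.1).2.2.2.2.2.2.2
  obtain ⟨_, hs1, hc1, _⟩ := asn_deriv C j (C.Tj j (θ, bx x θ)) hTU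
  have hcc : ContinuousAt (fun t => C.cc j (C.Tj j (t, bx x t)).1 (C.Tj j (t, bx x t)).2) θ :=
    ContinuousAt.comp (g := fun q : ℝ × ℝ => C.cc j q.1 q.2) (f := fun t => C.Tj j (t, bx x t))
      hc1.continuousAt hTc
  have hsp : ContinuousAt (fun t => C.sp j (C.Tj j (t, bx x t)).1 (C.Tj j (t, bx x t)).2) θ :=
    ContinuousAt.comp (g := fun q : ℝ × ℝ => C.sp j q.1 q.2) (f := fun t => C.Tj j (t, bx x t))
      hs1.continuousAt hTc
  have hcb : ContinuousAt (fun t => (t, bx x t)) θ :=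
    continuousAt_id.prodMk (coreDense_bx x θ).continuousAt
  have hsm : ContinuousAt (fun t => C.sm j t (bx x t)) θ :=
    ContinuousAt.comp (g := fun q : ℝ × ℝ => C.sm j q.1 q.2) (f := fun t => (t, bx x t))
      (Tj_deriv C j (θ, bx x θ) h.1).2.1.continuousAt hcb
  have hsx : ContinuousAt (fun t => sx x t) θ := by
    unfold sx
    fun_prop
  have hB : ContinuousAt (coreDense_B C x j) θ := hsm.sub hsx
  have hP : ContinuousAt (coreDense_P C x j) θ :=
    continuousAt_const.sub ((continuousAt_const.div hcc hcpos.ne').mul hB)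
  exact ⟨hP, hB.neg.sub (hsp.mul hP)⟩

/-- the core theorem: a dense set of rays from `x` escapes after finitely many proper
reflections. -/
theorem coreDense (C : Cfg n) (x : ℝ × ℝ) (hx : OutX C x) (t₁ t₂ : ℝ) (ht : t₁ < t₂) :
    ∃ θ ∈ Ioo t₁ t₂, (∀ k, C.Tch k θ (bx x θ) → ¬ sx x θ < C.sm k θ (bx x θ)) ∨
      ∃ j, HitsX C x j θ ∧ ∃ m, stX C x j θ ∈ C.Om m ∧
        (C.T^[m]) (stX C x j θ) ∈ C.E0 := by
  by_contra hcon
  have hcon1 : ∀ θ ∈ Ioo t₁ t₂,
      ¬ (∀ k, C.Tch k θ (bx x θ) → ¬ sx x θ < C.sm k θ (bx x θ)) :=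
    fun θ hθ h => hcon ⟨θ, hθ, Or.inl h⟩
  have hcon2 : ∀ θ ∈ Ioo t₁ t₂, ∀ j, HitsX C x j θ → ∀ m, stX C x j θ ∈ C.Om m →
      (C.T^[m]) (stX C x j θ) ∉ C.E0 :=
    fun θ hθ j hj m hm hE => hcon ⟨θ, hθ, Or.inr ⟨j, hj, m, hm, hE⟩⟩
  obtain ⟨θ₀, hθ₀, hgen⟩ := ((xgeneric C x hx).dense_compl ℝ).inter_open_nonempty (Ioo t₁ t₂)
    isOpen_Ioo (nonempty_Ioo.mpr ht)
  have hg : ∀ k, bx x θ₀ ≠ C.lo k θ₀ ∧ bx x θ₀ ≠ C.hi k θ₀ :=
    fun k => ⟨fun h => hgen ⟨k, Or.inl h⟩, fun h => hgen ⟨k, Or.inr h⟩⟩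
  rcases xhits C x hx θ₀ hg with h | ⟨j, hj⟩
  · exact hcon1 θ₀ hθ₀ h
  have hev : ∀ᶠ θ in 𝓝 θ₀, HitsX C x j θ ∧ θ ∈ Ioo t₁ t₂ :=
    hj.and (isOpen_Ioo.mem_nhds hθ₀)
  obtain ⟨ε, hε, hball⟩ := Metric.eventually_nhds_iff.mp hev
  set a₁ := θ₀ - ε / 2 with ha1
  set a₂ := θ₀ + ε / 2 with ha2
  have hlt : a₁ < a₂ := by
    rw [ha1, ha2]
    linarith
  have hI : ∀ θ ∈ Icc a₁ a₂, HitsX C x j θ ∧ θ ∈ Ioo t₁ t₂ := by
    intro θ hθ
    apply hball
    rw [Real.dist_eq, abs_lt]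
    have h1 := hθ.1
    have h2 := hθ.2
    constructor <;> linarith
  set c : ℝ → ℝ × ℝ := fun t => C.Tj j (t, bx x t) with hc
  have hcd : ∀ θ ∈ Icc a₁ a₂, HasDerivAt c (coreDense_P C x j θ, coreDense_Q C x j θ) θ :=
    fun θ hθ => coreDense_curve C x j θ (hI θ hθ).1.1
  have hd1 : ∀ θ ∈ Icc a₁ a₂, HasDerivAt (fun t => (c t).1) (coreDense_P C x j θ) θ :=
    fun θ hθ => (hasFDerivAt_fst (𝕜 := ℝ) (E := ℝ) (F := ℝ) (p := c θ)).comp_hasDerivAt θ
      (hcd θ hθ)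
  have hd2 : ∀ θ ∈ Icc a₁ a₂, HasDerivAt (fun t => (c t).2) (coreDense_Q C x j θ) θ :=
    fun θ hθ => (hasFDerivAt_snd (𝕜 := ℝ) (E := ℝ) (F := ℝ) (p := c θ)).comp_hasDerivAt θ
      (hcd θ hθ)
  have hPlt : ∀ θ ∈ Icc a₁ a₂, coreDense_P C x j θ < -1 :=
    fun θ hθ => (coreDense_signs C x j θ (hI θ hθ).1).2
  have hBpos : ∀ θ ∈ Icc a₁ a₂, 0 < coreDense_B C x j θ :=
    fun θ hθ => (coreDense_signs C x j θ (hI θ hθ).1).1
  have hQB : ∀ θ, coreDense_Q C x j θ + C.sp j (c θ).1 (c θ).2 * coreDense_P C x j θ =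
      -coreDense_B C x j θ := by
    intro θ
    unfold coreDense_Q
    rw [hc]
    ring
  have hctb := transv C j (Ioo a₁ a₂) isOpen_Ioo (fun t => (c t).1) (fun t => (c t).2)
    (coreDense_P C x j) (coreDense_Q C x j) (by
      intro s hs
      have hs' := Ioo_subset_Icc_self hs
      refine ⟨hd1 s hs', hd2 s hs', (Tj_facts C j (s, bx x s) (hI s hs').1.1).1, ?_⟩
      have h1 := hBpos s hs'
      have h2 := hPlt s hs'
      have h3 := hQB s
      unfold UC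
      rw [h3]
      refine ⟨by linarith, ?_⟩
      have h4 : coreDense_P C x j s < 0 := by linarith
      exact (mul_pos_of_neg_of_neg h4 (by linarith)).le)
  have htrap : ∀ s ∈ Ioo a₁ a₂, ((j, (c s).1, (c s).2) : St n) ∉ C.SS →
      ((j, (c s).1, (c s).2) : St n) ∈ C.Trap := by
    intro s hs hSS
    have hs' := Ioo_subset_Icc_self hs
    apply coreDense_trap C _ (Tj_facts C j (s, bx x s) (hI s hs').1.1).1 hSS
    intro m hm
    exact hcon2 s (hI s hs').2 j (hI s hs').1 m hm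
  -- the inverse function
  have hcont1 : ContinuousOn (fun t => (c t).1) (Icc a₁ a₂) :=
    fun θ hθ => (hd1 θ hθ).continuousAt.continuousWithinAt
  have hanti : AntitoneOn (fun t => (c t).1 + t) (Icc a₁ a₂) := by
    apply antitoneOn_of_deriv_nonpos (convex_Icc _ _)
    · exact hcont1.add continuousOn_id
    · intro θ hθ
      rw [interior_Icc] at hθ
      exact ((hd1 θ (Ioo_subset_Icc_self hθ)).add
        (hasDerivAt_id θ)).differentiableAt.differentiableWithinAt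
    · intro θ hθ
      rw [interior_Icc] at hθ
      have h1 : HasDerivAt (fun t => (c t).1 + t) (coreDense_P C x j θ + 1) θ :=
        (hd1 θ (Ioo_subset_Icc_self hθ)).add (hasDerivAt_id θ)
      rw [h1.deriv]
      have := hPlt θ (Ioo_subset_Icc_self hθ)
      linarith
  have hlip : ∀ θ ∈ Icc a₁ a₂, ∀ θ' ∈ Icc a₁ a₂, |θ - θ'| ≤ |(c θ).1 - (c θ').1| := by
    have aux : ∀ θ ∈ Icc a₁ a₂, ∀ θ' ∈ Icc a₁ a₂, θ ≤ θ' → |θ - θ'| ≤ |(c θ).1 - (c θ').1| := by
      intro θ hθ θ' hθ' hle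
      have h1 := hanti hθ hθ' hle
      have h2 : (c θ').1 + θ' ≤ (c θ).1 + θ := h1
      rw [abs_sub_comm, abs_of_nonneg (by linarith)]
      exact le_trans (by linarith) (le_abs_self _)
    intro θ hθ θ' hθ'
    rcases le_total θ θ' with h | h
    · exact aux θ hθ θ' hθ' h
    · rw [abs_sub_comm θ, abs_sub_comm (c θ).1]
      exact aux θ' hθ' θ hθ h
  have hmem1 : a₁ ∈ Icc a₁ a₂ := left_mem_Icc.mpr hlt.le
  have hmem2 : a₂ ∈ Icc a₁ a₂ := right_mem_Icc.mpr hlt.le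
  have hlt' : (c a₂).1 < (c a₁).1 := by
    have h1 : (c a₂).1 + a₂ ≤ (c a₁).1 + a₁ := hanti hmem1 hmem2 hlt.le
    linarith
  have hsurj : ∀ t ∈ Ioo (c a₂).1 (c a₁).1, ∃ θ ∈ Ioo a₁ a₂, (c θ).1 = t := by
    intro t htt
    have h1 := intermediate_value_Ioo' hlt.le hcont1 htt
    exact h1
  choose! g hg1 hg2 using hsurj
  have hgc : ∀ t ∈ Ioo (c a₂).1 (c a₁).1, ContinuousAt g t := by
    intro t htt
    rw [Metric.continuousAt_iff]
    intro δ hδ
    obtain ⟨η, hη, hηb⟩ := Metric.eventually_nhds_iff.mp (isOpen_Ioo.mem_nhds htt)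
    refine ⟨min δ η, lt_min hδ hη, fun {t'} ht' => ?_⟩
    have ht'I : t' ∈ Ioo (c a₂).1 (c a₁).1 := hηb (lt_of_lt_of_le ht' (min_le_right _ _))
    have h1 := hlip (g t') (Ioo_subset_Icc_self (hg1 t' ht'I)) (g t)
      (Ioo_subset_Icc_self (hg1 t htt))
    rw [hg2 t' ht'I, hg2 t htt] at h1
    rw [Real.dist_eq]
    exact lt_of_le_of_lt h1 (lt_of_lt_of_le ht' (min_le_left _ _))
  have hgd : ∀ t ∈ Ioo (c a₂).1 (c a₁).1, HasDerivAt g (coreDense_P C x j (g t))⁻¹ t := by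
    intro t htt
    have hgt := Ioo_subset_Icc_self (hg1 t htt)
    apply HasDerivAt.of_local_left_inverse (hgc t htt) (hd1 (g t) hgt)
    · have := hPlt (g t) hgt
      exact ne_of_lt (by linarith)
    · filter_upwards [isOpen_Ioo.mem_nhds htt] with t' ht'
      exact hg2 t' ht'
  refine source C j (c a₂).1 (c a₁).1 hlt' (fun t => (c (g t)).2)
    (fun t => coreDense_Q C x j (g t) * (coreDense_P C x j (g t))⁻¹) ?_ ?_ ?_ ?_ ?_
  · intro t htt
    have h1 := (hd2 (g t) (Ioo_subset_Icc_self (hg1 t htt))).comp t (hgd t htt)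
    exact h1
  · intro t htt
    have hgt := Ioo_subset_Icc_self (hg1 t htt)
    obtain ⟨hP, hQ⟩ := coreDense_cont C x j (g t) (hI (g t) hgt).1
    have hP' : ContinuousAt (fun t => coreDense_P C x j (g t)) t :=
      ContinuousAt.comp (g := coreDense_P C x j) (f := g) hP (hgc t htt)
    have hQ' : ContinuousAt (fun t => coreDense_Q C x j (g t)) t :=
      ContinuousAt.comp (g := coreDense_Q C x j) (f := g) hQ (hgc t htt)
    have hne : coreDense_P C x j (g t) ≠ 0 := by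
      have := hPlt (g t) hgt
      exact ne_of_lt (by linarith)
    exact (hQ'.mul (hP'.inv₀ hne)).continuousWithinAt
  · intro t htt
    have hgt := Ioo_subset_Icc_self (hg1 t htt)
    have h1 := (Tj_facts C j (g t, bx x (g t)) (hI (g t) hgt).1.1).1
    have h2 : (t, (c (g t)).2) = c (g t) := Prod.ext (hg2 t htt).symm rfl
    rw [h2]
    exact h1
  · intro t htt
    have hgt := Ioo_subset_Icc_self (hg1 t htt)
    have h1 := hQB (g t)
    have h2 := hPlt (g t) hgt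
    have h3 := hBpos (g t) hgt
    rw [hg2 t htt] at h1
    have hne : coreDense_P C x j (g t) ≠ 0 := ne_of_lt (by linarith)
    have h4 : coreDense_Q C x j (g t) * (coreDense_P C x j (g t))⁻¹ + C.sp j t (c (g t)).2 =
        coreDense_B C x j (g t) * (-(coreDense_P C x j (g t)))⁻¹ := by
      have h5 : coreDense_Q C x j (g t) = -coreDense_B C x j (g t) -
          C.sp j t (c (g t)).2 * coreDense_P C x j (g t) := by linarith
      rw [h5, inv_neg]
      field_simp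
      ring
    show 0 < coreDense_Q C x j (g t) * (coreDense_P C x j (g t))⁻¹ + C.sp j t (c (g t)).2
    rw [h4]
    have h6 : 0 < -(coreDense_P C x j (g t)) := by linarith
    positivity
  · have hctb' := hctb.image (fun t => (c t).1)
    have h1 := measure_eq_zero_iff_ae_notMem.mp (hctb'.measure_zero volume)
    filter_upwards [h1] with t hb htt
    have hgt := hg1 t htt
    have h3 : ((j, t, (c (g t)).2) : St n) = (j, (c (g t)).1, (c (g t)).2) := by
      rw [hg2 t htt]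
    rw [h3]
    apply htrap (g t) hgt
    intro h4
    exact hb ⟨g t, ⟨hgt, h4⟩, hg2 t htt⟩

end Pool.LightB
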