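import Pool.Agent.Helper638.LightB.Defs
import Pool.Agent.Helper638.LightB.P_FFd
import Pool.Agent.Helper638.LightB.P_asn_spec
import Pool.Agent.Helper638.LightB.P_asn_cont
import Pool.Agent.Helper638.LightB.P_geo_shift
import Pool.Agent.Helper638.LightB.P_supp_ineq
import Pool.Agent.Helper638.LightB.P_onb
import Pool.Agent.Helper638.LightB.P_basics
import Pool.Agent.Helper638.LightB.P_PDefs

set_option autoImplicit false

open MeasureTheory Set Filter Topology

namespace Pool.LightB
variable {n : ℕ}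


theorem memline_iff (C : Cfg n) (k : Fin n) (θ b t : ℝ) :
    lp θ b t ∈ Bod C k ↔
      ∀ ω, t * Real.cos (ω - θ) + b * Real.sin (ω - θ) ≤ C.H k ω := by
  have e : ∀ ω, (lp θ b t).1 * Real.cos ω + (lp θ b t).2 * Real.sin ω =
      t * Real.cos (ω - θ) + b * Real.sin (ω - θ) := by
    intro ω
    rw [Real.cos_sub, Real.sin_sub]
    show (t * Real.cos θ - b * Real.sin θ) * Real.cos ω +
      (t * Real.sin θ + b * Real.cos θ) * Real.sin ω = _
    ring
  constructor
  · intro h ω
    rw [← e]
    exact h ω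
  · intro h ω
    show (lp θ b t).1 * Real.cos ω + (lp θ b t).2 * Real.sin ω ≤ C.H k ω
    rw [e]
    exact h ω

theorem memline_tch (C : Cfg n) (k : Fin n) (θ b t : ℝ)
    (h : ∀ ω, t * Real.cos (ω - θ) + b * Real.sin (ω - θ) ≤ C.H k ω) : C.Tch k θ b := by
  constructor
  · have h1 := h (θ - Real.pi / 2)
    have e : θ - Real.pi / 2 - θ = -(Real.pi / 2) := by ring
    rw [e, Real.cos_neg, Real.sin_neg, Real.cos_pi_div_two, Real.sin_pi_div_two] at h1
    show -C.H k (θ - Real.pi / 2) ≤ b
    linarith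
  · have h1 := h (θ + Real.pi / 2)
    have e : θ + Real.pi / 2 - θ = Real.pi / 2 := by ring
    rw [e, Real.cos_pi_div_two, Real.sin_pi_div_two] at h1
    show b ≤ C.H k (θ + Real.pi / 2)
    linarith

theorem memline_sp (C : Cfg n) (k : Fin n) (θ b t : ℝ)
    (h : ∀ ω, t * Real.cos (ω - θ) + b * Real.sin (ω - θ) ≤ C.H k ω) : t ≤ C.sp k θ b := by
  have hT := memline_tch C k θ b t h
  obtain ⟨_, _, h3, h4, _, _, _⟩ := asn_spec C k θ b
  have hFF := h3 hT
  unfold Cfg.FF at hFF
  unfold Cfg.sp
  generalize C.asn k θ b = a at hFF h4 ⊢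
  have hcos : 0 ≤ Real.cos a := Real.cos_nonneg_of_mem_Icc h4
  have h5 := h (θ + a)
  have e : θ + a - θ = a := by ring
  rw [e] at h5
  have hsc := Real.sin_sq_add_cos_sq a
  rcases hcos.lt_or_eq with hc | hc
  · have h6 : (t - (C.H k (θ + a) * Real.cos a - C.H1 k (θ + a) * Real.sin a)) * Real.cos a ≤ 0 := by
      rw [← hFF] at h5
      have h7 : (t - (C.H k (θ + a) * Real.cos a - C.H1 k (θ + a) * Real.sin a)) * Real.cos a =
          t * Real.cos a + (C.H k (θ + a) * Real.sin a + C.H1 k (θ + a) * Real.cos a) * Real.sin a -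
            C.H k (θ + a) * (Real.sin a ^ 2 + Real.cos a ^ 2) := by ring
      rw [h7, hsc]
      linarith
    by_contra hcon
    have h8 := mul_pos (sub_pos.2 (not_le.1 hcon)) hc
    linarith
  · have hc' : Real.cos a = 0 := hc.symm
    rw [hc', mul_zero, add_zero] at hFF
    rw [hc'] at hsc
    have hs2 : Real.sin a * Real.sin a = 1 := by linarith [hsc, sq (Real.sin a)]
    have hd : HasDerivAt (fun ω => C.H k ω - t * Real.cos (ω - θ) - b * Real.sin (ω - θ))
        (C.H1 k (θ + a) - t * (-Real.sin (θ + a - θ) * 1) - b * (Real.cos (θ + a - θ) * 1))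
        (θ + a) := by
      have k1 : HasDerivAt (fun ω : ℝ => ω - θ) 1 (θ + a) := (hasDerivAt_id _).sub_const θ
      exact ((C.h0 k (θ + a)).sub (k1.cos.const_mul t)).sub (k1.sin.const_mul b)
    have hmin : IsLocalMin (fun ω => C.H k ω - t * Real.cos (ω - θ) - b * Real.sin (ω - θ))
        (θ + a) := by
      refine Filter.Eventually.of_forall fun ω => ?_
      show C.H k (θ + a) - t * Real.cos (θ + a - θ) - b * Real.sin (θ + a - θ) ≤
        C.H k ω - t * Real.cos (ω - θ) - b * Real.sin (ω - θ)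
      rw [e, hc', ← hFF]
      have h6 := h ω
      rw [← hFF] at h6
      have h7 : C.H k (θ + a) * Real.sin a * Real.sin a = C.H k (θ + a) := by
        rw [mul_assoc, hs2, mul_one]
      rw [h7]
      linarith
    have h6 := hmin.hasDerivAt_eq_zero hd
    rw [e, hc'] at h6
    rw [hc', mul_zero, zero_sub]
    have h7 : t * Real.sin a = - C.H1 k (θ + a) := by linarith
    have h8 : t = -(C.H1 k (θ + a) * Real.sin a) := by
      calc t = t * (Real.sin a * Real.sin a) := by rw [hs2, mul_one]
        _ = (t * Real.sin a) * Real.sin a := by ring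
        _ = -(C.H1 k (θ + a) * Real.sin a) := by rw [h7]; ring
    exact h8.le

/-- the part of a line inside of a body -/
theorem memline (C : Cfg n) (k : Fin n) (θ b t : ℝ) :
    lp θ b t ∈ Bod C k ↔ C.Tch k θ b ∧ C.sm k θ b ≤ t ∧ t ≤ C.sp k θ b := by
  rw [memline_iff]
  constructor
  · intro h
    refine ⟨memline_tch C k θ b t h, ?_, memline_sp C k θ b t h⟩
    have h1 : ∀ ω, (-t) * Real.cos (ω - (θ + Real.pi)) + (-b) * Real.sin (ω - (θ + Real.pi)) ≤
        C.H k ω := by
      intro ω
      have e : ω - (θ + Real.pi) = ω - θ - Real.pi := by ring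
      rw [e, Real.cos_sub_pi, Real.sin_sub_pi]
      have := h ω
      linarith
    have h2 := memline_sp C k (θ + Real.pi) (-b) (-t) h1
    show -C.sp k (θ + Real.pi) (-b) ≤ t
    linarith
  · rintro ⟨hT, h1, h2⟩ ω
    obtain ⟨k1, k2, _, _⟩ := onb C k hT
    rcases le_total 0 (Real.cos (ω - θ)) with hc | hc
    · have := mul_le_mul_of_nonneg_right h2 hc
      have := k1 ω
      linarith
    · have := mul_le_mul_of_nonpos_right h1 hc
      have := k2 ω
      linarith

end Pool.LightB
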