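import Pool.Agent.Helper638.LightB.Defs

set_option autoImplicit false

open MeasureTheory Set Filter Topology

namespace Pool.LightB
variable {n : ℕ}


theorem mkCfg_per_deriv {f : ℝ → ℝ} (hf : ∀ φ, f (φ + 2 * Real.pi) = f φ) (φ : ℝ) :
    deriv f (φ + 2 * Real.pi) = deriv f φ := by
  rw [← deriv_comp_add_const]
  congr 1
  funext x
  exact hf x

theorem mkCfg_bound {g : ℝ → ℝ} (hg : Continuous g) (hp : ∀ φ, g (φ + 2 * Real.pi) = g φ) :
    ∃ B : ℝ, ∀ φ, |g φ| ≤ B := by
  obtain ⟨B, hB⟩ := (isCompact_Icc (a := (0 : ℝ)) (b := 2 * Real.pi)).exists_bound_of_continuousOn hg.continuousOn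
  refine ⟨B, fun φ => ?_⟩
  have hper : Function.Periodic g (2 * Real.pi) := hp
  obtain ⟨y, hy, he⟩ := hper.exists_mem_Ico₀ (by positivity) φ
  rw [he]
  exact hB y ⟨hy.1, hy.2.le⟩

theorem mkCfg_pos {g : ℝ → ℝ} (hg : Continuous g) (hp : ∀ φ, g (φ + 2 * Real.pi) = g φ) (h0 : ∀ φ, 0 < g φ) :
    ∃ m : ℝ, 0 < m ∧ ∀ φ, m ≤ g φ := by
  have hne : (Icc (0 : ℝ) (2 * Real.pi)).Nonempty := ⟨0, le_refl _, by positivity⟩
  obtain ⟨y₀, hy₀, hmin⟩ := isCompact_Icc.exists_isMinOn hne hg.continuousOn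
  refine ⟨g y₀, h0 y₀, fun φ => ?_⟩
  have hper : Function.Periodic g (2 * Real.pi) := hp
  obtain ⟨y, hy, he⟩ := hper.exists_mem_Ico₀ (by positivity) φ
  rw [he]
  exact hmin ⟨hy.1, hy.2.le⟩

open Classical in
/-- the separating directions -/
noncomputable def mkCfg_om (W : Fin n → Fin n → ℝ) (i k : Fin n) : ℝ :=
  if i < k then W i k else if k < i then W k i + Real.pi else 0

/-- every family of smooth bodies of positive curvature is a configuration. -/
theorem mkCfg (h : Fin n → ℝ → ℝ) (h3 : ∀ i, ContDiff ℝ 3 (h i))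
    (hper : ∀ i φ, h i (φ + 2 * Real.pi) = h i φ)
    (hpos : ∀ i φ, 0 < h i φ + deriv (deriv (h i)) φ)
    (hsep : ∀ i k, i ≠ k → ∃ ω, h i ω + h k (ω + Real.pi) < 0) :
    ∃ C : Cfg n, C.H = h := by
  classical
  have d1 : ∀ i, ContDiff ℝ 2 (deriv (h i)) := by
    intro i
    have h' : ContDiff ℝ (2 + 1) (h i) := by
      have := h3 i
      norm_num
      exact this
    exact (contDiff_succ_iff_deriv.1 h').2.2
  have d2 : ∀ i, ContDiff ℝ 1 (deriv (deriv (h i))) := by
    intro i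
    have h' : ContDiff ℝ (1 + 1) (deriv (h i)) := by
      have := d1 i
      norm_num
      exact this
    exact (contDiff_succ_iff_deriv.1 h').2.2
  have dr : ∀ i, ContDiff ℝ 1 (fun φ => h i φ + deriv (deriv (h i)) φ) := fun i =>
    ((h3 i).of_le (by norm_num)).add (d2 i)
  have p1 : ∀ i φ, deriv (h i) (φ + 2 * Real.pi) = deriv (h i) φ := fun i => mkCfg_per_deriv (hper i)
  have p2 : ∀ i φ, deriv (deriv (h i)) (φ + 2 * Real.pi) = deriv (deriv (h i)) φ := fun i => mkCfg_per_deriv (p1 i)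
  set rh : Fin n → ℝ → ℝ := fun i φ => h i φ + deriv (deriv (h i)) φ with hrh
  have pr : ∀ i φ, rh i (φ + 2 * Real.pi) = rh i φ := by
    intro i φ
    simp only [hrh, hper, p2]
  have pr1 : ∀ i φ, deriv (rh i) (φ + 2 * Real.pi) = deriv (rh i) φ := fun i => mkCfg_per_deriv (pr i)
  have crh : ∀ i, Continuous (rh i) := fun i => (dr i).continuous
  have crh1 : ∀ i, Continuous (deriv (rh i)) := fun i => (dr i).continuous_deriv le_rfl
  have ch : ∀ i, Continuous (h i) := fun i => (h3 i).continuous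
  have ch1 : ∀ i, Continuous (deriv (h i)) := fun i => (d1 i).continuous
  -- lower bound
  have e0 : ∀ᶠ R0 : ℝ in 𝓝[>] 0, ∀ i, ∀ φ, R0 ≤ rh i φ := by
    rw [Filter.eventually_all]
    intro i
    obtain ⟨m, hm, hm'⟩ := mkCfg_pos (crh i) (pr i) (hpos i)
    have : ∀ᶠ R0 : ℝ in 𝓝[>] 0, R0 < m := nhdsWithin_le_nhds (Iio_mem_nhds hm)
    filter_upwards [this] with R0 hR φ
    exact hR.le.trans (hm' φ)
  obtain ⟨R0, hR0, hR0'⟩ := (e0.and self_mem_nhdsWithin).exists
  have hR0' : 0 < R0 := hR0'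
  have e1 : ∀ᶠ R1 : ℝ in atTop, ∀ i, ∀ φ, rh i φ ≤ R1 := by
    rw [Filter.eventually_all]
    intro i
    obtain ⟨B, hB⟩ := mkCfg_bound (crh i) (pr i)
    filter_upwards [Filter.eventually_ge_atTop B] with R1 hR φ
    exact (le_abs_self _).trans ((hB φ).trans hR)
  obtain ⟨R1, hR1, hR1'⟩ := (e1.and (Filter.eventually_gt_atTop 0)).exists
  -- separating directions
  have hW : ∀ i k, ∃ ω, i ≠ k → h i ω + h k (ω + Real.pi) < 0 := by
    intro i k
    by_cases hik : i = k
    · exact ⟨0, fun hc => absurd hik hc⟩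
    · obtain ⟨ω, hω⟩ := hsep i k hik
      exact ⟨ω, fun _ => hω⟩
  choose W hW using hW
  have hs : ∀ i k, i ≠ k → h i (mkCfg_om W i k) + h k (mkCfg_om W i k + Real.pi) < 0 := by
    intro i k hik
    rcases lt_or_gt_of_ne hik with hlt | hgt
    · have e : mkCfg_om W i k = W i k := by
        unfold mkCfg_om
        rw [if_pos hlt]
      rw [e]
      exact hW i k hik
    · have e : mkCfg_om W i k = W k i + Real.pi := by
        unfold mkCfg_om
        rw [if_neg (not_lt.2 hgt.le), if_pos hgt]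
      rw [e]
      have := hW k i hik.symm
      have e2 : W k i + Real.pi + Real.pi = W k i + 2 * Real.pi := by ring
      rw [e2, hper]
      linarith
  have e2 : ∀ᶠ τ : ℝ in 𝓝[>] 0, ∀ i, ∀ k, i ≠ k →
      h i (mkCfg_om W i k) + h k (mkCfg_om W i k + Real.pi) + τ ≤ 0 := by
    rw [Filter.eventually_all]
    intro i
    rw [Filter.eventually_all]
    intro k
    by_cases hik : i = k
    · exact Filter.Eventually.of_forall fun τ hc => absurd hik hc
    · have h2 : (0 : ℝ) < -(h i (mkCfg_om W i k) + h k (mkCfg_om W i k + Real.pi)) := by linarith [hs i k hik]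
      have h3' : ∀ᶠ τ : ℝ in 𝓝[>] 0, τ < -(h i (mkCfg_om W i k) + h k (mkCfg_om W i k + Real.pi)) :=
        nhdsWithin_le_nhds (Iio_mem_nhds h2)
      filter_upwards [h3'] with τ hτ _
      linarith
  obtain ⟨τ, hτ, hτ0⟩ := (e2.and self_mem_nhdsWithin).exists
  have hτ0 : 0 < τ := hτ0
  have e3 : ∀ᶠ K : ℝ in atTop, ∀ i, ∀ φ, |h i φ| + |deriv (h i) φ| + |deriv (rh i) φ| + R1 + τ ≤ K := by
    rw [Filter.eventually_all]
    intro i
    obtain ⟨B1, hB1⟩ := mkCfg_bound (ch i) (hper i)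
    obtain ⟨B2, hB2⟩ := mkCfg_bound (ch1 i) (p1 i)
    obtain ⟨B3, hB3⟩ := mkCfg_bound (crh1 i) (pr1 i)
    filter_upwards [Filter.eventually_ge_atTop (B1 + B2 + B3 + R1 + τ)] with K hK φ
    have := hB1 φ
    have := hB2 φ
    have := hB3 φ
    linarith
  obtain ⟨K, hK, hK'⟩ := (e3.and (Filter.eventually_gt_atTop 0)).exists
  refine ⟨{ H := h, H1 := fun i => deriv (h i), rh := rh, rh1 := fun i => deriv (rh i), om := mkCfg_om W,
            tau := τ, R0 := R0, R1 := R1, K := K,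
            h0 := fun i φ => (((h3 i).differentiable (by norm_num)) φ).hasDerivAt,
            h1 := fun i φ => ?_,
            h2 := fun i φ => (((dr i).differentiable (by norm_num)) φ).hasDerivAt,
            h3 := crh1, hp := hper, hp1 := p1, hpr := pr, hpr1 := pr1, htau := hτ0, hR0 := hR0',
            hR := fun i φ => ⟨hR0 i φ, hR1 i φ⟩, hR1 := hR1', hsep := hτ, hom := ?_, hK := hK, hK0 := hK' }, rfl⟩
  · have h4 := (((d1 i).differentiable (by norm_num)) φ).hasDerivAt
    have e : rh i φ - h i φ = deriv (deriv (h i)) φ := by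
      simp only [hrh]
      ring
    rw [e]
    exact h4
  · intro i k hik
    rcases lt_or_gt_of_ne hik with hlt | hgt
    · refine ⟨0, ?_⟩
      have e1 : mkCfg_om W i k = W i k := by
        unfold mkCfg_om
        rw [if_pos hlt]
      have e2 : mkCfg_om W k i = W i k + Real.pi := by
        unfold mkCfg_om
        rw [if_neg (not_lt.2 hlt.le), if_pos hlt]
      rw [e1, e2]
      push_cast
      ring
    · refine ⟨-1, ?_⟩
      have e1 : mkCfg_om W i k = W k i + Real.pi := by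
        unfold mkCfg_om
        rw [if_neg (not_lt.2 hgt.le), if_pos hgt]
      have e2 : mkCfg_om W k i = W k i := by
        unfold mkCfg_om
        rw [if_pos hgt]
      rw [e1, e2]
      push_cast
      ring

end Pool.LightB
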