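import Pool.Agent.Helper638.LightB.Defs
import Pool.Agent.Helper638.LightB.P_FFd
import Pool.Agent.Helper638.LightB.P_asn_spec
import Pool.Agent.Helper638.LightB.P_asn_cont
import Pool.Agent.Helper638.LightB.P_geo_shift
import Pool.Agent.Helper638.LightB.P_onb
import Pool.Agent.Helper638.LightB.P_gap
import Pool.Agent.Helper638.LightB.P_basics
import Pool.Agent.Helper638.LightB.P_PDefs
import Pool.Agent.Helper638.LightB.P_memline

set_option autoImplicit false

open MeasureTheory Set Filter Topology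

namespace Pool.LightB
variable {n : ℕ}


theorem physE (C : Cfg n) {i : Fin n} {θ b : ℝ} (h : ((i, θ, b) : St n) ∈ C.E0) :
    ∀ k, ∀ t, C.sp i θ b < t → lp θ b t ∉ Bod C k := by
  obtain ⟨hM, hE⟩ := h
  have hU : (θ, b) ∈ C.U i := hM
  have hT : C.Tch i θ b := ⟨hU.1.le, hU.2.le⟩
  have htau := C.htau
  intro k t ht hmem
  obtain ⟨h1, h2, h3⟩ := (memline C k θ b t).1 hmem
  by_cases hki : k = i
  · subst hki
    linarith
  · rcases gap C (Ne.symm hki) hT h1 with ⟨h4, h5⟩ | ⟨h4, h5⟩
    · exact hE k hki h4 h1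
    · have h6 := (onb C i hT).2.2.1
      linarith

end Pool.LightB
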