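import Pool.Agent.Helper638.LightB.Defs
import Pool.Agent.Helper638.LightB.P_FFd
import Pool.Agent.Helper638.LightB.P_asn_spec
import Pool.Agent.Helper638.LightB.P_asn_cont
import Pool.Agent.Helper638.LightB.P_geo_shift
import Pool.Agent.Helper638.LightB.P_onb
import Pool.Agent.Helper638.LightB.P_gap
import Pool.Agent.Helper638.LightB.P_basics
import Pool.Agent.Helper638.LightB.P_PDefs
import Pool.Agent.Helper638.LightB.P_memline

set_option autoImplicit false

open MeasureTheory Set Filter Topology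

namespace Pool.LightB
variable {n : ℕ}


/-- physical meaning of a hit -/
theorem physHit (C : Cfg n) {i j : Fin n} {θ b : ℝ} (hp : (θ, b) ∈ C.U i)
    (h : C.Hits i j θ b) :
    C.sp i θ b < C.sm j θ b ∧
    ∀ k, ∀ t, C.sp i θ b < t → t < C.sm j θ b → lp θ b t ∉ Bod C k := by
  obtain ⟨hij, hdv, hU, hfirst⟩ := h
  have hTi : C.Tch i θ b := ⟨hp.1.le, hp.2.le⟩
  have hTj : C.Tch j θ b := ⟨hU.1.le, hU.2.le⟩
  have htau := C.htau
  refine ⟨?_, ?_⟩
  · rcases gap C hij hTi hTj with ⟨_, h1⟩ | ⟨h1, _⟩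
    · linarith
    · linarith
  · intro k t ht1 ht2 hmem
    obtain ⟨hTk, hk1, hk2⟩ := (memline C k θ b t).1 hmem
    by_cases hki : k = i
    · subst hki; linarith
    by_cases hkj : k = j
    · subst hkj; linarith
    rcases gap C (Ne.symm hki) hTi hTk with ⟨h1, h2⟩ | ⟨h1, h2⟩
    · have h3 := hfirst k hki hkj h1 hTk
      rcases gap C (Ne.symm hkj) hTj hTk with ⟨_, h4⟩ | ⟨h4, _⟩
      · have h5 := (onb C j hTj).2.2.1
        linarith
      · linarith
    · have h5 := (onb C i hTi).2.2.1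
      linarith

end Pool.LightB
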