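import Pool.Agent.Helper638.LightB.Defs
import Pool.Agent.Helper638.LightB.P_FFd
import Pool.Agent.Helper638.LightB.P_asn_spec
import Pool.Agent.Helper638.LightB.P_asn_cont
import Pool.Agent.Helper638.LightB.P_geo_shift
import Pool.Agent.Helper638.LightB.P_onb
import Pool.Agent.Helper638.LightB.P_basics
import Pool.Agent.Helper638.LightB.P_XDefs
import Pool.Agent.Helper638.LightB.P_xline
import Pool.Agent.Helper638.LightB.P_PDefs
import Pool.Agent.Helper638.LightB.P_memline

set_option autoImplicit false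

open MeasureTheory Set Filter Topology

namespace Pool.LightB
variable {n : ℕ}


theorem physX (C : Cfg n) (x : ℝ × ℝ) (hx : OutX C x) {j : Fin n} {θ : ℝ}
    (h : HitsX C x j θ) :
    lp θ (bx x θ) (sx x θ) = x ∧ sx x θ < C.sm j θ (bx x θ) ∧
    ∀ k, ∀ t, sx x θ ≤ t → t < C.sm j θ (bx x θ) → lp θ (bx x θ) t ∉ Bod C k := by
  obtain ⟨h1, h2, h3⟩ := h
  refine ⟨?_, h2, ?_⟩
  · have hsc := Real.sin_sq_add_cos_sq θ
    refine Prod.ext ?_ ?_
    · simp only [lp, bx, sx]
      linear_combination x.1 * hsc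
    · simp only [lp, bx, sx]
      linear_combination x.2 * hsc
  · intro k t ht1 ht2 hmem
    obtain ⟨hT, hm1, hm2⟩ := (memline C k θ (bx x θ) t).1 hmem
    by_cases hkj : k = j
    · subst hkj
      exact absurd ht2 (not_lt.2 hm1)
    · rcases xline C x k (hx k) θ hT with h4 | h4
      · have := h3 k hkj hT h4
        linarith
      · linarith

end Pool.LightB
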