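import Pool.Agent.Helper638.LightB.Defs
import Pool.Agent.Helper638.LightB.P_FFd
import Pool.Agent.Helper638.LightB.P_asn_spec
import Pool.Agent.Helper638.LightB.P_asn_cont
import Pool.Agent.Helper638.LightB.P_geo_shift
import Pool.Agent.Helper638.LightB.P_onb
import Pool.Agent.Helper638.LightB.P_basics
import Pool.Agent.Helper638.LightB.P_XDefs
import Pool.Agent.Helper638.LightB.P_xline
import Pool.Agent.Helper638.LightB.P_PDefs
import Pool.Agent.Helper638.LightB.P_memline

set_option autoImplicit false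

open MeasureTheory Set Filter Topology

namespace Pool.LightB
variable {n : ℕ}


theorem physXE (C : Cfg n) (x : ℝ × ℝ) (hx : OutX C x) {θ : ℝ}
    (h : ∀ k, C.Tch k θ (bx x θ) → ¬ sx x θ < C.sm k θ (bx x θ)) :
    lp θ (bx x θ) (sx x θ) = x ∧
    ∀ k, ∀ t, sx x θ ≤ t → lp θ (bx x θ) t ∉ Bod C k := by
  have hcs := Real.sin_sq_add_cos_sq θ
  refine ⟨?_, ?_⟩
  · unfold lp bx sx
    ext
    · change (x.1 * Real.cos θ + x.2 * Real.sin θ) * Real.cos θ -
        (x.2 * Real.cos θ - x.1 * Real.sin θ) * Real.sin θ = x.1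
      linear_combination x.1 * hcs
    · change (x.1 * Real.cos θ + x.2 * Real.sin θ) * Real.sin θ +
        (x.2 * Real.cos θ - x.1 * Real.sin θ) * Real.cos θ = x.2
      linear_combination x.2 * hcs
  · intro k t ht hB
    obtain ⟨h1, h2, h3⟩ := (memline C k θ (bx x θ) t).1 hB
    rcases xline C x k (hx k) θ h1 with h4 | h4
    · exact h k h1 h4
    · linarith

end Pool.LightB
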