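import Pool.Agent.Helper638.LightB.Defs
import Pool.Agent.Helper638.LightB.P_FFd
import Pool.Agent.Helper638.LightB.P_asn_spec
import Pool.Agent.Helper638.LightB.P_asn_cont
import Pool.Agent.Helper638.LightB.P_geo_shift
import Pool.Agent.Helper638.LightB.P_basics
import Pool.Agent.Helper638.LightB.P_rr_facts
import Pool.Agent.Helper638.LightB.P_Tj_facts
import Pool.Agent.Helper638.LightB.P_PDefs

set_option autoImplicit false

open MeasureTheory Set Filter Topology

namespace Pool.LightB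
variable {n : ℕ}


/-- the reflection law -/
theorem reflLaw (C : Cfg n) (j : Fin n) (θ b : ℝ) (hp : (θ, b) ∈ C.U j) (θ' b' φ : ℝ)
    (hl : C.Tj j (θ, b) = (θ', b')) (hφ : φ = θ' + C.asn j θ' b') :
    lp θ b (C.sm j θ b) = lp θ' b' (C.sp j θ' b') ∧
    (lp θ b (C.sm j θ b)).1 * Real.cos φ + (lp θ b (C.sm j θ b)).2 * Real.sin φ = C.H j φ ∧
    Real.cos θ' = Real.cos θ -
      2 * (Real.cos θ * Real.cos φ + Real.sin θ * Real.sin φ) * Real.cos φ ∧
    Real.sin θ' = Real.sin θ -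
      2 * (Real.cos θ * Real.cos φ + Real.sin θ * Real.sin φ) * Real.sin φ ∧
    Real.cos θ * Real.cos φ + Real.sin θ * Real.sin φ < 0 := by
  obtain ⟨t1, t2, t3, t4, -, -, -, -⟩ := Tj_facts C j (θ, b) hp
  rw [hl] at t1 t3 t4
  simp only at t3 t4
  obtain ⟨-, -, -, -, -, g6, -, -⟩ := (geo_shift C j j θ b).2
  have hpU : (θ + Real.pi, -b) ∈ C.U j := by
    have := (geo_shift C j j θ b).2
    exact this.2.2.2.2.2.1.2 hp
  obtain ⟨-, -, s3, -, s5, -, -⟩ := asn_spec C j (θ + Real.pi) (-b)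
  obtain ⟨-, s5b, s5c, -⟩ := s5 hpU
  have hb := s3 s5b
  obtain ⟨-, -, r3, -, r5, -, -⟩ := asn_spec C j θ' b'
  obtain ⟨-, r5b, -, -⟩ := r5 t1
  have hb' := r3 r5b
  obtain ⟨ar, har⟩ : ∃ ar, ar = C.asn j (θ + Real.pi) (-b) := ⟨_, rfl⟩
  rw [← har] at t3 t4 hb s5c
  have hφ1 : θ + Real.pi + ar = φ := by rw [hφ, t3, t4]; ring
  have hφ2 : θ' + C.asn j θ' b' = φ := hφ.symm
  unfold Cfg.FF at hb hb'
  rw [hφ1] at hb
  rw [hφ2, t3, Real.sin_neg, Real.cos_neg] at hb'
  have hsp : C.sp j θ' b' = C.H j φ * Real.cos ar + C.H1 j φ * Real.sin ar := by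
    unfold Cfg.sp
    rw [hφ2, t3, Real.sin_neg, Real.cos_neg]; ring
  have hsm : C.sm j θ b = -(C.H j φ * Real.cos ar - C.H1 j φ * Real.sin ar) := by
    unfold Cfg.sm Cfg.sp
    rw [← har, hφ1]
  have hθ : θ = (φ - ar) - Real.pi := by linarith
  have hθ' : θ' = φ + ar := by rw [t4]; linarith
  have c1 : Real.cos θ = -(Real.cos φ * Real.cos ar + Real.sin φ * Real.sin ar) := by
    rw [hθ, Real.cos_sub_pi, Real.cos_sub]
  have c2 : Real.sin θ = -(Real.sin φ * Real.cos ar - Real.cos φ * Real.sin ar) := by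
    rw [hθ, Real.sin_sub_pi, Real.sin_sub]
  have c3 : Real.cos θ' = Real.cos φ * Real.cos ar - Real.sin φ * Real.sin ar := by
    rw [hθ', Real.cos_add]
  have c4 : Real.sin θ' = Real.sin φ * Real.cos ar + Real.cos φ * Real.sin ar := by
    rw [hθ', Real.sin_add]
  have e1 : Real.sin ar ^ 2 + Real.cos ar ^ 2 = 1 := Real.sin_sq_add_cos_sq ar
  have e2 : Real.sin φ ^ 2 + Real.cos φ ^ 2 = 1 := Real.sin_sq_add_cos_sq φ
  obtain ⟨A, hA⟩ : ∃ A, A = C.H j φ := ⟨_, rfl⟩
  obtain ⟨B, hB⟩ : ∃ B, B = C.H1 j φ := ⟨_, rfl⟩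
  rw [← hA, ← hB] at hb hb' hsp hsm
  rw [← hA]
  have hbb : b = -(A * Real.sin ar + B * Real.cos ar) := by linarith
  have x1 : (lp θ b (C.sm j θ b)).1 = A * Real.cos φ - B * Real.sin φ := by
    unfold lp
    simp only
    rw [hsm, hbb, c1, c2]
    linear_combination (A * Real.cos φ - B * Real.sin φ) * e1
  have x2 : (lp θ b (C.sm j θ b)).2 = A * Real.sin φ + B * Real.cos φ := by
    unfold lp
    simp only
    rw [hsm, hbb, c1, c2]
    linear_combination (A * Real.sin φ + B * Real.cos φ) * e1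
  have x3 : (lp θ' b' (C.sp j θ' b')).1 = A * Real.cos φ - B * Real.sin φ := by
    unfold lp
    simp only
    rw [hsp, ← hb', c3, c4]
    linear_combination (A * Real.cos φ - B * Real.sin φ) * e1
  have x4 : (lp θ' b' (C.sp j θ' b')).2 = A * Real.sin φ + B * Real.cos φ := by
    unfold lp
    simp only
    rw [hsp, ← hb', c3, c4]
    linear_combination (A * Real.sin φ + B * Real.cos φ) * e1
  have hd : Real.cos θ * Real.cos φ + Real.sin θ * Real.sin φ = -Real.cos ar := by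
    rw [c1, c2]
    linear_combination (-Real.cos ar) * e2
  refine ⟨Prod.ext (x1.trans x3.symm) (x2.trans x4.symm), ?_, ?_, ?_, ?_⟩
  · rw [x1, x2]
    linear_combination A * e2
  · rw [hd, c3, c1]; ring
  · rw [hd, c4, c2]; ring
  · rw [hd]; linarith

end Pool.LightB
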