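import Pool.Agent.Helper638.LightB.Defs

set_option autoImplicit false

open MeasureTheory Set Filter Topology

namespace Pool.LightB
variable {n : ℕ}


theorem sep0_mem (h : ℝ → ℝ)
    (hh1 : ∀ φ ω, h φ * Real.cos (ω - φ) + deriv h φ * Real.sin (ω - φ) ≤ h ω) (φ : ℝ) :
    (WithLp.toLp 2 ![h φ * Real.cos φ - deriv h φ * Real.sin φ,
      h φ * Real.sin φ + deriv h φ * Real.cos φ] : EuclideanSpace ℝ (Fin 2)) ∈
      {x : EuclideanSpace ℝ (Fin 2) | ∀ ω, x 0 * Real.cos ω + x 1 * Real.sin ω ≤ h ω} := by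
  intro ω
  have h1 := hh1 φ ω
  rw [Real.cos_sub, Real.sin_sub] at h1
  show (h φ * Real.cos φ - deriv h φ * Real.sin φ) * Real.cos ω +
    (h φ * Real.sin φ + deriv h φ * Real.cos φ) * Real.sin ω ≤ h ω
  linarith

theorem sep0_closed (h : ℝ → ℝ) : IsClosed
    {x : EuclideanSpace ℝ (Fin 2) | ∀ ω, x 0 * Real.cos ω + x 1 * Real.sin ω ≤ h ω} := by
  have e : {x : EuclideanSpace ℝ (Fin 2) | ∀ ω, x 0 * Real.cos ω + x 1 * Real.sin ω ≤ h ω} =
      ⋂ ω, {x : EuclideanSpace ℝ (Fin 2) | x 0 * Real.cos ω + x 1 * Real.sin ω ≤ h ω} := by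
    ext x; simp
  rw [e]
  refine isClosed_iInter fun ω => isClosed_le ?_ continuous_const
  fun_prop

theorem sep0_convex (h : ℝ → ℝ) : Convex ℝ
    {x : EuclideanSpace ℝ (Fin 2) | ∀ ω, x 0 * Real.cos ω + x 1 * Real.sin ω ≤ h ω} := by
  intro x hx y hy a b ha hb hab ω
  have h1 := hx ω
  have h2 := hy ω
  have h3 := mul_le_mul_of_nonneg_left h1 ha
  have h4 := mul_le_mul_of_nonneg_left h2 hb
  have h5 : a * h ω + b * h ω = h ω := by rw [← add_mul, hab, one_mul]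
  simp only [PiLp.add_apply, PiLp.smul_apply, smul_eq_mul]
  nlinarith [h3, h4, h5]

theorem sep0_compact (h : ℝ → ℝ) : IsCompact
    {x : EuclideanSpace ℝ (Fin 2) | ∀ ω, x 0 * Real.cos ω + x 1 * Real.sin ω ≤ h ω} := by
  refine Metric.isCompact_of_isClosed_isBounded (sep0_closed h) ?_
  rw [isBounded_iff_forall_norm_le]
  set M0 := max (h 0) (h Real.pi) with hM0
  set M1 := max (h (Real.pi / 2)) (h (-(Real.pi / 2))) with hM1
  refine ⟨Real.sqrt (M0 ^ 2 + M1 ^ 2), fun x hx => ?_⟩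
  have h1 := hx 0
  have h2 := hx Real.pi
  have h3 := hx (Real.pi / 2)
  have h4 := hx (-(Real.pi / 2))
  simp only [Real.cos_zero, Real.sin_zero, Real.cos_pi, Real.sin_pi, Real.cos_pi_div_two,
    Real.sin_pi_div_two, Real.cos_neg, Real.sin_neg, mul_zero, mul_one, add_zero, zero_add,
    mul_neg] at h1 h2 h3 h4
  have h5 : |x 0| ≤ M0 := abs_le'.2 ⟨h1.trans (le_max_left _ _), h2.trans (le_max_right _ _)⟩
  have h6 : |x 1| ≤ M1 := abs_le'.2 ⟨h3.trans (le_max_left _ _), h4.trans (le_max_right _ _)⟩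
  have h7 : (x 0) ^ 2 ≤ M0 ^ 2 := by
    rw [← sq_abs]; exact pow_le_pow_left₀ (abs_nonneg _) h5 2
  have h8 : (x 1) ^ 2 ≤ M1 ^ 2 := by
    rw [← sq_abs]; exact pow_le_pow_left₀ (abs_nonneg _) h6 2
  rw [EuclideanSpace.norm_eq]
  apply Real.sqrt_le_sqrt
  rw [Fin.sum_univ_two, Real.norm_eq_abs, Real.norm_eq_abs, sq_abs, sq_abs]
  linarith

/-- disjoint bodies are strictly separated by a line -/
theorem sep0 (h g : ℝ → ℝ) (hh : Continuous h) (hg : Continuous g)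
    (hh1 : ∀ φ ω, h φ * Real.cos (ω - φ) + deriv h φ * Real.sin (ω - φ) ≤ h ω)
    (hg1 : ∀ φ ω, g φ * Real.cos (ω - φ) + deriv g φ * Real.sin (ω - φ) ≤ g ω)
    (hd : Disjoint {x : EuclideanSpace ℝ (Fin 2) | ∀ ω, x 0 * Real.cos ω + x 1 * Real.sin ω ≤ h ω}
      {x : EuclideanSpace ℝ (Fin 2) | ∀ ω, x 0 * Real.cos ω + x 1 * Real.sin ω ≤ g ω}) :
    ∃ ω, h ω + g (ω + Real.pi) < 0 := by
  obtain ⟨f, u, v, hfA, huv, hfB⟩ := geometric_hahn_banach_compact_closed (sep0_convex h)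
    (sep0_compact h) (sep0_convex g) (sep0_closed g) hd
  set c0 := f (EuclideanSpace.single (0 : Fin 2) (1 : ℝ)) with hc0
  set c1 := f (EuclideanSpace.single (1 : Fin 2) (1 : ℝ)) with hc1
  have hf : ∀ x : EuclideanSpace ℝ (Fin 2), f x = c0 * x 0 + c1 * x 1 := by
    intro x
    have hx : x = x 0 • EuclideanSpace.single (0 : Fin 2) (1 : ℝ) +
        x 1 • EuclideanSpace.single (1 : Fin 2) (1 : ℝ) := by
      ext i
      fin_cases i <;> simp
    conv_lhs => rw [hx]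
    rw [map_add, map_smul, map_smul, smul_eq_mul, smul_eq_mul]
    ring
  have h1 : ‖(⟨c0, c1⟩ : ℂ)‖ * Real.cos (Complex.arg ⟨c0, c1⟩) = c0 :=
    Complex.norm_mul_cos_arg ⟨c0, c1⟩
  have h2 : ‖(⟨c0, c1⟩ : ℂ)‖ * Real.sin (Complex.arg ⟨c0, c1⟩) = c1 :=
    Complex.norm_mul_sin_arg ⟨c0, c1⟩
  have hR : 0 ≤ ‖(⟨c0, c1⟩ : ℂ)‖ := norm_nonneg _
  set R : ℝ := ‖(⟨c0, c1⟩ : ℂ)‖ with hRdef
  set ω : ℝ := Complex.arg ⟨c0, c1⟩ with hω
  refine ⟨ω, ?_⟩
  have h3 := hfA _ (sep0_mem h hh1 ω)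
  have h4 := hfB _ (sep0_mem g hg1 (ω + Real.pi))
  rw [hf] at h3 h4
  have h5 := Real.sin_sq_add_cos_sq ω
  have h6 : c0 * (h ω * Real.cos ω - deriv h ω * Real.sin ω) +
      c1 * (h ω * Real.sin ω + deriv h ω * Real.cos ω) = R * h ω := by
    rw [← h1, ← h2]
    have : R * h ω = R * h ω * (Real.sin ω ^ 2 + Real.cos ω ^ 2) := by rw [h5, mul_one]
    rw [this]
    ring
  have h7 : c0 * (g (ω + Real.pi) * Real.cos (ω + Real.pi) -
        deriv g (ω + Real.pi) * Real.sin (ω + Real.pi)) +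
      c1 * (g (ω + Real.pi) * Real.sin (ω + Real.pi) +
        deriv g (ω + Real.pi) * Real.cos (ω + Real.pi)) = - (R * g (ω + Real.pi)) := by
    rw [← h1, ← h2, Real.cos_add_pi, Real.sin_add_pi]
    have : R * g (ω + Real.pi) =
        R * g (ω + Real.pi) * (Real.sin ω ^ 2 + Real.cos ω ^ 2) := by rw [h5, mul_one]
    rw [this]
    ring
  change c0 * (h ω * Real.cos ω - deriv h ω * Real.sin ω) +
      c1 * (h ω * Real.sin ω + deriv h ω * Real.cos ω) < u at h3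
  change v < c0 * (g (ω + Real.pi) * Real.cos (ω + Real.pi) -
        deriv g (ω + Real.pi) * Real.sin (ω + Real.pi)) +
      c1 * (g (ω + Real.pi) * Real.sin (ω + Real.pi) +
        deriv g (ω + Real.pi) * Real.cos (ω + Real.pi)) at h4
  rw [h6] at h3
  rw [h7] at h4
  by_contra hcon
  push Not at hcon
  have h8 := mul_nonneg hR hcon
  nlinarith

end Pool.LightB
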