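import Pool.Agent.Helper638.LightB.Defs

set_option autoImplicit false

open MeasureTheory Set Filter Topology

namespace Pool.LightB
variable {n : ℕ}


theorem supp0_psi (h : ℝ → ℝ) (h3 : ContDiff ℝ 3 h) (ω t : ℝ) :
    HasDerivAt (fun t => h t * Real.cos (ω - t) + deriv h t * Real.sin (ω - t))
      ((h t + deriv (deriv h) t) * Real.sin (ω - t)) t := by
  have h1 : HasDerivAt h (deriv h t) t := (h3.differentiable (by norm_num)).differentiableAt.hasDerivAt
  have h2' : ContDiff ℝ 2 (deriv h) := ((contDiff_succ_iff_deriv (n := 2)).1 h3).2.2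
  have h2 : HasDerivAt (deriv h) (deriv (deriv h) t) t :=
    (h2'.differentiable (by norm_num)).differentiableAt.hasDerivAt
  have hs : HasDerivAt (fun t => ω - t) (-1) t := by
    simpa using (hasDerivAt_id t).const_sub ω
  have h3 := (h1.fun_mul hs.cos).fun_add (h2.fun_mul hs.sin)
  refine h3.congr_deriv ?_
  ring

theorem supp0_near (h : ℝ → ℝ) (h3 : ContDiff ℝ 3 h)
    (hpos : ∀ φ, 0 < h φ + deriv (deriv h) φ) (φ ω : ℝ) (h1 : ω - Real.pi ≤ φ)
    (h2 : φ ≤ ω + Real.pi) :
    h φ * Real.cos (ω - φ) + deriv h φ * Real.sin (ω - φ) ≤ h ω := by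
  set ψ : ℝ → ℝ := fun t => h t * Real.cos (ω - t) + deriv h t * Real.sin (ω - t) with hψ
  have hd : ∀ t, HasDerivAt ψ ((h t + deriv (deriv h) t) * Real.sin (ω - t)) t :=
    supp0_psi h h3 ω
  have hc : Continuous ψ := continuous_iff_continuousAt.2 fun t => (hd t).continuousAt
  have hω : ψ ω = h ω := by simp [hψ]
  rw [← hω]
  change ψ φ ≤ ψ ω
  rcases le_total φ ω with h | h
  · have hm : MonotoneOn ψ (Icc (ω - Real.pi) ω) := by
      refine monotoneOn_of_deriv_nonneg (convex_Icc _ _) hc.continuousOn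
        (fun t _ => (hd t).differentiableAt.differentiableWithinAt) ?_
      intro t ht
      rw [interior_Icc] at ht
      rw [(hd t).deriv]
      exact mul_nonneg (hpos t).le (Real.sin_nonneg_of_nonneg_of_le_pi (by linarith [ht.2])
        (by linarith [ht.1]))
    exact hm ⟨h1, h⟩ ⟨by linarith [Real.pi_pos], le_rfl⟩ h
  · have hm : AntitoneOn ψ (Icc ω (ω + Real.pi)) := by
      refine antitoneOn_of_deriv_nonpos (convex_Icc _ _) hc.continuousOn
        (fun t _ => (hd t).differentiableAt.differentiableWithinAt) ?_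
      intro t ht
      rw [interior_Icc] at ht
      rw [(hd t).deriv]
      exact mul_nonpos_of_nonneg_of_nonpos (hpos t).le
        (Real.sin_nonpos_of_nonpos_of_neg_pi_le (by linarith [ht.1]) (by linarith [ht.2]))
    exact hm ⟨le_rfl, by linarith [Real.pi_pos]⟩ ⟨h, h2⟩ h

/-- the support inequality for a single support function -/
theorem supp0 (h : ℝ → ℝ) (h3 : ContDiff ℝ 3 h) (hper : ∀ φ, h (φ + 2 * Real.pi) = h φ)
    (hpos : ∀ φ, 0 < h φ + deriv (deriv h) φ) (φ ω : ℝ) :
    h φ * Real.cos (ω - φ) + deriv h φ * Real.sin (ω - φ) ≤ h ω := by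
  obtain ⟨m, hm, -⟩ := existsUnique_add_zsmul_mem_Ico (Real.two_pi_pos) φ (ω - Real.pi)
  simp only [zsmul_eq_mul] at hm
  have hP : Function.Periodic h (2 * Real.pi) := hper
  have hP1 : ∀ x, h (x + m * (2 * Real.pi)) = h x := fun x => (hP.int_mul m) x
  have hP2 : deriv h (φ + m * (2 * Real.pi)) = deriv h φ := by
    have e : (fun x => h (x + m * (2 * Real.pi))) = h := funext hP1
    have := deriv_comp_add_const h (m * (2 * Real.pi)) φ
    rw [e] at this
    exact this.symm
  have key := supp0_near h h3 hpos (φ + m * (2 * Real.pi)) ω hm.1 (by linarith [hm.2])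
  have e1 : Real.cos (ω - (φ + m * (2 * Real.pi))) = Real.cos (ω - φ) := by
    rw [← sub_sub, Real.cos_sub_int_mul_two_pi]
  have e2 : Real.sin (ω - (φ + m * (2 * Real.pi))) = Real.sin (ω - φ) := by
    rw [← sub_sub, Real.sin_sub_int_mul_two_pi]
  rw [hP1, hP2, e1, e2] at key
  exact key

end Pool.LightB
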